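import Mathlib

/-!
# Weak area theorem (MP_cca10c_ag, planar part, file A1)

`h` is univalent on the unit disc, `h z = z + c z^3 + z^4 κ z`. Then `‖c‖ ≤ 1 + √2`.

Proof plan.
1. `G = 1/h` on `0 < ‖z‖ < 1` is injective holomorphic, `G z = 1/z - c z + O(z^2)`.
2. For `0 < ε < 1` put `μ = min_{‖z‖=ε} ‖h z‖`. Then `ball 0 μ ⊆ h '' ball 0 ε` (the set `ball 0 μ ∩ h '' ball 0 ε` is open by the
   open mapping theorem, and closed in `ball 0 μ` because `h '' closedBall 0 ε` is compact and on the circle `‖h‖ ≥ μ`; `ball 0 μ` is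
   connected). By injectivity `‖h z‖ ≥ μ` for `ε ≤ ‖z‖ < 1`, i.e. `‖G z‖ ≤ 1/μ`.
3. Area: for `ε < ρ < 1`, `∫_{ε<‖z‖<ρ} ‖G' z‖^2 = volume (G '' {ε<‖z‖<ρ}) ≤ π/μ^2`
   (`MeasureTheory.lintegral_image_eq_lintegral_abs_det_fderiv_mul`; the real determinant of multiplication by `w` is `‖w‖^2`).
4. Lower bound: on the circle of radius `s` the Fourier coefficients of `G'` of order `-2` and `0` are `-s^{-2}` and `-c`
   (`G' z = -1/z^2 - c + ...`, holomorphic remainder vanishing at `0`), so by Bessel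
   `∫_0^{2π} ‖G' (s e^{iθ})‖^2 dθ ≥ 2π (s^{-4} + ‖c‖^2)`; integrate `s ds`:
   `∫ ≥ π (ε^{-2} - ρ^{-2}) + π ‖c‖^2 (ρ^2 - ε^2)`.
5. `1/μ ≤ 1/ε + ‖c‖ ε + C ε^2`, so `1/μ^2 ≤ ε^{-2} + 2‖c‖ + C' ε`. Let `ε → 0`, then `ρ → 1`: `‖c‖^2 ≤ 1 + 2‖c‖`.
-/

namespace Pool.Agent.CcaPl

open Set Metric MeasureTheory

private theorem ua_det (w : ℂ) (L : ℂ →L[ℝ] ℂ) (h : ∀ z, L z = w * z) : L.det = ‖w‖ ^ 2 := by
  have h1 : (L : ℂ →ₗ[ℝ] ℂ) = Algebra.lmul ℝ ℂ w := by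
    ext
    simp [h]
  rw [ContinuousLinearMap.det, h1, ← Algebra.norm_apply, Algebra.norm_complex_apply,
    Complex.normSq_eq_norm_sq]

/-- mean value over `(-π, π)` -/
private theorem ua_mean {Φ : ℂ → ℂ} (hΦ : DifferentiableOn ℂ Φ (ball 0 1)) (h0 : Φ 0 = 0) {s : ℝ}
    (hs0 : 0 < s) (hs1 : s < 1) : ∫ θ in Ioo (-Real.pi) Real.pi, Φ (circleMap 0 s θ) = 0 := by
  have h1 : Real.circleAverage Φ 0 s = Φ 0 := by
    apply DiffContOnCl.circleAverage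
    apply (hΦ.mono _).diffContOnCl
    rw [abs_of_pos hs0]
    exact (closure_ball_subset_closedBall).trans (closedBall_subset_ball hs1)
  rw [h0, Real.circleAverage_def] at h1
  have h2 : ∫ θ in (0 : ℝ)..2 * Real.pi, Φ (circleMap 0 s θ) = 0 := by
    rcases smul_eq_zero.1 h1 with h | h
    · exact absurd h (by positivity)
    · exact h
  have hper : Function.Periodic (fun θ => Φ (circleMap 0 s θ)) (2 * Real.pi) := by
    intro θ
    simp only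
    rw [periodic_circleMap 0 s θ]
  have h3 := hper.intervalIntegral_add_eq (-Real.pi) 0
  have e1 : -Real.pi + 2 * Real.pi = Real.pi := by ring
  rw [e1, zero_add] at h3
  rw [← integral_Ioc_eq_integral_Ioo, ← intervalIntegral.integral_of_le (by linarith [Real.pi_pos]),
    h3, h2]

private theorem ua_pointwise {c u z : ℂ} {s : ℝ} (hs : 0 < s) (hz : ‖z‖ = s) :
    (s ^ 4)⁻¹ + ‖c‖ ^ 2 + 2 * (c * z ^ 2 / (s : ℂ) ^ 4 -
      (z ^ 2 / (s : ℂ) ^ 4 + (starRingEnd ℂ) c) * u).re ≤ ‖-(z ^ 2)⁻¹ - c + u‖ ^ 2 := by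
  have hz0 : z ≠ 0 := by
    rintro rfl
    rw [norm_zero] at hz
    linarith
  have hconj : (starRingEnd ℂ) ((z ^ 2)⁻¹) = z ^ 2 / (s : ℂ) ^ 4 := by
    have h1 : (starRingEnd ℂ) z * z = (s : ℂ) ^ 2 := by
      rw [mul_comm, Complex.mul_conj, Complex.normSq_eq_norm_sq, hz]
      push_cast; ring
    have hs0 : (s : ℂ) ≠ 0 := by exact_mod_cast hs.ne'
    have hc0 : (starRingEnd ℂ) z ≠ 0 := by simpa using hz0
    rw [map_inv₀, map_pow, eq_div_iff (pow_ne_zero _ hs0), inv_mul_eq_iff_eq_mul₀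
      (pow_ne_zero _ hc0)]
    have : (s : ℂ) ^ 4 = ((starRingEnd ℂ) z * z) ^ 2 := by rw [h1]; ring
    rw [this]; ring
  have h1 : ‖-(z ^ 2)⁻¹ - c + u‖ ^ 2 = ‖(z ^ 2)⁻¹‖ ^ 2 + ‖c‖ ^ 2 + ‖u‖ ^ 2 +
      2 * ((starRingEnd ℂ) ((z ^ 2)⁻¹) * c).re -
      2 * (((starRingEnd ℂ) ((z ^ 2)⁻¹) + (starRingEnd ℂ) c) * u).re := by
    rw [← Complex.normSq_eq_norm_sq, ← Complex.normSq_eq_norm_sq, ← Complex.normSq_eq_norm_sq,
      ← Complex.normSq_eq_norm_sq]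
    generalize (z ^ 2)⁻¹ = w
    simp only [Complex.normSq_apply, Complex.add_re, Complex.add_im, Complex.sub_re,
      Complex.sub_im, Complex.neg_re, Complex.neg_im, Complex.mul_re, Complex.conj_re,
      Complex.conj_im]
    ring
  rw [h1, hconj, norm_inv, norm_pow, hz]
  have e1 : ((s ^ 2)⁻¹) ^ 2 = (s ^ 4)⁻¹ := by rw [inv_pow]; ring
  have e2 : (z ^ 2 / (s : ℂ) ^ 4 * c).re = (c * z ^ 2 / (s : ℂ) ^ 4).re := by
    congr 1; ring
  rw [e1, e2, Complex.sub_re]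
  have := sq_nonneg ‖u‖
  linarith

private theorem ua_symm (p : ℝ × ℝ) : Complex.polarCoord.symm p = circleMap 0 p.1 p.2 := by
  rw [Complex.polarCoord_symm_apply, circleMap, zero_add, Complex.exp_mul_I]
  push_cast
  ring

private theorem ua_polar {F : ℂ → ℝ} {ε ρ : ℝ} (hε : 0 < ε)
    (hF : ContinuousOn F {z | ε ≤ ‖z‖ ∧ ‖z‖ ≤ ρ}) :
    IntegrableOn (fun p : ℝ × ℝ => p.1 * F (circleMap 0 p.1 p.2))
      (Ioo ε ρ ×ˢ Ioo (-Real.pi) Real.pi) ∧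
    ∫ z in {z : ℂ | ε < ‖z‖ ∧ ‖z‖ < ρ}, F z =
      ∫ r in Ioo ε ρ, ∫ θ in Ioo (-Real.pi) Real.pi, r * F (circleMap 0 r θ) := by
  have hcirc : Continuous (fun p : ℝ × ℝ => circleMap 0 p.1 p.2) := by
    unfold circleMap
    fun_prop
  have hint : IntegrableOn (fun p : ℝ × ℝ => p.1 * F (circleMap 0 p.1 p.2))
      (Ioo ε ρ ×ˢ Ioo (-Real.pi) Real.pi) := by
    have h1 : ContinuousOn (fun p : ℝ × ℝ => p.1 * F (circleMap 0 p.1 p.2))
        (Icc ε ρ ×ˢ Icc (-Real.pi) Real.pi) := by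
      apply ContinuousOn.mul continuous_fst.continuousOn
      apply hF.comp hcirc.continuousOn
      intro p hp
      have hp1 : 0 < p.1 := lt_of_lt_of_le hε hp.1.1
      simp only [mem_ofPred_eq, norm_circleMap_zero, abs_of_pos hp1]
      exact ⟨hp.1.1, hp.1.2⟩
    have h2 : IsCompact (Icc ε ρ ×ˢ Icc (-Real.pi) Real.pi) := isCompact_Icc.prod isCompact_Icc
    exact (h1.integrableOn_compact h2).mono_set (prod_mono Ioo_subset_Icc_self Ioo_subset_Icc_self)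
  refine ⟨hint, ?_⟩
  have hA : MeasurableSet {z : ℂ | ε < ‖z‖ ∧ ‖z‖ < ρ} :=
    (measurableSet_lt measurable_const measurable_norm).inter
      (measurableSet_lt measurable_norm measurable_const)
  rw [← integral_indicator hA, ← Complex.integral_comp_polarCoord_symm]
  have h1 : ∫ p in polarCoord.target, p.1 • ({z : ℂ | ε < ‖z‖ ∧ ‖z‖ < ρ}.indicator F)
      (Complex.polarCoord.symm p) = ∫ p in polarCoord.target, (Ioo ε ρ ×ˢ (univ : Set ℝ)).indicator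
        (fun p : ℝ × ℝ => p.1 * F (circleMap 0 p.1 p.2)) p := by
    apply setIntegral_congr_fun polarCoord.open_target.measurableSet
    intro p hp
    have hp1 : 0 < p.1 := hp.1
    simp only [ua_symm]
    by_cases h : p.1 ∈ Ioo ε ρ
    · rw [indicator_of_mem, indicator_of_mem, smul_eq_mul]
      · exact ⟨h, mem_univ _⟩
      · simp only [mem_ofPred_eq, norm_circleMap_zero, abs_of_pos hp1]
        exact h
    · rw [indicator_of_notMem, indicator_of_notMem, smul_zero]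
      · exact fun h' => h h'.1
      · simp only [mem_ofPred_eq, norm_circleMap_zero, abs_of_pos hp1]
        exact h
  rw [h1, setIntegral_indicator (measurableSet_Ioo.prod MeasurableSet.univ)]
  have h2 : polarCoord.target ∩ Ioo ε ρ ×ˢ (univ : Set ℝ) =
      Ioo ε ρ ×ˢ Ioo (-Real.pi) Real.pi := by
    ext p
    constructor
    · rintro ⟨hp, hp'⟩
      exact ⟨hp'.1, hp.2⟩
    · rintro ⟨hp, hp'⟩
      exact ⟨⟨lt_trans hε hp.1, hp'⟩, hp, mem_univ _⟩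
  rw [h2, Measure.volume_eq_prod, setIntegral_prod]
  rw [← Measure.volume_eq_prod]
  exact hint

private theorem ua_inner {τ : ℂ → ℂ} {c : ℂ} (hτ : DifferentiableOn ℂ τ (ball 0 1)) {s : ℝ}
    (hs0 : 0 < s) (hs1 : s < 1) :
    2 * Real.pi * ((s ^ 4)⁻¹ + ‖c‖ ^ 2) ≤ ∫ θ in Ioo (-Real.pi) Real.pi,
      ‖-((circleMap 0 s θ) ^ 2)⁻¹ - c + (circleMap 0 s θ) * τ (circleMap 0 s θ)‖ ^ 2 := by
  set Φ : ℂ → ℂ := fun z => c * z ^ 2 / (s : ℂ) ^ 4 -
      (z ^ 2 / (s : ℂ) ^ 4 + (starRingEnd ℂ) c) * (z * τ z) with hΦ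
  have hΦd : DifferentiableOn ℂ Φ (ball 0 1) := by
    apply DifferentiableOn.sub
    · fun_prop
    · apply DifferentiableOn.mul
      · fun_prop
      · exact differentiableOn_id.mul hτ
  have hΦ0 : Φ 0 = 0 := by simp [hΦ]
  have hmem : ∀ θ : ℝ, circleMap 0 s θ ∈ ball (0 : ℂ) 1 := by
    intro θ
    rw [mem_ball_zero_iff, norm_circleMap_zero, abs_of_pos hs0]
    exact hs1
  have hcirc : Continuous (fun θ : ℝ => circleMap 0 s θ) := continuous_circleMap 0 s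
  have hne : ∀ θ : ℝ, circleMap 0 s θ ≠ 0 := fun θ => circleMap_ne_center hs0.ne'
  have hτc : Continuous (fun θ : ℝ => τ (circleMap 0 s θ)) :=
    hτ.continuousOn.comp_continuous hcirc hmem
  have hΦc : Continuous (fun θ : ℝ => Φ (circleMap 0 s θ)) :=
    hΦd.continuousOn.comp_continuous hcirc hmem
  have hFc : Continuous (fun θ : ℝ =>
      ‖-((circleMap 0 s θ) ^ 2)⁻¹ - c + (circleMap 0 s θ) * τ (circleMap 0 s θ)‖ ^ 2) := by
    have : Continuous (fun θ : ℝ => ((circleMap 0 s θ) ^ 2)⁻¹) :=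
      (hcirc.pow 2).inv₀ (fun θ => pow_ne_zero _ (hne θ))
    exact (((this.neg.sub continuous_const).add (hcirc.mul hτc)).norm).pow 2
  have hi1 : IntegrableOn (fun θ : ℝ => Φ (circleMap 0 s θ)) (Ioo (-Real.pi) Real.pi) :=
    (hΦc.continuousOn.integrableOn_compact isCompact_Icc).mono_set Ioo_subset_Icc_self
  have hi2 : IntegrableOn (fun θ : ℝ => (s ^ 4)⁻¹ + ‖c‖ ^ 2 + 2 * (Φ (circleMap 0 s θ)).re)
      (Ioo (-Real.pi) Real.pi) := by
    have : Continuous (fun θ : ℝ => (s ^ 4)⁻¹ + ‖c‖ ^ 2 + 2 * (Φ (circleMap 0 s θ)).re) := by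
      have := Complex.continuous_re.comp hΦc
      exact continuous_const.add (continuous_const.mul this)
    exact (this.continuousOn.integrableOn_compact isCompact_Icc).mono_set Ioo_subset_Icc_self
  have hi3 : IntegrableOn (fun θ : ℝ =>
      ‖-((circleMap 0 s θ) ^ 2)⁻¹ - c + (circleMap 0 s θ) * τ (circleMap 0 s θ)‖ ^ 2)
      (Ioo (-Real.pi) Real.pi) :=
    (hFc.continuousOn.integrableOn_compact isCompact_Icc).mono_set Ioo_subset_Icc_self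
  have hle : ∫ θ in Ioo (-Real.pi) Real.pi, ((s ^ 4)⁻¹ + ‖c‖ ^ 2 +
      2 * (Φ (circleMap 0 s θ)).re) ≤ ∫ θ in Ioo (-Real.pi) Real.pi,
      ‖-((circleMap 0 s θ) ^ 2)⁻¹ - c + (circleMap 0 s θ) * τ (circleMap 0 s θ)‖ ^ 2 := by
    apply setIntegral_mono_on hi2 hi3 measurableSet_Ioo
    intro θ _
    apply ua_pointwise hs0
    rw [norm_circleMap_zero, abs_of_pos hs0]
  refine le_trans (le_of_eq ?_) hle
  have hre : ∫ θ in Ioo (-Real.pi) Real.pi, (Φ (circleMap 0 s θ)).re = 0 := by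
    have h1 := Complex.reCLM.integral_comp_comm hi1
    rw [ua_mean hΦd hΦ0 hs0 hs1] at h1
    simpa using h1
  have hi4 : IntegrableOn (fun θ : ℝ => (Φ (circleMap 0 s θ)).re) (Ioo (-Real.pi) Real.pi) := by
    exact Complex.reCLM.integrable_comp hi1
  have hi5 : IntegrableOn (fun _ : ℝ => (s ^ 4)⁻¹ + ‖c‖ ^ 2) (Ioo (-Real.pi) Real.pi) :=
    (continuousOn_const.integrableOn_compact isCompact_Icc).mono_set Ioo_subset_Icc_self
  have hsplit : ∫ θ in Ioo (-Real.pi) Real.pi, ((s ^ 4)⁻¹ + ‖c‖ ^ 2 +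
      2 * (Φ (circleMap 0 s θ)).re) = (∫ _ in Ioo (-Real.pi) Real.pi, ((s ^ 4)⁻¹ + ‖c‖ ^ 2)) +
      ∫ θ in Ioo (-Real.pi) Real.pi, 2 * (Φ (circleMap 0 s θ)).re :=
    integral_add hi5 (hi4.const_mul 2)
  rw [hsplit, integral_const_mul, hre, setIntegral_const]
  simp only [Real.volume_real_Ioo_of_le (show -Real.pi ≤ Real.pi by linarith [Real.pi_pos]),
    smul_eq_mul]
  ring

private theorem ua_lower {τ : ℂ → ℂ} {c : ℂ} (hτ : DifferentiableOn ℂ τ (ball 0 1)) {ε ρ : ℝ}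
    (hε : 0 < ε) (hερ : ε < ρ) (hρ : ρ < 1) :
    Real.pi * ((ε ^ 2)⁻¹ - (ρ ^ 2)⁻¹) + Real.pi * ‖c‖ ^ 2 * (ρ ^ 2 - ε ^ 2) ≤
      ∫ z in {z : ℂ | ε < ‖z‖ ∧ ‖z‖ < ρ}, ‖-(z ^ 2)⁻¹ - c + z * τ z‖ ^ 2 := by
  have hF : ContinuousOn (fun z : ℂ => ‖-(z ^ 2)⁻¹ - c + z * τ z‖ ^ 2)
      {z : ℂ | ε ≤ ‖z‖ ∧ ‖z‖ ≤ ρ} := by
    have hz0 : ∀ z ∈ {z : ℂ | ε ≤ ‖z‖ ∧ ‖z‖ ≤ ρ}, z ^ 2 ≠ 0 := by
      intro z hz h
      have h1 : z = 0 := by simpa using h
      have h2 : ε ≤ ‖z‖ := hz.1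
      rw [h1, norm_zero] at h2
      linarith
    have h1 : ContinuousOn (fun z : ℂ => (z ^ 2)⁻¹) {z : ℂ | ε ≤ ‖z‖ ∧ ‖z‖ ≤ ρ} :=
      (continuousOn_id.pow 2).inv₀ hz0
    have h2 : ContinuousOn τ {z : ℂ | ε ≤ ‖z‖ ∧ ‖z‖ ≤ ρ} := by
      apply hτ.continuousOn.mono
      intro z hz
      rw [mem_ball_zero_iff]
      exact lt_of_le_of_lt hz.2 hρ
    exact (((h1.neg.sub continuousOn_const).add (continuousOn_id.mul h2)).norm).pow 2
  obtain ⟨hint, heq⟩ := ua_polar hε hF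
  rw [heq]
  have hint' : Integrable (fun p : ℝ × ℝ => p.1 * ‖-((circleMap 0 p.1 p.2) ^ 2)⁻¹ - c +
      (circleMap 0 p.1 p.2) * τ (circleMap 0 p.1 p.2)‖ ^ 2)
      ((volume.restrict (Ioo ε ρ)).prod (volume.restrict (Ioo (-Real.pi) Real.pi))) := by
    rw [Measure.prod_restrict, ← Measure.volume_eq_prod]
    exact hint
  have hi := hint'.integral_prod_left
  have hcont : ContinuousOn (fun r : ℝ => r * (2 * Real.pi * ((r ^ 4)⁻¹ + ‖c‖ ^ 2))) (Icc ε ρ) := by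
    have : ContinuousOn (fun r : ℝ => (r ^ 4)⁻¹) (Icc ε ρ) := by
      apply (continuousOn_id.pow 4).inv₀
      intro r hr
      have h0 : 0 < r := lt_of_lt_of_le hε hr.1
      exact pow_ne_zero _ h0.ne'
    exact continuousOn_id.mul (continuousOn_const.mul (this.add continuousOn_const))
  have hle : ∫ r in Ioo ε ρ, r * (2 * Real.pi * ((r ^ 4)⁻¹ + ‖c‖ ^ 2)) ≤
      ∫ r in Ioo ε ρ, ∫ θ in Ioo (-Real.pi) Real.pi, r *
        ‖-((circleMap 0 r θ) ^ 2)⁻¹ - c + (circleMap 0 r θ) * τ (circleMap 0 r θ)‖ ^ 2 := by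
    apply setIntegral_mono_on
    · exact (hcont.integrableOn_compact isCompact_Icc).mono_set Ioo_subset_Icc_self
    · exact hi
    · exact measurableSet_Ioo
    · intro r hr
      rw [integral_const_mul]
      apply mul_le_mul_of_nonneg_left _ (lt_trans hε hr.1).le
      exact ua_inner hτ (lt_trans hε hr.1) (lt_trans hr.2 hρ)
  refine le_trans (le_of_eq ?_) hle
  rw [← integral_Ioc_eq_integral_Ioo, ← intervalIntegral.integral_of_le hερ.le]
  have hder : ∀ r ∈ uIcc ε ρ, HasDerivAt (fun r : ℝ => Real.pi * (-(r ^ 2)⁻¹ + ‖c‖ ^ 2 * r ^ 2))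
      (r * (2 * Real.pi * ((r ^ 4)⁻¹ + ‖c‖ ^ 2))) r := by
    intro r hr
    rw [uIcc_of_le hερ.le] at hr
    have h0 : r ≠ 0 := (lt_of_lt_of_le hε hr.1).ne'
    have h1 : HasDerivAt (fun r : ℝ => r ^ 2) (2 * r) r := by
      simpa using hasDerivAt_pow 2 r
    have h2 := (h1.inv (pow_ne_zero 2 h0)).neg.add (h1.const_mul (‖c‖ ^ 2))
    have h3 := h2.const_mul Real.pi
    refine h3.congr_deriv ?_
    field_simp
  rw [intervalIntegral.integral_eq_sub_of_hasDerivAt hder]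
  · ring
  · apply ContinuousOn.intervalIntegrable
    rw [uIcc_of_le hερ.le]
    exact hcont

private theorem ua_area {G D : ℂ → ℂ} {A : Set ℂ} {R : ℝ} (hA : MeasurableSet A)
    (hG : ∀ z ∈ A, HasDerivAt G (D z) z) (hD : ContinuousOn D A) (hinj : InjOn G A)
    (hR : ∀ z ∈ A, ‖G z‖ ≤ R) (hR0 : 0 ≤ R) : ∫ z in A, ‖D z‖ ^ 2 ≤ Real.pi * R ^ 2 := by
  set L : ℂ → (ℂ →L[ℝ] ℂ) := fun z =>
    (ContinuousLinearMap.toSpanSingleton ℂ (D z)).restrictScalars ℝ with hL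
  have hLd : ∀ z, (L z).det = ‖D z‖ ^ 2 := by
    intro z
    apply ua_det
    intro w
    simp [hL, mul_comm]
  have h1 : ∫⁻ z in A, ENNReal.ofReal |(L z).det| = volume (G '' A) := by
    apply lintegral_abs_det_fderiv_eq_addHaar_image (volume : Measure ℂ) hA _ hinj
    intro z hz
    exact ((hG z hz).hasFDerivAt.restrictScalars ℝ).hasFDerivWithinAt
  have h2 : volume (G '' A) ≤ ENNReal.ofReal R ^ 2 * NNReal.pi := by
    rw [← Complex.volume_closedBall 0 R]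
    apply measure_mono
    rintro _ ⟨z, hz, rfl⟩
    rw [mem_closedBall_zero_iff]
    exact hR z hz
  have h3 : ∫ z in A, ‖D z‖ ^ 2 = (∫⁻ z in A, ENNReal.ofReal (‖D z‖ ^ 2)).toReal := by
    apply integral_eq_lintegral_of_nonneg_ae
    · exact Filter.Eventually.of_forall (fun z => by positivity)
    · exact (hD.norm.pow 2).aestronglyMeasurable hA
  have h4 : ∫⁻ z in A, ENNReal.ofReal (‖D z‖ ^ 2) = volume (G '' A) := by
    rw [← h1]
    congr 1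
    funext z
    rw [hLd, abs_of_nonneg (by positivity)]
  rw [h3, h4]
  have h5 := ENNReal.toReal_mono (by finiteness) h2
  refine h5.trans (le_of_eq ?_)
  rw [ENNReal.toReal_mul, ENNReal.toReal_pow, ENNReal.toReal_ofReal hR0]
  simp [mul_comm]

private theorem ua_cover {h : ℂ → ℂ} (hd : DifferentiableOn ℂ h (ball 0 1))
    (hi : InjOn h (ball 0 1)) (h0 : h 0 = 0) {ε : ℝ} (hε : 0 < ε) (hε1 : ε < 1) :
    ∃ w, ‖w‖ = ε ∧ ∀ z ∈ ball (0 : ℂ) 1, ε ≤ ‖z‖ → ‖h w‖ ≤ ‖h z‖ := by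
  have hsub : closedBall (0 : ℂ) ε ⊆ ball 0 1 := closedBall_subset_ball hε1
  have hne : (sphere (0 : ℂ) ε).Nonempty := NormedSpace.sphere_nonempty.2 hε.le
  have hcont : ContinuousOn (fun z => ‖h z‖) (sphere (0 : ℂ) ε) :=
    (hd.continuousOn.mono (sphere_subset_closedBall.trans hsub)).norm
  obtain ⟨w, hw, hmin⟩ := (isCompact_sphere (0 : ℂ) ε).exists_isMinOn hne hcont
  have hwn : ‖w‖ = ε := by simpa using hw
  have hwb : w ∈ ball (0 : ℂ) 1 := by rw [mem_ball_zero_iff, hwn]; exact hε1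
  have h0b : (0 : ℂ) ∈ ball (0 : ℂ) 1 := by simp
  have hμ : 0 < ‖h w‖ := by
    rw [norm_pos_iff]
    intro hw0
    have : w = 0 := hi hwb h0b (by rw [hw0, h0])
    rw [this, norm_zero] at hwn
    linarith
  refine ⟨w, hwn, ?_⟩
  intro z hz hεz
  by_contra hlt
  push Not at hlt
  have hopen : IsOpen (h '' ball 0 ε) := by
    have han : AnalyticOnNhd ℂ h (ball 0 1) := hd.analyticOnNhd isOpen_ball
    rcases han.is_constant_or_isOpen (convex_ball 0 1).isPreconnected with ⟨a, ha⟩ | hop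
    · exfalso
      have : w = 0 := hi hwb h0b (by rw [ha w hwb, ha 0 h0b])
      rw [this, norm_zero] at hwn
      linarith
    · exact hop _ (ball_subset_ball hε1.le) isOpen_ball
  have hcov : ball (0 : ℂ) ‖h w‖ ⊆ h '' ball 0 ε := by
    apply (convex_ball (0 : ℂ) ‖h w‖).isPreconnected.subset_of_closure_inter_subset hopen
    · refine ⟨0, ?_, 0, ?_, h0⟩
      · simpa using hμ
      · simpa using hε
    · rintro y ⟨hy, hyb⟩
      have hcl : closure (h '' ball 0 ε) ⊆ h '' closedBall 0 ε := by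
        apply closure_minimal (image_mono ball_subset_closedBall)
        exact ((isCompact_closedBall (0 : ℂ) ε).image_of_continuousOn
          (hd.continuousOn.mono hsub)).isClosed
      obtain ⟨x, hx, rfl⟩ := hcl hy
      refine ⟨x, ?_, rfl⟩
      rw [mem_closedBall_zero_iff] at hx
      rw [mem_ball_zero_iff]
      rcases lt_or_eq_of_le hx with h' | h'
      · exact h'
      · exfalso
        have h2 : ‖h w‖ ≤ ‖h x‖ := hmin (by simpa using h')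
        rw [mem_ball_zero_iff] at hyb
        linarith
  obtain ⟨z', hz', he⟩ := hcov (show h z ∈ ball (0 : ℂ) ‖h w‖ by simpa using hlt)
  have : z' = z := hi (ball_subset_ball hε1.le hz') hz he
  rw [this, mem_ball_zero_iff] at hz'
  linarith

private theorem ua_limit {b C : ℝ}
    (h : ∀ ε ρ : ℝ, 0 < ε → ε < ρ → ρ < 1 → ε ≤ 1 / 2 →
      (ε ^ 2)⁻¹ - (ρ ^ 2)⁻¹ + b ^ 2 * (ρ ^ 2 - ε ^ 2) ≤ (ε⁻¹ + b * ε + C * ε ^ 2) ^ 2) :
    b ≤ 1 + √2 := by
  have h1 : ∀ ρ : ℝ, 0 < ρ → ρ < 1 → -(ρ ^ 2)⁻¹ + b ^ 2 * ρ ^ 2 ≤ 2 * b := by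
    intro ρ hρ0 hρ1
    have hev : ∀ᶠ ε in nhdsWithin (0 : ℝ) (Ioi 0),
        -(ρ ^ 2)⁻¹ + b ^ 2 * (ρ ^ 2 - ε ^ 2) ≤ 2 * b + 2 * C * ε + (b * ε + C * ε ^ 2) ^ 2 := by
      have hlt : ∀ᶠ ε in nhdsWithin (0 : ℝ) (Ioi 0), ε < min ρ (1 / 2) :=
        Filter.Eventually.filter_mono nhdsWithin_le_nhds
          (eventually_lt_nhds (lt_min hρ0 (by norm_num)))
      filter_upwards [hlt, self_mem_nhdsWithin] with ε hε hε0
      have hε0' : (0 : ℝ) < ε := hε0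
      have := h ε ρ hε0' (lt_of_lt_of_le hε (min_le_left _ _)) hρ1
        (le_of_lt (lt_of_lt_of_le hε (min_le_right _ _)))
      have e : (ε⁻¹ + b * ε + C * ε ^ 2) ^ 2 =
          (ε ^ 2)⁻¹ + (2 * b + 2 * C * ε + (b * ε + C * ε ^ 2) ^ 2) := by
        field_simp
        ring
      rw [e] at this
      linarith
    have t1 : Filter.Tendsto (fun ε : ℝ => -(ρ ^ 2)⁻¹ + b ^ 2 * (ρ ^ 2 - ε ^ 2))
        (nhdsWithin (0 : ℝ) (Ioi 0)) (nhds (-(ρ ^ 2)⁻¹ + b ^ 2 * ρ ^ 2)) := by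
      have hc : Continuous (fun ε : ℝ => -(ρ ^ 2)⁻¹ + b ^ 2 * (ρ ^ 2 - ε ^ 2)) := by fun_prop
      have := (hc.tendsto 0).mono_left (nhdsWithin_le_nhds (s := Ioi (0 : ℝ)))
      simpa using this
    have t2 : Filter.Tendsto (fun ε : ℝ => 2 * b + 2 * C * ε + (b * ε + C * ε ^ 2) ^ 2)
        (nhdsWithin (0 : ℝ) (Ioi 0)) (nhds (2 * b)) := by
      have hc : Continuous (fun ε : ℝ => 2 * b + 2 * C * ε + (b * ε + C * ε ^ 2) ^ 2) := by
        fun_prop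
      have := (hc.tendsto 0).mono_left (nhdsWithin_le_nhds (s := Ioi (0 : ℝ)))
      simpa using this
    exact le_of_tendsto_of_tendsto t1 t2 hev
  have h2 : -1 + b ^ 2 ≤ 2 * b := by
    have t1 : Filter.Tendsto (fun ρ : ℝ => -(ρ ^ 2)⁻¹ + b ^ 2 * ρ ^ 2)
        (nhdsWithin (1 : ℝ) (Iio 1)) (nhds (-1 + b ^ 2)) := by
      have hc : ContinuousAt (fun ρ : ℝ => -(ρ ^ 2)⁻¹ + b ^ 2 * ρ ^ 2) 1 := by
        have : ContinuousAt (fun ρ : ℝ => (ρ ^ 2)⁻¹) 1 :=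
          (continuousAt_id.pow 2).inv₀ (by simp)
        exact this.neg.add (continuousAt_const.mul (continuousAt_id.pow 2))
      have := hc.tendsto.mono_left (nhdsWithin_le_nhds (s := Iio (1 : ℝ)))
      simpa using this
    apply le_of_tendsto t1
    have hlt : ∀ᶠ ρ in nhdsWithin (1 : ℝ) (Iio 1), 0 < ρ :=
      Filter.Eventually.filter_mono nhdsWithin_le_nhds (eventually_gt_nhds (by norm_num))
    filter_upwards [hlt, self_mem_nhdsWithin] with ρ hρ0 hρ1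
    exact h1 ρ hρ0 hρ1
  have h3 : b - 1 ≤ √2 := by
    apply Real.le_sqrt_of_sq_le
    nlinarith
  linarith

theorem weak_area (h κ : ℂ → ℂ) (c : ℂ) (hd : DifferentiableOn ℂ h (ball 0 1)) (hi : InjOn h (ball 0 1))
    (hκ : DifferentiableOn ℂ κ (ball 0 1)) (he : ∀ z ∈ ball (0 : ℂ) 1, h z = z + c * z ^ 3 + z ^ 4 * κ z) :
    ‖c‖ ≤ 1 + √2 := by
  have h0b : (0 : ℂ) ∈ ball (0 : ℂ) 1 := by simp
  have h00 : h 0 = 0 := by rw [he 0 h0b]; simp
  set g : ℂ → ℂ := fun z => 1 + c * z ^ 2 + z ^ 3 * κ z with hg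
  have hgd : DifferentiableOn ℂ g (ball 0 1) := by
    apply DifferentiableOn.add
    · fun_prop
    · exact (differentiableOn_id.pow 3).mul hκ
  have hhg : ∀ z ∈ ball (0 : ℂ) 1, h z = z * g z := by
    intro z hz
    rw [he z hz, hg]
    ring
  have hg0 : ∀ z ∈ ball (0 : ℂ) 1, g z ≠ 0 := by
    intro z hz hgz
    by_cases hz0 : z = 0
    · rw [hz0, hg] at hgz
      simp at hgz
    · apply hz0
      apply hi hz h0b
      rw [h00, hhg z hz, hgz, mul_zero]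
  set σ : ℂ → ℂ := fun z => (c ^ 2 * z - (1 - c * z ^ 2) * κ z) / g z with hσ
  have hσd : DifferentiableOn ℂ σ (ball 0 1) := by
    apply DifferentiableOn.div _ hgd hg0
    apply DifferentiableOn.sub
    · fun_prop
    · apply DifferentiableOn.mul _ hκ
      fun_prop
  have hinv : ∀ z ∈ ball (0 : ℂ) 1, z ≠ 0 → (h z)⁻¹ = z⁻¹ - c * z + z ^ 2 * σ z := by
    intro z hz hz0
    have hgz := hg0 z hz
    rw [hhg z hz, hσ]
    have hz3 : z ^ 3 * κ z = g z - 1 - c * z ^ 2 := by rw [hg]; ring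
    field_simp
    have : z ^ 3 * (c ^ 2 * z - (1 - c * z ^ 2) * κ z) = c ^ 2 * z ^ 4 -
        (1 - c * z ^ 2) * (z ^ 3 * κ z) := by ring
    linear_combination (-1 : ℂ) * (1 - c * z ^ 2) * hz3
  set τ : ℂ → ℂ := fun z => 2 * σ z + z * deriv σ z with hτ
  have hτd : DifferentiableOn ℂ τ (ball 0 1) := by
    apply DifferentiableOn.add
    · exact hσd.const_mul 2
    · exact differentiableOn_id.mul (hσd.deriv isOpen_ball)
  have hder : ∀ z ∈ ball (0 : ℂ) 1, z ≠ 0 →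
      HasDerivAt (fun z => (h z)⁻¹) (-(z ^ 2)⁻¹ - c + z * τ z) z := by
    intro z hz hz0
    have hσz : HasDerivAt σ (deriv σ z) z :=
      (hσd.differentiableAt (isOpen_ball.mem_nhds hz)).hasDerivAt
    have h1 : HasDerivAt (fun z => z⁻¹ - c * z + z ^ 2 * σ z)
        (-(z ^ 2)⁻¹ - c * 1 + ((2 * z) * σ z + z ^ 2 * deriv σ z)) z := by
      have hp : HasDerivAt (fun z : ℂ => z ^ 2) (2 * z) z := by simpa using hasDerivAt_pow 2 z
      exact ((hasDerivAt_inv hz0).sub ((hasDerivAt_id z).const_mul c)).add (hp.mul hσz)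
    have h2 : HasDerivAt (fun z => (h z)⁻¹)
        (-(z ^ 2)⁻¹ - c * 1 + ((2 * z) * σ z + z ^ 2 * deriv σ z)) z := by
      apply h1.congr_of_eventuallyEq
      filter_upwards [isOpen_ball.mem_nhds hz, isOpen_ne.mem_nhds hz0] with x hx hx0
      exact hinv x hx hx0
    refine h2.congr_deriv ?_
    rw [hτ]
    ring
  obtain ⟨C, hC⟩ : ∃ C, ∀ z ∈ closedBall (0 : ℂ) (1 / 2), ‖σ z‖ ≤ C := by
    apply (isCompact_closedBall (0 : ℂ) (1 / 2)).exists_bound_of_continuousOn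
    exact hσd.continuousOn.mono (closedBall_subset_ball (by norm_num))
  have hC0 : 0 ≤ C := (norm_nonneg _).trans (hC 0 (by simp))
  apply ua_limit (C := C)
  intro ε ρ hε hερ hρ hεh
  obtain ⟨w, hw, hmin⟩ := ua_cover hd hi h00 hε (hερ.trans hρ)
  have hwb : w ∈ ball (0 : ℂ) 1 := by rw [mem_ball_zero_iff, hw]; exact hερ.trans hρ
  have hw0 : w ≠ 0 := by
    rintro rfl
    rw [norm_zero] at hw
    linarith
  have hhw0 : h w ≠ 0 := by
    rw [hhg w hwb]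
    exact mul_ne_zero hw0 (hg0 w hwb)
  have hR : ‖(h w)⁻¹‖ ≤ ε⁻¹ + ‖c‖ * ε + C * ε ^ 2 := by
    rw [hinv w hwb hw0]
    have hσw := hC w (by rw [mem_closedBall_zero_iff, hw]; exact hεh)
    calc ‖w⁻¹ - c * w + w ^ 2 * σ w‖ ≤ ‖w⁻¹ - c * w‖ + ‖w ^ 2 * σ w‖ := norm_add_le _ _
      _ ≤ (‖w⁻¹‖ + ‖c * w‖) + ‖w ^ 2 * σ w‖ := by
        gcongr
        exact norm_sub_le _ _
      _ = ε⁻¹ + ‖c‖ * ε + ε ^ 2 * ‖σ w‖ := by
        rw [norm_inv, norm_mul, norm_mul, norm_pow, hw]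
      _ ≤ ε⁻¹ + ‖c‖ * ε + ε ^ 2 * C := by gcongr
      _ = _ := by ring
  have hAmeas : MeasurableSet {z : ℂ | ε < ‖z‖ ∧ ‖z‖ < ρ} :=
    (measurableSet_lt measurable_const measurable_norm).inter
      (measurableSet_lt measurable_norm measurable_const)
  have hAsub : ∀ z ∈ {z : ℂ | ε < ‖z‖ ∧ ‖z‖ < ρ}, z ∈ ball (0 : ℂ) 1 ∧ z ≠ 0 := by
    intro z hz
    refine ⟨?_, ?_⟩
    · rw [mem_ball_zero_iff]
      exact hz.2.trans hρ
    · rintro rfl
      have : ε < ‖(0 : ℂ)‖ := hz.1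
      rw [norm_zero] at this
      linarith
  have harea := ua_area (G := fun z => (h z)⁻¹) (D := fun z => -(z ^ 2)⁻¹ - c + z * τ z)
    (R := ‖(h w)⁻¹‖) hAmeas (fun z hz => hder z (hAsub z hz).1 (hAsub z hz).2) ?_ ?_ ?_
    (norm_nonneg _)
  · have hlow := ua_lower (c := c) hτd hε hερ hρ
    have h1 := hlow.trans harea
    have h2 : ‖(h w)⁻¹‖ ^ 2 ≤ (ε⁻¹ + ‖c‖ * ε + C * ε ^ 2) ^ 2 := by
      gcongr
    have h3 : Real.pi * ((ε ^ 2)⁻¹ - (ρ ^ 2)⁻¹ + ‖c‖ ^ 2 * (ρ ^ 2 - ε ^ 2)) ≤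
        Real.pi * (ε⁻¹ + ‖c‖ * ε + C * ε ^ 2) ^ 2 := by
      calc _ = Real.pi * ((ε ^ 2)⁻¹ - (ρ ^ 2)⁻¹) + Real.pi * ‖c‖ ^ 2 * (ρ ^ 2 - ε ^ 2) := by ring
        _ ≤ Real.pi * ‖(h w)⁻¹‖ ^ 2 := h1
        _ ≤ _ := by gcongr
    exact le_of_mul_le_mul_left h3 Real.pi_pos
  · have c1 : ContinuousOn (fun z : ℂ => (z ^ 2)⁻¹) {z : ℂ | ε < ‖z‖ ∧ ‖z‖ < ρ} :=
      (continuousOn_id.pow 2).inv₀ (fun z hz => pow_ne_zero 2 (hAsub z hz).2)
    have c2 : ContinuousOn τ {z : ℂ | ε < ‖z‖ ∧ ‖z‖ < ρ} :=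
      hτd.continuousOn.mono (fun z hz => (hAsub z hz).1)
    exact (c1.neg.sub continuousOn_const).add (continuousOn_id.mul c2)
  · intro x hx y hy hxy
    exact hi (hAsub x hx).1 (hAsub y hy).1 (inv_injective hxy)
  · intro z hz
    rw [norm_inv, norm_inv]
    exact inv_anti₀ (norm_pos_iff.2 hhw0) (hmin z (hAsub z hz).1 hz.1.le)

end Pool.Agent.CcaPl
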