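import Mathlib
import Pool.Agent.Lib.MP_cca10c_ag.Pl.UniArea

/-!
# The second coefficient of a univalent function (MP_cca10c_ag, planar part, file A2)

`f` univalent on the unit disc, `f 0 = 0`, `f' 0 = 1`. Then `‖f''(0)‖ ≤ 10` (i.e. `|a_2| ≤ 2(1+√2) < 5`).

Proof plan. `f z = z φ z` with `φ` holomorphic without zeros on the disc (`φ 0 = 1`; `f` vanishes only at `0` by injectivity).
There is a holomorphic `r` with `r^2 = φ`, `r 0 = 1` (a holomorphic function without zeros on a disc has a holomorphic logarithm: primitive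
of `φ'/φ`, e.g. `DifferentiableOn.isExactOn_ball`/`Complex` primitives on discs). `h z = z * r (z^2)` is holomorphic, odd and
`h z ^ 2 = f (z^2)`. Injective: `h z = h w` gives `f (z^2) = f (w^2)`, `z^2 = w^2`, `w = ± z`; `h (-z) = - h z`, so `w = -z` forces
`h z = 0`, `z = 0`. `h z = z + (a_2/2) z^3 + z^5 (...)`, apply `weak_area` with `c = a_2/2 = f''(0)/4`.
-/

namespace Pool.Agent.CcaPl

open Set Metric Filter Topology

/-- a holomorphic function without zeros on a disc has a holomorphic square root -/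
private theorem uniA2_sqrt (φ : ℂ → ℂ) (hd : DifferentiableOn ℂ φ (ball 0 1)) (hne : ∀ z ∈ ball (0 : ℂ) 1, φ z ≠ 0)
    (h0 : φ 0 = 1) : ∃ r : ℂ → ℂ, DifferentiableOn ℂ r (ball 0 1) ∧ (∀ z ∈ ball (0 : ℂ) 1, r z ^ 2 = φ z) ∧ r 0 = 1 := by
  have hdd : DifferentiableOn ℂ (deriv φ) (ball 0 1) := hd.deriv isOpen_ball
  have hq : DifferentiableOn ℂ (fun z => deriv φ z / φ z) (ball 0 1) := hdd.div hd hne
  obtain ⟨L, hL0, hL⟩ := hq.isExactOn_ball.with_val_at 0 0
  have hz0 : (0 : ℂ) ∈ ball (0 : ℂ) 1 := mem_ball_self one_pos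
  have hLd : ∀ z ∈ ball (0 : ℂ) 1, HasDerivAt L (deriv φ z / φ z) z := hL
  have hφd : ∀ z ∈ ball (0 : ℂ) 1, HasDerivAt φ (deriv φ z) z := fun z hz =>
    (hd.differentiableAt (isOpen_ball.mem_nhds hz)).hasDerivAt
  set G : ℂ → ℂ := fun z => φ z * Complex.exp (-L z) with hG
  have hGd : ∀ z ∈ ball (0 : ℂ) 1, HasDerivAt G 0 z := by
    intro z hz
    have h1 := (hφd z hz).mul ((hLd z hz).neg.cexp)
    have e : deriv φ z * Complex.exp (-L z) + φ z * (Complex.exp (-L z) * (-(deriv φ z / φ z))) = 0 := by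
      have := hne z hz
      field_simp
      ring
    have e2 : deriv φ z * Complex.exp ((-L) z) + φ z * (Complex.exp ((-L) z) * (-(deriv φ z / φ z))) = 0 := e
    rw [e2] at h1
    exact h1
  have hconst : ∀ z ∈ ball (0 : ℂ) 1, G z = G 0 := by
    intro z hz
    have hdiff : DifferentiableOn ℂ G (ball 0 1) := fun w hw =>
      (hGd w hw).differentiableAt.differentiableWithinAt
    exact (convex_ball (0 : ℂ) 1).is_const_of_fderivWithin_eq_zero (𝕜 := ℂ) hdiff (fun w hw => by
      rw [fderivWithin_of_isOpen isOpen_ball hw, (hGd w hw).hasFDerivAt.fderiv]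
      ext
      simp) hz hz0
  have hG0 : G 0 = 1 := by
    simp [hG, h0, hL0]
  refine ⟨fun z => Complex.exp (L z / 2), ?_, ?_, ?_⟩
  · intro z hz
    exact (((hLd z hz).div_const 2).cexp).differentiableAt.differentiableWithinAt
  · intro z hz
    have h1 := hconst z hz
    rw [hG0] at h1
    have h2 : φ z = Complex.exp (L z) := by
      have h3 : φ z * Complex.exp (-L z) = 1 := h1
      rw [Complex.exp_neg] at h3
      have h4 := Complex.exp_ne_zero (L z)
      field_simp at h3
      exact h3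
    simp only
    rw [h2, ← Complex.exp_nat_mul]
    congr 1
    push_cast
    ring
  · simp [hL0]

theorem norm_second_le (f : ℂ → ℂ) (hd : DifferentiableOn ℂ f (ball 0 1)) (hi : InjOn f (ball 0 1)) (h0 : f 0 = 0)
    (h1 : deriv f 0 = 1) : ‖deriv (deriv f) 0‖ ≤ 10 := by
  have hz0 : (0 : ℂ) ∈ ball (0 : ℂ) 1 := mem_ball_self one_pos
  have hnh : ball (0 : ℂ) 1 ∈ 𝓝 (0 : ℂ) := ball_mem_nhds 0 one_pos
  set φ : ℂ → ℂ := dslope f 0 with hφ
  have hφd : DifferentiableOn ℂ φ (ball 0 1) := (Complex.differentiableOn_dslope hnh).mpr hd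
  have hφ0 : φ 0 = 1 := by rw [hφ, dslope_same, h1]
  have hfφ : ∀ z, f z = z * φ z := by
    intro z
    have := sub_smul_dslope f 0 z
    rw [h0, sub_zero, sub_zero, smul_eq_mul] at this
    exact this.symm
  have hφne : ∀ z ∈ ball (0 : ℂ) 1, φ z ≠ 0 := by
    intro z hz hz'
    by_cases h : z = 0
    · rw [h, hφ0] at hz'
      exact one_ne_zero hz'
    · have h2 : f z = f 0 := by rw [hfφ z, hz', mul_zero, h0]
      exact h (hi hz hz0 h2)
  obtain ⟨r, hrd, hr2, hr0⟩ := uniA2_sqrt φ hφd hφne hφ0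
  set r1 : ℂ → ℂ := dslope r 0 with hr1
  have hr1d : DifferentiableOn ℂ r1 (ball 0 1) := (Complex.differentiableOn_dslope hnh).mpr hrd
  set r2 : ℂ → ℂ := dslope r1 0 with hr2'
  have hr2d : DifferentiableOn ℂ r2 (ball 0 1) := (Complex.differentiableOn_dslope hnh).mpr hr1d
  have er : ∀ z, r z = 1 + z * r1 z := by
    intro z
    have := sub_smul_dslope r 0 z
    rw [hr0, sub_zero, smul_eq_mul] at this
    rw [hr1]
    linear_combination -this
  have er1 : ∀ z, r1 z = r1 0 + z * r2 z := by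
    intro z
    have := sub_smul_dslope r1 0 z
    rw [sub_zero, smul_eq_mul] at this
    rw [hr2']
    linear_combination -this
  have hsq : ∀ z ∈ ball (0 : ℂ) 1, z ^ 2 ∈ ball (0 : ℂ) 1 := by
    intro z hz
    rw [mem_ball_zero_iff] at hz ⊢
    rw [norm_pow]
    have := norm_nonneg z
    nlinarith
  have hsqd : DifferentiableOn ℂ (fun z : ℂ => z ^ 2) (ball 0 1) := by fun_prop
  set h : ℂ → ℂ := fun z => z * r (z ^ 2) with hh
  have hhd : DifferentiableOn ℂ h (ball 0 1) := by
    have : DifferentiableOn ℂ (fun z : ℂ => r (z ^ 2)) (ball 0 1) := hrd.comp hsqd hsq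
    exact differentiableOn_id.mul this
  have hhsq : ∀ z ∈ ball (0 : ℂ) 1, h z ^ 2 = f (z ^ 2) := by
    intro z hz
    rw [hfφ (z ^ 2), ← hr2 (z ^ 2) (hsq z hz)]
    simp only [hh]
    ring
  have hrne : ∀ z ∈ ball (0 : ℂ) 1, r z ≠ 0 := by
    intro z hz hz'
    have := hr2 z hz
    rw [hz', zero_pow two_ne_zero] at this
    exact hφne z hz this.symm
  have hhi : InjOn h (ball 0 1) := by
    intro z hz w hw hzw
    have h2 : f (z ^ 2) = f (w ^ 2) := by rw [← hhsq z hz, ← hhsq w hw, hzw]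
    have h3 : z ^ 2 = w ^ 2 := hi (hsq z hz) (hsq w hw) h2
    rcases sq_eq_sq_iff_eq_or_eq_neg.mp h3 with h4 | h4
    · exact h4
    · have h5 : h z = -h w := by
        simp only [hh]
        rw [h4, neg_sq]
        ring
      have h6 : h w = 0 := by
        have h7 : h w = -h w := by rw [← h5, hzw]
        have h8 : (2 : ℂ) * h w = 0 := by linear_combination h7
        exact (mul_eq_zero.mp h8).resolve_left two_ne_zero
      have h9 : w = 0 := by
        rcases mul_eq_zero.mp h6 with h10 | h10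
        · exact h10
        · exact absurd h10 (hrne _ (hsq w hw))
      rw [h4, h9, neg_zero]
  have hκ : DifferentiableOn ℂ (fun z : ℂ => z * r2 (z ^ 2)) (ball 0 1) :=
    differentiableOn_id.mul (hr2d.comp hsqd hsq)
  have hwa := weak_area h (fun z : ℂ => z * r2 (z ^ 2)) (r1 0) hhd hhi hκ (by
    intro z _
    simp only [hh]
    rw [er (z ^ 2), er1 (z ^ 2)]
    ring)
  -- the second derivative
  have hr1d0 : HasDerivAt r1 (deriv r1 0) 0 := (hr1d.differentiableAt hnh).hasDerivAt
  have key : deriv (deriv f) 0 = 4 * r1 0 := by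
    -- `f z = z + 2 c z^2 + z^3 g z`
    set g : ℂ → ℂ := fun z => 2 * r2 z + r1 z ^ 2 with hg
    have hgd : DifferentiableOn ℂ g (ball 0 1) := by
      have := hr1d.pow 2
      exact (hr2d.const_mul 2).add this
    have hfg : ∀ z ∈ ball (0 : ℂ) 1, f z = z + 2 * r1 0 * z ^ 2 + z ^ 3 * g z := by
      intro z hz
      rw [hfφ z, ← hr2 z hz, er z]
      have e1 := er1 z
      simp only [hg]
      linear_combination 2 * z ^ 2 * e1
    have hderiv : ∀ z ∈ ball (0 : ℂ) 1, deriv f z = 1 + 4 * r1 0 * z + z ^ 2 * (3 * g z + z * deriv g z) := by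
      intro z hz
      have hgz : HasDerivAt g (deriv g z) z := (hgd.differentiableAt (isOpen_ball.mem_nhds hz)).hasDerivAt
      have h3 : HasDerivAt (fun z => z + 2 * r1 0 * z ^ 2 + z ^ 3 * g z)
          (1 + 2 * r1 0 * (2 * z) + (3 * z ^ 2 * g z + z ^ 3 * deriv g z)) z := by
        have a1 := hasDerivAt_id z
        have a2 : HasDerivAt (fun z : ℂ => 2 * r1 0 * z ^ 2) (2 * r1 0 * (2 * z)) z := by
          have := (hasDerivAt_pow 2 z).const_mul (2 * r1 0)
          simpa using this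
        have a3 : HasDerivAt (fun z : ℂ => z ^ 3 * g z) (3 * z ^ 2 * g z + z ^ 3 * deriv g z) z := by
          refine HasDerivAt.congr_deriv ((hasDerivAt_pow 3 z).fun_mul hgz) ?_
          norm_num
        exact (a1.add a2).add a3
      have h4 : f =ᶠ[𝓝 z] fun z => z + 2 * r1 0 * z ^ 2 + z ^ 3 * g z := by
        filter_upwards [isOpen_ball.mem_nhds hz] with w hw using hfg w hw
      rw [h4.deriv_eq, h3.deriv]
      ring
    have hgdd : DifferentiableOn ℂ (deriv g) (ball 0 1) := hgd.deriv isOpen_ball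
    have h5 : deriv f =ᶠ[𝓝 0] fun z => 1 + 4 * r1 0 * z + z ^ 2 * (3 * g z + z * deriv g z) := by
      filter_upwards [hnh] with w hw using hderiv w hw
    have h6 : HasDerivAt (fun z => 3 * g z + z * deriv g z) (deriv (fun z => 3 * g z + z * deriv g z) 0) 0 := by
      apply DifferentiableAt.hasDerivAt
      have b1 : DifferentiableAt ℂ g 0 := hgd.differentiableAt hnh
      have b2 : DifferentiableAt ℂ (deriv g) 0 := hgdd.differentiableAt hnh
      exact (b1.const_mul 3).add (differentiableAt_id.mul b2)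
    have h7 : HasDerivAt (fun z => 1 + 4 * r1 0 * z + z ^ 2 * (3 * g z + z * deriv g z)) (4 * r1 0) 0 := by
      have a2 : HasDerivAt (fun z : ℂ => 1 + 4 * r1 0 * z) (4 * r1 0) 0 := by
        have := ((hasDerivAt_id (0 : ℂ)).const_mul (4 * r1 0)).const_add 1
        simpa using this
      have a3 : HasDerivAt (fun z : ℂ => z ^ 2 * (3 * g z + z * deriv g z)) 0 0 := by
        refine HasDerivAt.congr_deriv ((hasDerivAt_pow 2 (0 : ℂ)).fun_mul h6) ?_
        simp
      refine HasDerivAt.congr_deriv (a2.fun_add a3) ?_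
      simp
    rw [h5.deriv_eq, h7.deriv]
  rw [key, norm_mul]
  have h4 : ‖(4 : ℂ)‖ = 4 := by norm_num
  rw [h4]
  have h5 : √2 ≤ 3 / 2 := by
    rw [Real.sqrt_le_left (by norm_num)]
    norm_num
  linarith

end Pool.Agent.CcaPl
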