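import Mathlib
import Pool.Agent.Lib.MP_cca10c_ag.Pl.UniA2

/-!
# Weak Koebe distortion (MP_cca10c_ag, planar part, file A3)

Proof plan. All from `norm_second_le`.
* `deriv f 0 ≠ 0` for univalent `f` (an injective holomorphic function has nonzero derivative; Mathlib may have this, otherwise by the local
  form `f z - f 0 = (z g z)^n`).
* covering: let `f 0 = 0`, `f' 0 = 1` and let `f` omit `w` (`w ≠ 0`). `F z = w f z / (w - f z)` is univalent, `F 0 = 0`, `F' 0 = 1`,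
  `F''(0)/2 = f''(0)/2 + 1/w`, so `‖1/w‖ ≤ 5 + 5`. Hence `ball 0 (1/10) ⊆ f '' ball 0 1`; general case by `(f - f 0)/f' 0`.
* for `‖ζ‖ < 1` the Koebe transform `F z = (f ((z+ζ)/(1+conj ζ z)) - f ζ)/((1-‖ζ‖^2) f' ζ)` is univalent and normalised and
  `F''(0)/2 = ((1-‖ζ‖^2) f''(ζ)/f'(ζ) - 2 conj ζ)/2`, so `‖f''(ζ)/f'(ζ)‖ ≤ 12/(1-‖ζ‖^2) ≤ 16` for `‖ζ‖ ≤ 1/2`. On the segment from
  `0` to `ζ` this gives `‖f' ζ‖ ≤ e^8 ‖f' 0‖` for `‖ζ‖ ≤ 1/2`; so `‖f'' ζ‖ ≤ 16 e^8 ‖f' 0‖` for `‖ζ‖ ≤ 1/2`.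
-/

namespace Pool.Agent.CcaPl

open Set Metric

open Filter Topology in
theorem deriv_ne_zero_of_injOn (f : ℂ → ℂ) (U : Set ℂ) (hU : IsOpen U) (hd : DifferentiableOn ℂ f U) (hi : InjOn f U)
    (z : ℂ) (hz : z ∈ U) : deriv f z ≠ 0 := by
  intro hder
  have hUn : U ∈ 𝓝 z := hU.mem_nhds hz
  have han : AnalyticAt ℂ f z := hd.analyticAt hUn
  have han2 : AnalyticAt ℂ (fun w => f w - f z) z := han.sub analyticAt_const
  -- the function is not locally constant
  have hnc : ¬ ∀ᶠ w in 𝓝 z, f w - f z = 0 := by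
    intro hc
    have h1 : ∀ᶠ w in 𝓝[≠] z, f w - f z = 0 ∧ w ∈ U :=
      (hc.and hUn).filter_mono nhdsWithin_le_nhds
    obtain ⟨w, ⟨hw1, hw2⟩, hw3⟩ := (h1.and self_mem_nhdsWithin).exists
    exact hw3 (hi hw2 hz (sub_eq_zero.mp hw1))
  obtain ⟨n, g, hg, hg0, hfg⟩ := han2.exists_eventuallyEq_pow_smul_nonzero_iff.mpr hnc
  simp only [smul_eq_mul] at hfg
  have hn0 : n ≠ 0 := by
    rintro rfl
    have := hfg.self_of_nhds
    simp only [sub_self, pow_zero, one_mul] at this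
    exact hg0 this.symm
  have hn1 : n ≠ 1 := by
    rintro rfl
    have h1 : HasDerivAt (fun w => (w - z) * g w) (1 * g z + (z - z) * deriv g z) z :=
      ((hasDerivAt_id z).sub_const z).mul hg.differentiableAt.hasDerivAt
    have h2 : deriv (fun w => f w - f z) z = 0 := by
      rw [deriv_sub_const, hder]
    have h3 : (fun w => f w - f z) =ᶠ[𝓝 z] fun w => (w - z) * g w := by
      filter_upwards [hfg] with w hw
      rw [hw, pow_one]
    rw [h3.deriv_eq, h1.deriv] at h2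
    apply hg0
    simpa using h2
  have hn2 : 2 ≤ n := by omega
  have hnC : (n : ℂ) ≠ 0 := by exact_mod_cast hn0
  -- local n-th root of `g`
  set h : ℂ → ℂ := fun w => Complex.exp ((Complex.log (g w / g z) + Complex.log (g z)) / n)
    with hh
  have hhn : ∀ w, g w ≠ 0 → h w ^ n = g w := by
    intro w hw
    rw [hh]
    simp only
    rw [← Complex.exp_nat_mul, mul_div_cancel₀ _ hnC, Complex.exp_add,
      Complex.exp_log (div_ne_zero hw hg0), Complex.exp_log hg0, div_mul_cancel₀ _ hg0]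
  have hhan : AnalyticAt ℂ h z := by
    have h1 : AnalyticAt ℂ (fun w => g w / g z) z := hg.div_const
    have h2 : g z / g z ∈ Complex.slitPlane := by
      rw [div_self hg0]
      exact Complex.one_mem_slitPlane
    have h3 : AnalyticAt ℂ (fun w => Complex.log (g w / g z)) z := h1.clog h2
    exact ((h3.add analyticAt_const).div_const).cexp
  set ψ : ℂ → ℂ := fun w => (w - z) * h w with hψ
  have hψd : HasStrictDerivAt ψ (h z) z := by
    have h1 : HasStrictDerivAt (fun w : ℂ => w - z) 1 z := (hasStrictDerivAt_id z).sub_const z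
    have h2 : HasStrictDerivAt ψ (1 * h z + (z - z) * deriv h z) z :=
      h1.mul hhan.hasStrictDerivAt
    have e : 1 * h z + (z - z) * deriv h z = h z := by ring
    rwa [e] at h2
  have hhz : h z ≠ 0 := Complex.exp_ne_zero _
  have hmap := hψd.map_nhds_eq hhz
  have hψz : ψ z = 0 := by rw [hψ]; simp
  rw [hψz] at hmap
  -- a neighbourhood where everything holds
  have hev : ∀ᶠ w in 𝓝 z, w ∈ U ∧ f w - f z = ψ w ^ n := by
    filter_upwards [hUn, hfg, hg.continuousAt.eventually_ne hg0] with w h1 h2 h3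
    refine ⟨h1, ?_⟩
    rw [h2, hψ]
    simp only
    rw [mul_pow, hhn w h3]
  have himg : ψ '' {w | w ∈ U ∧ f w - f z = ψ w ^ n} ∈ 𝓝 (0 : ℂ) := by
    rw [← hmap]
    exact image_mem_map hev
  obtain ⟨r, hr, hball⟩ := Metric.mem_nhds_iff.mp himg
  -- a primitive root of unity
  set ω : ℂ := Complex.exp (2 * Real.pi * Complex.I / n) with hω
  have hprim : IsPrimitiveRoot ω n := Complex.isPrimitiveRoot_exp n hn0
  have hω1 : ω ≠ 1 := hprim.ne_one (by omega)
  have hωn : ω ^ n = 1 := hprim.pow_eq_one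
  have hωnorm : ‖ω‖ = 1 := hprim.norm'_eq_one hn0
  set ε : ℂ := ((r / 2 : ℝ) : ℂ) with hε
  have hεnorm : ‖ε‖ = r / 2 := by
    rw [hε, Complex.norm_real, Real.norm_of_nonneg (by linarith)]
  have hε0 : ε ≠ 0 := by
    rw [← norm_pos_iff, hεnorm]
    linarith
  obtain ⟨w1, ⟨hw1U, hw1⟩, hw1e⟩ := hball (show ε ∈ ball (0 : ℂ) r by
    rw [mem_ball_zero_iff, hεnorm]; linarith)
  obtain ⟨w2, ⟨hw2U, hw2⟩, hw2e⟩ := hball (show ε * ω ∈ ball (0 : ℂ) r by
    rw [mem_ball_zero_iff, norm_mul, hωnorm, mul_one, hεnorm]; linarith)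
  have h1 : f w1 = f w2 := by
    have e1 : f w1 - f z = ε ^ n := by rw [hw1, hw1e]
    have e2 : f w2 - f z = ε ^ n := by rw [hw2, hw2e, mul_pow, hωn, mul_one]
    have := e1.trans e2.symm
    exact sub_left_injective this
  have h2 := hi hw1U hw2U h1
  rw [h2, hw2e] at hw1e
  have h3 : ε * (ω - 1) = 0 := by
    rw [mul_sub, hw1e, mul_one, sub_self]
  rcases mul_eq_zero.mp h3 with h4 | h4
  · exact hε0 h4
  · exact hω1 (sub_eq_zero.mp h4)

private theorem hasDeriv_of_ball {f : ℂ → ℂ} (hd : DifferentiableOn ℂ f (ball 0 1)) {z : ℂ}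
    (hz : z ∈ ball (0 : ℂ) 1) : HasDerivAt f (deriv f z) z :=
  (hd.differentiableAt (isOpen_ball.mem_nhds hz)).hasDerivAt

private theorem hasDeriv2_of_ball {f : ℂ → ℂ} (hd : DifferentiableOn ℂ f (ball 0 1)) {z : ℂ}
    (hz : z ∈ ball (0 : ℂ) 1) : HasDerivAt (deriv f) (deriv (deriv f) z) z :=
  ((hd.deriv isOpen_ball).differentiableAt (isOpen_ball.mem_nhds hz)).hasDerivAt

theorem koebe_cover (f : ℂ → ℂ) (hd : DifferentiableOn ℂ f (ball 0 1)) (hi : InjOn f (ball 0 1)) :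
    ball (f 0) (‖deriv f 0‖ / 10) ⊆ f '' ball 0 1 := by
  have h0m : (0 : ℂ) ∈ ball (0 : ℂ) 1 := mem_ball_self one_pos
  have hd0 := deriv_ne_zero_of_injOn f _ isOpen_ball hd hi 0 h0m
  set a := deriv f 0 with ha
  intro w hw
  by_contra hcon
  have hom : ∀ z ∈ ball (0 : ℂ) 1, f z ≠ w := fun z hz hc => hcon ⟨z, hz, hc⟩
  -- normalised function
  set g : ℂ → ℂ := fun z => (f z - f 0) / a with hg
  set W : ℂ := (w - f 0) / a with hW
  have hW0 : W ≠ 0 := by
    intro hc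
    rw [hW, div_eq_zero_iff] at hc
    rcases hc with hc | hc
    · exact hom 0 h0m (sub_eq_zero.mp hc).symm
    · exact hd0 hc
  have hgd : DifferentiableOn ℂ g (ball 0 1) := (hd.sub_const _).div_const _
  have hginj : ∀ x ∈ ball (0 : ℂ) 1, ∀ y ∈ ball (0 : ℂ) 1, g x = g y → x = y := by
    intro x hx y hy hxy
    apply hi hx hy
    rw [hg] at hxy
    simp only at hxy
    rw [div_left_inj' hd0] at hxy
    exact sub_left_injective hxy
  have hgW : ∀ z ∈ ball (0 : ℂ) 1, W - g z ≠ 0 := by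
    intro z hz hc
    apply hom z hz
    rw [hW, hg] at hc
    simp only at hc
    rw [← sub_div, div_eq_zero_iff] at hc
    rcases hc with hc | hc
    · have : w - f z = 0 := by rw [← hc]; ring
      exact (sub_eq_zero.mp this).symm
    · exact absurd hc hd0
  have hg0 : g 0 = 0 := by rw [hg]; simp
  have hg1 : HasDerivAt g 1 0 := by
    have := ((hasDeriv_of_ball hd h0m).sub_const (f 0)).div_const a
    rwa [← ha, div_self hd0] at this
  have hgder1 : deriv g 0 = 1 := hg1.deriv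
  -- Moebius transform
  set G : ℂ → ℂ := fun z => W * g z / (W - g z) with hG
  have hGd : DifferentiableOn ℂ G (ball 0 1) :=
    (hgd.const_mul W).div (hgd.const_sub W) hgW
  have hGi : InjOn G (ball 0 1) := by
    intro x hx y hy hxy
    apply hginj x hx y hy
    rw [hG] at hxy
    simp only at hxy
    rw [div_eq_div_iff (hgW x hx) (hgW y hy)] at hxy
    have h1 : W ^ 2 * (g x - g y) = 0 := by linear_combination hxy
    rcases mul_eq_zero.mp h1 with h2 | h2
    · exact absurd h2 (pow_ne_zero 2 hW0)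
    · exact sub_eq_zero.mp h2
  have hGder : ∀ z ∈ ball (0 : ℂ) 1, HasDerivAt G (W ^ 2 * deriv g z / (W - g z) ^ 2) z := by
    intro z hz
    have h1 := hasDeriv_of_ball hgd hz
    have h2 := (h1.const_mul W).div (h1.const_sub W) (hgW z hz)
    have e : (W * deriv g z * (W - g z) - W * g z * -deriv g z) / (W - g z) ^ 2 =
        W ^ 2 * deriv g z / (W - g z) ^ 2 := by ring
    rw [e] at h2
    exact h2
  have hG0 : G 0 = 0 := by rw [hG]; simp [hg0]
  have hG1 : deriv G 0 = 1 := by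
    rw [(hGder 0 h0m).deriv, hgder1, hg0, sub_zero, mul_one, div_self (pow_ne_zero 2 hW0)]
  have hG2 : deriv (deriv G) 0 = deriv (deriv g) 0 + 2 / W := by
    have h1 : deriv G =ᶠ[nhds 0] fun z => W ^ 2 * deriv g z / (W - g z) ^ 2 := by
      filter_upwards [isOpen_ball.mem_nhds h0m] with z hz
      exact (hGder z hz).deriv
    rw [h1.deriv_eq]
    have h2 := hasDeriv2_of_ball hgd h0m
    have h3 := hasDeriv_of_ball hgd h0m
    have h4 := (h2.const_mul (W ^ 2)).div ((h3.const_sub W).pow 2)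
      (pow_ne_zero 2 (hgW 0 h0m))
    refine h4.deriv.trans ?_
    simp only [Pi.pow_apply, hg0, sub_zero, hgder1]
    field_simp
    push_cast
    ring
  have hb1 := norm_second_le G hGd hGi hG0 hG1
  have hb2 := norm_second_le g hgd (fun x hx y hy hxy => hginj x hx y hy hxy) hg0 hgder1
  have hb3 : ‖2 / W‖ ≤ 20 := by
    have e : 2 / W = deriv (deriv G) 0 - deriv (deriv g) 0 := by rw [hG2]; ring
    rw [e]
    exact (norm_sub_le _ _).trans (by linarith)
  have hWp : 0 < ‖W‖ := norm_pos_iff.mpr hW0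
  rw [norm_div, div_le_iff₀ hWp, Complex.norm_ofNat] at hb3
  have hap : 0 < ‖a‖ := norm_pos_iff.mpr hd0
  have hb4 : ‖w - f 0‖ = ‖W‖ * ‖a‖ := by
    rw [hW, norm_div, div_mul_cancel₀ _ hap.ne']
  rw [mem_ball, dist_eq_norm, hb4] at hw
  nlinarith

private theorem disc_ne {ζ z : ℂ} (hζ : ‖ζ‖ < 1) (hz : ‖z‖ < 1) :
    1 + (starRingEnd ℂ) ζ * z ≠ 0 := by
  intro hc
  have h1 : (starRingEnd ℂ) ζ * z = -1 := by linear_combination hc
  have h2 := congrArg norm h1
  rw [norm_mul, Complex.norm_conj, norm_neg, norm_one] at h2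
  have h3 : ‖ζ‖ * ‖z‖ < 1 := by nlinarith [norm_nonneg ζ, norm_nonneg z]
  linarith

private theorem disc_mem {ζ z : ℂ} (hζ : ‖ζ‖ < 1) (hz : ‖z‖ < 1) :
    (z + ζ) / (1 + (starRingEnd ℂ) ζ * z) ∈ ball (0 : ℂ) 1 := by
  rw [mem_ball_zero_iff, norm_div, div_lt_one (norm_pos_iff.mpr (disc_ne hζ hz))]
  apply lt_of_pow_lt_pow_left₀ 2 (norm_nonneg _)
  have h1 : Complex.normSq (1 + (starRingEnd ℂ) ζ * z) - Complex.normSq (z + ζ) =
      (1 - Complex.normSq z) * (1 - Complex.normSq ζ) := by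
    simp only [Complex.normSq_apply, Complex.add_re, Complex.add_im, Complex.mul_re,
      Complex.mul_im, Complex.conj_re, Complex.conj_im, Complex.one_re, Complex.one_im]
    ring
  simp only [Complex.normSq_eq_norm_sq] at h1
  have h2 : 0 < 1 - ‖z‖ ^ 2 := by nlinarith [norm_nonneg z]
  have h3 : 0 < 1 - ‖ζ‖ ^ 2 := by nlinarith [norm_nonneg ζ]
  have h4 := mul_pos h2 h3
  linarith

private theorem second_bound (f : ℂ → ℂ) (hd : DifferentiableOn ℂ f (ball 0 1))
    (hi : InjOn f (ball 0 1)) (ζ : ℂ) (hζ : ‖ζ‖ ≤ 1 / 2) :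
    ‖deriv (deriv f) ζ‖ ≤ 16 * ‖deriv f ζ‖ := by
  have hζ1 : ‖ζ‖ < 1 := by linarith
  have h0m : (0 : ℂ) ∈ ball (0 : ℂ) 1 := mem_ball_self one_pos
  have hζm : ζ ∈ ball (0 : ℂ) 1 := by rwa [mem_ball_zero_iff]
  have hdζ := deriv_ne_zero_of_injOn f _ isOpen_ball hd hi ζ hζm
  set b := (starRingEnd ℂ) ζ with hb
  set c : ℂ := 1 - ζ * b with hc
  have hcn : c = ((1 - ‖ζ‖ ^ 2 : ℝ) : ℂ) := by
    rw [hc, hb, Complex.mul_conj, Complex.normSq_eq_norm_sq]
    push_cast
    ring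
  have hcpos : 0 < 1 - ‖ζ‖ ^ 2 := by nlinarith [norm_nonneg ζ]
  have hcnorm : ‖c‖ = 1 - ‖ζ‖ ^ 2 := by
    rw [hcn, Complex.norm_real, Real.norm_of_nonneg hcpos.le]
  have hc0 : c ≠ 0 := by
    rw [← norm_pos_iff, hcnorm]
    exact hcpos
  set φ : ℂ → ℂ := fun z => (z + ζ) / (1 + b * z) with hφ
  have hden : ∀ z ∈ ball (0 : ℂ) 1, 1 + b * z ≠ 0 := fun z hz =>
    disc_ne hζ1 (mem_ball_zero_iff.mp hz)
  have hφm : ∀ z ∈ ball (0 : ℂ) 1, φ z ∈ ball (0 : ℂ) 1 := fun z hz =>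
    disc_mem hζ1 (mem_ball_zero_iff.mp hz)
  have hφd : ∀ z ∈ ball (0 : ℂ) 1, HasDerivAt φ (c / (1 + b * z) ^ 2) z := by
    intro z hz
    have h1 : HasDerivAt (fun z : ℂ => z + ζ) 1 z := (hasDerivAt_id z).add_const ζ
    have h2 : HasDerivAt (fun z : ℂ => 1 + b * z) b z := by
      simpa using ((hasDerivAt_id z).const_mul b).const_add 1
    have h3 := h1.div h2 (hden z hz)
    have e : (1 * (1 + b * z) - (z + ζ) * b) / (1 + b * z) ^ 2 = c / (1 + b * z) ^ 2 := by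
      rw [hc]
      ring
    rw [e] at h3
    exact h3
  have hφi : InjOn φ (ball 0 1) := by
    intro x hx y hy hxy
    rw [hφ] at hxy
    simp only at hxy
    rw [div_eq_div_iff (hden x hx) (hden y hy)] at hxy
    have h1 : c * (x - y) = 0 := by
      rw [hc]
      linear_combination hxy
    exact sub_eq_zero.mp ((mul_eq_zero.mp h1).resolve_left hc0)
  have hφ0 : φ 0 = ζ := by rw [hφ]; simp
  set G : ℂ → ℂ := fun z => (f (φ z) - f ζ) / (c * deriv f ζ) with hG
  have hden2 : c * deriv f ζ ≠ 0 := mul_ne_zero hc0 hdζ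
  have hGder : ∀ z ∈ ball (0 : ℂ) 1,
      HasDerivAt G (deriv f (φ z) / ((1 + b * z) ^ 2 * deriv f ζ)) z := by
    intro z hz
    have h1 := (hasDeriv_of_ball hd (hφm z hz)).comp z (hφd z hz)
    have h2 := (h1.sub_const (f ζ)).div_const (c * deriv f ζ)
    have e : deriv f (φ z) * (c / (1 + b * z) ^ 2) / (c * deriv f ζ) =
        deriv f (φ z) / ((1 + b * z) ^ 2 * deriv f ζ) := by
      have := hden z hz
      field_simp
    rw [e] at h2
    exact h2
  have hGd : DifferentiableOn ℂ G (ball 0 1) := fun z hz =>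
    (hGder z hz).differentiableAt.differentiableWithinAt
  have hGi : InjOn G (ball 0 1) := by
    intro x hx y hy hxy
    apply hφi hx hy
    apply hi (hφm x hx) (hφm y hy)
    rw [hG] at hxy
    simp only at hxy
    rw [div_left_inj' hden2] at hxy
    exact sub_left_injective hxy
  have hG0 : G 0 = 0 := by rw [hG]; simp [hφ0]
  have hG1 : deriv G 0 = 1 := by
    rw [(hGder 0 h0m).deriv, hφ0, mul_zero, add_zero, one_pow, one_mul, div_self hdζ]
  have hG2 : deriv (deriv G) 0 = c * (deriv (deriv f) ζ / deriv f ζ) - 2 * b := by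
    have h1 : deriv G =ᶠ[nhds 0] fun z => deriv f (φ z) / ((1 + b * z) ^ 2 * deriv f ζ) := by
      filter_upwards [isOpen_ball.mem_nhds h0m] with z hz
      exact (hGder z hz).deriv
    rw [h1.deriv_eq]
    have h2 := (hasDeriv2_of_ball hd (hφm 0 h0m)).comp (0 : ℂ) (hφd 0 h0m)
    have h3 : HasDerivAt (fun z : ℂ => 1 + b * z) b 0 := by
      simpa using ((hasDerivAt_id (0 : ℂ)).const_mul b).const_add 1
    have h4 := h2.div ((h3.pow 2).mul_const (deriv f ζ))
      (mul_ne_zero (pow_ne_zero 2 (hden 0 h0m)) hdζ)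
    refine h4.deriv.trans ?_
    simp only [Pi.pow_apply, Function.comp_apply, hφ0, mul_zero, add_zero, one_pow, one_mul,
      div_one]
    field_simp
    push_cast
    ring
  have hb1 := norm_second_le G hGd hGi hG0 hG1
  rw [hG2] at hb1
  have hb2 : ‖c * (deriv (deriv f) ζ / deriv f ζ)‖ ≤ 11 := by
    have e : c * (deriv (deriv f) ζ / deriv f ζ) =
        (c * (deriv (deriv f) ζ / deriv f ζ) - 2 * b) + 2 * b := by ring
    rw [e]
    refine (norm_add_le _ _).trans ?_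
    have : ‖2 * b‖ ≤ 1 := by
      rw [norm_mul, hb, Complex.norm_conj, Complex.norm_ofNat]
      linarith
    linarith
  have hdp : 0 < ‖deriv f ζ‖ := norm_pos_iff.mpr hdζ
  rw [norm_mul, norm_div, hcnorm] at hb2
  have hc34 : 3 / 4 ≤ 1 - ‖ζ‖ ^ 2 := by nlinarith [norm_nonneg ζ]
  have hq0 : 0 ≤ ‖deriv (deriv f) ζ‖ / ‖deriv f ζ‖ := by positivity
  have hq : ‖deriv (deriv f) ζ‖ / ‖deriv f ζ‖ ≤ 16 := by nlinarith
  rwa [div_le_iff₀ hdp] at hq

theorem koebe_distortion : ∃ K : ℝ, 1 ≤ K ∧ ∀ f : ℂ → ℂ, DifferentiableOn ℂ f (ball 0 1) → InjOn f (ball 0 1) →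
    ∀ z : ℂ, ‖z‖ ≤ 1 / 2 → ‖deriv (deriv f) z‖ ≤ K * ‖deriv f 0‖ := by
  refine ⟨16 * Real.exp 8, ?_, ?_⟩
  · have := Real.one_le_exp (by norm_num : (0 : ℝ) ≤ 8)
    linarith
  intro f hd hi z hz
  have hz' : ∀ t ∈ Icc (0 : ℝ) 1, ‖(t : ℂ) * z‖ ≤ 1 / 2 := by
    intro t ht
    rw [norm_mul, Complex.norm_real, Real.norm_of_nonneg ht.1]
    nlinarith [ht.1, ht.2, norm_nonneg z]
  have hzm : ∀ t ∈ Icc (0 : ℝ) 1, (t : ℂ) * z ∈ ball (0 : ℂ) 1 := by
    intro t ht
    rw [mem_ball_zero_iff]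
    linarith [hz' t ht]
  have hder : ∀ t ∈ Icc (0 : ℝ) 1, HasDerivAt (fun s : ℝ => deriv f ((s : ℂ) * z))
      (deriv (deriv f) ((t : ℂ) * z) * z) t := by
    intro t ht
    have h1 : HasDerivAt (fun s : ℂ => s * z) z (t : ℂ) := by
      simpa using (hasDerivAt_id (t : ℂ)).mul_const z
    have h2 : HasDerivAt (fun s : ℂ => deriv f (s * z)) (deriv (deriv f) ((t : ℂ) * z) * z)
        (t : ℂ) := HasDerivAt.comp (h := fun s : ℂ => s * z) (h₂ := deriv f) (t : ℂ)
      (hasDeriv2_of_ball hd (hzm t ht)) h1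
    exact h2.comp_ofReal
  have hgr := norm_le_gronwallBound_of_norm_deriv_right_le (f := fun s : ℝ => deriv f ((s : ℂ) * z))
    (f' := fun t : ℝ => deriv (deriv f) ((t : ℂ) * z) * z) (δ := ‖deriv f 0‖) (K := 8) (ε := 0)
    (a := 0) (b := 1) (fun t ht => (hder t ht).continuousAt.continuousWithinAt)
    (fun t ht => (hder t (Ico_subset_Icc_self ht)).hasDerivWithinAt) (by simp) (by
      intro t ht
      have h1 := second_bound f hd hi _ (hz' t (Ico_subset_Icc_self ht))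
      rw [norm_mul, add_zero]
      have h2 : 0 ≤ ‖deriv (deriv f) ((t : ℂ) * z)‖ := norm_nonneg _
      calc ‖deriv (deriv f) ((t : ℂ) * z)‖ * ‖z‖ ≤ ‖deriv (deriv f) ((t : ℂ) * z)‖ * (1 / 2) := by
            gcongr
        _ ≤ 16 * ‖deriv f ((t : ℂ) * z)‖ * (1 / 2) := by gcongr
        _ = 8 * ‖deriv f ((t : ℂ) * z)‖ := by ring) 1 (by simp)
  rw [gronwallBound_ε0] at hgr
  simp only [Complex.ofReal_one, one_mul, sub_zero, mul_one] at hgr
  have h3 := second_bound f hd hi z hz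
  calc ‖deriv (deriv f) z‖ ≤ 16 * ‖deriv f z‖ := h3
    _ ≤ 16 * (‖deriv f 0‖ * Real.exp 8) := by gcongr
    _ = 16 * Real.exp 8 * ‖deriv f 0‖ := by ring

end Pool.Agent.CcaPl
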