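import Mathlib

/-!
# Dilatation of real linear maps of the plane (MP_cca10c_ag, planar part, file D0)
-/

namespace Pool.Agent.CcaPl

/-- the real linear map `A` of the plane is `K`-quasiconformal (orientation preserving, invertible) -/
def QC (K : ℝ) (A : ℂ →L[ℝ] ℂ) : Prop := 0 < A.det ∧ ‖A‖ ^ 2 ≤ K * A.det

/-- complex linear maps -/
def CL (A : ℂ →L[ℝ] ℂ) : Prop := ∃ w : ℂ, w ≠ 0 ∧ ∀ v, A v = w * v

end Pool.Agent.CcaPl
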