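import Mathlib
import Pool.Agent.Lib.MP_cca10c_ag.Pl.QcDefs

/-!
# Linear algebra of quasiconformal maps (MP_cca10c_ag, planar part, file D1)

Every real linear map of `ℂ` is `A v = α v + β conj v`, `‖A‖ = ‖α‖ + ‖β‖`, `det A = ‖α‖² - ‖β‖²`, `‖A v‖ ≥ (‖α‖ - ‖β‖) ‖v‖`.
-/

namespace Pool.Agent.CcaPl

open ComplexConjugate

private theorem lin_form (A : ℂ →L[ℝ] ℂ) : ∃ α β : ℂ, ∀ v, A v = α * v + β * conj v := by
  refine ⟨(A 1 - Complex.I * A Complex.I) / 2, (A 1 + Complex.I * A Complex.I) / 2, fun v => ?_⟩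
  have h1 : A v = (v.re : ℂ) * A 1 + (v.im : ℂ) * A Complex.I := by
    have h2 : v = v.re • (1 : ℂ) + v.im • Complex.I := by
      apply Complex.ext <;> simp
    conv_lhs => rw [h2]
    rw [map_add, map_smul, map_smul]
    simp
  rw [h1]
  have h4 : conj v = (v.re : ℂ) - (v.im : ℂ) * Complex.I := by
    apply Complex.ext <;> simp
  rw [h4]
  have h5 : ∀ w : ℂ, w = (v.re : ℂ) + (v.im : ℂ) * Complex.I →
      (v.re : ℂ) * A 1 + (v.im : ℂ) * A Complex.I =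
      (A 1 - Complex.I * A Complex.I) / 2 * w +
        (A 1 + Complex.I * A Complex.I) / 2 * ((v.re : ℂ) - (v.im : ℂ) * Complex.I) := by
    rintro w rfl
    linear_combination ((v.im : ℂ) * A Complex.I) * Complex.I_sq
  exact h5 v (Complex.re_add_im v).symm

private theorem lin_det (A : ℂ →L[ℝ] ℂ) {α β : ℂ} (h : ∀ v, A v = α * v + β * conj v) :
    A.det = ‖α‖ ^ 2 - ‖β‖ ^ 2 := by
  have h0 : A.det = LinearMap.det (A : ℂ →ₗ[ℝ] ℂ) := rfl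
  rw [h0, ← LinearMap.det_toMatrix Complex.basisOneI, Matrix.det_fin_two]
  simp only [LinearMap.toMatrix_apply, Complex.coe_basisOneI, Matrix.cons_val_zero,
    Matrix.cons_val_one, Complex.coe_basisOneI_repr, ContinuousLinearMap.coe_coe, h]
  simp only [map_one, Complex.conj_I, ← Complex.normSq_eq_norm_sq, Complex.normSq_apply]
  simp
  ring

private theorem lin_upper {A : ℂ →L[ℝ] ℂ} {α β : ℂ} (h : ∀ v, A v = α * v + β * conj v) (v : ℂ) :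
    ‖A v‖ ≤ (‖α‖ + ‖β‖) * ‖v‖ := by
  rw [h]
  refine (norm_add_le _ _).trans ?_
  rw [norm_mul, norm_mul, Complex.norm_conj]
  linarith

private theorem lin_lower {A : ℂ →L[ℝ] ℂ} {α β : ℂ} (h : ∀ v, A v = α * v + β * conj v) (v : ℂ) :
    (‖α‖ - ‖β‖) * ‖v‖ ≤ ‖A v‖ := by
  rw [h]
  have h1 : ‖α * v‖ ≤ ‖α * v + β * conj v‖ + ‖β * conj v‖ := by
    have := norm_sub_le (α * v + β * conj v) (β * conj v)
    simpa using this
  rw [norm_mul, norm_mul β, Complex.norm_conj] at h1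
  linarith

/-- a unit vector where the norm is attained -/
private theorem lin_attain {A : ℂ →L[ℝ] ℂ} {α β : ℂ} (h : ∀ v, A v = α * v + β * conj v) :
    ∃ v : ℂ, ‖v‖ = 1 ∧ ‖A v‖ = ‖α‖ + ‖β‖ := by
  obtain ⟨u, hu1, hu2⟩ : ∃ u : ℂ, ‖u‖ = 1 ∧ ‖α * u + β‖ = ‖α‖ + ‖β‖ := by
    by_cases hα : α = 0
    · exact ⟨1, by simp, by simp [hα]⟩
    by_cases hβ : β = 0
    · exact ⟨1, by simp, by simp [hβ]⟩
    have ha : ‖α‖ ≠ 0 := norm_ne_zero_iff.mpr hα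
    have hb : ‖β‖ ≠ 0 := norm_ne_zero_iff.mpr hβ
    refine ⟨((‖α‖ / ‖β‖ : ℝ) : ℂ) * β / α, ?_, ?_⟩
    · rw [norm_div, norm_mul, Complex.norm_real, Real.norm_of_nonneg (by positivity)]
      field_simp
    · have h1 : α * (((‖α‖ / ‖β‖ : ℝ) : ℂ) * β / α) + β = ((‖α‖ / ‖β‖ + 1 : ℝ) : ℂ) * β := by
        rw [mul_div_cancel₀ _ hα]
        push_cast
        ring
      rw [h1, norm_mul, Complex.norm_real, Real.norm_of_nonneg (by positivity)]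
      field_simp
  obtain ⟨v, hv⟩ : ∃ v : ℂ, v ^ 2 = u := IsAlgClosed.exists_pow_nat_eq u two_pos
  have hv1 : ‖v‖ = 1 := by
    have h1 : ‖v‖ ^ 2 = 1 := by rw [← norm_pow, hv, hu1]
    exact (pow_eq_one_iff_of_nonneg (norm_nonneg v) two_ne_zero).mp h1
  refine ⟨v, hv1, ?_⟩
  have h2 : v * conj v = 1 := by
    rw [Complex.mul_conj, Complex.normSq_eq_norm_sq, hv1]
    simp
  have h3 : α * v + β * conj v = conj v * (α * u + β) := by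
    rw [← hv]
    linear_combination (-(α * v)) * h2
  rw [h, h3, norm_mul, Complex.norm_conj, hv1, one_mul, hu2]

private theorem lin_norm {A : ℂ →L[ℝ] ℂ} {α β : ℂ} (h : ∀ v, A v = α * v + β * conj v) :
    ‖A‖ = ‖α‖ + ‖β‖ := by
  apply le_antisymm
  · exact A.opNorm_le_bound (by positivity) (lin_upper h)
  · obtain ⟨v, hv1, hv2⟩ := lin_attain h
    have h1 := A.le_opNorm v
    rw [hv1, mul_one, hv2] at h1
    exact h1

theorem exists_ab (A : ℂ →L[ℝ] ℂ) : ∃ α β : ℂ, (∀ v, A v = α * v + β * conj v) ∧ ‖A‖ = ‖α‖ + ‖β‖ ∧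
    A.det = ‖α‖ ^ 2 - ‖β‖ ^ 2 := by
  obtain ⟨α, β, h⟩ := lin_form A
  exact ⟨α, β, h, lin_norm h, lin_det A h⟩

private theorem cl_form {A : ℂ →L[ℝ] ℂ} {w : ℂ} (h : ∀ v, A v = w * v) :
    ‖A‖ = ‖w‖ ∧ A.det = ‖w‖ ^ 2 := by
  have h1 : ∀ v, A v = w * v + 0 * conj v := fun v => by rw [h, zero_mul, add_zero]
  refine ⟨?_, ?_⟩
  · rw [lin_norm h1, norm_zero, add_zero]
  · rw [lin_det A h1, norm_zero]
    ring

theorem CL.qc {A : ℂ →L[ℝ] ℂ} (h : CL A) : QC 1 A := by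
  obtain ⟨w, hw, h⟩ := h
  obtain ⟨h1, h2⟩ := cl_form h
  have h3 : 0 < ‖w‖ := norm_pos_iff.mpr hw
  refine ⟨?_, ?_⟩
  · rw [h2]; positivity
  · rw [h1, h2, one_mul]

theorem QC.mono {K K' : ℝ} {A : ℂ →L[ℝ] ℂ} (h : QC K A) (hK : K ≤ K') : QC K' A :=
  ⟨h.1, h.2.trans (mul_le_mul_of_nonneg_right hK h.1.le)⟩

/-- the numbers behind a quasiconformal linear map -/
private theorem qc_numbers {K : ℝ} {A : ℂ →L[ℝ] ℂ} (h : QC K A) :
    ∃ a b : ℝ, 0 ≤ b ∧ b < a ∧ ‖A‖ = a + b ∧ A.det = (a - b) * (a + b) ∧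
      a + b ≤ K * (a - b) ∧ ∀ v, (a - b) * ‖v‖ ≤ ‖A v‖ := by
  obtain ⟨α, β, h1, h2, h3⟩ := exists_ab A
  have hα := norm_nonneg α
  have hβ := norm_nonneg β
  have h4 : A.det = (‖α‖ - ‖β‖) * (‖α‖ + ‖β‖) := by rw [h3]; ring
  have hpos := h.1
  have hab : ‖β‖ < ‖α‖ := by
    by_contra hcon
    rw [not_lt] at hcon
    have : (‖α‖ - ‖β‖) * (‖α‖ + ‖β‖) ≤ 0 :=
      mul_nonpos_of_nonpos_of_nonneg (by linarith) (by linarith)
    linarith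
  refine ⟨‖α‖, ‖β‖, hβ, hab, h2, h4, ?_, lin_lower h1⟩
  have h5 := h.2
  rw [h2, h4] at h5
  have h6 : 0 < ‖α‖ + ‖β‖ := by linarith
  have h7 : (‖α‖ + ‖β‖) * (‖α‖ + ‖β‖) ≤ K * (‖α‖ - ‖β‖) * (‖α‖ + ‖β‖) := by
    calc (‖α‖ + ‖β‖) * (‖α‖ + ‖β‖) = (‖α‖ + ‖β‖) ^ 2 := by ring
      _ ≤ _ := h5
      _ = _ := by ring
  exact le_of_mul_le_mul_right h7 h6

theorem QC.one_le {K : ℝ} {A : ℂ →L[ℝ] ℂ} (h : QC K A) : 1 ≤ K := by
  obtain ⟨a, b, hb, hab, h1, h2, h3, h4⟩ := qc_numbers h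
  by_contra hcon
  rw [not_le] at hcon
  have : K * (a - b) < 1 * (a - b) := mul_lt_mul_of_pos_right hcon (by linarith)
  linarith

theorem QC.comp {K K' : ℝ} {A B : ℂ →L[ℝ] ℂ} (h : QC K A) (h' : QC K' B) : QC (K * K') (A.comp B) := by
  have hdet : (A.comp B).det = A.det * B.det := by
    have h0 : (A.comp B).det = LinearMap.det ((A : ℂ →ₗ[ℝ] ℂ).comp (B : ℂ →ₗ[ℝ] ℂ)) := rfl
    rw [h0, LinearMap.det_comp]
  refine ⟨by rw [hdet]; exact mul_pos h.1 h'.1, ?_⟩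
  rw [hdet]
  have h1 : ‖A.comp B‖ ^ 2 ≤ (‖A‖ * ‖B‖) ^ 2 :=
    pow_le_pow_left₀ (norm_nonneg _) (A.opNorm_comp_le B) 2
  calc ‖A.comp B‖ ^ 2 ≤ (‖A‖ * ‖B‖) ^ 2 := h1
    _ = ‖A‖ ^ 2 * ‖B‖ ^ 2 := by ring
    _ ≤ (K * A.det) * (K' * B.det) := mul_le_mul h.2 h'.2 (sq_nonneg _)
        ((sq_nonneg _).trans h.2)
    _ = K * K' * (A.det * B.det) := by ring

/-- lower bound of a quasiconformal linear map -/
theorem QC.lower {K : ℝ} {A : ℂ →L[ℝ] ℂ} (h : QC K A) (v : ℂ) : ‖A‖ * ‖v‖ ≤ K * ‖A v‖ := by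
  have hK := h.one_le
  obtain ⟨a, b, hb, hab, h1, h2, h3, h4⟩ := qc_numbers h
  rw [h1]
  calc (a + b) * ‖v‖ ≤ K * (a - b) * ‖v‖ := mul_le_mul_of_nonneg_right h3 (norm_nonneg v)
    _ = K * ((a - b) * ‖v‖) := by ring
    _ ≤ K * ‖A v‖ := mul_le_mul_of_nonneg_left (h4 v) (by linarith)

/-- bounds for a right inverse -/
private theorem qc_inv_numbers {A B : ℂ →L[ℝ] ℂ} {m : ℝ} (hm : 0 < m)
    (hA : ∀ v, m * ‖v‖ ≤ ‖A v‖) (hAB : ∀ v, A (B v) = v) : ‖B‖ ≤ 1 / m := by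
  refine B.opNorm_le_bound (by positivity) fun v => ?_
  have h1 := hA (B v)
  rw [hAB] at h1
  rw [div_mul_eq_mul_div, one_mul, le_div_iff₀ hm]
  linarith

private theorem det_inv {A B : ℂ →L[ℝ] ℂ} (hAB : ∀ v, A (B v) = v) : A.det * B.det = 1 := by
  have h1 : (A : ℂ →ₗ[ℝ] ℂ).comp (B : ℂ →ₗ[ℝ] ℂ) = LinearMap.id := by
    ext v <;> simp [hAB]
  have h2 : LinearMap.det ((A : ℂ →ₗ[ℝ] ℂ).comp (B : ℂ →ₗ[ℝ] ℂ)) = 1 := by
    rw [h1, LinearMap.det_id]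
  rw [LinearMap.det_comp] at h2
  exact h2

/-- the inverse has the same dilatation: if `B` is a right inverse of `A` then `B` is `K`-quasiconformal -/
theorem QC.inv {K : ℝ} {A B : ℂ →L[ℝ] ℂ} (h : QC K A) (hAB : ∀ v, A (B v) = v) : QC K B := by
  obtain ⟨a, b, hb, hab, h1, h2, h3, h4⟩ := qc_numbers h
  have hm : 0 < a - b := by linarith
  have hs : 0 < a + b := by linarith
  have hB := qc_inv_numbers hm h4 hAB
  have hdet := det_inv hAB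
  have hBdet : B.det = 1 / ((a - b) * (a + b)) := by
    rw [eq_div_iff (mul_pos hm hs).ne']
    rw [h2] at hdet
    linarith
  refine ⟨?_, ?_⟩
  · rw [hBdet]; exact one_div_pos.mpr (mul_pos hm hs)
  · calc ‖B‖ ^ 2 ≤ (1 / (a - b)) ^ 2 := pow_le_pow_left₀ (norm_nonneg _) hB 2
      _ = (a + b) * (1 / ((a - b) ^ 2 * (a + b))) := by
          have : a + b ≠ 0 := by linarith
          field_simp
      _ ≤ (K * (a - b)) * (1 / ((a - b) ^ 2 * (a + b))) :=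
          mul_le_mul_of_nonneg_right h3 (one_div_pos.mpr (mul_pos (pow_pos hm 2) hs)).le
      _ = K * B.det := by
          rw [hBdet]
          have : a + b ≠ 0 := by linarith
          field_simp

/-- perturbation of the identity -/
theorem QC.perturb {H : ℂ →L[ℝ] ℂ} (h : ‖H - ContinuousLinearMap.id ℝ ℂ‖ ≤ 1 / 4) :
    QC (1 + 8 * ‖H - ContinuousLinearMap.id ℝ ℂ‖) H := by
  obtain ⟨α, β, h1, h2, h3⟩ := exists_ab H
  have hE : ∀ v, (H - ContinuousLinearMap.id ℝ ℂ) v = (α - 1) * v + β * conj v := by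
    intro v
    rw [sub_apply, h1, ContinuousLinearMap.id_apply]
    ring
  have hEn := lin_norm hE
  set e := ‖H - ContinuousLinearMap.id ℝ ℂ‖ with he
  have he0 : 0 ≤ e := norm_nonneg _
  have hβ := norm_nonneg β
  have hα1 := norm_nonneg (α - 1)
  have ha1 : ‖α‖ ≤ 1 + ‖α - 1‖ := by
    have := norm_add_le (α - 1) 1
    rw [sub_add_cancel, norm_one] at this
    linarith
  have ha2 : 1 - ‖α - 1‖ ≤ ‖α‖ := by
    have := norm_sub_le α (α - 1)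
    rw [sub_sub_cancel, norm_one] at this
    linarith
  have hm : 1 - e ≤ ‖α‖ - ‖β‖ := by rw [hEn]; linarith
  have hs : ‖α‖ + ‖β‖ ≤ 1 + e := by rw [hEn]; linarith
  have hm0 : 0 < ‖α‖ - ‖β‖ := by linarith
  have hs0 : 0 < ‖α‖ + ‖β‖ := by linarith
  have hdet : H.det = (‖α‖ - ‖β‖) * (‖α‖ + ‖β‖) := by rw [h3]; ring
  refine ⟨by rw [hdet]; positivity, ?_⟩
  rw [hdet, h2]
  have hkey : ‖α‖ + ‖β‖ ≤ (1 + 8 * e) * (‖α‖ - ‖β‖) := by
    have h5 : (1 + 8 * e) * (1 - e) ≤ (1 + 8 * e) * (‖α‖ - ‖β‖) :=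
      mul_le_mul_of_nonneg_left hm (by positivity)
    nlinarith
  calc (‖α‖ + ‖β‖) ^ 2 = (‖α‖ + ‖β‖) * (‖α‖ + ‖β‖) := by ring
    _ ≤ ((1 + 8 * e) * (‖α‖ - ‖β‖)) * (‖α‖ + ‖β‖) := mul_le_mul_of_nonneg_right hkey hs0.le
    _ = _ := by ring

/-- two close maps: if `A` is invertible with `m ‖v‖ ≤ ‖A v‖` and `‖A' - A‖ ≤ m / 4` then `A' ∘ A⁻¹` is `(1 + 8 ‖A' - A‖/m)`-quasiconformal -/
theorem QC.close {A A' B : ℂ →L[ℝ] ℂ} {m : ℝ} (hm : 0 < m) (hA : ∀ v, m * ‖v‖ ≤ ‖A v‖) (hAB : ∀ v, A (B v) = v)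
    (h : ‖A' - A‖ ≤ m / 4) : QC (1 + 8 * (‖A' - A‖ / m)) (A'.comp B) := by
  have hB := qc_inv_numbers hm hA hAB
  have h1 : A'.comp B - ContinuousLinearMap.id ℝ ℂ = (A' - A).comp B := by
    ext v <;> simp [hAB]
  have h2 : ‖A'.comp B - ContinuousLinearMap.id ℝ ℂ‖ ≤ ‖A' - A‖ / m := by
    rw [h1]
    refine ((A' - A).opNorm_comp_le B).trans ?_
    rw [div_eq_mul_one_div]
    exact mul_le_mul_of_nonneg_left hB (norm_nonneg _)
  have h3 : ‖A' - A‖ / m ≤ 1 / 4 := by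
    rw [div_le_iff₀ hm]
    linarith
  exact (QC.perturb (h2.trans h3)).mono (by linarith)

/-- the covector inequality behind the energy comparison: `L` a real linear functional, `A` `K`-quasiconformal with inverse `B`:
`‖L ∘ B‖² det A ≤ K ‖L‖²` -/
theorem QC.energy {K : ℝ} {A B : ℂ →L[ℝ] ℂ} (h : QC K A) (hAB : ∀ v, A (B v) = v) (L : ℂ →L[ℝ] ℝ) :
    ‖L.comp B‖ ^ 2 * A.det ≤ K * ‖L‖ ^ 2 := by
  obtain ⟨a, b, hb, hab, h1, h2, h3, h4⟩ := qc_numbers h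
  have hm : 0 < a - b := by linarith
  have hB := qc_inv_numbers hm h4 hAB
  have h5 : ‖L.comp B‖ ≤ ‖L‖ * (1 / (a - b)) :=
    (L.opNorm_comp_le B).trans (mul_le_mul_of_nonneg_left hB (norm_nonneg _))
  rw [h2]
  calc ‖L.comp B‖ ^ 2 * ((a - b) * (a + b)) ≤ (‖L‖ * (1 / (a - b))) ^ 2 * ((a - b) * (a + b)) :=
        mul_le_mul_of_nonneg_right (pow_le_pow_left₀ (norm_nonneg _) h5 2)
          (mul_nonneg hm.le (by linarith))
    _ = ‖L‖ ^ 2 * (1 / (a - b)) * (a + b) := by field_simp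
    _ ≤ ‖L‖ ^ 2 * (1 / (a - b)) * (K * (a - b)) := mul_le_mul_of_nonneg_left h3 (by positivity)
    _ = K * ‖L‖ ^ 2 := by field_simp

theorem CL.energy {A B : ℂ →L[ℝ] ℂ} (h : CL A) (hAB : ∀ v, A (B v) = v) (L : ℂ →L[ℝ] ℝ) :
    ‖L.comp B‖ ^ 2 * A.det = ‖L‖ ^ 2 := by
  obtain ⟨w, hw, h⟩ := h
  obtain ⟨h1, h2⟩ := cl_form h
  have hw0 : 0 < ‖w‖ := norm_pos_iff.mpr hw
  have hB : ∀ v, ‖B v‖ = ‖v‖ / ‖w‖ := by
    intro v
    have h3 := hAB v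
    rw [h] at h3
    have h4 : ‖w‖ * ‖B v‖ = ‖v‖ := by rw [← norm_mul, h3]
    rw [eq_div_iff hw0.ne']
    linarith
  have h5 : ‖L.comp B‖ ≤ ‖L‖ / ‖w‖ := by
    refine (L.comp B).opNorm_le_bound (by positivity) fun v => ?_
    have h6 := L.le_opNorm (B v)
    rw [hB] at h6
    calc ‖(L.comp B) v‖ ≤ ‖L‖ * (‖v‖ / ‖w‖) := h6
      _ = ‖L‖ / ‖w‖ * ‖v‖ := by ring
  have h7 : ‖L‖ ≤ ‖L.comp B‖ * ‖w‖ := by
    refine L.opNorm_le_bound (by positivity) fun v => ?_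
    have h8 : B (w * v) = v := by
      have h9 := hAB (w * v)
      rw [h] at h9
      exact mul_left_cancel₀ hw h9
    have h10 := (L.comp B).le_opNorm (w * v)
    rw [ContinuousLinearMap.comp_apply, h8, norm_mul] at h10
    linarith
  have h11 : ‖L.comp B‖ * ‖w‖ = ‖L‖ := by
    apply le_antisymm _ h7
    rw [le_div_iff₀ hw0] at h5
    exact h5
  rw [h2, ← h11]
  ring

end Pool.Agent.CcaPl
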