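import Mathlib
import Pool.Agent.Lib.MP_cca10c_ag.Pl.QcLin

/-!
# Radial stretches and twists (MP_cca10c_ag, planar part, file D2)

`radMap w z = z * exp (w (log ‖z‖))` with `w : ℝ → ℂ` of class `C¹`. In logarithmic coordinates it is `x + iy ↦ x + iy + w x`. Its real derivative
at `z ≠ 0` is `e^{w} (v + w' z Re (v/z))`, i.e. `α = e^w (1 + w'/2)`, `β = e^w (w'/2) z / conj z`, `det = |e^w|² (1 + Re w')`.
-/

namespace Pool.Agent.CcaPl

open ComplexConjugate

noncomputable def radMap (w : ℝ → ℂ) (z : ℂ) : ℂ := z * Complex.exp (w (Real.log ‖z‖))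

/-- the linear map `v ↦ v + t z Re (v / z)` -/
noncomputable def radLin (z t : ℂ) : ℂ →L[ℝ] ℂ :=
  ContinuousLinearMap.id ℝ ℂ + (ContinuousLinearMap.toSpanSingleton ℝ (t * z)).comp
    (Complex.reCLM.comp ((ContinuousLinearMap.mul ℝ ℂ) z⁻¹))

theorem radLin_apply (z t v : ℂ) : radLin z t v = v + t * z * ((v / z).re : ℂ) := by
  unfold radLin
  rw [ContinuousLinearMap.add_apply, ContinuousLinearMap.comp_apply,
    ContinuousLinearMap.comp_apply, ContinuousLinearMap.toSpanSingleton_apply]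
  simp only [ContinuousLinearMap.id_apply, ContinuousLinearMap.mul_apply', Complex.reCLM_apply]
  rw [div_eq_inv_mul, Complex.real_smul]
  ring

private theorem hasFDerivAt_log_norm (z : ℂ) (hz : z ≠ 0) :
    HasFDerivAt (fun z : ℂ => Real.log ‖z‖)
      (Complex.reCLM.comp ((ContinuousLinearMap.mul ℝ ℂ) z⁻¹)) z := by
  have h1 : HasFDerivAt (fun z : ℂ => ‖z‖ ^ 2) (2 • innerSL ℝ z) z :=
    (hasStrictFDerivAt_norm_sq z).hasFDerivAt
  have hn : ‖z‖ ^ 2 ≠ 0 := by positivity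
  have h2 := (h1.log hn).const_mul (1 / 2 : ℝ)
  have e : (fun z : ℂ => Real.log ‖z‖) = fun z : ℂ => (1 / 2 : ℝ) * Real.log (‖z‖ ^ 2) := by
    funext u
    rw [Real.log_pow]
    push_cast
    ring
  rw [e]
  refine h2.congr_fderiv ?_
  ext v
  have hn2 : Complex.normSq z ≠ 0 := by
    rw [Ne, Complex.normSq_eq_zero]
    exact hz
  have hn' : ‖z‖ ^ 2 = Complex.normSq z := (Complex.normSq_eq_norm_sq z).symm
  all_goals
  · simp only [ContinuousLinearMap.smul_apply, ContinuousLinearMap.comp_apply,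
      ContinuousLinearMap.mul_apply', Complex.reCLM_apply, innerSL_apply_apply, Complex.inner,
      smul_eq_mul, nsmul_eq_mul, hn']
    simp only [Complex.mul_re, Complex.conj_re, Complex.conj_im, Complex.inv_re, Complex.inv_im]
    push_cast
    field_simp
    try ring

theorem radMap_hasFDerivAt (w : ℝ → ℂ) (w' : ℂ) (z : ℂ) (hz : z ≠ 0) (hw : HasDerivAt w w' (Real.log ‖z‖)) :
    HasFDerivAt (radMap w) (Complex.exp (w (Real.log ‖z‖)) • radLin z w') z := by
  have h1 := hasFDerivAt_log_norm z hz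
  have h2 : HasFDerivAt (fun u : ℂ => w (Real.log ‖u‖)) _ z :=
    (hw.hasFDerivAt).comp z h1
  have h3 := h2.cexp
  have h4 := (hasFDerivAt_id (𝕜 := ℝ) z).mul h3
  unfold radMap
  refine h4.congr_fderiv ?_
  ext v
  all_goals
  · simp only [ContinuousLinearMap.add_apply, ContinuousLinearMap.smul_apply,
      ContinuousLinearMap.comp_apply, ContinuousLinearMap.toSpanSingleton_apply,
      ContinuousLinearMap.mul_apply', Complex.reCLM_apply, ContinuousLinearMap.id_apply,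
      radLin_apply, smul_eq_mul, id, Complex.real_smul]
    rw [div_eq_inv_mul]
    ring_nf

private theorem radLin_ab (z t v : ℂ) (hz : z ≠ 0) :
    radLin z t v = (1 + t / 2) * v + (t * z / (2 * conj z)) * conj v := by
  have hz' : conj z ≠ 0 := by
    rw [Ne, map_eq_zero]
    exact hz
  rw [radLin_apply, Complex.re_eq_add_conj, map_div₀]
  field_simp
  ring

theorem radLin_det (z t : ℂ) (hz : z ≠ 0) : (radLin z t).det = 1 + t.re := by
  obtain ⟨α, β, h1, -, h3⟩ := exists_ab (radLin z t)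
  have hz' : conj z ≠ 0 := by
    rw [Ne, map_eq_zero]
    exact hz
  have e1 := h1 1
  have e2 := h1 Complex.I
  rw [radLin_ab z t _ hz] at e1 e2
  simp only [map_one, mul_one, Complex.conj_I] at e1 e2
  have e3 : (1 + t / 2) - t * z / (2 * conj z) = α - β := by
    have hI := Complex.I_ne_zero
    have : ((1 + t / 2) - t * z / (2 * conj z)) * Complex.I = (α - β) * Complex.I := by
      linear_combination e2
    exact mul_right_cancel₀ hI this
  have hα : α = 1 + t / 2 := by linear_combination -(e1 + e3) / 2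
  have hβ : β = t * z / (2 * conj z) := by linear_combination (e3 - e1) / 2
  have hβn : ‖β‖ = ‖t‖ / 2 := by
    rw [hβ, norm_div, norm_mul, norm_mul, RCLike.norm_conj]
    have : ‖z‖ ≠ 0 := norm_ne_zero_iff.2 hz
    rw [Complex.norm_two]
    field_simp
  rw [h3, hβn, hα, ← Complex.normSq_eq_norm_sq, div_pow, ← Complex.normSq_eq_norm_sq,
    Complex.normSq_apply, Complex.normSq_apply]
  simp only [Complex.add_re, Complex.add_im, Complex.one_re, Complex.one_im, Complex.div_ofNat_re,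
    Complex.div_ofNat_im]
  ring

private theorem norm_re_part (z s v : ℂ) (hz : z ≠ 0) :
    ‖s * z * ((v / z).re : ℂ)‖ ≤ ‖s‖ * ‖v‖ := by
  have hz' : ‖z‖ ≠ 0 := norm_ne_zero_iff.2 hz
  rw [norm_mul, norm_mul, Complex.norm_real, Real.norm_eq_abs]
  have h1 : |(v / z).re| ≤ ‖v‖ / ‖z‖ := by
    rw [← norm_div]
    exact Complex.abs_re_le_norm _
  calc ‖s‖ * ‖z‖ * |(v / z).re| ≤ ‖s‖ * ‖z‖ * (‖v‖ / ‖z‖) :=
        mul_le_mul_of_nonneg_left h1 (by positivity)
    _ = ‖s‖ * ‖v‖ := by field_simp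

theorem radLin_norm_le (z t : ℂ) (hz : z ≠ 0) : ‖radLin z t‖ ≤ 1 + ‖t‖ := by
  refine ContinuousLinearMap.opNorm_le_bound _ (by positivity) fun v => ?_
  rw [radLin_apply]
  calc _ ≤ ‖v‖ + ‖t * z * ((v / z).re : ℂ)‖ := norm_add_le _ _
    _ ≤ ‖v‖ + ‖t‖ * ‖v‖ := by
        have := norm_re_part z t v hz
        linarith
    _ = (1 + ‖t‖) * ‖v‖ := by ring

private theorem radLin_sub_norm_le (z t t' : ℂ) (hz : z ≠ 0) :
    ‖radLin z t' - radLin z t‖ ≤ ‖t' - t‖ := by
  refine ContinuousLinearMap.opNorm_le_bound _ (by positivity) fun v => ?_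
  rw [ContinuousLinearMap.sub_apply, radLin_apply, radLin_apply]
  have e : v + t' * z * ((v / z).re : ℂ) - (v + t * z * ((v / z).re : ℂ))
      = (t' - t) * z * ((v / z).re : ℂ) := by ring
  rw [e]
  exact norm_re_part z (t' - t) v hz

private theorem radLin_lower {c : ℝ} (hc : 0 < c) (hc1 : c ≤ 1) (z t v : ℂ) (hz : z ≠ 0)
    (h1 : c ≤ 1 + t.re) (h2 : ‖t‖ ≤ 1 / c) : c ^ 2 / 2 * ‖v‖ ≤ ‖radLin z t v‖ := by
  set A := radLin z t with hA
  have hdet : A.det = 1 + t.re := radLin_det z t hz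
  have hdpos : 0 < A.det := by rw [hdet]; linarith
  have hAn : ‖A‖ ≤ 1 + 1 / c := (radLin_norm_le z t hz).trans (by linarith)
  have hApos : 0 < ‖A‖ := by
    rw [norm_pos_iff]
    intro h0
    have := radLin_det z t hz
    obtain ⟨α, β, -, h4, h5⟩ := exists_ab A
    rw [h0, norm_zero] at h4
    have ha : ‖α‖ = 0 := by linarith [norm_nonneg α, norm_nonneg β]
    have hb : ‖β‖ = 0 := by linarith [norm_nonneg α, norm_nonneg β]
    rw [ha, hb] at h5
    norm_num at h5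
    linarith
  have hq : QC (‖A‖ ^ 2 / A.det) A := by
    refine ⟨hdpos, ?_⟩
    rw [div_mul_cancel₀ _ hdpos.ne']
  have h3 := hq.lower v
  have h4 : A.det * ‖v‖ ≤ ‖A‖ * ‖A v‖ := by
    have h5 : ‖A‖ * (A.det * ‖v‖) ≤ ‖A‖ * (‖A‖ * ‖A v‖) := by
      calc ‖A‖ * (A.det * ‖v‖) = A.det * (‖A‖ * ‖v‖) := by ring
        _ ≤ A.det * (‖A‖ ^ 2 / A.det * ‖A v‖) := mul_le_mul_of_nonneg_left h3 hdpos.le
        _ = ‖A‖ * (‖A‖ * ‖A v‖) := by
            field_simp
    exact le_of_mul_le_mul_left h5 hApos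
  have h5 : c * ‖v‖ ≤ (1 + 1 / c) * ‖A v‖ := by
    calc c * ‖v‖ ≤ A.det * ‖v‖ := mul_le_mul_of_nonneg_right (by rw [hdet]; exact h1) (norm_nonneg v)
      _ ≤ ‖A‖ * ‖A v‖ := h4
      _ ≤ _ := mul_le_mul_of_nonneg_right hAn (norm_nonneg _)
  have h6 : c * (c * ‖v‖) ≤ (c + 1) * ‖A v‖ := by
    calc c * (c * ‖v‖) ≤ c * ((1 + 1 / c) * ‖A v‖) := mul_le_mul_of_nonneg_left h5 hc.le
      _ = (c + 1) * ‖A v‖ := by
          field_simp
  nlinarith [norm_nonneg (A v)]

/-- two radial maps with close derivatives: the dilatation of `F' ∘ F⁻¹` is close to `1`; the scalar factors do not matter -/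
theorem rad_close {c : ℝ} (hc : 0 < c) (hc1 : c ≤ 1) : ∃ C : ℝ, 1 ≤ C ∧ ∀ z t t' a a' : ℂ, ∀ B : ℂ →L[ℝ] ℂ, z ≠ 0 → a ≠ 0 → a' ≠ 0 →
    c ≤ 1 + t.re → ‖t‖ ≤ 1 / c → C * ‖t' - t‖ ≤ 1 → (∀ v, (a • radLin z t) (B v) = v) →
    QC (1 + C * ‖t' - t‖) ((a' • radLin z t').comp B) := by
  have hcc : 0 < c ^ 2 := by positivity
  refine ⟨16 / c ^ 2, ?_, ?_⟩
  · rw [le_div_iff₀ hcc]
    nlinarith
  intro z t t' a a' B hz ha ha' h1 h2 h3 hB
  set M : ℂ → (ℂ →L[ℝ] ℂ) := fun u => (ContinuousLinearMap.mul ℝ ℂ) u with hM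
  have hMapp : ∀ u v : ℂ, M u v = u * v := fun u v => by
    rw [hM]
    simp only [ContinuousLinearMap.mul_apply']
  have hMCL : ∀ u : ℂ, u ≠ 0 → CL (M u) := fun u hu => ⟨u, hu, hMapp u⟩
  set B1 : ℂ →L[ℝ] ℂ := B.comp (M a) with hB1
  have hAB : ∀ v, radLin z t (B1 v) = v := by
    intro v
    have := hB (a * v)
    rw [ContinuousLinearMap.smul_apply, smul_eq_mul] at this
    have h4 := mul_left_cancel₀ ha this
    rw [hB1, ContinuousLinearMap.comp_apply, hMapp]
    exact h4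
  have hm : 0 < c ^ 2 / 2 := by positivity
  have hd := radLin_sub_norm_le z t t' hz
  have h3' : ‖t' - t‖ ≤ c ^ 2 / 16 := by
    have e : 16 / c ^ 2 * ‖t' - t‖ = ‖t' - t‖ / (c ^ 2 / 16) := by
      field_simp
    rw [e, div_le_one (by positivity)] at h3
    exact h3
  have hclose := QC.close (A := radLin z t) (A' := radLin z t') (B := B1) hm
    (fun v => radLin_lower hc hc1 z t v hz h1 h2) hAB (by
      refine hd.trans (h3'.trans ?_)
      linarith)
  have hcomp := (hMCL a' ha').qc.comp (hclose.comp ((hMCL a⁻¹ (inv_ne_zero ha)).qc))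
  have e : (M a').comp (((radLin z t').comp B1).comp (M a⁻¹)) = (a' • radLin z t').comp B := by
    apply ContinuousLinearMap.ext
    intro v
    simp only [ContinuousLinearMap.comp_apply, hMapp, hB1, ContinuousLinearMap.smul_apply,
      smul_eq_mul]
    rw [← mul_assoc a a⁻¹ v, mul_inv_cancel₀ ha, one_mul]
  rw [e] at hcomp
  refine hcomp.mono ?_
  rw [one_mul, mul_one]
  have h5 : 8 * (‖radLin z t' - radLin z t‖ / (c ^ 2 / 2)) ≤ 16 / c ^ 2 * ‖t' - t‖ := by
    have e2 : 16 / c ^ 2 * ‖t' - t‖ = 8 * (‖t' - t‖ / (c ^ 2 / 2)) := by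
      field_simp
      ring
    rw [e2]
    have := div_le_div_of_nonneg_right hd hm.le
    linarith
  linarith

/-- injectivity and image: `w` real on the given interval, `x + w x` strictly increasing -/
theorem radMap_norm (w : ℝ → ℂ) (z : ℂ) (hz : z ≠ 0) : Real.log ‖radMap w z‖ = Real.log ‖z‖ + (w (Real.log ‖z‖)).re := by
  unfold radMap
  rw [norm_mul, Complex.norm_exp, Real.log_mul (norm_ne_zero_iff.2 hz) (Real.exp_ne_zero _),
    Real.log_exp]

/-- `radMap w` maps the annulus `r < ‖z‖ < R` bijectively onto the annulus `r' < ‖z‖ < R'` when `x ↦ x + Re (w x)` is a strictly increasing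
continuous bijection of `(log r, log R)` onto `(log r', log R')` -/
theorem radMap_bijOn (w : ℝ → ℂ) {r R r' R' : ℝ} (hr : 0 < r) (hR : r < R) (hr' : 0 < r') (hR' : r' < R')
    (hb : Set.BijOn (fun x => x + (w x).re) (Set.Ioo (Real.log r) (Real.log R)) (Set.Ioo (Real.log r') (Real.log R'))) :
    Set.BijOn (radMap w) {z : ℂ | r < ‖z‖ ∧ ‖z‖ < R} {z : ℂ | r' < ‖z‖ ∧ ‖z‖ < R'} := by
  have hne : ∀ z : ℂ, r < ‖z‖ → z ≠ 0 := fun z h => norm_pos_iff.1 (hr.trans h)
  have hlog : ∀ z : ℂ, r < ‖z‖ ∧ ‖z‖ < R → Real.log ‖z‖ ∈ Set.Ioo (Real.log r) (Real.log R) :=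
    fun z h => ⟨Real.log_lt_log hr h.1, Real.log_lt_log (hr.trans h.1) h.2⟩
  have hradne : ∀ z : ℂ, z ≠ 0 → radMap w z ≠ 0 := fun z h =>
    mul_ne_zero h (Complex.exp_ne_zero _)
  refine ⟨?_, ?_, ?_⟩
  · intro z hz
    have h1 := hb.mapsTo (hlog z hz)
    have hz0 := hne z hz.1
    have h2 : 0 < ‖radMap w z‖ := norm_pos_iff.2 (hradne z hz0)
    rw [← radMap_norm w z hz0] at h1
    exact ⟨(Real.log_lt_log_iff hr' h2).1 h1.1, (Real.log_lt_log_iff h2 (hr'.trans hR')).1 h1.2⟩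
  · intro z hz z' hz' h
    have hz0 := hne z hz.1
    have hz0' := hne z' hz'.1
    have h1 : Real.log ‖z‖ = Real.log ‖z'‖ := by
      apply hb.injOn (hlog z hz) (hlog z' hz')
      simp only
      rw [← radMap_norm w z hz0, ← radMap_norm w z' hz0', h]
    unfold radMap at h
    rw [h1] at h
    exact mul_right_cancel₀ (Complex.exp_ne_zero _) h
  · intro ζ hζ
    have hζ0 : 0 < ‖ζ‖ := hr'.trans hζ.1
    obtain ⟨x, hx, hx'⟩ := hb.surjOn (show Real.log ‖ζ‖ ∈ Set.Ioo (Real.log r') (Real.log R') from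
      ⟨Real.log_lt_log hr' hζ.1, Real.log_lt_log hζ0 hζ.2⟩)
    simp only at hx'
    refine ⟨ζ * Complex.exp (-(w x)), ?_, ?_⟩
    · have h1 : Real.log ‖ζ * Complex.exp (-(w x))‖ = x := by
        rw [norm_mul, Complex.norm_exp, Real.log_mul hζ0.ne' (Real.exp_ne_zero _), Real.log_exp,
          Complex.neg_re, ← hx']
        ring
      have h2 : 0 < ‖ζ * Complex.exp (-(w x))‖ := by
        rw [norm_mul]
        exact mul_pos hζ0 (norm_pos_iff.2 (Complex.exp_ne_zero _))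
      rw [← h1] at hx
      exact ⟨(Real.log_lt_log_iff hr h2).1 hx.1, (Real.log_lt_log_iff h2 (hr.trans hR)).1 hx.2⟩
    · unfold radMap
      have h1 : Real.log ‖ζ * Complex.exp (-(w x))‖ = x := by
        rw [norm_mul, Complex.norm_exp, Real.log_mul hζ0.ne' (Real.exp_ne_zero _), Real.log_exp,
          Complex.neg_re, ← hx']
        ring
      rw [h1, mul_assoc, ← Complex.exp_add, neg_add_cancel, Complex.exp_zero, mul_one]

end Pool.Agent.CcaPl
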