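import Mathlib
import Pool.Agent.Lib.MP_cca10c_ag.Pl.QcLin

/-!
# Families of plane homeomorphisms (MP_cca10c_ag, planar part, file D5)
-/

namespace Pool.Agent.CcaPl

open Set Metric
open scoped ContDiff

/-- A family `σ e`, `e ∈ [0,1]`, of smooth homeomorphisms of the plane, holomorphic off the compact set `K`, whose dilatation
depends in a `C`-Lipschitz way on `e`. -/
structure QcFamily (K : Set ℂ) (C : ℝ) where
  σ : ℝ → ℂ ≃ₜ ℂ
  one_le : 1 ≤ C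
  compact : IsCompact K
  zero : ∀ z, σ 0 z = z
  smooth : ∀ e ∈ Icc (0 : ℝ) 1, ContDiff ℝ ∞ (σ e)
  det : ∀ e ∈ Icc (0 : ℝ) 1, ∀ z, 0 < (fderiv ℝ (σ e) z).det
  conf : ∀ e ∈ Icc (0 : ℝ) 1, ∀ z ∉ K, DifferentiableAt ℂ (σ e) z
  close : ∀ e ∈ Icc (0 : ℝ) 1, ∀ e' ∈ Icc (0 : ℝ) 1, ∀ z, ∀ B : ℂ →L[ℝ] ℂ, (∀ v, fderiv ℝ (σ e) z (B v) = v) →
    QC (Real.exp (C * |e' - e|)) ((fderiv ℝ (σ e') z).comp B)

private theorem qcf_inv {A : ℂ →L[ℝ] ℂ} (h : 0 < A.det) :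
    ∃ B : ℂ →L[ℝ] ℂ, (∀ v, A (B v) = v) ∧ ∀ v, B (A v) = v := by
  refine ⟨((A.toContinuousLinearEquivOfDetNeZero h.ne').symm : ℂ →L[ℝ] ℂ), fun v => ?_, fun v => ?_⟩
  · exact (A.toContinuousLinearEquivOfDetNeZero h.ne').apply_symm_apply v
  · exact (A.toContinuousLinearEquivOfDetNeZero h.ne').symm_apply_apply v

private theorem qcf_chain {C : ℝ} (hC : 0 ≤ C) {δ : ℝ} (hδ : 0 < δ) (D : ℝ → ℂ →L[ℝ] ℂ)
    (hdet : ∀ e ∈ Icc (0 : ℝ) 1, 0 < (D e).det)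
    (h : ∀ e ∈ Icc (0 : ℝ) 1, ∀ e' ∈ Icc (0 : ℝ) 1, |e' - e| ≤ δ → ∀ B : ℂ →L[ℝ] ℂ,
      (∀ v, D e (B v) = v) → QC (1 + C * |e' - e|) ((D e').comp B)) (n : ℕ) :
    ∀ e ∈ Icc (0 : ℝ) 1, ∀ e' ∈ Icc (0 : ℝ) 1, |e' - e| ≤ n * δ → ∀ B : ℂ →L[ℝ] ℂ,
      (∀ v, D e (B v) = v) → QC (Real.exp (C * |e' - e|)) ((D e').comp B) := by
  induction n with
  | zero =>
    intro e he e' he' hee B hB
    have h0 : e' - e = 0 := by
      have h1 : |e' - e| ≤ 0 := by simpa using hee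
      exact abs_nonpos_iff.mp h1
    have h1 := h e he e' he' (by rw [h0, abs_zero]; exact hδ.le) B hB
    refine h1.mono ?_
    rw [h0, abs_zero, mul_zero, Real.exp_zero, add_zero]
  | succ n ih =>
    intro e he e' he' hee B hB
    have hn : (0 : ℝ) < (n : ℝ) + 1 := by positivity
    push_cast at hee
    set s : ℝ := (n : ℝ) / ((n : ℝ) + 1) with hs
    have hs0 : 0 ≤ s := by positivity
    have hs1 : 1 - s = 1 / ((n : ℝ) + 1) := by
      rw [hs]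
      field_simp
      ring
    have hs1' : 0 ≤ 1 - s := by
      rw [hs1]
      positivity
    set e2 : ℝ := (1 - s) * e + s * e' with he2
    have he2m : e2 ∈ Icc (0 : ℝ) 1 := by
      refine ⟨?_, ?_⟩
      · exact add_nonneg (mul_nonneg hs1' he.1) (mul_nonneg hs0 he'.1)
      · have a1 := mul_le_mul_of_nonneg_left he.2 hs1'
        have a2 := mul_le_mul_of_nonneg_left he'.2 hs0
        rw [he2]
        linarith
    have d1 : e2 - e = s * (e' - e) := by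
      rw [he2]
      ring
    have d2 : e' - e2 = (1 - s) * (e' - e) := by
      rw [he2]
      ring
    have a1 : |e2 - e| = s * |e' - e| := by rw [d1, abs_mul, abs_of_nonneg hs0]
    have a2 : |e' - e2| = (1 - s) * |e' - e| := by rw [d2, abs_mul, abs_of_nonneg hs1']
    have b1 : |e2 - e| ≤ n * δ := by
      rw [a1, hs, div_mul_eq_mul_div, div_le_iff₀ hn]
      have := mul_le_mul_of_nonneg_left hee (Nat.cast_nonneg n : (0 : ℝ) ≤ (n : ℝ))
      linarith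
    have b2 : |e' - e2| ≤ δ := by
      rw [a2, hs1, div_mul_eq_mul_div, one_mul, div_le_iff₀ hn]
      linarith
    obtain ⟨B2, hB2, hB2'⟩ := qcf_inv (hdet e2 he2m)
    have c1 := ih e he e2 he2m b1 B hB
    have c2 := h e2 he2m e' he' b2 B2 hB2
    have c3 := c2.comp c1
    have c4 : ((D e').comp B2).comp ((D e2).comp B) = (D e').comp B := by
      ext1
      simp [hB2']
    rw [c4] at c3
    refine c3.mono ?_
    have c5 : C * |e' - e| = C * |e' - e2| + C * |e2 - e| := by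
      rw [a1, a2]
      ring
    rw [c5, Real.exp_add]
    refine mul_le_mul_of_nonneg_right ?_ (Real.exp_pos _).le
    have c6 := Real.add_one_le_exp (C * |e' - e2|)
    have _ := hC
    linarith

/-- chaining: it is enough to know the dilatation for close parameters -/
theorem close_of_local {C : ℝ} (hC : 0 ≤ C) {δ : ℝ} (hδ : 0 < δ) (D : ℝ → ℂ →L[ℝ] ℂ)
    (hdet : ∀ e ∈ Icc (0 : ℝ) 1, 0 < (D e).det)
    (h : ∀ e ∈ Icc (0 : ℝ) 1, ∀ e' ∈ Icc (0 : ℝ) 1, |e' - e| ≤ δ → ∀ B : ℂ →L[ℝ] ℂ, (∀ v, D e (B v) = v) →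
      QC (1 + C * |e' - e|) ((D e').comp B)) :
    ∀ e ∈ Icc (0 : ℝ) 1, ∀ e' ∈ Icc (0 : ℝ) 1, ∀ B : ℂ →L[ℝ] ℂ, (∀ v, D e (B v) = v) →
      QC (Real.exp (C * |e' - e|)) ((D e').comp B) := by
  intro e he e' he' B hB
  obtain ⟨n, hn⟩ := exists_nat_ge (|e' - e| / δ)
  rw [div_le_iff₀ hδ] at hn
  exact qcf_chain hC hδ D hdet h n e he e' he' hn B hB

end Pool.Agent.CcaPl
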