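import Mathlib

/-!
# Annuli and residues: definitions (MP_cca10c_ag, planar part, file C0)
-/

namespace Pool.Agent.CcaPl

open Set Metric MeasureTheory

/-- the open annulus with centre `c` -/
def ann (c : ℂ) (r R : ℝ) : Set ℂ := {z | r < ‖z - c‖ ∧ ‖z - c‖ < R}

/-- the period (residue) of `φ dz` on the circle with centre `c` and radius `ρ` -/
noncomputable def res (φ : ℂ → ℂ) (c : ℂ) (ρ : ℝ) : ℂ := (2 * Real.pi * Complex.I)⁻¹ * ∮ z in C(c, ρ), φ z

/-- the `L²` energy of `φ dz` on a set -/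
noncomputable def en (φ : ℂ → ℂ) (S : Set ℂ) : ℝ := ∫ z in S, ‖φ z‖ ^ 2

end Pool.Agent.CcaPl
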