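import Mathlib
import Pool.Agent.Lib.MP_cca10c_ag.Pl.AnnDefs

/-!
# Holomorphic functions on an annulus: Parseval on circles (MP_cca10c_ag, planar part, file C1)

`φ` holomorphic on `ann 0 r R`. The numbers `a n = (2πi)⁻¹ ∮ z^{-n} φ z dz` (`n : ℤ`) do not depend on the radius
(`Complex.circleIntegral_eq_of_differentiable_on_annulus_off_countable`). So the Fourier coefficients of `θ ↦ ρ e^{iθ} φ (ρ e^{iθ})` are
`a n * ρ^n`, and Parseval (`hasSum_sq_fourierCoeffOn`) gives `exists_coeff`.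
-/

namespace Pool.Agent.CcaPl

open Set Metric MeasureTheory

private theorem annf_open (c : ℂ) (r R : ℝ) : IsOpen (ann c r R) := by
  have h1 : IsOpen {z : ℂ | r < ‖z - c‖} := isOpen_lt continuous_const (by fun_prop)
  have h2 : IsOpen {z : ℂ | ‖z - c‖ < R} := isOpen_lt (by fun_prop) continuous_const
  exact h1.inter h2

private theorem annf_circ {φ : ℂ → ℂ} {c : ℂ} {r R ρ ρ' : ℝ} (hr : 0 ≤ r)
    (hφ : DifferentiableOn ℂ φ (ann c r R)) (h1 : r < ρ) (h : ρ ≤ ρ') (h2 : ρ' < R) :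
    (∮ z in C(c, ρ'), φ z) = ∮ z in C(c, ρ), φ z := by
  have h0 : 0 < ρ := lt_of_le_of_lt hr h1
  refine Complex.circleIntegral_eq_of_differentiable_on_annulus_off_countable h0 h
    Set.countable_empty ?_ ?_
  · refine hφ.continuousOn.mono fun z hz => ?_
    have ha : dist z c ≤ ρ' := mem_closedBall.mp hz.1
    have hb : ¬ dist z c < ρ := fun hlt => hz.2 (mem_ball.mpr hlt)
    rw [dist_eq_norm] at ha hb
    exact ⟨by linarith [not_lt.mp hb], by linarith⟩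
  · intro z hz
    have ha : dist z c < ρ' := mem_ball.mp hz.1.1
    have hb : ¬ dist z c ≤ ρ := fun hlt => hz.1.2 (mem_closedBall.mpr hlt)
    rw [dist_eq_norm] at ha hb
    exact hφ.differentiableAt ((annf_open c r R).mem_nhds
      ⟨by linarith [not_le.mp hb], by linarith⟩)

theorem res_indep {φ : ℂ → ℂ} {c : ℂ} {r R ρ ρ' : ℝ} (hr : 0 ≤ r) (hφ : DifferentiableOn ℂ φ (ann c r R)) (h1 : r < ρ) (h2 : ρ < R)
    (h1' : r < ρ') (h2' : ρ' < R) : res φ c ρ = res φ c ρ' := by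
  unfold res
  rcases le_total ρ ρ' with h | h
  · rw [annf_circ hr hφ h1 h h2']
  · rw [annf_circ hr hφ h1' h h2]

/-- the coefficients do not depend on the radius -/
private theorem annf_coeff {φ : ℂ → ℂ} {r R ρ ρ' : ℝ} (hr : 0 ≤ r)
    (hφ : DifferentiableOn ℂ φ (ann 0 r R)) (n : ℤ) (h1 : r < ρ) (h2 : ρ < R)
    (h1' : r < ρ') (h2' : ρ' < R) :
    res (fun z => z ^ (-n) * φ z) 0 ρ = res (fun z => z ^ (-n) * φ z) 0 ρ' := by
  refine res_indep hr ?_ h1 h2 h1' h2'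
  refine DifferentiableOn.mul (fun z hz => ?_) hφ
  have hz0 : z ≠ 0 := by
    rintro rfl
    have := hz.1
    simp at this
    linarith
  exact (differentiableAt_zpow.mpr (Or.inl hz0)).differentiableWithinAt

/-- the coefficients are Fourier coefficients -/
private theorem annf_fourier {φ : ℂ → ℂ} {ρ : ℝ} (hρ : 0 < ρ) (n : ℤ) :
    fourierCoeffOn Real.two_pi_pos (fun θ => circleMap 0 ρ θ * φ (circleMap 0 ρ θ)) n =
      res (fun z => z ^ (-n) * φ z) 0 ρ * (ρ : ℂ) ^ n := by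
  have hρc : (ρ : ℂ) ≠ 0 := by exact_mod_cast hρ.ne'
  rw [fourierCoeffOn_eq_integral, res, circleIntegral]
  have key : ∀ θ : ℝ, deriv (circleMap 0 ρ) θ • (circleMap 0 ρ θ ^ (-n) * φ (circleMap 0 ρ θ)) =
      (Complex.I * (ρ : ℂ) ^ (-n)) * (fourier (-n) (θ : AddCircle (2 * Real.pi - 0)) •
        (circleMap 0 ρ θ * φ (circleMap 0 ρ θ))) := by
    intro θ
    rw [deriv_circleMap, fourier_coe_apply, circleMap_zero, mul_zpow, ← Complex.exp_int_mul]
    have e : (2 * (Real.pi : ℂ) * Complex.I * ((-n : ℤ) : ℂ) * (θ : ℂ) /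
        (((2 * Real.pi - 0 : ℝ)) : ℂ)) = ((-n : ℤ) : ℂ) * (θ * Complex.I) := by
      have hpi : (Real.pi : ℂ) ≠ 0 := by exact_mod_cast Real.pi_ne_zero
      push_cast
      field_simp
      ring
    rw [e]
    simp only [smul_eq_mul]
    ring
  simp_rw [key]
  rw [intervalIntegral.integral_const_mul]
  have hpi : (Real.pi : ℂ) ≠ 0 := by exact_mod_cast Real.pi_ne_zero
  have hz : (ρ : ℂ) ^ (-n) * (ρ : ℂ) ^ n = 1 := by
    rw [← zpow_add₀ hρc]
    simp
  rw [Complex.real_smul]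
  push_cast
  have : ∀ J : ℂ, (2 * (Real.pi : ℂ) * Complex.I)⁻¹ * (Complex.I * (ρ : ℂ) ^ (-n) * J) * (ρ : ℂ) ^ n =
      (1 / (2 * (Real.pi : ℂ))) * J * ((ρ : ℂ) ^ (-n) * (ρ : ℂ) ^ n) := by
    intro J
    field_simp
  rw [this, hz]
  simp

theorem exists_coeff {φ : ℂ → ℂ} {r R : ℝ} (hr : 0 ≤ r) (hφ : DifferentiableOn ℂ φ (ann 0 r R)) :
    ∃ a : ℤ → ℂ, (∀ ρ, r < ρ → ρ < R → a 0 = res φ 0 ρ) ∧ ∀ ρ, r < ρ → ρ < R →
      Summable (fun n : ℤ => ‖a n‖ ^ 2 * (ρ ^ n) ^ 2) ∧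
      ∫ θ in (0 : ℝ)..2 * Real.pi, ρ ^ 2 * ‖φ (circleMap 0 ρ θ)‖ ^ 2 = 2 * Real.pi * ∑' n : ℤ, ‖a n‖ ^ 2 * (ρ ^ n) ^ 2 := by
  rcases le_or_gt R r with hle | hlt
  · exact ⟨0, fun ρ h1 h2 => absurd (h1.trans h2) (not_lt.mpr hle),
      fun ρ h1 h2 => absurd (h1.trans h2) (not_lt.mpr hle)⟩
  have hm1 : r < (r + R) / 2 := by linarith
  have hm2 : (r + R) / 2 < R := by linarith
  refine ⟨fun n => res (fun z => z ^ (-n) * φ z) 0 ((r + R) / 2), ?_, ?_⟩
  · intro ρ h1 h2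
    simp only
    rw [annf_coeff hr hφ 0 hm1 hm2 h1 h2]
    simp
  · intro ρ h1 h2
    have hρ : 0 < ρ := lt_of_le_of_lt hr h1
    set F : ℝ → ℂ := fun θ => circleMap 0 ρ θ * φ (circleMap 0 ρ θ) with hF
    have hmaps : ∀ θ, circleMap 0 ρ θ ∈ ann 0 r R := by
      intro θ
      have : ‖circleMap 0 ρ θ - 0‖ = ρ := by
        rw [sub_zero, norm_circleMap_zero, abs_of_pos hρ]
      exact ⟨by rw [this]; exact h1, by rw [this]; exact h2⟩
    have hcont : Continuous F := by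
      refine (continuous_circleMap 0 ρ).mul ?_
      exact hφ.continuousOn.comp_continuous (continuous_circleMap 0 ρ) hmaps
    have hL2 : MemLp F 2 (volume.restrict (Ioc 0 (2 * Real.pi))) := by
      obtain ⟨C, hC⟩ := (isCompact_Icc (a := (0 : ℝ)) (b := 2 * Real.pi)).exists_bound_of_continuousOn
        hcont.continuousOn
      refine MemLp.of_bound hcont.aestronglyMeasurable C ?_
      refine (ae_restrict_iff' measurableSet_Ioc).mpr (Filter.Eventually.of_forall fun θ hθ => ?_)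
      exact hC θ (Ioc_subset_Icc_self hθ)
    have hsum := hasSum_sq_fourierCoeffOn Real.two_pi_pos hL2
    have hterm : ∀ n : ℤ, ‖fourierCoeffOn Real.two_pi_pos F n‖ ^ 2 =
        ‖res (fun z => z ^ (-n) * φ z) 0 ((r + R) / 2)‖ ^ 2 * (ρ ^ n) ^ 2 := by
      intro n
      rw [hF, annf_fourier hρ, annf_coeff hr hφ n h1 h2 hm1 hm2, norm_mul, mul_pow, norm_zpow,
        Complex.norm_real, Real.norm_of_nonneg hρ.le]
    simp_rw [hterm] at hsum
    refine ⟨hsum.summable, ?_⟩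
    rw [hsum.tsum_eq]
    have hn : ∀ θ, ρ ^ 2 * ‖φ (circleMap 0 ρ θ)‖ ^ 2 = ‖F θ‖ ^ 2 := by
      intro θ
      rw [hF]
      simp only
      rw [norm_mul, mul_pow, norm_circleMap_zero, sq_abs]
    simp_rw [hn]
    rw [smul_eq_mul, sub_zero, ← mul_assoc, mul_inv_cancel₀ Real.two_pi_pos.ne', one_mul]

end Pool.Agent.CcaPl
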