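import Mathlib
import Pool.Agent.Lib.MP_cca10c_ag.Pl.AnnFourier

/-!
# Energy in the middle of an annulus (MP_cca10c_ag, planar part, file C2)

Polar coordinates: `en φ (ann 0 s t) = ∫_s^t (∫_0^{2π} ‖φ(ρe^{iθ})‖² dθ) ρ dρ = ∫_s^t 2π Σ |a n|² ρ^{2n} dρ/ρ`.
* `res_sq_le`: the term `n = 0` gives `2π |a 0|² log (R/r)` (for square integrable `φ`; approximate the annulus from inside).
* `en_middle`: for `n > 0`, `∫_{ρ1}^{ρ2} ρ^{2n} dρ/ρ ≤ ρ2^{2n}/(2n)` and `∫_{R/e}^{R} ρ^{2n} dρ/ρ = R^{2n} (1 - e^{-2n})/(2n)`, the quotient is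
  `≤ 2 (ρ2/R)^{2n} ≤ 2 (ρ2/R)^2`; the same for `n < 0` with `r`.
-/

namespace Pool.Agent.CcaPl

open Set Metric MeasureTheory

open scoped ENNReal in
/-- `∫_s^t ρ^{2n} dρ/ρ` -/
private noncomputable def aeJ (n : ℤ) (s t : ℝ) : ℝ≥0∞ :=
  ∫⁻ ρ in Ioo s t, ENNReal.ofReal ((ρ ^ n) ^ 2 / ρ)

private noncomputable def aeF (n : ℤ) (s t : ℝ) : ℝ :=
  if n = 0 then Real.log (t / s) else (t ^ (2 * n) - s ^ (2 * n)) / (2 * n)

private theorem aeJ_eq (n : ℤ) {s t : ℝ} (hs : 0 < s) (hst : s ≤ t) :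
    aeJ n s t = ENNReal.ofReal (aeF n s t) := by
  have ht : 0 < t := hs.trans_le hst
  have hint : IntervalIntegrable (fun ρ : ℝ => ρ ^ (2 * n - 1)) volume s t := by
    apply ContinuousOn.intervalIntegrable
    rw [uIcc_of_le hst]
    intro x hx
    exact (continuousAt_zpow₀ x _ (Or.inl (hs.trans_le hx.1).ne')).continuousWithinAt
  have h1 : aeJ n s t = ∫⁻ ρ in Ioc s t, ENNReal.ofReal (ρ ^ (2 * n - 1)) := by
    unfold aeJ
    rw [setLIntegral_congr Ioo_ae_eq_Ioc]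
    refine setLIntegral_congr_fun measurableSet_Ioc fun ρ hρ => ?_
    have hρ0 : ρ ≠ 0 := (hs.trans hρ.1).ne'
    congr 1
    rw [zpow_sub₀ hρ0, zpow_one, mul_comm 2 n, zpow_mul]
    norm_cast
  rw [h1, ← ofReal_integral_eq_lintegral_ofReal]
  · congr 1
    rw [← intervalIntegral.integral_of_le hst]
    unfold aeF
    split_ifs with hn
    · subst hn
      simp only [mul_zero, zero_sub, zpow_neg, zpow_one]
      exact integral_inv_of_pos hs ht
    · rw [integral_zpow (Or.inr ⟨by omega, notMem_uIcc_of_lt hs ht⟩)]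
      push_cast
      congr 1
      · congr 2 <;> ring
      · ring
  · exact (intervalIntegrable_iff_integrableOn_Ioc_of_le hst).1 hint
  · refine (ae_restrict_iff' measurableSet_Ioc).2 (Filter.Eventually.of_forall fun ρ hρ => ?_)
    exact zpow_nonneg (hs.trans hρ.1).le _

private theorem ae_pow_le {x : ℝ} (h0 : 0 ≤ x) (h1 : x ≤ 1) {k : ℕ} (hk : 2 ≤ k) : x ^ k ≤ x ^ 2 :=
  pow_le_pow_of_le_one h0 h1 hk

private theorem aeF_compare {r R ρ1 ρ2 : ℝ} (hr : 0 < r) (h3 : r ≤ ρ1) (h4 : ρ1 ≤ ρ2) (h5 : ρ2 ≤ R)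
    (h6 : Real.exp 1 * r ≤ R) {n : ℤ} (hn : n ≠ 0) :
    aeF n ρ1 ρ2 ≤ 2 * ((ρ2 / R) ^ 2 + (r / ρ1) ^ 2) * aeF n r R := by
  have hρ1 : 0 < ρ1 := hr.trans_le h3
  have hρ2 : 0 < ρ2 := hρ1.trans_le h4
  have hR : 0 < R := hρ2.trans_le h5
  have he : (2 : ℝ) ≤ Real.exp 1 := by
    have := Real.add_one_le_exp (1 : ℝ)
    linarith
  have hkey : ∀ k : ℕ, 1 ≤ k → 2 * r ^ k ≤ R ^ k := by
    intro k hk
    calc 2 * r ^ k ≤ (Real.exp 1) ^ k * r ^ k := by
          gcongr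
          calc (2 : ℝ) ≤ Real.exp 1 := he
            _ = Real.exp 1 ^ 1 := (pow_one _).symm
            _ ≤ Real.exp 1 ^ k := pow_le_pow_right₀ (by linarith) hk
      _ = (Real.exp 1 * r) ^ k := (mul_pow _ _ _).symm
      _ ≤ R ^ k := by gcongr
  have hA : 0 ≤ (ρ2 / R) ^ 2 := by positivity
  have hB : 0 ≤ (r / ρ1) ^ 2 := by positivity
  have hcase : (∃ m : ℕ, 1 ≤ m ∧ n = m) ∨ (∃ m : ℕ, 1 ≤ m ∧ n = -m) := by
    rcases Int.eq_nat_or_neg n with ⟨m, hm | hm⟩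
    · exact Or.inl ⟨m, by omega, hm⟩
    · exact Or.inr ⟨m, by omega, hm⟩
  rcases hcase with ⟨m, hm, rfl⟩ | ⟨m, hm, rfl⟩
  · have hm0 : (0 : ℝ) < m := by exact_mod_cast hm
    have hE : ∀ s t : ℝ, aeF (m : ℤ) s t = (t ^ (2 * m) - s ^ (2 * m)) / (2 * m) := by
      intro s t
      rw [aeF, if_neg hn]
      push_cast
      congr 1
    rw [hE, hE]
    have hk := hkey (2 * m) (by omega)
    have h7 : (ρ2 / R) ^ (2 * m) ≤ (ρ2 / R) ^ 2 :=
      ae_pow_le (by positivity) ((div_le_one hR).2 h5) (by omega)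
    have h8 : ρ2 ^ (2 * m) = (ρ2 / R) ^ (2 * m) * R ^ (2 * m) := by
      rw [div_pow]; field_simp
    have hρ : 0 ≤ ρ1 ^ (2 * m) := by positivity
    have hRr : 0 ≤ (R ^ (2 * m) - r ^ (2 * m)) / (2 * m) := by
      apply div_nonneg _ (by positivity)
      have : r ^ (2 * m) ≤ R ^ (2 * m) := by
        have := pow_pos hr (2 * m)
        linarith
      linarith
    calc (ρ2 ^ (2 * m) - ρ1 ^ (2 * m)) / (2 * m) ≤ ρ2 ^ (2 * m) / (2 * m) := by
          gcongr; linarith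
      _ = (ρ2 / R) ^ (2 * m) * R ^ (2 * m) / (2 * m) := by rw [← h8]
      _ ≤ (ρ2 / R) ^ 2 * R ^ (2 * m) / (2 * m) := by gcongr
      _ ≤ (ρ2 / R) ^ 2 * (2 * (R ^ (2 * m) - r ^ (2 * m))) / (2 * m) := by gcongr; linarith
      _ = 2 * (ρ2 / R) ^ 2 * ((R ^ (2 * m) - r ^ (2 * m)) / (2 * m)) := by ring
      _ ≤ 2 * ((ρ2 / R) ^ 2 + (r / ρ1) ^ 2) * ((R ^ (2 * m) - r ^ (2 * m)) / (2 * m)) := by
          apply mul_le_mul_of_nonneg_right _ hRr
          linarith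
  · have hm0 : (0 : ℝ) < m := by exact_mod_cast hm
    have hE : ∀ s t : ℝ, aeF (-(m : ℤ)) s t
        = ((s ^ (2 * m))⁻¹ - (t ^ (2 * m))⁻¹) / (2 * m) := by
      intro s t
      rw [aeF, if_neg hn]
      have e1 : ∀ x : ℝ, x ^ (2 * -(m : ℤ)) = (x ^ (2 * m))⁻¹ := by
        intro x
        rw [mul_neg, zpow_neg]
        norm_cast
      rw [e1, e1]
      push_cast
      field_simp
      ring
    rw [hE, hE]
    have hk := hkey (2 * m) (by omega)
    have h7 : (r / ρ1) ^ (2 * m) ≤ (r / ρ1) ^ 2 :=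
      ae_pow_le (by positivity) ((div_le_one hρ1).2 h3) (by omega)
    have h8 : (ρ1 ^ (2 * m))⁻¹ = (r / ρ1) ^ (2 * m) * (r ^ (2 * m))⁻¹ := by
      rw [div_pow]; field_simp
    have hρ : 0 ≤ (ρ2 ^ (2 * m))⁻¹ := by positivity
    have hk' : (R ^ (2 * m))⁻¹ ≤ (r ^ (2 * m))⁻¹ / 2 := by
      have h9 : (R ^ (2 * m))⁻¹ ≤ (2 * r ^ (2 * m))⁻¹ := by gcongr
      calc (R ^ (2 * m))⁻¹ ≤ (2 * r ^ (2 * m))⁻¹ := h9
        _ = (r ^ (2 * m))⁻¹ / 2 := by rw [mul_inv]; ring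
    have hr' : 0 < (r ^ (2 * m))⁻¹ := by positivity
    have hRr : 0 ≤ ((r ^ (2 * m))⁻¹ - (R ^ (2 * m))⁻¹) / (2 * m) := by
      apply div_nonneg _ (by positivity)
      linarith
    calc ((ρ1 ^ (2 * m))⁻¹ - (ρ2 ^ (2 * m))⁻¹) / (2 * m) ≤ (ρ1 ^ (2 * m))⁻¹ / (2 * m) := by
          gcongr; linarith
      _ = (r / ρ1) ^ (2 * m) * (r ^ (2 * m))⁻¹ / (2 * m) := by rw [← h8]
      _ ≤ (r / ρ1) ^ 2 * (r ^ (2 * m))⁻¹ / (2 * m) := by gcongr
      _ ≤ (r / ρ1) ^ 2 * (2 * ((r ^ (2 * m))⁻¹ - (R ^ (2 * m))⁻¹)) / (2 * m) := by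
          gcongr; linarith
      _ = 2 * (r / ρ1) ^ 2 * (((r ^ (2 * m))⁻¹ - (R ^ (2 * m))⁻¹) / (2 * m)) := by ring
      _ ≤ 2 * ((ρ2 / R) ^ 2 + (r / ρ1) ^ 2) * (((r ^ (2 * m))⁻¹ - (R ^ (2 * m))⁻¹) / (2 * m)) := by
          apply mul_le_mul_of_nonneg_right _ hRr
          linarith

/-- the energy formula -/
private theorem ae_formula {φ : ℂ → ℂ} {r R s t : ℝ} (hr : 0 < r)
    (hφ : DifferentiableOn ℂ φ (ann 0 r R)) (hs : r ≤ s) (ht : t ≤ R) {a : ℤ → ℂ}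
    (ha : ∀ ρ, r < ρ → ρ < R →
      Summable (fun n : ℤ => ‖a n‖ ^ 2 * (ρ ^ n) ^ 2) ∧
      ∫ θ in (0 : ℝ)..2 * Real.pi, ρ ^ 2 * ‖φ (circleMap 0 ρ θ)‖ ^ 2
        = 2 * Real.pi * ∑' n : ℤ, ‖a n‖ ^ 2 * (ρ ^ n) ^ 2) :
    ∫⁻ z in ann 0 s t, ENNReal.ofReal (‖φ z‖ ^ 2)
      = ∑' n : ℤ, ENNReal.ofReal (2 * Real.pi * ‖a n‖ ^ 2) * aeJ n s t := by
  classical
  have hopen : ∀ s t : ℝ, IsOpen (ann 0 s t) := by
    intro s t
    have h1 : ann 0 s t = {z : ℂ | s < ‖z - 0‖} ∩ {z | ‖z - 0‖ < t} := rfl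
    rw [h1]
    exact (isOpen_lt continuous_const (by fun_prop)).inter
      (isOpen_lt (by fun_prop) continuous_const)
  have hsub : ann 0 s t ⊆ ann 0 r R := fun z hz => ⟨hs.trans_lt hz.1, hz.2.trans_le ht⟩
  have hφc : ContinuousOn φ (ann 0 s t) := hφ.continuousOn.mono hsub
  set g : ℂ → ENNReal := (ann 0 s t).indicator fun z => ENNReal.ofReal (‖φ z‖ ^ 2) with hg
  have hgm : Measurable g := by
    have h1 : Measurable ((ann 0 s t).indicator φ) := by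
      have := hφc.measurable_piecewise (g := fun _ => (0 : ℂ)) continuousOn_const
        (hopen s t).measurableSet
      rwa [show (fun _ : ℂ => (0 : ℂ)) = 0 from rfl, Set.piecewise_eq_indicator] at this
    have h2 : g = fun z => ENNReal.ofReal (‖(ann 0 s t).indicator φ z‖ ^ 2) := by
      funext z
      by_cases hz : z ∈ ann 0 s t
      · simp [hg, hz]
      · simp [hg, hz]
    rw [h2]
    exact (h1.norm.pow_const 2).ennreal_ofReal
  rw [← lintegral_indicator (hopen s t).measurableSet]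
  change ∫⁻ z, g z = _
  rw [← Complex.lintegral_comp_polarCoord_symm g]
  have htarget : polarCoord.target = Ioi (0 : ℝ) ×ˢ Ioo (-Real.pi) Real.pi := rfl
  have hpolar : ∀ ρ θ : ℝ, Complex.polarCoord.symm (ρ, θ) = circleMap 0 ρ θ := by
    intro ρ θ
    rw [Complex.polarCoord_symm_apply, circleMap, zero_add, Complex.exp_mul_I]
    push_cast
    rfl
  rw [htarget, Measure.volume_eq_prod, ← Measure.prod_restrict, lintegral_prod]
  · have hinner : ∀ ρ ∈ Ioi (0 : ℝ),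
        (∫⁻ θ in Ioo (-Real.pi) Real.pi, ENNReal.ofReal ρ • g (Complex.polarCoord.symm (ρ, θ)))
        = (Ioo s t).indicator (fun ρ => ∑' n : ℤ, ENNReal.ofReal (2 * Real.pi * ‖a n‖ ^ 2) *
            ENNReal.ofReal ((ρ ^ n) ^ 2 / ρ)) ρ := by
      intro ρ hρ
      have hρ0 : 0 < ρ := hρ
      simp only [hpolar]
      by_cases hmem : ρ ∈ Ioo s t
      · rw [indicator_of_mem hmem]
        have hmem' : ∀ θ : ℝ, circleMap 0 ρ θ ∈ ann 0 s t := by
          intro θ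
          rw [ann, mem_ofPred_eq, sub_zero, norm_circleMap_zero, abs_of_pos hρ0]
          exact hmem
        have hgθ : ∀ θ : ℝ, ENNReal.ofReal ρ • g (circleMap 0 ρ θ)
            = ENNReal.ofReal (ρ * ‖φ (circleMap 0 ρ θ)‖ ^ 2) := by
          intro θ
          rw [hg, indicator_of_mem (hmem' θ), smul_eq_mul, ENNReal.ofReal_mul hρ0.le]
        simp only [hgθ]
        have hcont : Continuous fun θ : ℝ => φ (circleMap 0 ρ θ) :=
          hφc.comp_continuous (continuous_circleMap 0 ρ) hmem'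
        have hcont2 : Continuous fun θ : ℝ => ρ * ‖φ (circleMap 0 ρ θ)‖ ^ 2 :=
          continuous_const.mul (hcont.norm.pow 2)
        obtain ⟨hsum, hpars⟩ := ha ρ (hs.trans_lt hmem.1) (hmem.2.trans_le ht)
        have hper : ∫ θ in (-Real.pi)..Real.pi, ρ * ‖φ (circleMap 0 ρ θ)‖ ^ 2
            = ∫ θ in (0 : ℝ)..2 * Real.pi, ρ * ‖φ (circleMap 0 ρ θ)‖ ^ 2 := by
          have hp : Function.Periodic (fun θ : ℝ => ρ * ‖φ (circleMap 0 ρ θ)‖ ^ 2)
              (2 * Real.pi) := by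
            intro θ
            simp only
            rw [periodic_circleMap 0 ρ θ]
          have := hp.intervalIntegral_add_eq (-Real.pi) 0
          rw [zero_add, show -Real.pi + 2 * Real.pi = Real.pi by ring] at this
          exact this
        have h1 : ∫⁻ θ in Ioo (-Real.pi) Real.pi, ENNReal.ofReal (ρ * ‖φ (circleMap 0 ρ θ)‖ ^ 2)
            = ENNReal.ofReal (∫ θ in (0 : ℝ)..2 * Real.pi, ρ * ‖φ (circleMap 0 ρ θ)‖ ^ 2) := by
          rw [setLIntegral_congr Ioo_ae_eq_Ioc, ← ofReal_integral_eq_lintegral_ofReal,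
            ← intervalIntegral.integral_of_le (by linarith [Real.pi_pos]), hper]
          · exact (intervalIntegrable_iff_integrableOn_Ioc_of_le
              (by linarith [Real.pi_pos])).1 (hcont2.intervalIntegrable _ _)
          · exact Filter.Eventually.of_forall fun θ => by positivity
        have h2 : ∫ θ in (0 : ℝ)..2 * Real.pi, ρ * ‖φ (circleMap 0 ρ θ)‖ ^ 2
            = ∑' n : ℤ, 2 * Real.pi * ‖a n‖ ^ 2 * ((ρ ^ n) ^ 2 / ρ) := by
          have h3 : ∫ θ in (0 : ℝ)..2 * Real.pi, ρ * ‖φ (circleMap 0 ρ θ)‖ ^ 2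
              = (∫ θ in (0 : ℝ)..2 * Real.pi, ρ ^ 2 * ‖φ (circleMap 0 ρ θ)‖ ^ 2) / ρ := by
            rw [← intervalIntegral.integral_div]
            congr 1
            funext θ
            field_simp
          rw [h3, hpars, mul_div_assoc, ← tsum_div_const, ← tsum_mul_left]
          congr 1
          funext n
          ring
        rw [h1, h2, ENNReal.ofReal_tsum_of_nonneg]
        · congr 1
          funext n
          rw [ENNReal.ofReal_mul (by positivity)]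
        · intro n
          positivity
        · have := (hsum.mul_left (2 * Real.pi)).div_const ρ
          refine this.congr fun n => ?_
          ring
      · rw [indicator_of_notMem hmem]
        have hz : ∀ θ : ℝ, g (circleMap 0 ρ θ) = 0 := by
          intro θ
          rw [hg]
          apply indicator_of_notMem
          rw [ann, mem_ofPred_eq, sub_zero, norm_circleMap_zero, abs_of_pos hρ0]
          exact hmem
        simp [hz]
    rw [setLIntegral_congr_fun measurableSet_Ioi hinner, setLIntegral_indicator measurableSet_Ioo]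
    have hint : Ioo s t ∩ Ioi 0 = Ioo s t := by
      rw [inter_eq_left]
      intro x hx
      exact (hr.trans_le hs).trans hx.1
    rw [hint, lintegral_tsum]
    · congr 1
      funext n
      unfold aeJ
      rw [lintegral_const_mul]
      fun_prop
    · intro n
      fun_prop
  · refine Measurable.aemeasurable ?_
    refine Measurable.mul ?_ ?_
    · exact measurable_fst.ennreal_ofReal
    · refine hgm.comp ?_
      have : (fun p : ℝ × ℝ => Complex.polarCoord.symm p)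
          = fun p : ℝ × ℝ => (p.1 : ℂ) * (Real.cos p.2 + Real.sin p.2 * Complex.I) := by
        funext p
        exact Complex.polarCoord_symm_apply p
      change Measurable fun p : ℝ × ℝ => Complex.polarCoord.symm p
      rw [this]
      fun_prop

private theorem ae_en_eq {φ : ℂ → ℂ} {c : ℂ} {r R s t : ℝ} (hs : r ≤ s) (ht : t ≤ R)
    (hi : IntegrableOn (fun z => ‖φ z‖ ^ 2) (ann c r R)) :
    ENNReal.ofReal (en φ (ann c s t)) = ∫⁻ z in ann c s t, ENNReal.ofReal (‖φ z‖ ^ 2) := by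
  have hsub : ann c s t ⊆ ann c r R := fun z hz => ⟨hs.trans_lt hz.1, hz.2.trans_le ht⟩
  exact ofReal_integral_eq_lintegral_ofReal (hi.mono_set hsub)
    (Filter.Eventually.of_forall fun z => by positivity)

private theorem ae_res_zero {φ : ℂ → ℂ} {r R ρ : ℝ} (hr : 0 < r)
    (hφ : DifferentiableOn ℂ φ (ann 0 r R)) (h1 : r < ρ) (h2 : ρ < R)
    (hi : IntegrableOn (fun z => ‖φ z‖ ^ 2) (ann 0 r R)) :
    2 * Real.pi * ‖res φ 0 ρ‖ ^ 2 * Real.log (R / r) ≤ en φ (ann 0 r R) := by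
  obtain ⟨a, ha0, ha⟩ := exists_coeff hr.le hφ
  rw [← ha0 ρ h1 h2]
  have h3 := ae_formula hr hφ le_rfl le_rfl ha
  rw [← ae_en_eq le_rfl le_rfl hi] at h3
  have h4 := ENNReal.le_tsum (f := fun n : ℤ =>
    ENNReal.ofReal (2 * Real.pi * ‖a n‖ ^ 2) * aeJ n r R) 0
  rw [← h3] at h4
  rw [aeJ_eq 0 hr (h1.le.trans h2.le), ← ENNReal.ofReal_mul (by positivity), aeF,
    if_pos rfl] at h4
  have hen : 0 ≤ en φ (ann 0 r R) := integral_nonneg fun z => by positivity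
  exact (ENNReal.ofReal_le_ofReal_iff hen).1 h4

private theorem ae_middle_zero {φ : ℂ → ℂ} {r R ρ ρ1 ρ2 : ℝ} (hr : 0 < r)
    (hφ : DifferentiableOn ℂ φ (ann 0 r R)) (h1 : r < ρ) (h2 : ρ < R)
    (hi : IntegrableOn (fun z => ‖φ z‖ ^ 2) (ann 0 r R)) (h3 : r ≤ ρ1) (h4 : ρ1 ≤ ρ2)
    (h5 : ρ2 ≤ R) (h6 : Real.exp 1 * r ≤ R) :
    en φ (ann 0 ρ1 ρ2) ≤ 2 * Real.pi * ‖res φ 0 ρ‖ ^ 2 * Real.log (ρ2 / ρ1) +
      2 * ((ρ2 / R) ^ 2 + (r / ρ1) ^ 2) * en φ (ann 0 r R) := by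
  obtain ⟨a, ha0, ha⟩ := exists_coeff hr.le hφ
  rw [← ha0 ρ h1 h2]
  have hρ1 : 0 < ρ1 := hr.trans_le h3
  have hρ2 : 0 < ρ2 := hρ1.trans_le h4
  have e1 := ae_formula hr hφ le_rfl le_rfl ha
  have e2 := ae_formula hr hφ h3 h5 ha
  rw [← ae_en_eq le_rfl le_rfl hi] at e1
  rw [← ae_en_eq h3 h5 hi] at e2
  set κ : ℝ := 2 * ((ρ2 / R) ^ 2 + (r / ρ1) ^ 2) with hκ
  have hκ0 : 0 ≤ κ := by positivity
  have hen : 0 ≤ en φ (ann 0 r R) := integral_nonneg fun z => by positivity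
  have hlog : 0 ≤ Real.log (ρ2 / ρ1) := Real.log_nonneg ((one_le_div hρ1).2 h4)
  have hrhs : 0 ≤ 2 * Real.pi * ‖a 0‖ ^ 2 * Real.log (ρ2 / ρ1) + κ * en φ (ann 0 r R) := by
    positivity
  rw [← ENNReal.ofReal_le_ofReal_iff hrhs, e2, ENNReal.ofReal_add (by positivity) (by positivity),
    ENNReal.ofReal_mul hκ0, e1, ← ENNReal.tsum_mul_left]
  have hite : ENNReal.ofReal (2 * Real.pi * ‖a 0‖ ^ 2 * Real.log (ρ2 / ρ1))
      = ∑' n : ℤ, if n = 0 then ENNReal.ofReal (2 * Real.pi * ‖a 0‖ ^ 2 * Real.log (ρ2 / ρ1))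
        else 0 := (tsum_ite_eq (0 : ℤ) (fun _ =>
          ENNReal.ofReal (2 * Real.pi * ‖a 0‖ ^ 2 * Real.log (ρ2 / ρ1)))).symm
  rw [hite, ← ENNReal.tsum_add]
  refine ENNReal.tsum_le_tsum fun n => ?_
  by_cases hn : n = 0
  · subst hn
    rw [if_pos rfl, aeJ_eq 0 hρ1 h4, ← ENNReal.ofReal_mul (by positivity), aeF, if_pos rfl]
    exact le_self_add
  · rw [if_neg hn, zero_add, aeJ_eq n hρ1 h4, aeJ_eq n hr (h1.le.trans h2.le)]
    calc ENNReal.ofReal (2 * Real.pi * ‖a n‖ ^ 2) * ENNReal.ofReal (aeF n ρ1 ρ2)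
        ≤ ENNReal.ofReal (2 * Real.pi * ‖a n‖ ^ 2) * ENNReal.ofReal (κ * aeF n r R) := by
          gcongr
          exact aeF_compare hr h3 h4 h5 h6 hn
      _ = ENNReal.ofReal κ * (ENNReal.ofReal (2 * Real.pi * ‖a n‖ ^ 2)
            * ENNReal.ofReal (aeF n r R)) := by
          rw [ENNReal.ofReal_mul hκ0]
          ring

private theorem ae_ann_preimage (c : ℂ) (s t : ℝ) : (fun z : ℂ => z + c) ⁻¹' (ann c s t)
    = ann 0 s t := by
  ext z
  simp [ann]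

private theorem ae_en_shift (φ : ℂ → ℂ) (c : ℂ) (s t : ℝ) :
    en (fun z => φ (z + c)) (ann 0 s t) = en φ (ann c s t) := by
  have h1 := (measurePreserving_add_right (volume : Measure ℂ) c).setIntegral_preimage_emb
    (MeasurableEquiv.addRight c).measurableEmbedding (fun z => ‖φ z‖ ^ 2) (ann c s t)
  rw [ae_ann_preimage] at h1
  exact h1

private theorem ae_int_shift {φ : ℂ → ℂ} {c : ℂ} {s t : ℝ}
    (hi : IntegrableOn (fun z => ‖φ z‖ ^ 2) (ann c s t)) :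
    IntegrableOn (fun z => ‖φ (z + c)‖ ^ 2) (ann 0 s t) := by
  have h1 := ((measurePreserving_add_right (volume : Measure ℂ) c).integrableOn_comp_preimage
    (MeasurableEquiv.addRight c).measurableEmbedding (f := fun z => ‖φ z‖ ^ 2)
    (s := ann c s t)).2 hi
  rw [ae_ann_preimage] at h1
  exact h1

private theorem ae_res_shift (φ : ℂ → ℂ) (c : ℂ) (ρ : ℝ) :
    res (fun z => φ (z + c)) 0 ρ = res φ c ρ := by
  unfold res circleIntegral
  congr 1
  refine intervalIntegral.integral_congr fun θ _ => ?_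
  simp only [deriv_circleMap]
  congr 2
  simp [circleMap, add_comm]

private theorem ae_diff_shift {φ : ℂ → ℂ} {c : ℂ} {s t : ℝ}
    (hφ : DifferentiableOn ℂ φ (ann c s t)) :
    DifferentiableOn ℂ (fun z => φ (z + c)) (ann 0 s t) := by
  refine hφ.comp (by fun_prop) ?_
  intro z hz
  rw [← ae_ann_preimage c s t] at hz
  exact hz

theorem res_sq_le {φ : ℂ → ℂ} {c : ℂ} {r R ρ : ℝ} (hr : 0 < r) (hφ : DifferentiableOn ℂ φ (ann c r R)) (h1 : r < ρ) (h2 : ρ < R)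
    (hi : IntegrableOn (fun z => ‖φ z‖ ^ 2) (ann c r R)) :
    2 * Real.pi * ‖res φ c ρ‖ ^ 2 * Real.log (R / r) ≤ en φ (ann c r R) := by
  have := ae_res_zero hr (ae_diff_shift hφ) h1 h2 (ae_int_shift hi)
  rwa [ae_res_shift, ae_en_shift] at this

theorem en_middle {φ : ℂ → ℂ} {c : ℂ} {r R ρ ρ1 ρ2 : ℝ} (hr : 0 < r) (hφ : DifferentiableOn ℂ φ (ann c r R)) (h1 : r < ρ) (h2 : ρ < R)
    (hi : IntegrableOn (fun z => ‖φ z‖ ^ 2) (ann c r R)) (h3 : r ≤ ρ1) (h4 : ρ1 ≤ ρ2) (h5 : ρ2 ≤ R) (h6 : Real.exp 1 * r ≤ R) :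
    en φ (ann c ρ1 ρ2) ≤ 2 * Real.pi * ‖res φ c ρ‖ ^ 2 * Real.log (ρ2 / ρ1) +
      2 * ((ρ2 / R) ^ 2 + (r / ρ1) ^ 2) * en φ (ann c r R) := by
  have := ae_middle_zero hr (ae_diff_shift hφ) h1 h2 (ae_int_shift hi) h3 h4 h5 h6
  rwa [ae_res_shift, ae_en_shift, ae_en_shift] at this

end Pool.Agent.CcaPl
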