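import Mathlib
import Pool.Agent.Lib.MP_cca10c_ag.Pl.AnnFourier

/-!
# Residues add up (MP_cca10c_ag, planar part, file C3)

Cauchy's theorem for a disc with finitely many round holes. Proof by Laurent splitting: around each hole `φ = g_j + h_j` with `g_j` (a Cauchy
transform on a circle inside the hole) holomorphic outside the hole and `h_j` holomorphic in a slightly larger disc; `φ - Σ g_j` extends to a
holomorphic function in the whole disc, and `∮ g_j` over the outer circle equals `∮ φ` over the small circle (Fubini).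
-/

namespace Pool.Agent.CcaPl

open Set Metric MeasureTheory

/-- the Cauchy transform of `φ` on a circle -/
private noncomputable def cau (φ : ℂ → ℂ) (p : ℂ) (t : ℝ) (z : ℂ) : ℂ :=
  (2 * Real.pi * Complex.I)⁻¹ * ∮ w in C(p, t), (z - w)⁻¹ * φ w

private theorem cau_diff {φ : ℂ → ℂ} {p : ℂ} {t : ℝ} (h0 : 0 ≤ t)
    (hφ : ContinuousOn φ (sphere p t)) {z : ℂ} (hz : ‖z - p‖ ≠ t) :
    DifferentiableAt ℂ (cau φ p t) z := by
  have hd : 0 < |‖z - p‖ - t| := abs_pos.mpr (sub_ne_zero.mpr hz)
  set d := |‖z - p‖ - t| with hdd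
  have hw : ∀ θ, circleMap p t θ ∈ sphere p t := fun θ => circleMap_mem_sphere p h0 θ
  have hφc : Continuous fun θ => φ (circleMap p t θ) :=
    hφ.comp_continuous (continuous_circleMap p t) hw
  obtain ⟨C, hC⟩ := (isCompact_sphere p t).exists_bound_of_continuousOn hφ
  have hdist : ∀ θ, ∀ x ∈ ball z (d / 2), d / 2 ≤ ‖x - circleMap p t θ‖ := by
    intro θ x hx
    have h1 : ‖circleMap p t θ - p‖ = t := by
      have := hw θ
      rwa [mem_sphere_iff_norm] at this
    have h2 : d ≤ ‖z - circleMap p t θ‖ := by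
      have e : z - circleMap p t θ = (z - p) - (circleMap p t θ - p) := by ring
      rw [e, hdd]
      calc |‖z - p‖ - t| = |‖z - p‖ - ‖circleMap p t θ - p‖| := by rw [h1]
        _ ≤ _ := abs_norm_sub_norm_le _ _
    have h3 : ‖x - z‖ < d / 2 := by
      rw [mem_ball_iff_norm] at hx
      exact hx
    have h4 : ‖z - circleMap p t θ‖ ≤ ‖x - circleMap p t θ‖ + ‖x - z‖ := by
      have e : z - circleMap p t θ = (x - circleMap p t θ) - (x - z) := by ring
      rw [e]
      exact norm_sub_le _ _
    linarith
  have hne : ∀ θ, ∀ x ∈ ball z (d / 2), x - circleMap p t θ ≠ 0 := by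
    intro θ x hx h
    have := hdist θ x hx
    rw [h, norm_zero] at this
    linarith
  have hcw : Continuous (circleMap p t) := continuous_circleMap p t
  have hc0 : Continuous (circleMap 0 t) := continuous_circleMap 0 t
  have key := intervalIntegral.hasDerivAt_integral_of_dominated_loc_of_deriv_le
    (μ := volume) (𝕜 := ℂ) (a := 0) (b := 2 * Real.pi)
    (F := fun x θ => deriv (circleMap p t) θ • ((x - circleMap p t θ)⁻¹ * φ (circleMap p t θ)))
    (F' := fun x θ => deriv (circleMap p t) θ •
      (-((x - circleMap p t θ) ^ 2)⁻¹ * φ (circleMap p t θ)))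
    (x₀ := z) (s := ball z (d / 2)) (bound := fun _ => t * (((d / 2) ^ 2)⁻¹ * C))
    (ball_mem_nhds z (by positivity)) ?_ ?_ ?_ ?_ ?_ ?_
  · have h5 := key.2.differentiableAt
    unfold cau
    simp only [circleIntegral]
    exact h5.const_mul _
  · filter_upwards [ball_mem_nhds z (by positivity : (0 : ℝ) < d / 2)] with x hx
    refine Continuous.aestronglyMeasurable ?_
    simp only [deriv_circleMap]
    refine (hc0.mul continuous_const).smul ((Continuous.inv₀ (continuous_const.sub hcw)
      fun θ => hne θ x hx).mul hφc)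
  · refine Continuous.intervalIntegrable ?_ _ _
    simp only [deriv_circleMap]
    refine (hc0.mul continuous_const).smul ((Continuous.inv₀ (continuous_const.sub hcw)
      fun θ => hne θ z (mem_ball_self (by positivity))).mul hφc)
  · refine Continuous.aestronglyMeasurable ?_
    simp only [deriv_circleMap]
    refine (hc0.mul continuous_const).smul ((Continuous.inv₀ ((continuous_const.sub hcw).pow 2)
      fun θ => pow_ne_zero 2 (hne θ z (mem_ball_self (by positivity)))).neg.mul hφc)
  · refine Filter.Eventually.of_forall fun θ _ x hx => ?_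
    rw [norm_smul, deriv_circleMap, norm_mul, norm_circleMap_zero, Complex.norm_I, mul_one,
      abs_of_nonneg h0, norm_mul, norm_neg, norm_inv, norm_pow]
    have h6 := hdist θ x hx
    have h7 := hC _ (hw θ)
    have hC0 : 0 ≤ C := (norm_nonneg _).trans h7
    refine mul_le_mul_of_nonneg_left (mul_le_mul ?_ h7 (norm_nonneg _) (by positivity)) h0
    exact inv_anti₀ (by positivity) (pow_le_pow_left₀ (by positivity) h6 2)
  · exact continuous_const.intervalIntegrable _ _
  · refine Filter.Eventually.of_forall fun θ _ x hx => ?_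
    have h8 : HasDerivAt (fun x : ℂ => x - circleMap p t θ) 1 x := (hasDerivAt_id x).sub_const _
    have h9 := (h8.inv (hne θ x hx)).mul_const (φ (circleMap p t θ))
    have h10 := h9.const_smul (deriv (circleMap p t) θ)
    exact h10.congr_deriv (by rw [neg_div, one_div])

/-- the integral over a large circle of the Cauchy transform -/
private theorem cau_swap {φ : ℂ → ℂ} {p b : ℂ} {t R : ℝ} (h0 : 0 ≤ t) (hR : 0 ≤ R)
    (hφ : ContinuousOn φ (sphere p t)) (hin : closedBall p t ⊆ ball b R) :
    (∮ z in C(b, R), cau φ p t z) = ∮ w in C(p, t), φ w := by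
  have hw : ∀ θ, circleMap p t θ ∈ sphere p t := fun θ => circleMap_mem_sphere p h0 θ
  have hz : ∀ θ, circleMap b R θ ∈ sphere b R := fun θ => circleMap_mem_sphere b hR θ
  have hφc : Continuous fun θ => φ (circleMap p t θ) :=
    hφ.comp_continuous (continuous_circleMap p t) hw
  have hne : ∀ θ η, circleMap b R θ - circleMap p t η ≠ 0 := by
    intro θ η h
    have h1 : circleMap b R θ ∈ ball b R := by
      rw [sub_eq_zero.mp h]
      exact hin (sphere_subset_closedBall (hw η))
    have h2 := hz θ
    rw [mem_sphere] at h2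
    rw [mem_ball, h2] at h1
    exact lt_irrefl _ h1
  have hswap := MeasureTheory.intervalIntegral_intervalIntegral_swap (a := 0) (b := 2 * Real.pi)
    (c := 0) (d := 2 * Real.pi) (F := fun θ η : ℝ => deriv (circleMap b R) θ *
      (deriv (circleMap p t) η * ((circleMap b R θ - circleMap p t η)⁻¹ * φ (circleMap p t η)))) ?_
  · have e1 : (∮ z in C(b, R), cau φ p t z) = (2 * Real.pi * Complex.I)⁻¹ *
        ∫ θ in (0 : ℝ)..2 * Real.pi, ∫ η in (0 : ℝ)..2 * Real.pi, deriv (circleMap b R) θ *
      (deriv (circleMap p t) η * ((circleMap b R θ - circleMap p t η)⁻¹ * φ (circleMap p t η))) := by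
      unfold cau
      rw [circleIntegral.integral_const_mul]
      congr 1
      simp only [circleIntegral, smul_eq_mul]
      refine intervalIntegral.integral_congr fun θ _ => ?_
      rw [intervalIntegral.integral_const_mul]
    rw [e1, hswap]
    have e2 : ∀ η : ℝ, ∫ θ in (0 : ℝ)..2 * Real.pi, deriv (circleMap b R) θ *
      (deriv (circleMap p t) η * ((circleMap b R θ - circleMap p t η)⁻¹ * φ (circleMap p t η))) =
        (2 * Real.pi * Complex.I) * (deriv (circleMap p t) η • φ (circleMap p t η)) := by
      intro η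
      have e3 : (∮ z in C(b, R), (z - circleMap p t η)⁻¹) = 2 * Real.pi * Complex.I :=
        circleIntegral.integral_sub_inv_of_mem_ball (hin (sphere_subset_closedBall (hw η)))
      rw [← e3]
      simp only [circleIntegral, smul_eq_mul]
      rw [← intervalIntegral.integral_mul_const]
      refine intervalIntegral.integral_congr fun θ _ => ?_
      ring
    simp_rw [e2]
    rw [intervalIntegral.integral_const_mul, ← mul_assoc, inv_mul_cancel₀ Complex.two_pi_I_ne_zero,
      one_mul]
    rfl
  · have hcont : Continuous (Function.uncurry fun θ η : ℝ => deriv (circleMap b R) θ *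
        (deriv (circleMap p t) η *
          ((circleMap b R θ - circleMap p t η)⁻¹ * φ (circleMap p t η)))) := by
      simp only [deriv_circleMap, Function.uncurry_def]
      have c1 : Continuous fun x : ℝ × ℝ => circleMap b R x.1 :=
        (continuous_circleMap b R).comp continuous_fst
      have c2 : Continuous fun x : ℝ × ℝ => circleMap p t x.2 :=
        (continuous_circleMap p t).comp continuous_snd
      have c3 : Continuous fun x : ℝ × ℝ => circleMap 0 R x.1 :=
        (continuous_circleMap 0 R).comp continuous_fst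
      have c4 : Continuous fun x : ℝ × ℝ => circleMap 0 t x.2 :=
        (continuous_circleMap 0 t).comp continuous_snd
      have c5 : Continuous fun x : ℝ × ℝ => φ (circleMap p t x.2) := hφc.comp continuous_snd
      exact (c3.mul continuous_const).mul ((c4.mul continuous_const).mul
        (((c1.sub c2).inv₀ fun x => hne x.1 x.2).mul c5))
    have hK : IsCompact (Icc (0 : ℝ) (2 * Real.pi) ×ˢ Icc (0 : ℝ) (2 * Real.pi)) :=
      isCompact_Icc.prod isCompact_Icc
    refine (hcont.continuousOn.integrableOn_compact hK).mono_set ?_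
    rw [uIoc_of_le Real.two_pi_pos.le]
    exact Set.prod_mono Ioc_subset_Icc_self Ioc_subset_Icc_self


private theorem cau_slope {φ : ℂ → ℂ} {p : ℂ} {ρ : ℝ} (h0 : 0 < ρ)
    (hφ : ContinuousOn φ (sphere p ρ)) {z : ℂ} (hz : ‖z - p‖ ≠ ρ) :
    (∮ w in C(p, ρ), dslope φ z w) = -((2 * Real.pi * Complex.I) * cau φ p ρ z) -
      (∮ w in C(p, ρ), (w - z)⁻¹) * φ z := by
  have hne : ∀ w ∈ sphere p ρ, w ≠ z := by
    intro w hw h
    rw [mem_sphere_iff_norm, h] at hw
    exact hz hw
  have hinv : ContinuousOn (fun w => (w - z)⁻¹) (sphere p ρ) :=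
    (continuousOn_id.sub continuousOn_const).inv₀ fun w hw => sub_ne_zero.mpr (hne w hw)
  have hI1 : CircleIntegrable (fun w => (w - z)⁻¹ * φ w) p ρ :=
    (hinv.mul hφ).circleIntegrable h0.le
  have hI2 : CircleIntegrable (fun w => φ z * (w - z)⁻¹) p ρ :=
    (continuousOn_const.mul hinv).circleIntegrable h0.le
  have e1 : (∮ w in C(p, ρ), dslope φ z w) =
      ∮ w in C(p, ρ), ((w - z)⁻¹ * φ w - φ z * (w - z)⁻¹) := by
    refine circleIntegral.integral_congr h0.le fun w hw => ?_
    rw [dslope_of_ne _ (hne w hw), slope_def_module, smul_eq_mul]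
    ring
  have e2 : (2 * Real.pi * Complex.I) * cau φ p ρ z = - ∮ w in C(p, ρ), (w - z)⁻¹ * φ w := by
    unfold cau
    rw [← mul_assoc, mul_inv_cancel₀ Complex.two_pi_I_ne_zero, one_mul]
    have e3 : ∀ w, (z - w)⁻¹ * φ w = (-1) * ((w - z)⁻¹ * φ w) := by
      intro w
      rw [← neg_sub w z, inv_neg]
      ring
    simp_rw [e3]
    rw [circleIntegral.integral_const_mul]
    ring
  rw [e1, circleIntegral.integral_sub hI1 hI2, e2, circleIntegral.integral_const_mul]
  ring

private theorem cau_split {φ : ℂ → ℂ} {p : ℂ} {t T : ℝ} (h0 : 0 < t)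
    (hφ : ∀ z, t ≤ ‖z - p‖ → ‖z - p‖ ≤ T → DifferentiableAt ℂ φ z) {z : ℂ} (h1 : t < ‖z - p‖)
    (h2 : ‖z - p‖ < T) : φ z = cau φ p t z - cau φ p T z := by
  have hT : 0 < T := by linarith
  have hct : ContinuousOn φ (sphere p t) := fun w hw => by
    rw [mem_sphere_iff_norm] at hw
    exact (hφ w hw.ge (by linarith)).continuousAt.continuousWithinAt
  have hcT : ContinuousOn φ (sphere p T) := fun w hw => by
    rw [mem_sphere_iff_norm] at hw
    exact (hφ w (by linarith) hw.le).continuousAt.continuousWithinAt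
  have hcauchy : (∮ w in C(p, T), dslope φ z w) = ∮ w in C(p, t), dslope φ z w := by
    refine Complex.circleIntegral_eq_of_differentiable_on_annulus_off_countable h0 (by linarith)
      (Set.countable_singleton z) ?_ ?_
    · intro w hw
      have ha : ‖w - p‖ ≤ T := mem_closedBall_iff_norm.mp hw.1
      have hb : t ≤ ‖w - p‖ := by
        have := hw.2
        rw [mem_ball_iff_norm, not_lt] at this
        exact this
      refine ContinuousAt.continuousWithinAt ?_
      rcases eq_or_ne w z with rfl | hwz
      · exact continuousAt_dslope_same.mpr (hφ w hb ha)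
      · exact ((differentiableAt_dslope_of_ne hwz).mpr (hφ w hb ha)).continuousAt
    · intro w hw
      have ha : ‖w - p‖ < T := mem_ball_iff_norm.mp hw.1.1
      have hb : t < ‖w - p‖ := by
        have := hw.1.2
        rw [mem_closedBall_iff_norm, not_le] at this
        exact this
      exact (differentiableAt_dslope_of_ne hw.2).mpr (hφ w hb.le ha.le)
  rw [cau_slope h0 hct h1.ne', cau_slope hT hcT h2.ne,
    circleIntegral.integral_sub_inv_of_mem_ball (mem_ball_iff_norm.mpr h2)] at hcauchy
  have hz0 : (∮ w in C(p, t), (w - z)⁻¹) = 0 := by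
    refine Complex.circleIntegral_eq_zero_of_differentiable_on_off_countable h0.le
      Set.countable_empty ?_ ?_
    · refine (continuousOn_id.sub continuousOn_const).inv₀ fun w hw h => ?_
      have h' : w - z = 0 := h
      rw [sub_eq_zero] at h'
      rw [h', mem_closedBall_iff_norm] at hw
      linarith
    · intro w hw
      have hwz : w - z ≠ 0 := by
        intro h
        rw [sub_eq_zero] at h
        have := hw.1
        rw [h, mem_ball_iff_norm] at this
        linarith
      exact (differentiableAt_id.sub_const z).inv hwz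
  rw [hz0, zero_mul, sub_zero] at hcauchy
  have h3 : (2 * Real.pi * Complex.I) * φ z =
      (2 * Real.pi * Complex.I) * (cau φ p t z - cau φ p T z) := by
    linear_combination -hcauchy
  exact mul_left_cancel₀ Complex.two_pi_I_ne_zero h3


/-- a larger disc and a smaller disc -/
private theorem hole_collar {p : ℂ} {s : ℝ} {U O : Set ℂ} (hs : 0 < s) (hU : IsOpen U)
    (hO : IsOpen O) (h1 : sphere p s ⊆ U) (h2 : closedBall p s ⊆ O)
    (h3 : ∀ z ∈ O, s ≤ ‖z - p‖ → z ∈ U) :
    ∃ r t T R' : ℝ, 0 ≤ r ∧ r < t ∧ t < s ∧ s < T ∧ T < R' ∧ ann p r R' ⊆ U ∧ ball p R' ⊆ O := by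
  obtain ⟨δ, hδ, hδU⟩ := (isCompact_sphere p s).exists_thickening_subset_open hU h1
  obtain ⟨ε, hε, hεO⟩ := (isCompact_closedBall p s).exists_thickening_subset_open hO h2
  rw [thickening_closedBall hε hs.le] at hεO
  set δ' := min δ s with hδ'
  have hδ'0 : 0 < δ' := lt_min hδ hs
  have hδ's : δ' ≤ s := min_le_right _ _
  have hδ'δ : δ' ≤ δ := min_le_left _ _
  refine ⟨s - δ', s - δ' / 2, s + ε / 2, s + ε, by linarith, by linarith, by linarith,
    by linarith, by linarith, ?_, ?_⟩
  · rintro z ⟨ha, hb⟩
    rcases le_or_gt s ‖z - p‖ with h | h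
    · exact h3 z (hεO (by rw [mem_ball_iff_norm]; linarith)) h
    · refine hδU ?_
      rw [mem_thickening_iff]
      have hpos : 0 < ‖z - p‖ := by linarith
      refine ⟨p + ((s / ‖z - p‖ : ℝ) : ℂ) * (z - p), ?_, ?_⟩
      · rw [mem_sphere_iff_norm, add_sub_cancel_left, norm_mul, Complex.norm_real,
          Real.norm_of_nonneg (by positivity), div_mul_cancel₀ _ hpos.ne']
      · rw [dist_eq_norm]
        have e : z - (p + ((s / ‖z - p‖ : ℝ) : ℂ) * (z - p)) =
            ((1 - s / ‖z - p‖ : ℝ) : ℂ) * (z - p) := by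
          push_cast
          ring
        rw [e, norm_mul, Complex.norm_real, Real.norm_eq_abs, abs_of_nonpos]
        · have : -(1 - s / ‖z - p‖) * ‖z - p‖ = s - ‖z - p‖ := by
            field_simp
            ring
          rw [this]
          linarith
        · rw [sub_nonpos, one_le_div hpos]
          exact h.le
  · intro z hz
    exact hεO (by rwa [add_comm] at hz)

/-- `b` centre of the outer circle of radius `R`; holes `closedBall (p j) (s j)` are pairwise disjoint and lie inside the outer circle; `φ` is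
holomorphic in a neighbourhood of the closed domain between the circles. -/
theorem res_sum {κ : Type} [Fintype κ] (φ : ℂ → ℂ) (b : ℂ) (R : ℝ) (p : κ → ℂ) (s : κ → ℝ) (U : Set ℂ) (hU : IsOpen U) (hR : 0 < R)
    (hs : ∀ j, 0 < s j) (hin : ∀ j, closedBall (p j) (s j) ⊆ ball b R)
    (hdis : ∀ i j, i ≠ j → Disjoint (closedBall (p i) (s i)) (closedBall (p j) (s j)))
    (hφ : DifferentiableOn ℂ φ U) (hsub : closedBall b R \ ⋃ j, ball (p j) (s j) ⊆ U) :
    res φ b R = ∑ j, res φ (p j) (s j) := by
  classical
  have hdiff : ∀ z ∈ U, DifferentiableAt ℂ φ z := fun z hz => hφ.differentiableAt (hU.mem_nhds hz)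
  -- collars
  have hcol : ∀ j, ∃ r t T R' : ℝ, 0 ≤ r ∧ r < t ∧ t < s j ∧ s j < T ∧ T < R' ∧
      ann (p j) r R' ⊆ U ∧
      ball (p j) R' ⊆ ball b R ∩ ⋂ i, ({z | i ≠ j → z ∉ closedBall (p i) (s i)}) := by
    intro j
    have hsub' : ∀ z ∈ ball b R ∩ ⋂ i, ({z | i ≠ j → z ∉ closedBall (p i) (s i)}),
        s j ≤ ‖z - p j‖ → z ∈ U := by
      rintro z ⟨hz1, hz2⟩ hz3
      refine hsub ⟨ball_subset_closedBall hz1, ?_⟩
      rw [mem_iUnion]
      rintro ⟨i, hi⟩
      rw [mem_iInter] at hz2
      by_cases hij : i = j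
      · subst hij
        rw [mem_ball_iff_norm] at hi
        linarith
      · exact hz2 i hij (ball_subset_closedBall hi)
    have hOin : closedBall (p j) (s j) ⊆
        ball b R ∩ ⋂ i, ({z | i ≠ j → z ∉ closedBall (p i) (s i)}) := by
      intro z hz
      refine ⟨hin j hz, ?_⟩
      rw [mem_iInter]
      intro i hij hzi
      exact Set.disjoint_left.mp (hdis i j hij) hzi hz
    have hOopen : IsOpen (ball b R ∩ ⋂ i, ({z | i ≠ j → z ∉ closedBall (p i) (s i)})) := by
      refine isOpen_ball.inter (isOpen_iInter_of_finite fun i => ?_)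
      by_cases hij : i = j
      · simp [hij]
      · have : {z : ℂ | i ≠ j → z ∉ closedBall (p i) (s i)} = (closedBall (p i) (s i))ᶜ := by
          ext z
          simp [hij]
        rw [this]
        exact isClosed_closedBall.isOpen_compl
    refine hole_collar (hs j) hU hOopen ?_ hOin hsub'
    intro z hz
    refine hsub' z (hOin (sphere_subset_closedBall hz)) ?_
    rw [mem_sphere_iff_norm] at hz
    exact hz.ge
  choose r t T R' hr hrt hts hsT hTR hann hball using hcol
  have ht0 : ∀ j, 0 < t j := fun j => lt_of_le_of_lt (hr j) (hrt j)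
  have hbb : ∀ j z, ‖z - p j‖ < T j → z ∈ ball b R := fun j z hz =>
    (hball j (mem_ball_iff_norm.mpr (hz.trans (hTR j)))).1
  have hoth : ∀ j z, ‖z - p j‖ < T j → ∀ i, i ≠ j → s i < ‖z - p i‖ := by
    intro j z hz i hij
    have h1 := (hball j (mem_ball_iff_norm.mpr (hz.trans (hTR j)))).2
    rw [mem_iInter] at h1
    have h2 := h1 i hij
    rwa [mem_closedBall_iff_norm, not_le] at h2
  have hct : ∀ j, ContinuousOn φ (sphere (p j) (t j)) := by
    intro j z hz
    rw [mem_sphere_iff_norm] at hz
    exact (hdiff z (hann j ⟨by rw [hz]; exact hrt j, by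
      rw [hz]; linarith [hts j, hsT j, hTR j]⟩)).continuousAt.continuousWithinAt
  have hcT : ∀ j, ContinuousOn φ (sphere (p j) (T j)) := by
    intro j z hz
    rw [mem_sphere_iff_norm] at hz
    exact (hdiff z (hann j ⟨by rw [hz]; linarith [hrt j, hts j, hsT j], by
      rw [hz]; exact hTR j⟩)).continuousAt.continuousWithinAt
  have hspl : ∀ j z, t j < ‖z - p j‖ → ‖z - p j‖ < T j →
      φ z = cau φ (p j) (t j) z - cau φ (p j) (T j) z := by
    intro j z h1 h2
    refine cau_split (ht0 j) (fun w hw1 hw2 => hdiff w (hann j ⟨?_, ?_⟩)) h1 h2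
    · linarith [hrt j]
    · linarith [hTR j]
  have hdt : ∀ j z, t j < ‖z - p j‖ → DifferentiableAt ℂ (cau φ (p j) (t j)) z :=
    fun j z hz => cau_diff (ht0 j).le (hct j) hz.ne'
  have hdT : ∀ j z, ‖z - p j‖ < T j → DifferentiableAt ℂ (cau φ (p j) (T j)) z :=
    fun j z hz => cau_diff ((ht0 j).le.trans ((hts j).le.trans (hsT j).le)) (hcT j) hz.ne
  -- the holomorphic remainder
  set ψ : ℂ → ℂ := fun z => if h : ∃ j, ‖z - p j‖ < s j then
    -cau φ (p h.choose) (T h.choose) z - ∑ i ∈ Finset.univ.erase h.choose, cau φ (p i) (t i) z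
    else φ z - ∑ i, cau φ (p i) (t i) z with hψ
  have hψ1 : ∀ j z, ‖z - p j‖ < T j →
      ψ z = -cau φ (p j) (T j) z - ∑ i ∈ Finset.univ.erase j, cau φ (p i) (t i) z := by
    intro j z hz
    by_cases h : ∃ j, ‖z - p j‖ < s j
    · have hk : h.choose = j := by
        by_contra hne
        exact absurd h.choose_spec (not_lt.mpr (hoth j z hz h.choose hne).le)
      simp only [hψ]
      rw [dif_pos h, hk]
    · simp only [hψ]
      rw [dif_neg h]
      have hsj : s j ≤ ‖z - p j‖ := not_lt.mp fun hlt => h ⟨j, hlt⟩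
      rw [hspl j z (by linarith [hts j]) hz, ← Finset.add_sum_erase _ _ (Finset.mem_univ j)]
      ring
  have hψ2 : ∀ z, (∀ j, s j ≤ ‖z - p j‖) → ψ z = φ z - ∑ i, cau φ (p i) (t i) z := by
    intro z hz
    have h : ¬ ∃ j, ‖z - p j‖ < s j := by
      rintro ⟨j, hj⟩
      exact absurd hj (not_lt.mpr (hz j))
    simp only [hψ]
    rw [dif_neg h]
  have hψd : ∀ z ∈ closedBall b R, DifferentiableAt ℂ ψ z := by
    intro z hz
    by_cases h : ∃ j, ‖z - p j‖ < T j
    · obtain ⟨j, hj⟩ := h
      have hev : ψ =ᶠ[nhds z] fun z =>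
          -cau φ (p j) (T j) z - ∑ i ∈ Finset.univ.erase j, cau φ (p i) (t i) z := by
        filter_upwards [isOpen_ball.mem_nhds (mem_ball_iff_norm.mpr hj)] with x hx
        exact hψ1 j x (mem_ball_iff_norm.mp hx)
      refine DifferentiableAt.congr_of_eventuallyEq ?_ hev
      refine (hdT j z hj).neg.sub ?_
      refine DifferentiableAt.fun_sum fun i hi => ?_
      rw [Finset.mem_erase] at hi
      exact hdt i z ((hts i).trans (hoth j z hj i hi.1))
    · have h' : ∀ j, T j ≤ ‖z - p j‖ := fun j => not_lt.mp fun hlt => h ⟨j, hlt⟩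
      have hzU : z ∈ U := by
        refine hsub ⟨hz, ?_⟩
        rw [mem_iUnion]
        rintro ⟨j, hj⟩
        rw [mem_ball_iff_norm] at hj
        linarith [h' j, hsT j]
      have hev : ψ =ᶠ[nhds z] fun z => φ z - ∑ i, cau φ (p i) (t i) z := by
        have hopen : ∀ᶠ x in nhds z, ∀ j, s j < ‖x - p j‖ := by
          rw [Filter.eventually_all]
          intro j
          have hc : Continuous fun x : ℂ => ‖x - p j‖ := by fun_prop
          exact hc.continuousAt.eventually (lt_mem_nhds (by linarith [h' j, hsT j]))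
        filter_upwards [hopen] with x hx
        exact hψ2 x fun j => (hx j).le
      refine DifferentiableAt.congr_of_eventuallyEq ?_ hev
      refine (hdiff z hzU).sub ?_
      refine DifferentiableAt.fun_sum fun i _ => ?_
      exact hdt i z (by linarith [h' i, hsT i, hts i])
  have hψ0 : (∮ z in C(b, R), ψ z) = 0 :=
    Complex.circleIntegral_eq_zero_of_differentiable_on_off_countable hR.le Set.countable_empty
      (fun z hz => (hψd z hz).continuousAt.continuousWithinAt)
      fun z hz => hψd z (ball_subset_closedBall hz.1)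
  -- on the outer circle
  have hsph : ∀ z ∈ sphere b R, ∀ j, T j ≤ ‖z - p j‖ := by
    intro z hz j
    by_contra hlt
    have := hbb j z (not_le.mp hlt)
    rw [mem_ball, mem_sphere.mp hz] at this
    exact lt_irrefl _ this
  have hφc : ContinuousOn φ (sphere b R) := by
    intro z hz
    refine (hdiff z (hsub ⟨sphere_subset_closedBall hz, ?_⟩)).continuousAt.continuousWithinAt
    rw [mem_iUnion]
    rintro ⟨j, hj⟩
    rw [mem_ball_iff_norm] at hj
    linarith [hsph z hz j, hsT j]
  have hgc : ∀ i, ContinuousOn (cau φ (p i) (t i)) (sphere b R) := by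
    intro i z hz
    exact (hdt i z (by linarith [hsph z hz i, hsT i, hts i])).continuousAt.continuousWithinAt
  have hIφ : CircleIntegrable φ b R := hφc.circleIntegrable hR.le
  have hIg : ∀ i, CircleIntegrable (cau φ (p i) (t i)) b R := fun i =>
    (hgc i).circleIntegrable hR.le
  have hIs : CircleIntegrable (fun z => ∑ i, cau φ (p i) (t i) z) b R := by
    refine ContinuousOn.circleIntegrable hR.le ?_
    exact continuousOn_finsetSum _ fun i _ => hgc i
  have hsum : (∮ z in C(b, R), φ z) = ∑ i, ∮ z in C(b, R), cau φ (p i) (t i) z := by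
    have e1 : (∮ z in C(b, R), ψ z) =
        ∮ z in C(b, R), (φ z - ∑ i, cau φ (p i) (t i) z) := by
      refine circleIntegral.integral_congr hR.le fun z hz => ?_
      exact hψ2 z fun j => by linarith [hsph z hz j, hsT j]
    rw [circleIntegral.integral_sub hIφ hIs, hψ0] at e1
    rw [← circleIntegral.integral_fun_sum fun i _ => hIg i]
    linear_combination -e1
  have hfin : ∀ j, (∮ z in C(b, R), cau φ (p j) (t j) z) =
      (2 * Real.pi * Complex.I) * res φ (p j) (s j) := by
    intro j
    rw [cau_swap (ht0 j).le hR.le (hct j)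
      ((closedBall_subset_closedBall (hts j).le).trans (hin j))]
    have h1 : res φ (p j) (t j) = res φ (p j) (s j) :=
      res_indep (hr j) (hφ.mono (hann j)) (hrt j) (by linarith [hts j, hsT j, hTR j])
        (by linarith [hrt j, hts j]) (by linarith [hsT j, hTR j])
    rw [← h1, res, ← mul_assoc, mul_inv_cancel₀ Complex.two_pi_I_ne_zero, one_mul]
  rw [res, hsum, Finset.mul_sum]
  refine Finset.sum_congr rfl fun j _ => ?_
  rw [hfin, ← mul_assoc, inv_mul_cancel₀ Complex.two_pi_I_ne_zero, one_mul]

end Pool.Agent.CcaPl
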