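import Mathlib

/-!
# Clusters of points in the plane: definitions (MP_cca10c_ag, planar part, file B0)
-/

namespace Pool.Agent.CcaPl

variable {ι : Type} [Fintype ι] [DecidableEq ι]

/-- the diameter of the part `J` of the configuration `p` -/
noncomputable def dm (p : ι → ℂ) (J : Finset ι) : ℝ :=
  sSup {d | ∃ i ∈ J, ∃ k ∈ J, d = dist (p i) (p k)}

/-- the distance between the part `J` of the configuration `p` and the rest -/
noncomputable def sp (p : ι → ℂ) (J : Finset ι) : ℝ :=
  sInf {d | ∃ i ∈ J, ∃ k ∉ J, d = dist (p i) (p k)}

/-- the separation ratio -/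
noncomputable def rt (p : ι → ℂ) (J : Finset ι) : ℝ := sp p J / dm p J

/-- the distance of the point `j` to the other points -/
noncomputable def nn (p : ι → ℂ) (j : ι) : ℝ := sp p {j}

/-- scaling of the part `J` by the factor `l` from the centre `a` -/
noncomputable def scaleJ (p : ι → ℂ) (J : Finset ι) (a : ℂ) (l : ℝ) : ι → ℂ :=
  fun i => if i ∈ J then a + (l : ℂ) * (p i - a) else p i

/-- admissible scaling steps with quality `E` (a large number): the part `J` is scaled from one of its points, and after the scaling it is still
`E` times smaller than its distance to the rest before the scaling -/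
structure ClStep (E : ℝ) (p : ι → ℂ) (J : Finset ι) (j : ι) (l : ℝ) : Prop where
  card : 2 ≤ J.card
  proper : J ≠ Finset.univ
  mem : j ∈ J
  one_le : 1 ≤ l
  small : E * (l * dm p J) ≤ sp p J

end Pool.Agent.CcaPl
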