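import Mathlib
import Pool.Agent.Lib.MP_cca10c_ag.Pl.ClDefs

/-!
# Elementary properties of `dm` and `sp` (MP_cca10c_ag, planar part, file B1)

All sets are finite; `sSup`, `sInf` are attained as soon as they are nonempty.
-/

namespace Pool.Agent.CcaPl

variable {ι : Type} [Fintype ι] [DecidableEq ι]

private theorem dm_finite (p : ι → ℂ) (J : Finset ι) :
    {d : ℝ | ∃ i ∈ J, ∃ k ∈ J, d = dist (p i) (p k)}.Finite := by
  refine (Set.finite_range (fun q : ι × ι => dist (p q.1) (p q.2))).subset ?_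
  rintro d ⟨i, _, k, _, rfl⟩
  exact ⟨(i, k), rfl⟩

private theorem sp_finite (p : ι → ℂ) (J : Finset ι) :
    {d : ℝ | ∃ i ∈ J, ∃ k ∉ J, d = dist (p i) (p k)}.Finite := by
  refine (Set.finite_range (fun q : ι × ι => dist (p q.1) (p q.2))).subset ?_
  rintro d ⟨i, _, k, _, rfl⟩
  exact ⟨(i, k), rfl⟩

private theorem sp_nonempty (p : ι → ℂ) (J : Finset ι) (hJ : J.Nonempty) (hJ' : J ≠ Finset.univ) :
    {d : ℝ | ∃ i ∈ J, ∃ k ∉ J, d = dist (p i) (p k)}.Nonempty := by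
  obtain ⟨i, hi⟩ := hJ
  have h : ∃ k, k ∉ J := by
    by_contra hcon
    push Not at hcon
    exact hJ' (Finset.eq_univ_iff_forall.2 hcon)
  obtain ⟨k, hk⟩ := h
  exact ⟨_, i, hi, k, hk, rfl⟩

theorem dist_le_dm (p : ι → ℂ) (J : Finset ι) {i k : ι} (hi : i ∈ J) (hk : k ∈ J) : dist (p i) (p k) ≤ dm p J :=
  le_csSup (dm_finite p J).bddAbove ⟨i, hi, k, hk, rfl⟩

theorem dm_nonneg (p : ι → ℂ) (J : Finset ι) : 0 ≤ dm p J := by
  refine Real.sSup_nonneg ?_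
  rintro d ⟨i, _, k, _, rfl⟩
  exact dist_nonneg

theorem exists_dm (p : ι → ℂ) (J : Finset ι) (hJ : J.Nonempty) : ∃ i ∈ J, ∃ k ∈ J, dm p J = dist (p i) (p k) := by
  obtain ⟨i, hi⟩ := hJ
  have h : {d : ℝ | ∃ i ∈ J, ∃ k ∈ J, d = dist (p i) (p k)}.Nonempty := ⟨_, i, hi, i, hi, rfl⟩
  exact h.csSup_mem (dm_finite p J)

theorem dm_le (p : ι → ℂ) (J : Finset ι) {A : ℝ} (hA : 0 ≤ A) (h : ∀ i ∈ J, ∀ k ∈ J, dist (p i) (p k) ≤ A) : dm p J ≤ A := by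
  refine Real.sSup_le ?_ hA
  rintro d ⟨i, hi, k, hk, rfl⟩
  exact h i hi k hk

theorem dm_pos (p : ι → ℂ) (hp : Function.Injective p) (J : Finset ι) (hJ : 2 ≤ J.card) : 0 < dm p J := by
  obtain ⟨i, hi, k, hk, hik⟩ := Finset.one_lt_card.1 hJ
  exact (dist_pos.2 (hp.ne hik)).trans_le (dist_le_dm p J hi hk)

theorem sp_le_dist (p : ι → ℂ) (J : Finset ι) {i k : ι} (hi : i ∈ J) (hk : k ∉ J) : sp p J ≤ dist (p i) (p k) :=
  csInf_le (sp_finite p J).bddBelow ⟨i, hi, k, hk, rfl⟩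

theorem exists_sp (p : ι → ℂ) (J : Finset ι) (hJ : J.Nonempty) (hJ' : J ≠ Finset.univ) :
    ∃ i ∈ J, ∃ k ∉ J, sp p J = dist (p i) (p k) :=
  (sp_nonempty p J hJ hJ').csInf_mem (sp_finite p J)

theorem le_sp (p : ι → ℂ) (J : Finset ι) (hJ : J.Nonempty) (hJ' : J ≠ Finset.univ) {A : ℝ}
    (h : ∀ i ∈ J, ∀ k ∉ J, A ≤ dist (p i) (p k)) : A ≤ sp p J := by
  refine le_csInf (sp_nonempty p J hJ hJ') ?_
  rintro d ⟨i, hi, k, hk, rfl⟩
  exact h i hi k hk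

theorem sp_pos (p : ι → ℂ) (hp : Function.Injective p) (J : Finset ι) (hJ : J.Nonempty) (hJ' : J ≠ Finset.univ) : 0 < sp p J := by
  obtain ⟨i, hi, k, hk, h⟩ := exists_sp p J hJ hJ'
  rw [h]
  refine dist_pos.2 (hp.ne ?_)
  rintro rfl
  exact hk hi

end Pool.Agent.CcaPl
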