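import Mathlib
import Pool.Agent.Lib.MP_cca10c_ag.Pl.ClBasic

/-!
# Chains of one-point moves between bounded configurations (MP_cca10c_ag, planar part, file B5)

`Bdd D p`: distances of distinct points are at least `1` and at most `D`. A one-point move displaces one point by at most `1/1000` and keeps the
distances at least `1/2`.

Proof of `exists_chain`. After a translation `p` and `st` agree at one index. Join `p` to `st` by the two segments through
`((1 - i Y) p + (1 + i Y) st) / 2` for a suitable integer `0 ≤ Y ≤ m`: for each pair of indices at most one `Y` is bad for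
each of the two segments, so by the pigeonhole principle some `Y` is good, and then all distances on the path are at least `s = s(m)`. Scale up by
`(101/100)^M ≥ 1/s`, follow the path in small steps moving the points one after another, and scale down.
-/

namespace Pool.Agent.CcaPl

variable {ι : Type} [Fintype ι] [DecidableEq ι]

/-- distances of different points lie in `[s, D]` -/
def Bd (s D : ℝ) (p : ι → ℂ) : Prop := ∀ i k, i ≠ k → s ≤ dist (p i) (p k) ∧ dist (p i) (p k) ≤ D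

/-- `p` and `q` differ only at one index, by at most `1/1000`, or they differ by a translation -/
def Mv (p q : ι → ℂ) : Prop :=
  (∃ i, dist (p i) (q i) ≤ 1 / 1000 ∧ ∀ k, k ≠ i → q k = p k) ∨ ∃ v : ℂ, ∀ k, q k = p k + v

/-- chains of moves (or of scalings by a factor in `[99/100, 101/100]`) within the configurations of type `Bd (1/2) D'` -/
inductive Chain (D' : ℝ) : ℕ → (ι → ℂ) → (ι → ℂ) → Prop
  | refl (p) : Chain D' 0 p p
  | mv (n p q r) : Chain D' n p q → Bd (1 / 2) D' q → Bd (1 / 2) D' r → Mv q r → Chain D' (n + 1) p r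
  | sc (n p q) (l : ℝ) : Chain D' n p q → 99 / 100 ≤ l → l ≤ 101 / 100 → Bd (1 / 2) D' q → Bd (1 / 2) D' (fun i => (l : ℂ) * q i) →
      Chain D' (n + 1) p (fun i => (l : ℂ) * q i)

omit [Fintype ι] [DecidableEq ι] in
private theorem chain_trans {D' : ℝ} {n m : ℕ} {p q r : ι → ℂ} (h : Chain D' n p q)
    (h' : Chain D' m q r) : Chain D' (n + m) p r := by
  induction h' with
  | refl q => exact h
  | mv m q r t _ h1 h2 h3 ih => exact Chain.mv (n + m) p r t (ih h) h1 h2 h3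
  | sc m q r l _ h1 h2 h3 h4 ih => exact Chain.sc (n + m) p r l (ih h) h1 h2 h3 h4

/-- two close configurations -/
private theorem chain_close {D' D1 : ℝ} (hD : D1 + 1 ≤ D') {u v : ι → ℂ} (hu : Bd 1 D1 u)
    (h : ∀ i, dist (u i) (v i) ≤ 1 / 1000) : Chain D' (Fintype.card ι) u v := by
  have hB : ∀ J : Finset ι, Bd (1 / 2) D' (fun i => if i ∈ J then v i else u i) := by
    intro J i k hik
    obtain ⟨h1, h2⟩ := hu i k hik
    have e1 : ∀ i, dist (u i) (if i ∈ J then v i else u i) ≤ 1 / 1000 := by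
      intro i
      split_ifs
      · exact h i
      · rw [dist_self]
        norm_num
    have h3 := e1 i
    have h4 := e1 k
    have t1 := dist_triangle (u i) (if i ∈ J then v i else u i) (u k)
    have t2 := dist_triangle (if i ∈ J then v i else u i) (if k ∈ J then v k else u k) (u k)
    have t3 := dist_triangle (if i ∈ J then v i else u i) (u i) (if k ∈ J then v k else u k)
    have t4 := dist_triangle (u i) (u k) (if k ∈ J then v k else u k)
    rw [dist_comm (if k ∈ J then v k else u k) (u k)] at t2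
    rw [dist_comm (if i ∈ J then v i else u i) (u i)] at t3
    constructor
    · show (1 / 2 : ℝ) ≤ dist (if i ∈ J then v i else u i) (if k ∈ J then v k else u k)
      linarith
    · show dist (if i ∈ J then v i else u i) (if k ∈ J then v k else u k) ≤ D'
      linarith
  have key : ∀ J : Finset ι, Chain D' J.card u (fun i => if i ∈ J then v i else u i) := by
    intro J
    induction J using Finset.induction_on with
    | empty =>
      simp only [Finset.card_empty, Finset.notMem_empty, if_false]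
      exact Chain.refl u
    | insert j J hj ih =>
      rw [Finset.card_insert_of_notMem hj]
      refine Chain.mv _ _ _ _ ih (hB J) (hB (insert j J)) (Or.inl ⟨j, ?_, ?_⟩)
      · simp only [hj, if_false, Finset.mem_insert_self, if_true]
        exact h j
      · intro k hk
        simp only [Finset.mem_insert, hk, false_or]
  have h1 := key Finset.univ
  simp only [Finset.mem_univ, if_true] at h1
  exact h1

/-- a segment in configuration space -/
private theorem chain_seg {D' D1 : ℝ} (hD : D1 + 1 ≤ D') {u w : ι → ℂ} {K : ℕ} (hK : 0 < K)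
    (hB : ∀ θ : ℝ, 0 ≤ θ → θ ≤ 1 → Bd 1 D1 (fun i => u i + (θ : ℂ) * w i))
    (hw : ∀ i, ‖w i‖ ≤ K / 1000) : Chain D' (K * Fintype.card ι) u (fun i => u i + w i) := by
  have hK' : (0 : ℝ) < K := by exact_mod_cast hK
  have key : ∀ j : ℕ, j ≤ K → Chain D' (j * Fintype.card ι) u
      (fun i => u i + (((j : ℝ) / K : ℝ) : ℂ) * w i) := by
    intro j
    induction j with
    | zero =>
      intro _
      simp only [Nat.cast_zero, zero_div, Complex.ofReal_zero, zero_mul, add_zero]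
      exact Chain.refl u
    | succ j ih =>
      intro hj
      rw [Nat.succ_mul]
      refine chain_trans (ih (by omega)) (chain_close hD ?_ ?_)
      · apply hB
        · positivity
        · rw [div_le_one hK']
          exact_mod_cast (by omega : j ≤ K)
      · intro i
        rw [dist_comm, dist_eq_norm]
        have e1 : u i + (((((j + 1 : ℕ) : ℝ) / K : ℝ)) : ℂ) * w i -
            (u i + (((j : ℝ) / K : ℝ) : ℂ) * w i) = ((1 / K : ℝ) : ℂ) * w i := by
          push_cast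
          ring
        rw [e1, norm_mul, Complex.norm_real, Real.norm_eq_abs, abs_of_pos (by positivity)]
        calc 1 / (K : ℝ) * ‖w i‖ ≤ 1 / (K : ℝ) * (K / 1000) := by gcongr; exact hw i
          _ = 1 / 1000 := by field_simp
  have h1 := key K le_rfl
  rw [div_self hK'.ne'] at h1
  simpa using h1

omit [Fintype ι] [DecidableEq ι] in
/-- scaling -/
private theorem chain_scale {D' : ℝ} {l : ℝ} (h1 : 99 / 100 ≤ l) (h2 : l ≤ 101 / 100)
    {q : ι → ℂ} {M : ℕ} (hB : ∀ j ≤ M, Bd (1 / 2) D' (fun i => ((l ^ j : ℝ) : ℂ) * q i)) :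
    Chain D' M q (fun i => ((l ^ M : ℝ) : ℂ) * q i) := by
  have key : ∀ j : ℕ, j ≤ M → Chain D' j q (fun i => ((l ^ j : ℝ) : ℂ) * q i) := by
    intro j
    induction j with
    | zero =>
      intro _
      simp only [pow_zero, Complex.ofReal_one, one_mul]
      exact Chain.refl q
    | succ j ih =>
      intro hj
      have e1 : (fun i => ((l ^ (j + 1) : ℝ) : ℂ) * q i) =
          fun i => (l : ℂ) * ((fun i => ((l ^ j : ℝ) : ℂ) * q i) i) := by
        funext i
        push_cast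
        ring
      have h3 := hB (j + 1) hj
      rw [e1] at h3 ⊢
      exact Chain.sc j q _ l (ih (by omega)) h1 h2 (hB j (by omega)) h3
  exact key M le_rfl

/-- The separation lemma: two different slopes are not both bad. -/
private theorem sep_aux {a c : ℂ} {s m Y Y' σ σ' : ℝ} (ha : 1 ≤ ‖a‖) (hs : 0 < s) (hs1 : s < 1)
    (hsm : 2 * s * (1 + m ^ 2) ≤ 1 - s) (hY : |Y| ≤ m) (hYY : 1 ≤ |Y' - Y|)
    (hσ : 0 ≤ σ) (hσ' : 0 ≤ σ')
    (h : ‖a + (σ : ℂ) * (1 + Y * Complex.I) * c‖ < s)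
    (h' : ‖a + (σ' : ℂ) * (1 + Y' * Complex.I) * c‖ < s) : σ' < σ := by
  set g : ℂ := (σ : ℂ) * (1 + Y * Complex.I) with hg
  set g' : ℂ := (σ' : ℂ) * (1 + Y' * Complex.I) with hg'
  have h1 : 1 - s < ‖g‖ * ‖c‖ := by
    have e : a = (a + g * c) - g * c := by ring
    have e2 : ‖a‖ ≤ ‖a + g * c‖ + ‖g * c‖ := by
      conv_lhs => rw [e]
      exact norm_sub_le _ _
    rw [norm_mul] at e2
    linarith
  have h2 : ‖g' - g‖ * ‖c‖ < 2 * s := by
    have e : (g' - g) * c = (a + g' * c) - (a + g * c) := by ring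
    rw [← norm_mul, e]
    exact (norm_sub_le _ _).trans_lt (by linarith)
  have hg0 : 0 < ‖g‖ := by
    by_contra hcon
    have : ‖g‖ = 0 := le_antisymm (not_lt.1 hcon) (norm_nonneg _)
    rw [this, zero_mul] at h1
    linarith
  have hc0 : 0 < ‖c‖ := by
    by_contra hcon
    have : ‖c‖ = 0 := le_antisymm (not_lt.1 hcon) (norm_nonneg _)
    rw [this, mul_zero] at h1
    linarith
  have h3 : ‖g' - g‖ * (1 - s) < 2 * s * ‖g‖ := by
    have e1 : ‖g' - g‖ * (1 - s) ≤ ‖g' - g‖ * (‖g‖ * ‖c‖) := by gcongr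
    have e2 : ‖g' - g‖ * (‖g‖ * ‖c‖) = (‖g' - g‖ * ‖c‖) * ‖g‖ := by ring
    have e3 : (‖g' - g‖ * ‖c‖) * ‖g‖ < 2 * s * ‖g‖ := by gcongr
    linarith
  have hgn : ‖g‖ ^ 2 = σ ^ 2 * (1 + Y ^ 2) := by
    rw [hg, ← Complex.normSq_eq_norm_sq]
    simp [Complex.normSq_apply]
    ring
  have him : σ * σ' * |Y' - Y| ≤ ‖g' - g‖ * ‖g‖ := by
    have e1 : ((g' - g) * (starRingEnd ℂ) g).im = σ * σ' * (Y' - Y) := by
      rw [hg, hg']
      simp
      ring
    have e2 : |((g' - g) * (starRingEnd ℂ) g).im| ≤ ‖g' - g‖ * ‖g‖ := by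
      refine (Complex.abs_im_le_norm _).trans ?_
      rw [norm_mul, Complex.norm_conj]
    rw [e1, abs_mul, abs_of_nonneg (mul_nonneg hσ hσ')] at e2
    exact e2
  have hY2 : Y ^ 2 ≤ m ^ 2 := by
    rw [← sq_abs Y]
    exact pow_le_pow_left₀ (abs_nonneg _) hY 2
  have h4 : σ * σ' * (1 - s) < σ ^ 2 * (1 - s) := by
    have e0 : σ * σ' ≤ σ * σ' * |Y' - Y| := le_mul_of_one_le_right (mul_nonneg hσ hσ') hYY
    have e1 : σ * σ' * (1 - s) ≤ ‖g' - g‖ * ‖g‖ * (1 - s) := by
      have : 0 ≤ 1 - s := by linarith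
      exact mul_le_mul_of_nonneg_right (e0.trans him) this
    have e2 : ‖g' - g‖ * ‖g‖ * (1 - s) = (‖g' - g‖ * (1 - s)) * ‖g‖ := by ring
    have e3 : (‖g' - g‖ * (1 - s)) * ‖g‖ < 2 * s * ‖g‖ * ‖g‖ := by gcongr
    have e4 : 2 * s * ‖g‖ * ‖g‖ = 2 * s * (σ ^ 2 * (1 + Y ^ 2)) := by rw [← hgn]; ring
    have e5 : 2 * s * (σ ^ 2 * (1 + Y ^ 2)) ≤ σ ^ 2 * (2 * s * (1 + m ^ 2)) := by
      have : 0 ≤ σ ^ 2 * (2 * s) := by positivity
      nlinarith
    have e6 : σ ^ 2 * (2 * s * (1 + m ^ 2)) ≤ σ ^ 2 * (1 - s) := by gcongr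
    linarith
  have hσ0 : 0 < σ := by
    rcases hσ.lt_or_eq with h5 | h5
    · exact h5
    · exfalso
      rw [← h5] at h4
      simp at h4
  have h5 : σ' * (σ * (1 - s)) < σ * (σ * (1 - s)) := by nlinarith
  have h6 : 0 < σ * (1 - s) := mul_pos hσ0 (by linarith)
  exact lt_of_mul_lt_mul_right h5 h6.le

private theorem sep {a c : ℂ} {s m Y Y' σ σ' : ℝ} (ha : 1 ≤ ‖a‖) (hs : 0 < s) (hs1 : s < 1)
    (hsm : 2 * s * (1 + m ^ 2) ≤ 1 - s) (hY : |Y| ≤ m) (hY' : |Y'| ≤ m) (hYY : 1 ≤ |Y' - Y|)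
    (hσ : 0 ≤ σ) (hσ' : 0 ≤ σ')
    (h : ‖a + (σ : ℂ) * (1 + Y * Complex.I) * c‖ < s)
    (h' : ‖a + (σ' : ℂ) * (1 + Y' * Complex.I) * c‖ < s) : False := by
  have h1 := sep_aux ha hs hs1 hsm hY hYY hσ hσ' h h'
  have h2 := sep_aux ha hs hs1 hsm hY' (by rwa [abs_sub_comm]) hσ' hσ h' h
  linarith

/-- a good slope -/
private theorem exists_slope (m : ℕ) (hm : Fintype.card (ι × ι × Bool) < m + 1) {s : ℝ}
    (hs : 0 < s) (hs1 : s < 1) (hsm : 2 * s * (1 + (m : ℝ) ^ 2) ≤ 1 - s) {p st : ι → ℂ}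
    (hp : ∀ i k, i ≠ k → 1 ≤ dist (p i) (p k)) (hst : ∀ i k, i ≠ k → 1 ≤ dist (st i) (st k)) :
    ∃ Y : ℕ, Y ≤ m ∧ ∀ i k, i ≠ k → ∀ σ : ℝ, 0 ≤ σ →
      s ≤ ‖(p i - p k) + (σ : ℂ) * (1 + (Y : ℝ) * Complex.I) * ((st i - st k) - (p i - p k))‖ ∧
      s ≤ ‖(st i - st k) +
        (σ : ℂ) * (1 + (-(Y : ℝ) : ℝ) * Complex.I) * ((p i - p k) - (st i - st k))‖ := by
  classical
  by_contra hcon
  push Not at hcon
  have h1 : ∀ Y : Fin (m + 1), ∃ x : ι × ι × Bool, x.1 ≠ x.2.1 ∧ ∃ σ : ℝ, 0 ≤ σ ∧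
      ((x.2.2 = false ∧ ‖(p x.1 - p x.2.1) + (σ : ℂ) * (1 + ((Y : ℕ) : ℝ) * Complex.I) *
        ((st x.1 - st x.2.1) - (p x.1 - p x.2.1))‖ < s) ∨
      (x.2.2 = true ∧ ‖(st x.1 - st x.2.1) + (σ : ℂ) * (1 + (-((Y : ℕ) : ℝ) : ℝ) * Complex.I) *
        ((p x.1 - p x.2.1) - (st x.1 - st x.2.1))‖ < s)) := by
    intro Y
    obtain ⟨i, k, hik, σ, hσ, h2⟩ := hcon Y (Nat.lt_succ_iff.1 Y.2)
    by_cases h3 : s ≤ ‖(p i - p k) + (σ : ℂ) * (1 + ((Y : ℕ) : ℝ) * Complex.I) *
        ((st i - st k) - (p i - p k))‖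
    · exact ⟨(i, k, true), hik, σ, hσ, Or.inr ⟨rfl, h2 h3⟩⟩
    · exact ⟨(i, k, false), hik, σ, hσ, Or.inl ⟨rfl, not_le.1 h3⟩⟩
  choose f hf1 hf2 using h1
  obtain ⟨Y, Y', hne, heq⟩ := Fintype.exists_ne_map_eq_of_card_lt f (by rwa [Fintype.card_fin])
  have hYb : ∀ Y : Fin (m + 1), |((Y : ℕ) : ℝ)| ≤ m := by
    intro Y
    rw [abs_of_nonneg (Nat.cast_nonneg _)]
    exact_mod_cast Nat.lt_succ_iff.1 Y.2
  have hdiff : 1 ≤ |((Y' : ℕ) : ℝ) - ((Y : ℕ) : ℝ)| := by
    have h3 : (Y' : ℕ) ≠ (Y : ℕ) := fun h => hne (Fin.ext h.symm)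
    have h4 : ((Y' : ℕ) : ℤ) - ((Y : ℕ) : ℤ) ≠ 0 := by
      intro h
      apply h3
      omega
    have h5 : (1 : ℤ) ≤ |((Y' : ℕ) : ℤ) - ((Y : ℕ) : ℤ)| := Int.one_le_abs h4
    exact_mod_cast h5
  obtain ⟨σ, hσ, h2⟩ := hf2 Y
  obtain ⟨σ', hσ', h2'⟩ := hf2 Y'
  rw [← heq] at h2'
  have hik := hf1 Y
  rcases h2 with ⟨h3, h4⟩ | ⟨h3, h4⟩
  · rcases h2' with ⟨-, h4'⟩ | ⟨h3', -⟩
    · refine sep ?_ hs hs1 hsm (hYb Y) (hYb Y') hdiff hσ hσ' h4 h4'
      rw [← dist_eq_norm]
      exact hp _ _ hik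
    · rw [h3] at h3'
      simp at h3'
  · rcases h2' with ⟨h3', -⟩ | ⟨-, h4'⟩
    · rw [h3] at h3'
      simp at h3'
    · refine sep ?_ hs hs1 hsm (by rw [abs_neg]; exact hYb Y) (by rw [abs_neg]; exact hYb Y') ?_
        hσ hσ' h4 h4'
      · rw [← dist_eq_norm]
        exact hst _ _ hik
      · rw [neg_sub_neg, abs_sub_comm]
        exact hdiff

/-- half of the path -/
private theorem chain_half {D' s L E : ℝ} {m K : ℕ} (hK : 0 < K) (hL : 1 ≤ L * s) (hL0 : 0 < L)
    (hs : 0 < s) (hE : 1 ≤ E) (hD : L * (E * (m + 2)) + 1 ≤ D') (hKE : L * (E * (m + 1)) ≤ K / 1000)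
    {u v : ι → ℂ} (hu : ∀ i k, i ≠ k → dist (u i) (u k) ≤ E)
    (hv : ∀ i k, i ≠ k → dist (v i) (v k) ≤ E) (huv : ∀ i, dist (u i) (v i) ≤ 2 * E)
    {Y : ℝ} (hY : |Y| ≤ m)
    (h : ∀ i k, i ≠ k → ∀ σ : ℝ, 0 ≤ σ →
      s ≤ ‖(u i - u k) + (σ : ℂ) * (1 + Y * Complex.I) * ((v i - v k) - (u i - u k))‖) :
    Chain D' (K * Fintype.card ι) (fun i => (L : ℂ) * u i)
      (fun i => (L : ℂ) * (u i + (1 / 2 : ℝ) * (1 + Y * Complex.I) * (v i - u i))) ∧
    Chain D' (K * Fintype.card ι)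
      (fun i => (L : ℂ) * (u i + (1 / 2 : ℝ) * (1 + Y * Complex.I) * (v i - u i)))
      (fun i => (L : ℂ) * u i) := by
  have hY1 : ‖(1 + Y * Complex.I : ℂ)‖ ≤ m + 1 := by
    refine (norm_add_le _ _).trans ?_
    rw [norm_one, norm_mul, Complex.norm_I, mul_one, Complex.norm_real, Real.norm_eq_abs]
    linarith
  have hnw : ∀ i, ‖(L : ℂ) * ((1 / 2 : ℝ) * (1 + Y * Complex.I) * (v i - u i))‖ ≤ K / 1000 := by
    intro i
    rw [norm_mul, norm_mul, norm_mul, Complex.norm_real, Complex.norm_real, Real.norm_eq_abs,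
      Real.norm_eq_abs, abs_of_pos hL0, abs_of_pos (by norm_num : (0 : ℝ) < 1 / 2)]
    refine le_trans ?_ hKE
    have e1 : ‖v i - u i‖ ≤ 2 * E := by
      rw [← dist_eq_norm, dist_comm]
      exact huv i
    calc L * (1 / 2 * ‖(1 + Y * Complex.I : ℂ)‖ * ‖v i - u i‖)
        ≤ L * (1 / 2 * (m + 1) * (2 * E)) := by gcongr
      _ = L * (E * (m + 1)) := by ring
  have hBd : ∀ θ : ℝ, 0 ≤ θ → θ ≤ 1 → Bd 1 (L * (E * (m + 2)))
      (fun i => (L : ℂ) * (u i + (θ * (1 / 2) : ℝ) * (1 + Y * Complex.I) * (v i - u i))) := by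
    intro θ h0 h1 i k hik
    have e1 : (L : ℂ) * (u i + (θ * (1 / 2) : ℝ) * (1 + Y * Complex.I) * (v i - u i)) -
        (L : ℂ) * (u k + (θ * (1 / 2) : ℝ) * (1 + Y * Complex.I) * (v k - u k)) =
        (L : ℂ) * ((u i - u k) + ((θ * (1 / 2) : ℝ) : ℂ) * (1 + Y * Complex.I) *
          ((v i - v k) - (u i - u k))) := by ring
    show 1 ≤ dist _ _ ∧ dist _ _ ≤ _
    rw [dist_eq_norm, e1, norm_mul, Complex.norm_real, Real.norm_eq_abs, abs_of_pos hL0]
    constructor
    · refine hL.trans ?_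
      gcongr
      exact h i k hik _ (by positivity)
    · gcongr
      refine (norm_add_le _ _).trans ?_
      rw [norm_mul, norm_mul, Complex.norm_real, Real.norm_eq_abs, abs_of_nonneg (by positivity)]
      have e2 : ‖u i - u k‖ ≤ E := by
        rw [← dist_eq_norm]
        exact hu i k hik
      have e3 : ‖v i - v k‖ ≤ E := by
        rw [← dist_eq_norm]
        exact hv i k hik
      have e4 : ‖(v i - v k) - (u i - u k)‖ ≤ 2 * E := (norm_sub_le _ _).trans (by linarith)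
      calc ‖u i - u k‖ + θ * (1 / 2) * ‖(1 + Y * Complex.I : ℂ)‖ * ‖(v i - v k) - (u i - u k)‖
          ≤ E + 1 * (1 / 2) * (m + 1) * (2 * E) := by gcongr
        _ = E * (m + 2) := by ring
  constructor
  · have := chain_seg (D' := D') (D1 := L * (E * (m + 2))) hD
      (u := fun i => (L : ℂ) * u i)
      (w := fun i => (L : ℂ) * ((1 / 2 : ℝ) * (1 + Y * Complex.I) * (v i - u i))) hK ?_ hnw
    · convert this using 2
      ring
    · intro θ h0 h1
      have := hBd θ h0 h1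
      convert this using 2
      push_cast
      ring
  · have := chain_seg (D' := D') (D1 := L * (E * (m + 2))) hD
      (u := fun i => (L : ℂ) * (u i + (1 / 2 : ℝ) * (1 + Y * Complex.I) * (v i - u i)))
      (w := fun i => -((L : ℂ) * ((1 / 2 : ℝ) * (1 + Y * Complex.I) * (v i - u i)))) hK ?_ ?_
    · convert this using 2
      ring
    · intro θ h0 h1
      have := hBd (1 - θ) (by linarith) (by linarith)
      convert this using 2
      push_cast
      ring
    · intro i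
      rw [norm_neg]
      exact hnw i

theorem exists_chain (D : ℝ) (st : ι → ℂ) (hst : Bd 1 D st) :
    ∃ (D' : ℝ) (N : ℕ), ∀ p : ι → ℂ, Bd 1 D p → ∃ n ≤ N, Chain D' n p st := by
  rcases isEmpty_or_nonempty ι with hι | ⟨⟨i0⟩⟩
  · refine ⟨0, 0, fun p _ => ⟨0, le_rfl, ?_⟩⟩
    have : p = st := funext fun i => (hι.false i).elim
    rw [this]
    exact Chain.refl st
  set E : ℝ := max D 1 with hE
  have hE1 : 1 ≤ E := le_max_right _ _
  have hDE : D ≤ E := le_max_left _ _
  set m : ℕ := Fintype.card (ι × ι × Bool) with hm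
  set s : ℝ := 1 / (4 * (1 + (m : ℝ) ^ 2)) with hs
  have hm0 : (0 : ℝ) ≤ (m : ℝ) ^ 2 := by positivity
  have hs0 : 0 < s := by rw [hs]; positivity
  have hsm' : s * (1 + (m : ℝ) ^ 2) = 1 / 4 := by
    rw [hs]
    field_simp
  have hs1 : s ≤ 1 / 4 := by nlinarith
  obtain ⟨M, hM⟩ := pow_unbounded_of_one_lt (1 / s) (by norm_num : (1 : ℝ) < 101 / 100)
  set L : ℝ := (101 / 100) ^ M with hL
  have hL0 : 0 < L := by rw [hL]; positivity
  have hL1 : 1 ≤ L := by rw [hL]; exact one_le_pow₀ (by norm_num)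
  have hLs : 1 ≤ L * s := by
    rw [div_lt_iff₀ hs0] at hM
    exact hM.le
  obtain ⟨K, hK⟩ := exists_nat_ge (1000 * (L * (E * (m + 1))))
  have hKpos : 0 < K := by
    have : (0 : ℝ) < 1000 * (L * (E * (m + 1))) := by positivity
    exact_mod_cast this.trans_le hK
  have hKE : L * (E * (m + 1)) ≤ K / 1000 := by
    rw [le_div_iff₀ (by norm_num)]
    linarith
  set D' : ℝ := L * (E * (m + 2)) + 1 with hD'
  have hLE : L * E ≤ D' := by
    have : L * E * 1 ≤ L * E * ((m : ℝ) + 2) := by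
      apply mul_le_mul_of_nonneg_left _ (by positivity)
      have : (0 : ℝ) ≤ m := Nat.cast_nonneg m
      linarith
    rw [hD']
    linarith
  have hED : E ≤ D' := by
    have : E * 1 ≤ L * E := by nlinarith
    linarith
  -- scaled configurations
  have hscale : ∀ q : ι → ℂ, Bd 1 D q → ∀ l : ℝ, 1 ≤ l → l ≤ L →
      Bd (1 / 2) D' (fun i => (l : ℂ) * q i) := by
    intro q hq l hl1 hl2 i k hik
    obtain ⟨h1, h2⟩ := hq i k hik
    have e1 : dist ((l : ℂ) * q i) ((l : ℂ) * q k) = l * dist (q i) (q k) := by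
      rw [dist_eq_norm, ← mul_sub, norm_mul, Complex.norm_real, Real.norm_eq_abs,
        abs_of_nonneg (by linarith), ← dist_eq_norm]
    show (1 / 2 : ℝ) ≤ dist ((l : ℂ) * q i) ((l : ℂ) * q k) ∧
      dist ((l : ℂ) * q i) ((l : ℂ) * q k) ≤ D'
    rw [e1]
    constructor
    · nlinarith
    · refine le_trans ?_ hLE
      exact mul_le_mul hl2 (h2.trans hDE) dist_nonneg hL0.le
  refine ⟨D', 1 + M + K * Fintype.card ι + K * Fintype.card ι + M, ?_⟩
  intro p hp
  refine ⟨_, le_rfl, ?_⟩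
  -- translation
  set p' : ι → ℂ := fun i => p i + (st i0 - p i0) with hp'
  have hd' : ∀ i k, dist (p' i) (p' k) = dist (p i) (p k) := by
    intro i k
    rw [hp']
    simp [dist_eq_norm]
  have hp'B : Bd 1 D p' := by
    intro i k hik
    rw [hd']
    exact hp i k hik
  have hhalf : ∀ q : ι → ℂ, Bd 1 D q → Bd (1 / 2) D' q := by
    intro q hq i k hik
    obtain ⟨h1, h2⟩ := hq i k hik
    exact ⟨by linarith, by linarith⟩
  have c1 : Chain D' 1 p p' :=
    Chain.mv 0 p p p' (Chain.refl p) (hhalf p hp) (hhalf p' hp'B)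
      (Or.inr ⟨st i0 - p i0, fun k => rfl⟩)
  -- scale up
  have c2 : Chain D' M p' (fun i => (L : ℂ) * p' i) := by
    refine chain_scale (l := 101 / 100) (by norm_num) (by norm_num) ?_
    intro j hj
    apply hscale p' hp'B
    · exact one_le_pow₀ (by norm_num)
    · exact pow_le_pow_right₀ (by norm_num) hj
  have hdist : ∀ i, dist (p' i) (st i) ≤ 2 * E := by
    intro i
    by_cases hi : i = i0
    · subst hi
      have : p' i = st i := by rw [hp']; simp
      rw [this, dist_self]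
      linarith
    · have e1 : p' i0 = st i0 := by rw [hp']; simp
      have e2 := dist_triangle (p' i) (p' i0) (st i)
      have e3 := (hp'B i i0 hi).2
      have e4 := (hst i i0 hi).2
      rw [e1, dist_comm (st i0) (st i)] at e2
      rw [e1] at e3
      linarith
  obtain ⟨Y, hYm, hY⟩ := exists_slope (ι := ι) m (Nat.lt_succ_self _) hs0 (by linarith)
    (by nlinarith) (p := p') (st := st) (fun i k hik => (hp'B i k hik).1)
    (fun i k hik => (hst i k hik).1)
  have hYm' : |(Y : ℝ)| ≤ m := by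
    rw [abs_of_nonneg (Nat.cast_nonneg _)]
    exact_mod_cast hYm
  have c3 := (chain_half (ι := ι) (D' := D') (s := s) (L := L) (E := E) (m := m) (K := K) hKpos hLs
    hL0 hs0 hE1 le_rfl hKE (u := p') (v := st) (fun i k hik => ((hp'B i k hik).2).trans hDE)
    (fun i k hik => ((hst i k hik).2).trans hDE) hdist (Y := (Y : ℝ)) hYm'
    (fun i k hik σ hσ => (hY i k hik σ hσ).1)).1
  have c4 := (chain_half (ι := ι) (D' := D') (s := s) (L := L) (E := E) (m := m) (K := K) hKpos hLs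
    hL0 hs0 hE1 le_rfl hKE (u := st) (v := p') (fun i k hik => ((hst i k hik).2).trans hDE)
    (fun i k hik => ((hp'B i k hik).2).trans hDE) (fun i => by rw [dist_comm]; exact hdist i)
    (Y := -(Y : ℝ)) (by rwa [abs_neg])
    (fun i k hik σ hσ => (hY i k hik σ hσ).2)).2
  have hmid : (fun i => (L : ℂ) * (st i + (1 / 2 : ℝ) * (1 + (-(Y : ℝ) : ℝ) * Complex.I) *
      (p' i - st i))) =
      (fun i => (L : ℂ) * (p' i + (1 / 2 : ℝ) * (1 + ((Y : ℝ) : ℂ) * Complex.I) *
      (st i - p' i))) := by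
    funext i
    push_cast
    ring
  rw [hmid] at c4
  -- scale down
  have hinv : ∀ j : ℕ, (100 / 101 : ℝ) ^ j * (101 / 100 : ℝ) ^ j = 1 := by
    intro j
    rw [← mul_pow]
    norm_num
  have c5 : Chain D' M (fun i => (L : ℂ) * st i) st := by
    have h1 := chain_scale (D' := D') (l := 100 / 101) (by norm_num) (by norm_num)
      (q := fun i => (L : ℂ) * st i) (M := M) ?_
    · have e1 : (fun i => (((100 / 101 : ℝ) ^ M : ℝ) : ℂ) * ((L : ℂ) * st i)) = st := by
        funext i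
        rw [← mul_assoc, ← Complex.ofReal_mul, hL, hinv, Complex.ofReal_one, one_mul]
      rw [e1] at h1
      exact h1
    · intro j hj
      have e1 : (fun i => (((100 / 101 : ℝ) ^ j : ℝ) : ℂ) * ((L : ℂ) * st i)) =
          fun i => ((((101 / 100 : ℝ) ^ (M - j) : ℝ)) : ℂ) * st i := by
        funext i
        rw [← mul_assoc, ← Complex.ofReal_mul]
        congr 2
        have e2 : L = (101 / 100 : ℝ) ^ j * (101 / 100 : ℝ) ^ (M - j) := by
          rw [hL, ← pow_add, Nat.add_sub_cancel' hj]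
        rw [e2, ← mul_assoc, hinv, one_mul]
      show Bd (1 / 2) D' (fun i => (((100 / 101 : ℝ) ^ j : ℝ) : ℂ) * ((L : ℂ) * st i))
      rw [e1]
      apply hscale st hst
      · exact one_le_pow₀ (by norm_num)
      · exact pow_le_pow_right₀ (by norm_num) (Nat.sub_le _ _)
  exact chain_trans (chain_trans (chain_trans (chain_trans c1 c2) c3) c4) c5

end Pool.Agent.CcaPl
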