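import Mathlib
import Pool.Agent.Lib.MP_cca10c_ag.Pl.ClBasic

/-!
# The effect of one scaling step (MP_cca10c_ag, planar part, file B2)

Write `δ = dm p J`, `Δ = sp p J`, `E * (l * δ) ≤ Δ`, `p' = scaleJ p J (p j) l`, `e = 1/E`.
Every point of index in `J` moves by at most `l δ ≤ e Δ` (distance of `p i` and `p' i`: `(l-1) |p i - p j|`), the others do not move, and
distances inside `J` are multiplied by `l`. For `i ∈ J`, `k ∉ J`: `|p i - p k| ≥ Δ`, so `|p' i - p' k|` lies in
`[(1-e)|p i - p k|, (1+e)|p i - p k|]`.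

`rt_other` (`J' ≠ J`): cases
* `J'` disjoint from `J`: `dm` unchanged, `sp p' J' ≤ (1+e) sp p J'`;
* `J' ⊊ J`: `dm` is multiplied by `l`; `sp p J'` is attained inside `J` (a point of `J \ J'` has distance `≤ δ ≤ Δ` from `J'`),
  hence `sp p' J' ≤ l sp p J'`;
* `J ⊊ J'`: `dm p' J' ≥ (1-e) dm p J'` (a pair in `J`: its distance is `≤ δ ≤ Δ ≤` a distance between `J` and a point of `J' \ J`),
  `sp p' J' ≤ (1+e) sp p J'`;
* otherwise there are `i ∈ J ∩ J'`, `i2 ∈ J \ J'`, `k ∈ J' \ J`: `dm p' J' ≥ |p' i - p k| ≥ (1-e) Δ`,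
  `sp p' J' ≤ |p' i - p' i2| ≤ l δ ≤ e Δ`, so the ratio is `≤ 1`.
-/

set_option linter.unusedSectionVars false
set_option linter.unusedVariables false

namespace Pool.Agent.CcaPl

variable {ι : Type} [Fintype ι] [DecidableEq ι]

private lemma clscale_in {p : ι → ℂ} {J : Finset ι} (a : ℂ) (l : ℝ) {i : ι} (hi : i ∈ J) :
    scaleJ p J a l i = a + (l : ℂ) * (p i - a) := by rw [scaleJ, if_pos hi]

private lemma clscale_out {p : ι → ℂ} {J : Finset ι} (a : ℂ) (l : ℝ) {i : ι} (hi : i ∉ J) :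
    scaleJ p J a l i = p i := by rw [scaleJ, if_neg hi]

theorem scale_dist_in {p : ι → ℂ} {J : Finset ι} (j : ι) {l : ℝ} (hl : 1 ≤ l) {i k : ι} (hi : i ∈ J) (hk : k ∈ J) :
    dist (scaleJ p J (p j) l i) (scaleJ p J (p j) l k) = l * dist (p i) (p k) := by
  rw [clscale_in _ _ hi, clscale_in _ _ hk, dist_eq_norm, dist_eq_norm]
  have e : p j + (l : ℂ) * (p i - p j) - (p j + (l : ℂ) * (p k - p j)) = (l : ℂ) * (p i - p k) := by
    ring
  rw [e, norm_mul, Complex.norm_real, Real.norm_of_nonneg (by linarith)]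

theorem scale_dist_out {p : ι → ℂ} {J : Finset ι} (j : ι) {l : ℝ} {i k : ι} (hi : i ∉ J) (hk : k ∉ J) :
    dist (scaleJ p J (p j) l i) (scaleJ p J (p j) l k) = dist (p i) (p k) := by
  rw [clscale_out _ _ hi, clscale_out _ _ hk]

/-- displacement -/
private lemma clscale_move {E : ℝ} (hE : 20 ≤ E) {p : ι → ℂ} {J : Finset ι} {j : ι} {l : ℝ}
    (h : ClStep E p J j l) {i : ι} (hi : i ∈ J) :
    dist (scaleJ p J (p j) l i) (p i) ≤ 1 / E * sp p J := by
  have hl := h.one_le
  have hE0 : (0 : ℝ) < E := by linarith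
  rw [clscale_in _ _ hi, dist_eq_norm]
  have e : p j + (l : ℂ) * (p i - p j) - p i = ((l - 1 : ℝ) : ℂ) * (p i - p j) := by
    push_cast; ring
  rw [e, norm_mul, Complex.norm_real, Real.norm_of_nonneg (by linarith), ← dist_eq_norm]
  have h1 := dist_le_dm p J hi h.mem
  have h2 := dm_nonneg p J
  have h3 : (l - 1) * dist (p i) (p j) ≤ l * dm p J := by
    calc (l - 1) * dist (p i) (p j) ≤ (l - 1) * dm p J := mul_le_mul_of_nonneg_left h1 (by linarith)
      _ ≤ l * dm p J := by nlinarith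
  have h4 : l * dm p J ≤ 1 / E * sp p J := by
    rw [one_div, ← div_eq_inv_mul, le_div_iff₀ hE0]
    linarith [h.small]
  linarith

theorem scale_dist_cross {E : ℝ} (hE : 20 ≤ E) {p : ι → ℂ} {J : Finset ι} {j : ι} {l : ℝ} (h : ClStep E p J j l)
    {i k : ι} (hi : i ∈ J) (hk : k ∉ J) :
    (1 - 1 / E) * dist (p i) (p k) ≤ dist (scaleJ p J (p j) l i) (scaleJ p J (p j) l k) ∧
      dist (scaleJ p J (p j) l i) (scaleJ p J (p j) l k) ≤ (1 + 1 / E) * dist (p i) (p k) := by
  have hE0 : (0 : ℝ) < E := by linarith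
  have hm := clscale_move hE h hi
  have hs := sp_le_dist p J hi hk
  have hm2 : dist (scaleJ p J (p j) l i) (p i) ≤ 1 / E * dist (p i) (p k) :=
    hm.trans (mul_le_mul_of_nonneg_left hs (by positivity))
  rw [clscale_out _ _ hk]
  constructor
  · have := dist_triangle (p i) (scaleJ p J (p j) l i) (p k)
    rw [dist_comm (p i) (scaleJ p J (p j) l i)] at this
    linarith
  · have := dist_triangle (scaleJ p J (p j) l i) (p i) (p k)
    linarith

/-- the cross estimate in the other order -/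
private lemma clscale_cross' {E : ℝ} (hE : 20 ≤ E) {p : ι → ℂ} {J : Finset ι} {j : ι} {l : ℝ}
    (h : ClStep E p J j l) {i k : ι} (hi : i ∉ J) (hk : k ∈ J) :
    (1 - 1 / E) * dist (p i) (p k) ≤ dist (scaleJ p J (p j) l i) (scaleJ p J (p j) l k) ∧
      dist (scaleJ p J (p j) l i) (scaleJ p J (p j) l k) ≤ (1 + 1 / E) * dist (p i) (p k) := by
  have := scale_dist_cross hE h hk hi
  rwa [dist_comm (p k), dist_comm (scaleJ p J (p j) l k)] at this

/-- pairs not inside `J` -/
private lemma clscale_notin {E : ℝ} (hE : 20 ≤ E) {p : ι → ℂ} {J : Finset ι} {j : ι} {l : ℝ}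
    (h : ClStep E p J j l) {i k : ι} (hik : i ∉ J ∨ k ∉ J) :
    (1 - 1 / E) * dist (p i) (p k) ≤ dist (scaleJ p J (p j) l i) (scaleJ p J (p j) l k) ∧
      dist (scaleJ p J (p j) l i) (scaleJ p J (p j) l k) ≤ (1 + 1 / E) * dist (p i) (p k) := by
  have hE0 : (0 : ℝ) < E := by linarith
  have hd : 0 ≤ dist (p i) (p k) := dist_nonneg
  have he : 0 ≤ 1 / E * dist (p i) (p k) := by positivity
  by_cases hi : i ∈ J
  · have hk : k ∉ J := by tauto
    exact scale_dist_cross hE h hi hk
  · by_cases hk : k ∈ J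
    · exact clscale_cross' hE h hi hk
    · rw [scale_dist_out j hi hk]
      constructor <;> linarith

theorem scale_injective {E : ℝ} (hE : 20 ≤ E) {p : ι → ℂ} (hp : Function.Injective p) {J : Finset ι} {j : ι} {l : ℝ}
    (h : ClStep E p J j l) : Function.Injective (scaleJ p J (p j) l) := by
  have hE0 : (0 : ℝ) < E := by linarith
  intro i k hik
  have h0 : dist (scaleJ p J (p j) l i) (scaleJ p J (p j) l k) = 0 := by rw [hik, dist_self]
  apply hp
  rw [← dist_eq_zero]
  by_cases hJ : i ∉ J ∨ k ∉ J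
  · have h1 := (clscale_notin hE h hJ).1
    rw [h0] at h1
    have h2 : (0 : ℝ) < 1 - 1 / E := by
      have : 1 / E ≤ 1 / 20 := one_div_le_one_div_of_le (by norm_num) hE
      linarith
    have h3 : 0 ≤ dist (p i) (p k) := dist_nonneg
    nlinarith
  · push Not at hJ
    rw [scale_dist_in j h.one_le hJ.1 hJ.2] at h0
    rcases mul_eq_zero.1 h0 with h1 | h1
    · have := h.one_le; linarith
    · exact h1

private lemma clscale_nonempty {E : ℝ} {p : ι → ℂ} {J : Finset ι} {j : ι} {l : ℝ}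
    (h : ClStep E p J j l) : J.Nonempty := ⟨j, h.mem⟩

private lemma clscale_exists_out {E : ℝ} {p : ι → ℂ} {J : Finset ι} {j : ι} {l : ℝ}
    (h : ClStep E p J j l) : ∃ k, k ∉ J := by
  by_contra hcon
  push Not at hcon
  exact h.proper (Finset.eq_univ_iff_forall.2 hcon)

/-- `l δ ≤ e Δ` -/
private lemma clscale_ldelta {E : ℝ} (hE : 20 ≤ E) {p : ι → ℂ} {J : Finset ι} {j : ι} {l : ℝ}
    (h : ClStep E p J j l) : l * dm p J ≤ 1 / E * sp p J := by
  have hE0 : (0 : ℝ) < E := by linarith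
  rw [one_div, ← div_eq_inv_mul, le_div_iff₀ hE0]
  linarith [h.small]

private lemma clscale_sp_nonneg {E : ℝ} (hE : 20 ≤ E) {p : ι → ℂ} {J : Finset ι} {j : ι} {l : ℝ}
    (h : ClStep E p J j l) : 0 ≤ sp p J := by
  have h1 := h.small
  have h2 := dm_nonneg p J
  have h3 := h.one_le
  have : 0 ≤ E * (l * dm p J) := by positivity
  linarith

private lemma clscale_e {E : ℝ} (hE : 20 ≤ E) : 0 < 1 / E ∧ 1 / E ≤ 1 / 20 :=
  ⟨by positivity, one_div_le_one_div_of_le (by norm_num) hE⟩

/-- `l δ ≤ Δ` -/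
private lemma clscale_ldelta' {E : ℝ} (hE : 20 ≤ E) {p : ι → ℂ} {J : Finset ι} {j : ι} {l : ℝ}
    (h : ClStep E p J j l) : l * dm p J ≤ sp p J := by
  have h1 := clscale_ldelta hE h
  have h2 := clscale_sp_nonneg hE h
  have h3 := clscale_e hE
  nlinarith

private lemma clscale_delta {E : ℝ} (hE : 20 ≤ E) {p : ι → ℂ} {J : Finset ι} {j : ι} {l : ℝ}
    (h : ClStep E p J j l) : dm p J ≤ sp p J := by
  have h1 := clscale_ldelta' hE h
  have h2 := dm_nonneg p J
  have h3 := h.one_le
  nlinarith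

/-- the diameter of a part of `J` is multiplied by `l` -/
private lemma clscale_dm_sub {p : ι → ℂ} {J : Finset ι} (j : ι) {l : ℝ} (hl : 1 ≤ l)
    {J' : Finset ι} (hJ : J' ⊆ J) (hne : J'.Nonempty) :
    dm (scaleJ p J (p j) l) J' = l * dm p J' := by
  apply le_antisymm
  · refine dm_le _ _ (mul_nonneg (by linarith) (dm_nonneg p J')) ?_
    intro i hi k hk
    rw [scale_dist_in j hl (hJ hi) (hJ hk)]
    exact mul_le_mul_of_nonneg_left (dist_le_dm p J' hi hk) (by linarith)
  · obtain ⟨i, hi, k, hk, h⟩ := exists_dm p J' hne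
    rw [h, ← scale_dist_in j hl (hJ hi) (hJ hk)]
    exact dist_le_dm _ _ hi hk

/-- upper bound for the separation -/
private lemma clscale_sp_le {E : ℝ} (hE : 20 ≤ E) {p : ι → ℂ} {J : Finset ι} {j : ι} {l : ℝ}
    (h : ClStep E p J j l) {J' : Finset ι} (hne : J'.Nonempty) (hJ' : J' ≠ Finset.univ)
    (hcond : ∀ i ∈ J', ∀ k ∉ J', i ∉ J ∨ k ∉ J) :
    sp (scaleJ p J (p j) l) J' ≤ (1 + 1 / E) * sp p J' := by
  obtain ⟨i, hi, k, hk, h1⟩ := exists_sp p J' hne hJ'
  rw [h1]
  exact (sp_le_dist _ _ hi hk).trans (clscale_notin hE h (hcond i hi k hk)).2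

theorem rt_self {E : ℝ} (hE : 20 ≤ E) {p : ι → ℂ} (hp : Function.Injective p) {J : Finset ι} {j : ι} {l : ℝ}
    (h : ClStep E p J j l) : rt (scaleJ p J (p j) l) J ≤ (1 + 1 / E) * (rt p J / l) := by
  have hl := h.one_le
  have hδ := dm_pos p hp J h.card
  have h1 := clscale_dm_sub (p := p) j hl (subset_refl J) (clscale_nonempty h)
  have h2 := clscale_sp_le hE h (clscale_nonempty h) h.proper (fun i _ k hk => Or.inr hk)
  rw [rt, rt, h1]
  have e : (1 + 1 / E) * (sp p J / dm p J / l) = ((1 + 1 / E) * sp p J) / (l * dm p J) := by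
    rw [div_div, mul_div_assoc, mul_comm l]
  rw [e]
  exact div_le_div_of_nonneg_right h2 (by positivity)

theorem rt_other {E : ℝ} (hE : 20 ≤ E) {p : ι → ℂ} (hp : Function.Injective p) {J : Finset ι} {j : ι} {l : ℝ}
    (h : ClStep E p J j l) (J' : Finset ι) (hJ : J' ≠ J) (hJ2 : 2 ≤ J'.card) (hJ' : J' ≠ Finset.univ) :
    rt (scaleJ p J (p j) l) J' ≤ max ((1 + 4 / E) * rt p J') 1 := by
  have hE0 : (0 : ℝ) < E := by linarith
  obtain ⟨he0, he⟩ := clscale_e hE
  have hl := h.one_le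
  have hne : J'.Nonempty := Finset.card_pos.1 (by omega)
  have hδ' := dm_pos p hp J' hJ2
  have hs' : 0 < sp p J' := sp_pos p hp J' hne hJ'
  have hδ := dm_pos p hp J h.card
  have hΔ := sp_pos p hp J (clscale_nonempty h) h.proper
  have h4E : 4 / E = 4 * (1 / E) := by ring
  have hrt : 0 < rt p J' := div_pos hs' hδ'
  have hlarge : ∀ c, c ≤ 1 + 4 / E → c * rt p J' ≤ max ((1 + 4 / E) * rt p J') 1 := fun c hc =>
    (mul_le_mul_of_nonneg_right hc hrt.le).trans (le_max_left _ _)
  by_cases hsub : J' ⊆ J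
  · -- `J'` is a proper part of `J`
    obtain ⟨m, hmJ, hmJ'⟩ : ∃ m ∈ J, m ∉ J' := by
      by_contra hcon
      push Not at hcon
      exact hJ (Finset.Subset.antisymm hsub hcon)
    have hdm := clscale_dm_sub (p := p) j hl hsub hne
    have hsp : sp (scaleJ p J (p j) l) J' ≤ l * sp p J' := by
      obtain ⟨i, hi, k, hk, h1⟩ := exists_sp p J' hne hJ'
      by_cases hkJ : k ∈ J
      · rw [h1, ← scale_dist_in j hl (hsub hi) hkJ]
        exact sp_le_dist _ _ hi hk
      · have h2 := sp_le_dist (scaleJ p J (p j) l) J' hi hmJ'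
        rw [scale_dist_in j hl (hsub hi) hmJ] at h2
        have h3 := dist_le_dm p J (hsub hi) hmJ
        have h4 := clscale_delta hE h
        have h5 := sp_le_dist p J (hsub hi) hkJ
        rw [← h1] at h5
        exact h2.trans (mul_le_mul_of_nonneg_left (by linarith) (by linarith))
    refine le_trans ?_ (hlarge 1 (by rw [h4E]; linarith))
    rw [one_mul, rt, rt, hdm, div_le_div_iff₀ (by positivity) hδ']
    nlinarith
  obtain ⟨k, hkJ', hkJ⟩ := Finset.not_subset.1 hsub
  by_cases hsub2 : J ⊆ J'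
  · -- `J` is a proper part of `J'`
    have hsp : sp (scaleJ p J (p j) l) J' ≤ (1 + 1 / E) * sp p J' :=
      clscale_sp_le hE h hne hJ' (fun i _ k hk => Or.inr fun h2 => hk (hsub2 h2))
    have hdm : (1 - 1 / E) * dm p J' ≤ dm (scaleJ p J (p j) l) J' := by
      obtain ⟨a, ha, b, hb, h1⟩ := exists_dm p J' hne
      by_cases hab : a ∉ J ∨ b ∉ J
      · rw [h1]
        exact (clscale_notin hE h hab).1.trans (dist_le_dm _ _ ha hb)
      · push Not at hab
        have h2 := dist_le_dm p J hab.1 hab.2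
        have h3 := clscale_delta hE h
        have h4 := sp_le_dist p J h.mem hkJ
        have h5 := (scale_dist_cross hE h h.mem hkJ).1
        have h6 := dist_le_dm (scaleJ p J (p j) l) J' (hsub2 h.mem) hkJ'
        rw [h1]
        have h7 : dist (p a) (p b) ≤ dist (p j) (p k) := by linarith
        have h8 := mul_le_mul_of_nonneg_left h7 (show (0 : ℝ) ≤ 1 - 1 / E by linarith)
        linarith
    have hdpos : 0 < (1 - 1 / E) * dm p J' := mul_pos (by linarith) hδ'
    refine le_trans ?_ (le_max_left _ _)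
    rw [rt, rt, div_le_iff₀ (lt_of_lt_of_le hdpos hdm)]
    have h9 : (1 + 4 / E) * (sp p J' / dm p J') * ((1 - 1 / E) * dm p J') ≤
        (1 + 4 / E) * (sp p J' / dm p J') * dm (scaleJ p J (p j) l) J' :=
      mul_le_mul_of_nonneg_left hdm (by positivity)
    refine le_trans ?_ h9
    have e : (1 + 4 / E) * (sp p J' / dm p J') * ((1 - 1 / E) * dm p J') =
        ((1 + 4 / E) * (1 - 1 / E)) * sp p J' := by
      field_simp
    rw [e]
    refine hsp.trans (mul_le_mul_of_nonneg_right ?_ hs'.le)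
    rw [h4E]
    nlinarith
  obtain ⟨m, hmJ, hmJ'⟩ := Finset.not_subset.1 hsub2
  by_cases hdis : ∃ i, i ∈ J ∧ i ∈ J'
  · -- the crossing case
    obtain ⟨i, hiJ, hiJ'⟩ := hdis
    refine le_trans ?_ (le_max_right _ _)
    have h1 := (scale_dist_cross hE h hiJ hkJ).1
    have h2 := sp_le_dist p J hiJ hkJ
    have h3 := dist_le_dm (scaleJ p J (p j) l) J' hiJ' hkJ'
    have h4 := sp_le_dist (scaleJ p J (p j) l) J' hiJ' hmJ'
    rw [scale_dist_in j hl hiJ hmJ] at h4
    have h5 := dist_le_dm p J hiJ hmJ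
    have h6 := mul_le_mul_of_nonneg_left h5 (show (0 : ℝ) ≤ l by linarith)
    have h7 := clscale_ldelta hE h
    have h8 := mul_le_mul_of_nonneg_left h2 (show (0 : ℝ) ≤ 1 - 1 / E by linarith)
    have h9 : 0 < (1 - 1 / E) * sp p J := mul_pos (by linarith) hΔ
    have h10 : 0 < dm (scaleJ p J (p j) l) J' := by linarith
    rw [rt, div_le_one h10]
    nlinarith
  · -- disjoint
    push Not at hdis
    have hsp : sp (scaleJ p J (p j) l) J' ≤ (1 + 1 / E) * sp p J' :=
      clscale_sp_le hE h hne hJ' (fun i hi k _ => Or.inl fun h2 => hdis i h2 hi)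
    have hdm : dm p J' ≤ dm (scaleJ p J (p j) l) J' := by
      obtain ⟨a, ha, b, hb, h1⟩ := exists_dm p J' hne
      rw [h1, ← scale_dist_out (p := p) j (l := l) (fun h2 => hdis a h2 ha) (fun h2 => hdis b h2 hb)]
      exact dist_le_dm _ _ ha hb
    refine le_trans ?_ (hlarge (1 + 1 / E) (by rw [h4E]; linarith))
    rw [rt, rt, div_le_iff₀ (lt_of_lt_of_le hδ' hdm)]
    have h9 : (1 + 1 / E) * (sp p J' / dm p J') * dm p J' ≤
        (1 + 1 / E) * (sp p J' / dm p J') * dm (scaleJ p J (p j) l) J' :=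
      mul_le_mul_of_nonneg_left hdm (by positivity)
    refine le_trans ?_ h9
    have e : (1 + 1 / E) * (sp p J' / dm p J') * dm p J' = (1 + 1 / E) * sp p J' := by
      field_simp
    rw [e]
    exact hsp

private lemma clscale_single {J : Finset ι} (hJ : 2 ≤ J.card) (i : ι) :
    ({i} : Finset ι) ≠ Finset.univ := by
  intro h
  have h1 : J.card ≤ ({i} : Finset ι).card := by
    rw [h]; exact Finset.card_le_univ J
  rw [Finset.card_singleton] at h1
  omega

theorem nn_in {E : ℝ} (hE : 20 ≤ E) {p : ι → ℂ} (hp : Function.Injective p) {J : Finset ι} {j : ι} {l : ℝ}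
    (h : ClStep E p J j l) {i : ι} (hi : i ∈ J) : nn (scaleJ p J (p j) l) i = l * nn p i := by
  have hl := h.one_le
  obtain ⟨he0, he⟩ := clscale_e hE
  obtain ⟨m, hmJ, hmi⟩ : ∃ m ∈ J, m ≠ i := by
    obtain ⟨m, hm, hmi⟩ := Finset.exists_mem_ne (show 1 < J.card by have := h.card; omega) i
    exact ⟨m, hm, hmi⟩
  have hne : ({i} : Finset ι).Nonempty := Finset.singleton_nonempty i
  have huniv := clscale_single h.card i
  have hm1 : m ∉ ({i} : Finset ι) := by simpa using hmi
  have hi1 : i ∈ ({i} : Finset ι) := Finset.mem_singleton_self i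
  rw [nn, nn]
  apply le_antisymm
  · obtain ⟨a, ha, k, hk, h1⟩ := exists_sp p {i} hne huniv
    rw [Finset.mem_singleton] at ha
    subst ha
    by_cases hkJ : k ∈ J
    · rw [h1, ← scale_dist_in j hl hi hkJ]
      exact sp_le_dist _ _ hi1 hk
    · have h2 := sp_le_dist (scaleJ p J (p j) l) {a} hi1 hm1
      rw [scale_dist_in j hl hi hmJ] at h2
      have h3 := dist_le_dm p J hi hmJ
      have h4 := clscale_delta hE h
      have h5 := sp_le_dist p J hi hkJ
      rw [← h1] at h5
      exact h2.trans (mul_le_mul_of_nonneg_left (by linarith) (by linarith))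
  · refine le_sp _ _ hne huniv ?_
    intro a ha k hk
    rw [Finset.mem_singleton] at ha
    subst ha
    by_cases hkJ : k ∈ J
    · rw [scale_dist_in j hl hi hkJ]
      exact mul_le_mul_of_nonneg_left (sp_le_dist p _ hi1 hk) (by linarith)
    · have h1 := (scale_dist_cross hE h hi hkJ).1
      have h2 := sp_le_dist p J hi hkJ
      have h3 := sp_le_dist p {a} hi1 hm1
      have h4 := dist_le_dm p J hi hmJ
      have h5 := mul_le_mul_of_nonneg_left (h3.trans h4) (show (0 : ℝ) ≤ l by linarith)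
      have h6 := clscale_ldelta hE h
      have h7 := clscale_sp_nonneg hE h
      have h8 := mul_le_mul_of_nonneg_left h2 (show (0 : ℝ) ≤ 1 - 1 / E by linarith)
      nlinarith

theorem nn_out {E : ℝ} (hE : 20 ≤ E) {p : ι → ℂ} (hp : Function.Injective p) {J : Finset ι} {j : ι} {l : ℝ}
    (h : ClStep E p J j l) {i : ι} (hi : i ∉ J) :
    (1 - 1 / E) * nn p i ≤ nn (scaleJ p J (p j) l) i ∧ nn (scaleJ p J (p j) l) i ≤ (1 + 1 / E) * nn p i := by
  obtain ⟨he0, he⟩ := clscale_e hE
  have hne : ({i} : Finset ι).Nonempty := Finset.singleton_nonempty i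
  have huniv := clscale_single h.card i
  have hi1 : i ∈ ({i} : Finset ι) := Finset.mem_singleton_self i
  rw [nn, nn]
  constructor
  · refine le_sp _ _ hne huniv ?_
    intro a ha k hk
    rw [Finset.mem_singleton] at ha
    subst ha
    refine le_trans ?_ (clscale_notin hE h (Or.inl hi)).1
    exact mul_le_mul_of_nonneg_left (sp_le_dist p _ hi1 hk) (by linarith)
  · refine clscale_sp_le hE h hne huniv ?_
    intro a ha k _
    rw [Finset.mem_singleton] at ha
    subst ha
    exact Or.inl hi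

theorem dm_univ {E : ℝ} (hE : 20 ≤ E) {p : ι → ℂ} (hp : Function.Injective p) {J : Finset ι} {j : ι} {l : ℝ}
    (h : ClStep E p J j l) :
    (1 - 1 / E) * dm p Finset.univ ≤ dm (scaleJ p J (p j) l) Finset.univ ∧
      dm (scaleJ p J (p j) l) Finset.univ ≤ (1 + 1 / E) * dm p Finset.univ := by
  obtain ⟨he0, he⟩ := clscale_e hE
  have hl := h.one_le
  obtain ⟨m, hm⟩ := clscale_exists_out h
  have h0 := dm_nonneg p Finset.univ
  have hjm := dist_le_dm p Finset.univ (Finset.mem_univ j) (Finset.mem_univ m)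
  have hΔ := sp_le_dist p J h.mem hm
  constructor
  · obtain ⟨a, ha, b, hb, h1⟩ := exists_dm p Finset.univ ⟨j, Finset.mem_univ j⟩
    by_cases hab : a ∉ J ∨ b ∉ J
    · rw [h1]
      exact (clscale_notin hE h hab).1.trans (dist_le_dm _ _ ha hb)
    · push Not at hab
      have h2 := dist_le_dm p J hab.1 hab.2
      have h3 := clscale_delta hE h
      have h5 := (scale_dist_cross hE h h.mem hm).1
      have h6 := dist_le_dm (scaleJ p J (p j) l) Finset.univ (Finset.mem_univ j) (Finset.mem_univ m)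
      rw [h1]
      have h7 : dist (p a) (p b) ≤ dist (p j) (p m) := by linarith
      have h8 := mul_le_mul_of_nonneg_left h7 (show (0 : ℝ) ≤ 1 - 1 / E by linarith)
      linarith
  · refine dm_le _ _ (by positivity) ?_
    intro a ha b hb
    by_cases hab : a ∉ J ∨ b ∉ J
    · refine (clscale_notin hE h hab).2.trans ?_
      exact mul_le_mul_of_nonneg_left (dist_le_dm p _ ha hb) (by linarith)
    · push Not at hab
      rw [scale_dist_in j hl hab.1 hab.2]
      have h2 := mul_le_mul_of_nonneg_left (dist_le_dm p J hab.1 hab.2) (show (0 : ℝ) ≤ l by linarith)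
      have h3 := clscale_ldelta' hE h
      nlinarith

end Pool.Agent.CcaPl
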