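import Mathlib
import Pool.Agent.Lib.MP_cca10c_ag.Pl.ClScale

/-!
# One pass over all parts makes the configuration bounded (MP_cca10c_ag, planar part, files B3, B4)

`pass`: an induction principle. Enumerate all finsets `J`; for each one do nothing if `rt p J ≤ 2 E`, otherwise scale with
`l = rt p J / E` (a `ClStep E`). With `E ≥ 4 * 2 ^ card ι` all ratios stay below `max (3 rt_initial) 3` during the pass
(`(1 + 4/E)^(2^n) ≤ e < 3`) and at the end all ratios are `≤ 6 E`.
The statement is an induction principle for a predicate `R` on configurations (reachable at bounded cost with n steps).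
-/

namespace Pool.Agent.CcaPl

variable {ι : Type} [Fintype ι] [DecidableEq ι]

/-- the factor `(1 + 4 / E) ^ m` is at most `3` -/
private theorem ClPass_pow {E : ℝ} (hE : 20 ≤ E) (hE2 : 4 * 2 ^ Fintype.card ι ≤ E) (m : ℕ)
    (hm : m ≤ 2 ^ Fintype.card ι) : (1 + 4 / E) ^ m ≤ 3 := by
  have hE0 : 0 < E := by linarith
  have h1 : (1 + 4 / E) ≤ Real.exp (4 / E) := by
    have := Real.add_one_le_exp (4 / E)
    linarith
  have h2 : (0 : ℝ) ≤ 1 + 4 / E := by positivity
  have h3 : (m : ℝ) * (4 / E) ≤ 1 := by
    rw [← mul_div_assoc, div_le_one hE0]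
    have : (m : ℝ) ≤ 2 ^ Fintype.card ι := by exact_mod_cast hm
    linarith
  calc (1 + 4 / E) ^ m ≤ Real.exp (4 / E) ^ m := pow_le_pow_left₀ h2 h1 m
    _ = Real.exp (m * (4 / E)) := by rw [← Real.exp_nat_mul]
    _ ≤ Real.exp 1 := Real.exp_le_exp.2 h3
    _ ≤ 3 := by linarith [Real.exp_one_lt_d9]

/-- `R n q`: the configuration `q` has been reached after `n` steps. Every admissible step keeps reachability, provided all ratios are controlled
by the initial ones. Then a configuration with bounded ratios is reached after at most `2 ^ card ι` steps. -/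
theorem pass {E : ℝ} (hE : 20 ≤ E) (hE2 : 4 * 2 ^ Fintype.card ι ≤ E) (p : ι → ℂ) (hp : Function.Injective p)
    (R : ℕ → (ι → ℂ) → Prop) (h0 : R 0 p)
    (hstep : ∀ n q J j l, R n q → Function.Injective q → ClStep E q J j l → l ≤ rt q J / E →
      (∀ J' : Finset ι, 2 ≤ J'.card → J' ≠ Finset.univ → rt q J' ≤ max (3 * rt p J') 3) → R (n + 1) (scaleJ q J (q j) l)) :
    ∃ n q, n ≤ 2 ^ Fintype.card ι ∧ R n q ∧ Function.Injective q ∧
      ∀ J' : Finset ι, 2 ≤ J'.card → J' ≠ Finset.univ → rt q J' ≤ 6 * E := by
  have hE0 : 0 < E := by linarith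
  set g : ℝ := 1 + 4 / E with hg
  have hg1 : 1 ≤ g := by
    rw [hg]
    have : 0 ≤ 4 / E := by positivity
    linarith
  have hcard : ∀ S : Finset (Finset ι), S.card ≤ 2 ^ Fintype.card ι := by
    intro S
    have h1 := Finset.card_le_univ S
    rwa [Fintype.card_finset] at h1
  have hgm : ∀ m : ℕ, 1 ≤ g ^ m := fun m => one_le_pow₀ hg1
  have main : ∀ S : Finset (Finset ι), ∃ n q, n ≤ S.card ∧ R n q ∧ Function.Injective q ∧
      (∀ J' : Finset ι, 2 ≤ J'.card → J' ≠ Finset.univ → rt q J' ≤ g ^ S.card * max (rt p J') 1) ∧
      (∀ J' ∈ S, 2 ≤ J'.card → J' ≠ Finset.univ → rt q J' ≤ g ^ S.card * (2 * E)) := by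
    intro S
    induction S using Finset.induction_on with
    | empty =>
      refine ⟨0, p, le_rfl, h0, hp, ?_, ?_⟩
      · intro J' _ _
        rw [Finset.card_empty, pow_zero, one_mul]
        exact le_max_left _ _
      · intro J' hJ'
        exact absurd hJ' (Finset.notMem_empty _)
    | insert J S hJS ih =>
      obtain ⟨n, q, hn, hR, hq, ha, hb⟩ := ih
      have hc : (insert J S).card = S.card + 1 := Finset.card_insert_of_notMem hJS
      have hSc := hcard (insert J S)
      rw [hc] at hSc ⊢
      have hmono : ∀ x : ℝ, 0 ≤ x → g ^ S.card * x ≤ g ^ (S.card + 1) * x := by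
        intro x hx
        exact mul_le_mul_of_nonneg_right (pow_le_pow_right₀ hg1 (Nat.le_succ _)) hx
      have hmx : ∀ J' : Finset ι, 0 ≤ max (rt p J') 1 := fun J' =>
        zero_le_one.trans (le_max_right _ _)
      by_cases hgood : 2 ≤ J.card ∧ J ≠ Finset.univ ∧ 2 * E < rt q J
      swap
      · refine ⟨n, q, by omega, hR, hq, ?_, ?_⟩
        · intro J' h2 h3
          exact (ha J' h2 h3).trans (hmono _ (hmx J'))
        · intro J' hJ' h2 h3
          rcases Finset.mem_insert.1 hJ' with h4 | h4
          · subst h4
            have h5 : rt q J' ≤ 2 * E := by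
              by_contra hcon
              rw [not_le] at hcon
              exact hgood ⟨h2, h3, hcon⟩
            have h6 := hgm (S.card + 1)
            nlinarith
          · exact (hb J' h4 h2 h3).trans (hmono _ (by linarith))
      · obtain ⟨hc2, hcu, hlarge⟩ := hgood
        obtain ⟨j, hj⟩ : J.Nonempty := Finset.card_pos.1 (by omega)
        set l : ℝ := rt q J / E with hl
        have hl2 : 2 ≤ l := by
          rw [hl, le_div_iff₀ hE0]
          exact hlarge.le
        have hl0 : 0 < l := by linarith
        have hdm := dm_pos q hq J hc2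
        have hstepJ : ClStep E q J j l := by
          refine ⟨hc2, hcu, hj, by linarith, ?_⟩
          have h1 : E * (l * dm q J) = sp q J := by
            rw [hl, rt]
            field_simp
          exact h1.le
        have hRnew := hstep n q J j l hR hq hstepJ le_rfl (by
          intro J' h2 h3
          refine (ha J' h2 h3).trans ?_
          have h4 := ClPass_pow (ι := ι) hE hE2 S.card (by omega)
          rw [← hg] at h4
          calc g ^ S.card * max (rt p J') 1 ≤ 3 * max (rt p J') 1 :=
                mul_le_mul_of_nonneg_right h4 (hmx J')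
            _ = max (3 * rt p J') 3 := by
                rw [mul_max_of_nonneg _ _ (by norm_num : (0 : ℝ) ≤ 3), mul_one])
        have hself : rt (scaleJ q J (q j) l) J ≤ 2 * E := by
          have h1 := rt_self hE hq hstepJ
          have h2 : (1 + 1 / E) * (rt q J / l) = E + 1 := by
            have h3 : rt q J = l * E := by
              rw [hl]
              field_simp
            rw [h3]
            field_simp
          rw [h2] at h1
          linarith
        refine ⟨n + 1, scaleJ q J (q j) l, by omega, hRnew, scale_injective hE hq hstepJ, ?_, ?_⟩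
        · intro J' h2 h3
          by_cases hJ' : J' = J
          · subst hJ'
            have h4 := (ha J' h2 h3).trans (hmono _ (hmx J'))
            linarith
          · refine (rt_other hE hq hstepJ J' hJ' h2 h3).trans (max_le ?_ ?_)
            · rw [← hg, pow_succ]
              calc g * rt q J' ≤ g * (g ^ S.card * max (rt p J') 1) :=
                    mul_le_mul_of_nonneg_left (ha J' h2 h3) (by linarith)
                _ = g ^ S.card * g * max (rt p J') 1 := by ring
            · calc (1 : ℝ) = 1 * 1 := by norm_num
                _ ≤ g ^ (S.card + 1) * max (rt p J') 1 :=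
                    mul_le_mul (hgm _) (le_max_right _ _) zero_le_one (by linarith [hgm (S.card + 1)])
        · intro J' hJ'S h2 h3
          have h6 := hgm (S.card + 1)
          by_cases hJ' : J' = J
          · subst hJ'
            nlinarith
          · have hJS' : J' ∈ S := (Finset.mem_insert.1 hJ'S).resolve_left hJ'
            refine (rt_other hE hq hstepJ J' hJ' h2 h3).trans (max_le ?_ ?_)
            · rw [← hg, pow_succ]
              calc g * rt q J' ≤ g * (g ^ S.card * (2 * E)) :=
                    mul_le_mul_of_nonneg_left (hb J' hJS' h2 h3) (by linarith)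
                _ = g ^ S.card * g * (2 * E) := by ring
            · nlinarith
  obtain ⟨n, q, hn, hR, hq, -, hb⟩ := main Finset.univ
  refine ⟨n, q, hn.trans (hcard _), hR, hq, ?_⟩
  intro J' h2 h3
  refine (hb J' (Finset.mem_univ _) h2 h3).trans ?_
  have h4 := ClPass_pow (ι := ι) hE hE2 (Finset.univ : Finset (Finset ι)).card (hcard _)
  rw [← hg] at h4
  calc g ^ (Finset.univ : Finset (Finset ι)).card * (2 * E) ≤ 3 * (2 * E) :=
        mul_le_mul_of_nonneg_right h4 (by linarith)
    _ = 6 * E := by ring

/-- bounded ratios imply a bounded configuration: grow a cluster from the closest pair by adding nearest points -/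
theorem bounded_of_rt {B : ℝ} (hB : 1 ≤ B) (hc : 2 ≤ Fintype.card ι) (q : ι → ℂ) (hq : Function.Injective q)
    (h : ∀ J' : Finset ι, 2 ≤ J'.card → J' ≠ Finset.univ → rt q J' ≤ B) (j : ι) :
    dm q Finset.univ ≤ (1 + B) ^ Fintype.card ι * nn q j := by
  have hne : ({j} : Finset ι) ≠ Finset.univ := by
    intro h1
    have h2 := congrArg Finset.card h1
    rw [Finset.card_singleton, Finset.card_univ] at h2
    omega
  have hnn : 0 < nn q j := sp_pos q hq {j} ⟨j, Finset.mem_singleton_self j⟩ hne
  have main : ∀ m, 2 ≤ m → m ≤ Fintype.card ι → ∃ J : Finset ι, J.card = m ∧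
      dm q J ≤ (1 + B) ^ m * nn q j := by
    intro m hm
    induction m, hm using Nat.le_induction with
    | base =>
      intro _
      obtain ⟨i, hi, k, hk, hik⟩ := exists_sp q {j} ⟨j, Finset.mem_singleton_self j⟩ hne
      rw [Finset.mem_singleton] at hi hk
      subst hi
      refine ⟨{i, k}, Finset.card_pair (Ne.symm hk), ?_⟩
      have h1 : dm q {i, k} ≤ nn q i := by
        refine dm_le q _ hnn.le ?_
        intro a ha b hb
        rw [nn, hik]
        simp only [Finset.mem_insert, Finset.mem_singleton] at ha hb
        rcases ha with rfl | rfl <;> rcases hb with rfl | rfl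
        · rw [dist_self]
          exact dist_nonneg
        · exact le_rfl
        · rw [dist_comm]
        · rw [dist_self]
          exact dist_nonneg
      refine h1.trans ?_
      have h2 : (1 : ℝ) ≤ (1 + B) ^ 2 := one_le_pow₀ (by linarith)
      nlinarith
    | succ m hm ih =>
      intro hmN
      obtain ⟨J, hJ, hd⟩ := ih (by omega)
      have hJu : J ≠ Finset.univ := by
        intro h1
        rw [h1, Finset.card_univ] at hJ
        omega
      have hJ0 : J.Nonempty := Finset.card_pos.1 (by omega)
      have hJ2 : 2 ≤ J.card := by omega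
      obtain ⟨i, hi, k, hk, hik⟩ := exists_sp q J hJ0 hJu
      have hdm := dm_pos q hq J hJ2
      have hsp : sp q J ≤ B * dm q J := by
        have h1 := h J hJ2 hJu
        rw [rt, div_le_iff₀ hdm] at h1
        exact h1
      refine ⟨insert k J, by rw [Finset.card_insert_of_notMem hk, hJ], ?_⟩
      have h1 : dm q (insert k J) ≤ (1 + B) * dm q J := by
        have hk' : ∀ b ∈ J, dist (q k) (q b) ≤ (1 + B) * dm q J := by
          intro b hb
          have h2 := dist_triangle (q k) (q i) (q b)
          have h3 := dist_le_dm q J hi hb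
          rw [dist_comm (q k) (q i), ← hik] at h2
          linarith
        refine dm_le q _ (by positivity) ?_
        intro a ha b hb
        rw [Finset.mem_insert] at ha hb
        rcases ha with rfl | ha <;> rcases hb with rfl | hb
        · rw [dist_self]
          positivity
        · exact hk' b hb
        · rw [dist_comm]
          exact hk' a ha
        · have h2 := dist_le_dm q J ha hb
          nlinarith
      calc dm q (insert k J) ≤ (1 + B) * dm q J := h1
        _ ≤ (1 + B) * ((1 + B) ^ m * nn q j) := mul_le_mul_of_nonneg_left hd (by linarith)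
        _ = (1 + B) ^ (m + 1) * nn q j := by ring
  obtain ⟨J, hJ, hd⟩ := main (Fintype.card ι) hc le_rfl
  rw [(Finset.card_eq_iff_eq_univ J).1 hJ] at hd
  exact hd

end Pool.Agent.CcaPl
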