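import Mathlib

/-!
# A cut-off function (MP_cca10c_ag, planar part, file D3)

`cut : ℝ → ℝ` is smooth, equal to `1` on `(-∞,0]`, to `0` on `[2,∞)`, decreasing, with `|cut'| ≤ 3/4`.
Existence: take a smooth function `b ≥ 0` supported in `[0,2]`, `∫ b = 1`, `b ≤ 3/4` (e.g. a convolution of the indicator of `[2/5, 8/5]` divided by
`6/5` with a bump of small support: the maximum is `5/6 > 3/4`, so rather use the indicator of `[1/4, 7/4]` divided by `3/2` (height `2/3`) and a
bump supported in `[-1/4,1/4]`), `cut x = 1 - ∫_{-∞}^x b`.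
-/

namespace Pool.Agent.CcaPl

open scoped ContDiff

/-- bump used as minus the derivative (up to a constant) -/
private noncomputable def cutB (x : ℝ) : ℝ :=
  Real.smoothTransition (4 * x) * Real.smoothTransition (4 * (2 - x))

private theorem cutB_contDiff : ContDiff ℝ ∞ cutB := by
  unfold cutB
  have h1 : ContDiff ℝ ∞ Real.smoothTransition := Real.smoothTransition.contDiff
  exact (h1.comp (contDiff_const.mul contDiff_id)).mul
    (h1.comp (contDiff_const.mul (contDiff_const.sub contDiff_id)))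

private theorem cutB_nonneg (x : ℝ) : 0 ≤ cutB x :=
  mul_nonneg (Real.smoothTransition.nonneg _) (Real.smoothTransition.nonneg _)

private theorem cutB_le_one (x : ℝ) : cutB x ≤ 1 :=
  mul_le_one₀ (Real.smoothTransition.le_one _) (Real.smoothTransition.nonneg _)
    (Real.smoothTransition.le_one _)

private theorem cutB_left {x : ℝ} (h : x ≤ 0) : cutB x = 0 := by
  unfold cutB
  rw [Real.smoothTransition.zero_of_nonpos (by linarith), zero_mul]

private theorem cutB_right {x : ℝ} (h : 2 ≤ x) : cutB x = 0 := by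
  unfold cutB
  rw [Real.smoothTransition.zero_of_nonpos (x := 4 * (2 - x)) (by linarith), mul_zero]

private theorem cutB_mid {x : ℝ} (h1 : 1 / 4 ≤ x) (h2 : x ≤ 7 / 4) : cutB x = 1 := by
  unfold cutB
  rw [Real.smoothTransition.one_of_one_le (by linarith),
    Real.smoothTransition.one_of_one_le (by linarith), mul_one]

theorem exists_cut : ∃ χ : ℝ → ℝ, ContDiff ℝ ∞ χ ∧ (∀ x, x ≤ 0 → χ x = 1) ∧ (∀ x, 2 ≤ x → χ x = 0) ∧ (∀ x, 0 ≤ χ x ∧ χ x ≤ 1) ∧
    (∀ x, -(3 / 4) ≤ deriv χ x ∧ deriv χ x ≤ 0) := by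
  have hc : Continuous cutB := cutB_contDiff.continuous
  have hii : ∀ a b : ℝ, IntervalIntegrable cutB MeasureTheory.volume a b :=
    fun a b => hc.intervalIntegrable a b
  set I : ℝ := ∫ t in (0 : ℝ)..2, cutB t with hI
  have hI32 : 3 / 2 ≤ I := by
    have h1 : I = (∫ t in (0 : ℝ)..(1 / 4), cutB t) + (∫ t in (1 / 4 : ℝ)..(7 / 4), cutB t) +
        ∫ t in (7 / 4 : ℝ)..2, cutB t := by
      rw [intervalIntegral.integral_add_adjacent_intervals (hii _ _) (hii _ _),
        intervalIntegral.integral_add_adjacent_intervals (hii _ _) (hii _ _)]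
    have h2 : 0 ≤ ∫ t in (0 : ℝ)..(1 / 4), cutB t :=
      intervalIntegral.integral_nonneg (by norm_num) fun x _ => cutB_nonneg x
    have h3 : 0 ≤ ∫ t in (7 / 4 : ℝ)..2, cutB t :=
      intervalIntegral.integral_nonneg (by norm_num) fun x _ => cutB_nonneg x
    have h4 : ∫ t in (1 / 4 : ℝ)..(7 / 4), cutB t = 3 / 2 := by
      have h5 : ∫ t in (1 / 4 : ℝ)..(7 / 4), cutB t = ∫ t in (1 / 4 : ℝ)..(7 / 4), (1 : ℝ) := by
        refine intervalIntegral.integral_congr fun x hx => ?_
        rw [Set.uIcc_of_le (by norm_num)] at hx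
        exact cutB_mid hx.1 hx.2
      rw [h5, intervalIntegral.integral_const, smul_eq_mul]
      norm_num
    linarith
  have hIpos : 0 < I := by linarith
  have hder : ∀ x, HasDerivAt (fun x => 1 - (∫ t in (0 : ℝ)..x, cutB t) / I) (-(cutB x / I)) x := by
    intro x
    have h1 := (hc.integral_hasStrictDerivAt 0 x).hasDerivAt
    have h2 := (h1.div_const I).const_sub 1
    exact h2
  have hderiv : deriv (fun x => 1 - (∫ t in (0 : ℝ)..x, cutB t) / I) = fun x => -(cutB x / I) :=
    funext fun x => (hder x).deriv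
  have hleft : ∀ x, x ≤ 0 → 1 - (∫ t in (0 : ℝ)..x, cutB t) / I = 1 := by
    intro x hx
    have h1 : ∫ t in (0 : ℝ)..x, cutB t = ∫ t in (0 : ℝ)..x, (0 : ℝ) := by
      refine intervalIntegral.integral_congr fun y hy => ?_
      rw [Set.uIcc_of_ge hx] at hy
      exact cutB_left hy.2
    rw [h1]
    simp
  have hright : ∀ x, 2 ≤ x → 1 - (∫ t in (0 : ℝ)..x, cutB t) / I = 0 := by
    intro x hx
    have h1 : ∫ t in (2 : ℝ)..x, cutB t = ∫ t in (2 : ℝ)..x, (0 : ℝ) := by
      refine intervalIntegral.integral_congr fun y hy => ?_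
      rw [Set.uIcc_of_le hx] at hy
      exact cutB_right hy.1
    have h2 : ∫ t in (0 : ℝ)..x, cutB t = I := by
      rw [← intervalIntegral.integral_add_adjacent_intervals (hii 0 2) (hii 2 x), h1]
      simp [hI]
    rw [h2, div_self hIpos.ne', sub_self]
  have hanti : Antitone (fun x => 1 - (∫ t in (0 : ℝ)..x, cutB t) / I) := by
    refine antitone_of_deriv_nonpos (fun x => (hder x).differentiableAt) fun x => ?_
    rw [hderiv]
    have := div_nonneg (cutB_nonneg x) hIpos.le
    show -(cutB x / I) ≤ 0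
    linarith
  refine ⟨fun x => 1 - (∫ t in (0 : ℝ)..x, cutB t) / I, ?_, hleft, hright, ?_, ?_⟩
  · rw [contDiff_infty_iff_deriv]
    refine ⟨fun x => (hder x).differentiableAt, ?_⟩
    rw [hderiv]
    exact (cutB_contDiff.div_const I).neg
  · intro x
    constructor
    · have h1 := hanti (le_max_left x 2)
      simp only at h1
      rw [hright (max x 2) (le_max_right _ _)] at h1
      exact h1
    · have h1 := hanti (min_le_left x 0)
      simp only at h1
      rw [hleft (min x 0) (min_le_right _ _)] at h1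
      exact h1
  · intro x
    rw [hderiv]
    simp only
    constructor
    · have h1 : cutB x / I ≤ 2 / 3 := by
        rw [div_le_iff₀ hIpos]
        nlinarith [cutB_le_one x]
      linarith
    · have := div_nonneg (cutB_nonneg x) hIpos.le
      linarith

noncomputable def cut : ℝ → ℝ := exists_cut.choose

theorem cut_contDiff : ContDiff ℝ ∞ cut := exists_cut.choose_spec.1

theorem cut_one {x : ℝ} (h : x ≤ 0) : cut x = 1 := exists_cut.choose_spec.2.1 x h

theorem cut_zero {x : ℝ} (h : 2 ≤ x) : cut x = 0 := exists_cut.choose_spec.2.2.1 x h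

theorem cut_nonneg (x : ℝ) : 0 ≤ cut x := (exists_cut.choose_spec.2.2.2.1 x).1

theorem cut_le_one (x : ℝ) : cut x ≤ 1 := (exists_cut.choose_spec.2.2.2.1 x).2

theorem cut_deriv (x : ℝ) : -(3 / 4) ≤ deriv cut x ∧ deriv cut x ≤ 0 := exists_cut.choose_spec.2.2.2.2 x

end Pool.Agent.CcaPl
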