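import Mathlib

/-!
# Injective local homeomorphisms of a disc that are the identity near the boundary (MP_cca10c_ag, planar part, file D4)

Proof of `image_eq`: the image of the compact disc of radius `r` is compact; it does not meet the annulus `r < ‖x - c‖ < R` (injectivity and
`Φ x = x` there); it is connected and contains the points of the circle of radius `r` (continuity), so it lies in the closed disc of radius `r`.
The whole image is then open (open map) and closed in the disc `ball c R`, which is connected.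
-/

namespace Pool.Agent.CcaPl

open Set Metric

private theorem hd_norm_lt {c : ℂ} {r R : ℝ} (hr : 0 < r) (hR : r < R) {Φ : ℂ → ℂ}
    (hc : ContinuousOn Φ (ball c R)) (hi : InjOn Φ (ball c R))
    (hid : ∀ x ∈ ball c R, r ≤ ‖x - c‖ → Φ x = x) {x : ℂ} (hx : ‖x - c‖ < r) :
    ‖Φ x - c‖ < r := by
  have hsub : closedBall c r ⊆ ball c R := closedBall_subset_ball hR
  have hxB : x ∈ ball c R := by
    rw [mem_ball, dist_eq_norm]; linarith
  -- values on the small disc never lie in the annulus `r ≤ · < R`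
  have hav : ∀ y, ‖y - c‖ < r → ¬ (r ≤ ‖Φ y - c‖ ∧ ‖Φ y - c‖ < R) := by
    rintro y hy ⟨h1, h2⟩
    have h3 : Φ y ∈ ball c R := by rw [mem_ball, dist_eq_norm]; exact h2
    have hyB : y ∈ ball c R := by rw [mem_ball, dist_eq_norm]; linarith
    have h4 := hid _ h3 h1
    have h5 := hi h3 hyB h4
    rw [h5] at h1
    linarith
  by_contra hcon
  rw [not_lt] at hcon
  have hge : R ≤ ‖Φ x - c‖ := by
    by_contra h
    exact hav x hx ⟨hcon, not_le.1 h⟩
  have hpre : IsPreconnected ((fun y => ‖Φ y - c‖) '' closedBall c r) := by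
    refine IsPreconnected.image (convex_closedBall c r).isPreconnected _ ?_
    exact ((hc.mono hsub).sub continuousOn_const).norm
  -- a point on the circle
  have hz : ‖(c + (r : ℂ)) - c‖ = r := by
    rw [add_sub_cancel_left, Complex.norm_real, Real.norm_of_nonneg hr.le]
  have hzB : (c + (r : ℂ)) ∈ ball c R := by rw [mem_ball, dist_eq_norm, hz]; exact hR
  have hzmem : r ∈ (fun y => ‖Φ y - c‖) '' closedBall c r := by
    refine ⟨c + (r : ℂ), ?_, ?_⟩
    · rw [mem_closedBall, dist_eq_norm, hz]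
    · simp only
      rw [hid _ hzB hz.ge, hz]
  have hxmem : ‖Φ x - c‖ ∈ (fun y => ‖Φ y - c‖) '' closedBall c r :=
    ⟨x, by rw [mem_closedBall, dist_eq_norm]; exact hx.le, rfl⟩
  have hmid : (r + R) / 2 ∈ (fun y => ‖Φ y - c‖) '' closedBall c r :=
    hpre.ordConnected.out hzmem hxmem ⟨by linarith, by linarith⟩
  obtain ⟨y, hy, hyv⟩ := hmid
  simp only at hyv
  rw [mem_closedBall, dist_eq_norm] at hy
  rcases hy.lt_or_eq with h | h
  · exact hav y h ⟨by linarith, by linarith⟩
  · have hyB : y ∈ ball c R := by rw [mem_ball, dist_eq_norm]; linarith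
    rw [hid y hyB h.ge, h] at hyv
    linarith

theorem image_eq (c : ℂ) {r R : ℝ} (hr : 0 < r) (hR : r < R) (Φ : ℂ → ℂ) (hc : ContinuousOn Φ (ball c R)) (hi : InjOn Φ (ball c R))
    (ho : ∀ V : Set ℂ, IsOpen V → V ⊆ ball c R → IsOpen (Φ '' V)) (hid : ∀ x ∈ ball c R, r ≤ ‖x - c‖ → Φ x = x) :
    Φ '' ball c R = ball c R := by
  have hsub : closedBall c r ⊆ ball c R := closedBall_subset_ball hR
  apply Subset.antisymm
  · rintro _ ⟨x, hx, rfl⟩
    rcases lt_or_ge ‖x - c‖ r with h | h
    · have := hd_norm_lt hr hR hc hi hid h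
      rw [mem_ball, dist_eq_norm]; linarith
    · rw [hid x hx h]; exact hx
  · have hopen1 : IsOpen (Φ '' ball c R) := ho _ isOpen_ball Subset.rfl
    have hcomp : IsCompact (Φ '' closedBall c r) :=
      (isCompact_closedBall c r).image_of_continuousOn (hc.mono hsub)
    have hopen2 : IsOpen (ball c r ∩ (Φ '' closedBall c r)ᶜ) :=
      isOpen_ball.inter hcomp.isClosed.isOpen_compl
    have hdisj : Disjoint (Φ '' ball c R) (ball c r ∩ (Φ '' closedBall c r)ᶜ) := by
      rw [Set.disjoint_left]
      rintro _ ⟨x, hx, rfl⟩ ⟨h1, h2⟩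
      rcases le_or_gt ‖x - c‖ r with h | h
      · exact h2 ⟨x, by rw [mem_closedBall, dist_eq_norm]; exact h, rfl⟩
      · rw [hid x hx h.le, mem_ball, dist_eq_norm] at h1
        linarith
    refine IsPreconnected.subset_left_of_subset_union hopen1 hopen2 hdisj ?_ ?_
      (convex_ball c R).isPreconnected
    · intro y hy
      by_cases hyi : y ∈ Φ '' ball c R
      · exact Or.inl hyi
      · refine Or.inr ⟨?_, fun h => hyi (image_mono hsub h)⟩
        by_contra h
        rw [mem_ball, dist_eq_norm, not_lt] at h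
        exact hyi ⟨y, hy, hid y hy h⟩
    · have hz : ‖(c + (r : ℂ)) - c‖ = r := by
        rw [add_sub_cancel_left, Complex.norm_real, Real.norm_of_nonneg hr.le]
      have hzB : (c + (r : ℂ)) ∈ ball c R := by rw [mem_ball, dist_eq_norm, hz]; exact hR
      exact ⟨c + (r : ℂ), hzB, c + (r : ℂ), hzB, hid _ hzB hz.ge⟩

/-- such a map, extended by the identity, is a homeomorphism of the plane -/
theorem exists_homeomorph (c : ℂ) {r R : ℝ} (hr : 0 < r) (hR : r < R) (Φ : ℂ → ℂ) (hc : ContinuousOn Φ (ball c R))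
    (hi : InjOn Φ (ball c R)) (ho : ∀ V : Set ℂ, IsOpen V → V ⊆ ball c R → IsOpen (Φ '' V))
    (hid : ∀ x ∈ ball c R, r ≤ ‖x - c‖ → Φ x = x) :
    ∃ σ : ℂ ≃ₜ ℂ, (∀ x ∈ ball c R, σ x = Φ x) ∧ (∀ x ∉ ball c R, σ x = x) := by
  classical
  have himg := image_eq c hr hR Φ hc hi ho hid
  set F : ℂ → ℂ := fun x => if x ∈ ball c R then Φ x else x with hF
  have hFB : ∀ x ∈ ball c R, F x = Φ x := fun x hx => if_pos hx
  have hFO : ∀ x, r < ‖x - c‖ → F x = x := by
    intro x hx
    by_cases h : x ∈ ball c R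
    · rw [hFB x h, hid x h hx.le]
    · exact if_neg h
  have hFn : ∀ x ∉ ball c R, F x = x := fun x hx => if_neg hx
  have hmaps : ∀ x ∈ ball c R, F x ∈ ball c R := by
    intro x hx
    rw [hFB x hx, ← himg]
    exact ⟨x, hx, rfl⟩
  have hinj : Function.Injective F := by
    intro x y hxy
    by_cases hx : x ∈ ball c R
    · by_cases hy : y ∈ ball c R
      · rw [hFB x hx, hFB y hy] at hxy
        exact hi hx hy hxy
      · exfalso
        have := hmaps x hx
        rw [hxy, hFn y hy] at this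
        exact hy this
    · by_cases hy : y ∈ ball c R
      · exfalso
        have := hmaps y hy
        rw [← hxy, hFn x hx] at this
        exact hx this
      · rwa [hFn x hx, hFn y hy] at hxy
  have hsurj : Function.Surjective F := by
    intro y
    by_cases hy : y ∈ ball c R
    · rw [← himg] at hy
      obtain ⟨x, hx, rfl⟩ := hy
      exact ⟨x, hFB x hx⟩
    · exact ⟨y, hFn y hy⟩
  have hout : IsOpen {x : ℂ | r < ‖x - c‖} := isOpen_lt continuous_const (by fun_prop)
  have hcov : ∀ x : ℂ, x ∈ ball c R ∨ r < ‖x - c‖ := by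
    intro x
    by_cases h : x ∈ ball c R
    · exact Or.inl h
    · right
      rw [mem_ball, dist_eq_norm, not_lt] at h
      linarith
  have hcont : Continuous F := by
    rw [continuous_iff_continuousAt]
    intro x
    rcases hcov x with h | h
    · have h1 : F =ᶠ[nhds x] Φ := by
        filter_upwards [isOpen_ball.mem_nhds h] with y hy
        exact hFB y hy
      exact (hc.continuousAt (isOpen_ball.mem_nhds h)).congr h1.symm
    · have h1 : F =ᶠ[nhds x] id := by
        filter_upwards [hout.mem_nhds h] with y hy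
        exact hFO y hy
      exact continuousAt_id.congr h1.symm
  have hopen : IsOpenMap F := by
    intro V hV
    have h1 : F '' V = Φ '' (V ∩ ball c R) ∪ (V ∩ {x : ℂ | r < ‖x - c‖}) := by
      ext y
      constructor
      · rintro ⟨x, hx, rfl⟩
        rcases hcov x with h | h
        · exact Or.inl ⟨x, ⟨hx, h⟩, (hFB x h).symm⟩
        · right
          rw [hFO x h]
          exact ⟨hx, h⟩
      · rintro (⟨x, ⟨hx, h⟩, rfl⟩ | ⟨hy, h⟩)
        · exact ⟨x, hx, hFB x h⟩
        · exact ⟨y, hy, hFO y h⟩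
    rw [h1]
    exact (ho _ (hV.inter isOpen_ball) inter_subset_right).union (hV.inter hout)
  exact ⟨(Equiv.ofBijective F ⟨hinj, hsurj⟩).toHomeomorphOfContinuousOpen hcont hopen,
    hFB, hFn⟩

/-- a differentiable map of a ball whose derivative is close to a fixed nonzero multiple of the identity is injective and open -/
theorem inj_open_of_deriv (c : ℂ) {R : ℝ} (a : ℂ) (ha : a ≠ 0) (Φ : ℂ → ℂ) (Φ' : ℂ → ℂ →L[ℝ] ℂ)
    (hd : ∀ x ∈ ball c R, HasFDerivAt Φ (Φ' x) x) (hc : ContinuousOn Φ' (ball c R))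
    (h : ∀ x ∈ ball c R, ‖Φ' x - a • ContinuousLinearMap.id ℝ ℂ‖ ≤ ‖a‖ / 2) :
    InjOn Φ (ball c R) ∧ ∀ V : Set ℂ, IsOpen V → V ⊆ ball c R → IsOpen (Φ '' V) := by
  have ha0 : 0 < ‖a‖ := norm_pos_iff.2 ha
  constructor
  · intro x hx y hy hxy
    have h1 := Convex.norm_image_sub_le_of_norm_hasFDerivWithin_le
      (f := fun z => Φ z - a • z) (f' := fun z => Φ' z - a • ContinuousLinearMap.id ℝ ℂ)
      (s := ball c R) (C := ‖a‖ / 2) (x := y) (y := x)
      (fun z hz => ((hd z hz).sub ((hasFDerivAt_id z).const_smul a)).hasFDerivWithinAt)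
      (fun z hz => h z hz) (convex_ball c R) hy hx
    have h2 : Φ x - a • x - (Φ y - a • y) = -(a * (x - y)) := by
      rw [hxy, smul_eq_mul, smul_eq_mul]; ring
    rw [h2, norm_neg, norm_mul] at h1
    by_contra hne
    have h3 : 0 < ‖x - y‖ := norm_pos_iff.2 (sub_ne_zero.2 hne)
    nlinarith [mul_pos ha0 h3]
  · intro V hV hVB
    rw [isOpen_iff_mem_nhds]
    rintro _ ⟨x, hx, rfl⟩
    have hxB := hVB hx
    have hstrict : HasStrictFDerivAt Φ (Φ' x) x := by
      refine hasStrictFDerivAt_of_hasFDerivAt_of_continuousAt ?_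
        (hc.continuousAt (isOpen_ball.mem_nhds hxB))
      filter_upwards [isOpen_ball.mem_nhds hxB] with z hz
      exact hd z hz
    have hinj : Function.Injective (Φ' x : ℂ →ₗ[ℝ] ℂ) := by
      rw [injective_iff_map_eq_zero]
      intro v hv
      have h1 := (Φ' x - a • ContinuousLinearMap.id ℝ ℂ).le_opNorm v
      have h2 : (Φ' x - a • ContinuousLinearMap.id ℝ ℂ) v = -(a * v) := by
        have : Φ' x v = 0 := hv
        simp [this]
      rw [h2, norm_neg, norm_mul] at h1
      by_contra hne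
      have h3 : 0 < ‖v‖ := norm_pos_iff.2 hne
      have h4 : ‖Φ' x - a • ContinuousLinearMap.id ℝ ℂ‖ * ‖v‖ ≤ ‖a‖ / 2 * ‖v‖ := by
        gcongr
        exact h x hxB
      nlinarith [mul_pos ha0 h3]
    have hsurj : Function.Surjective (Φ' x : ℂ →ₗ[ℝ] ℂ) := LinearMap.surjective_of_injective hinj
    have hmap := hstrict.map_nhds_eq_of_surj (LinearMap.range_eq_top.2 hsurj)
    rw [← hmap]
    exact Filter.image_mem_map (hV.mem_nhds hx)

end Pool.Agent.CcaPl
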