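import Mathlib
import Pool.Agent.Lib.MP_cca10c_ag.Pl.AnnDefs
import Pool.Agent.Lib.MP_cca10c_ag.Pl.Cut
import Pool.Agent.Lib.MP_cca10c_ag.Pl.HomeoDisc
import Pool.Agent.Lib.MP_cca10c_ag.Pl.QcFam

/-!
# Moving one foot (MP_cca10c_ag, planar part, file D6)

`σ e z = z + e v cut (32 (‖z - p‖/d - 1/16))`: equal to `z + e v` for `‖z - p‖ ≤ d/16`, to `z` for `‖z - p‖ ≥ d/8`. The derivative differs from
the identity by at most `‖v‖ * 32/d * 3/4 ≤ 24/1000 ≤ 1/4`; use `exists_homeomorph`, `inj_open_of_deriv`, `QC.close` and `close_of_local`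
(the derivative of `σ e` is affine in `e`). At `z = p` the function `‖z - p‖` is not differentiable but `cut` is constant near there.
Reduce to `d = 1`, `p = 0` if convenient.
-/

namespace Pool.Agent.CcaPl

open Set Metric
open scoped ContDiff

/-- the cut-off function of the foot `p` -/
private noncomputable def ffChi (p : ℂ) (d : ℝ) (z : ℂ) : ℝ := cut (32 * (‖z - p‖ / d - 1 / 16))

private theorem ffChi_one {p : ℂ} {d : ℝ} (hd : 0 < d) {z : ℂ} (h : ‖z - p‖ ≤ d / 16) :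
    ffChi p d z = 1 := by
  refine cut_one ?_
  have : ‖z - p‖ / d ≤ 1 / 16 := by
    rw [div_le_iff₀ hd]; linarith
  linarith

private theorem ffChi_zero {p : ℂ} {d : ℝ} (hd : 0 < d) {z : ℂ} (h : d / 8 ≤ ‖z - p‖) :
    ffChi p d z = 0 := by
  refine cut_zero ?_
  have : 1 / 8 ≤ ‖z - p‖ / d := by
    rw [le_div_iff₀ hd]; linarith
  linarith

private theorem ff_near {p : ℂ} {d : ℝ} (hd : 0 < d) {z : ℂ} (h : ‖z - p‖ < d / 16) :
    ffChi p d =ᶠ[nhds z] fun _ => (1 : ℝ) := by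
  have hop : IsOpen {z : ℂ | ‖z - p‖ < d / 16} := isOpen_lt (by fun_prop) continuous_const
  filter_upwards [hop.mem_nhds h] with y hy
  exact ffChi_one hd (le_of_lt hy)

private theorem ff_far {p : ℂ} {d : ℝ} (hd : 0 < d) {z : ℂ} (h : d / 8 < ‖z - p‖) :
    ffChi p d =ᶠ[nhds z] fun _ => (0 : ℝ) := by
  have hop : IsOpen {z : ℂ | d / 8 < ‖z - p‖} := isOpen_lt continuous_const (by fun_prop)
  filter_upwards [hop.mem_nhds h] with y hy
  exact ffChi_zero hd (le_of_lt hy)

private theorem ffChi_smooth (p : ℂ) {d : ℝ} (hd : 0 < d) : ContDiff ℝ ∞ (ffChi p d) := by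
  rw [contDiff_iff_contDiffAt]
  intro z
  by_cases h : z = p
  · have h1 : ‖z - p‖ < d / 16 := by
      rw [h, sub_self, norm_zero]; positivity
    exact contDiffAt_const.congr_of_eventuallyEq (ff_near hd h1)
  · have h1 : ContDiffAt ℝ ∞ (fun z : ℂ => ‖z - p‖) z :=
      (contDiffAt_id.sub contDiffAt_const).norm ℝ (sub_ne_zero.2 h)
    exact cut_contDiff.contDiffAt.comp z
      (contDiffAt_const.mul ((h1.div_const d).sub contDiffAt_const))

private theorem ffChi_fderiv (p : ℂ) {d : ℝ} (hd : 0 < d) (z : ℂ) :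
    ‖fderiv ℝ (ffChi p d) z‖ ≤ 24 / d := by
  have h24 : (0 : ℝ) ≤ 24 / d := by positivity
  by_cases h : z = p
  · have h1 : ‖z - p‖ < d / 16 := by
      rw [h, sub_self, norm_zero]; positivity
    rw [(ff_near hd h1).fderiv_eq]
    simp [h24]
  · refine norm_fderiv_le_of_lip' ℝ h24 (Filter.Eventually.of_forall fun y => ?_)
    have hcl : ∀ x y : ℝ, ‖cut y - cut x‖ ≤ 3 / 4 * ‖y - x‖ := by
      intro x y
      have h2 := Convex.norm_image_sub_le_of_norm_deriv_le (f := cut) (C := 3 / 4) (s := univ)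
        (x := x) (y := y) (fun x _ => (cut_contDiff.differentiable (by simp)) x)
        (fun x _ => by
          rw [Real.norm_eq_abs, abs_le]
          have := cut_deriv x
          exact ⟨this.1, by linarith⟩) convex_univ (mem_univ _) (mem_univ _)
      exact h2
    refine (hcl _ _).trans ?_
    have h3 : 32 * (‖y - p‖ / d - 1 / 16) - 32 * (‖z - p‖ / d - 1 / 16) =
        32 / d * (‖y - p‖ - ‖z - p‖) := by
      field_simp
      ring
    rw [h3, norm_mul, Real.norm_of_nonneg (show (0 : ℝ) ≤ 32 / d by positivity)]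
    have h4 : ‖‖y - p‖ - ‖z - p‖‖ ≤ ‖y - z‖ := by
      rw [Real.norm_eq_abs]
      refine (abs_norm_sub_norm_le _ _).trans (le_of_eq ?_)
      congr 1
      ring
    calc 3 / 4 * (32 / d * ‖‖y - p‖ - ‖z - p‖‖) = 24 / d * ‖‖y - p‖ - ‖z - p‖‖ := by ring
      _ ≤ 24 / d * ‖y - z‖ := mul_le_mul_of_nonneg_left h4 h24

/-- the map of the foot -/
private noncomputable def ffMap (p v : ℂ) (d e : ℝ) (z : ℂ) : ℂ := z + (e * ffChi p d z) • v

private noncomputable def ffD (p v : ℂ) (d e : ℝ) (z : ℂ) : ℂ →L[ℝ] ℂ :=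
  ContinuousLinearMap.id ℝ ℂ + e • (fderiv ℝ (ffChi p d) z).smulRight v

private theorem ffMap_fderiv (p v : ℂ) {d : ℝ} (hd : 0 < d) (e : ℝ) (z : ℂ) :
    HasFDerivAt (ffMap p v d e) (ffD p v d e z) z := by
  have h1 : HasFDerivAt (ffChi p d) (fderiv ℝ (ffChi p d) z) z :=
    ((ffChi_smooth p hd).differentiable (by simp) z).hasFDerivAt
  have h2 := (hasFDerivAt_id (𝕜 := ℝ) z).add ((h1.const_mul e).smul_const v)
  refine h2.congr_fderiv ?_
  unfold ffD
  congr 1
  ext w <;> simp [mul_assoc]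

private theorem ffD_sub (p : ℂ) {v : ℂ} {d : ℝ} (hd : 0 < d) (hv : ‖v‖ ≤ d / 1000) (e e' : ℝ)
    (z : ℂ) : ‖ffD p v d e' z - ffD p v d e z‖ ≤ 24 / 1000 * |e' - e| := by
  have h1 : ffD p v d e' z - ffD p v d e z = (e' - e) • (fderiv ℝ (ffChi p d) z).smulRight v := by
    unfold ffD
    rw [sub_smul]
    abel
  rw [h1, norm_smul, Real.norm_eq_abs, ContinuousLinearMap.norm_smulRight_apply, mul_comm]
  have h2 : ‖fderiv ℝ (ffChi p d) z‖ * ‖v‖ ≤ 24 / d * (d / 1000) :=
    mul_le_mul (ffChi_fderiv p hd z) hv (norm_nonneg _) (by positivity)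
  have h3 : 24 / d * (d / 1000) = 24 / 1000 := by
    field_simp
  rw [h3] at h2
  exact mul_le_mul_of_nonneg_right h2 (abs_nonneg _)

private theorem ffD_zero (p v : ℂ) (d : ℝ) (z : ℂ) : ffD p v d 0 z = ContinuousLinearMap.id ℝ ℂ := by
  unfold ffD
  rw [zero_smul, add_zero]

private theorem ffD_id (p : ℂ) {v : ℂ} {d : ℝ} (hd : 0 < d) (hv : ‖v‖ ≤ d / 1000) {e : ℝ}
    (he : e ∈ Icc (0 : ℝ) 1) (z : ℂ) : ‖ffD p v d e z - ContinuousLinearMap.id ℝ ℂ‖ ≤ 24 / 1000 := by
  have h := ffD_sub p hd hv 0 e z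
  rw [ffD_zero, sub_zero, abs_of_nonneg he.1] at h
  refine h.trans ?_
  linarith [he.2]

private theorem ff_homeo (p : ℂ) {v : ℂ} {d : ℝ} (hd : 0 < d) (hv : ‖v‖ ≤ d / 1000) {e : ℝ}
    (he : e ∈ Icc (0 : ℝ) 1) : ∃ σ : ℂ ≃ₜ ℂ, ∀ x, σ x = ffMap p v d e x := by
  have hid : ∀ x, d / 8 ≤ ‖x - p‖ → ffMap p v d e x = x := by
    intro x hx
    unfold ffMap
    rw [ffChi_zero hd hx, mul_zero, zero_smul, add_zero]
  have hD : Continuous (ffD p v d e) := by
    have h1 : Continuous (fderiv ℝ (ffChi p d)) := (ffChi_smooth p hd).continuous_fderiv (by simp)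
    have h2 : ffD p v d e = fun z => ContinuousLinearMap.id ℝ ℂ +
        e • (ContinuousLinearMap.smulRightL ℝ ℂ ℂ (fderiv ℝ (ffChi p d) z) v) := by
      funext z
      rfl
    rw [h2]
    fun_prop
  obtain ⟨hi, ho⟩ := inj_open_of_deriv p (R := d) 1 one_ne_zero (ffMap p v d e) (ffD p v d e)
    (fun x _ => ffMap_fderiv p v hd e x) hD.continuousOn
    (fun x _ => by
      rw [one_smul, norm_one]
      exact (ffD_id p hd hv he x).trans (by norm_num))
  have hcont : Continuous (ffMap p v d e) := by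
    rw [continuous_iff_continuousAt]
    exact fun x => (ffMap_fderiv p v hd e x).continuousAt
  obtain ⟨σ, h1, h2⟩ := exists_homeomorph p (r := d / 8) (R := d) (by positivity) (by linarith)
    (ffMap p v d e) hcont.continuousOn hi ho (fun x _ hx => hid x hx)
  refine ⟨σ, fun x => ?_⟩
  by_cases hx : x ∈ ball p d
  · exact h1 x hx
  · rw [h2 x hx, hid x]
    rw [mem_ball, dist_eq_norm, not_lt] at hx
    linarith

theorem exists_footFamily : ∃ C : ℝ, 1 ≤ C ∧ ∀ (p v : ℂ) (d : ℝ), 0 < d → ‖v‖ ≤ d / 1000 →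
    ∃ F : QcFamily {z | d / 16 ≤ ‖z - p‖ ∧ ‖z - p‖ ≤ d / 8} C,
    (∀ e ∈ Icc (0 : ℝ) 1, ∀ z, ‖z - p‖ ≤ d / 16 → F.σ e z = z + (e : ℂ) * v) ∧
    (∀ e ∈ Icc (0 : ℝ) 1, ∀ z, d / 8 ≤ ‖z - p‖ → F.σ e z = z) := by
  classical
  refine ⟨1, le_rfl, fun p v d hd hv => ?_⟩
  choose s hs using fun (e : ℝ) (he : e ∈ Icc (0 : ℝ) 1) => ff_homeo p hd hv he
  set σ : ℝ → ℂ ≃ₜ ℂ := fun e => if he : e ∈ Icc (0 : ℝ) 1 then s e he else Homeomorph.refl ℂ
    with hσdef
  have hσ : ∀ e ∈ Icc (0 : ℝ) 1, ∀ x, σ e x = ffMap p v d e x := by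
    intro e he x
    rw [hσdef]
    simp only
    rw [dif_pos he]
    exact hs e he x
  have hσf : ∀ e ∈ Icc (0 : ℝ) 1, (σ e : ℂ → ℂ) = ffMap p v d e := fun e he => funext (hσ e he)
  have hfd : ∀ e ∈ Icc (0 : ℝ) 1, ∀ z, fderiv ℝ (σ e) z = ffD p v d e z := by
    intro e he z
    rw [hσf e he]
    exact (ffMap_fderiv p v hd e z).fderiv
  have hQC : ∀ e ∈ Icc (0 : ℝ) 1, ∀ z, 0 < (ffD p v d e z).det := fun e he z =>
    (QC.perturb ((ffD_id p hd hv he z).trans (by norm_num))).1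
  have hnear : ∀ e ∈ Icc (0 : ℝ) 1, ∀ z, ‖z - p‖ ≤ d / 16 → σ e z = z + (e : ℂ) * v := by
    intro e he z hz
    rw [hσ e he]
    unfold ffMap
    rw [ffChi_one hd hz, mul_one, Complex.real_smul]
  have hfar : ∀ e ∈ Icc (0 : ℝ) 1, ∀ z, d / 8 ≤ ‖z - p‖ → σ e z = z := by
    intro e he z hz
    rw [hσ e he]
    unfold ffMap
    rw [ffChi_zero hd hz, mul_zero, zero_smul, add_zero]
  refine ⟨{ σ := σ
            one_le := le_rfl
            compact := ?_
            zero := fun z => ?_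
            smooth := fun e he => ?_
            det := fun e he z => ?_
            conf := fun e he z hz => ?_
            close := fun e he e' he' z => ?_ }, hnear, hfar⟩
  · have hc : Continuous fun z : ℂ => ‖z - p‖ := by fun_prop
    have h1 : IsClosed {z : ℂ | d / 16 ≤ ‖z - p‖ ∧ ‖z - p‖ ≤ d / 8} :=
      (isClosed_le continuous_const hc).inter (isClosed_le hc continuous_const)
    refine (isCompact_closedBall p (d / 8)).of_isClosed_subset h1 ?_
    intro z hz
    rw [mem_closedBall, dist_eq_norm]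
    exact hz.2
  · rw [hσ 0 ⟨le_rfl, zero_le_one⟩]
    unfold ffMap
    rw [zero_mul, zero_smul, add_zero]
  · rw [hσf e he]
    unfold ffMap
    exact contDiff_id.add ((contDiff_const.mul (ffChi_smooth p hd)).smul contDiff_const)
  · rw [hfd e he]
    exact hQC e he z
  · have h3 : ‖z - p‖ < d / 16 ∨ d / 8 < ‖z - p‖ := by
      by_contra hcon
      push Not at hcon
      exact hz ⟨hcon.1, hcon.2⟩
    rcases h3 with h3 | h3
    · have hop : IsOpen {z : ℂ | ‖z - p‖ < d / 16} := isOpen_lt (by fun_prop) continuous_const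
      have h4 : (σ e : ℂ → ℂ) =ᶠ[nhds z] fun z => z + (e : ℂ) * v := by
        filter_upwards [hop.mem_nhds h3] with y hy
        exact hnear e he y (le_of_lt hy)
      exact (differentiableAt_id.add_const _).congr_of_eventuallyEq h4
    · have hop : IsOpen {z : ℂ | d / 8 < ‖z - p‖} := isOpen_lt continuous_const (by fun_prop)
      have h4 : (σ e : ℂ → ℂ) =ᶠ[nhds z] fun z => z := by
        filter_upwards [hop.mem_nhds h3] with y hy
        exact hfar e he y (le_of_lt hy)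
      exact differentiableAt_id.congr_of_eventuallyEq h4
  · refine close_of_local (C := 1) zero_le_one (δ := 1) zero_lt_one (fun e => fderiv ℝ (σ e) z)
      (fun e he => by rw [hfd e he]; exact hQC e he z) ?_ e he e' he'
    intro e he e' he' _ B hB
    rw [hfd e' he']
    rw [hfd e he] at hB
    have hlow : ∀ w, 1 / 2 * ‖w‖ ≤ ‖ffD p v d e z w‖ := by
      intro w
      have h5 := (ffD p v d e z - ContinuousLinearMap.id ℝ ℂ).le_opNorm w
      have h6 : ‖ffD p v d e z - ContinuousLinearMap.id ℝ ℂ‖ * ‖w‖ ≤ 24 / 1000 * ‖w‖ :=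
        mul_le_mul_of_nonneg_right (ffD_id p hd hv he z) (norm_nonneg w)
      have h7 : (ffD p v d e z - ContinuousLinearMap.id ℝ ℂ) w = ffD p v d e z w - w := rfl
      rw [h7] at h5
      have h8 : ‖w‖ ≤ ‖ffD p v d e z w‖ + ‖ffD p v d e z w - w‖ := by
        have := norm_sub_le (ffD p v d e z w) (ffD p v d e z w - w)
        rwa [sub_sub_cancel] at this
      have h9 := norm_nonneg w
      linarith
    have hsub := ffD_sub p hd hv e e' z
    have habs : |e' - e| ≤ 1 := by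
      rw [abs_le]
      constructor <;> linarith [he.1, he.2, he'.1, he'.2]
    have h10 := QC.close (A := ffD p v d e z) (A' := ffD p v d e' z) (B := B) (m := 1 / 2)
      (by norm_num) hlow hB (by linarith)
    refine h10.mono ?_
    have h11 : 0 ≤ |e' - e| := abs_nonneg _
    have h12 : ‖ffD p v d e' z - ffD p v d e z‖ / (1 / 2) = 2 * ‖ffD p v d e' z - ffD p v d e z‖ := by
      ring
    rw [h12]
    linarith

end Pool.Agent.CcaPl
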