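import Mathlib
import Pool.Agent.Lib.MP_cca10c_ag.Pl.UniKoebe

/-!
# Linearisation of a univalent function (MP_cca10c_ag, planar part, file A4)

For `τ ∈ [0,1]` put `fl f τ z = f 0 + (f (τ z) - f 0)/τ` for `τ ≠ 0` and `fl f 0 z = f 0 + f' 0 z`.
With `K` of `koebe_distortion` and `K' = 2K` (or any explicit multiple): for `‖z‖ ≤ 1/2`, `τ, τ' ∈ [0,1]`

* `‖deriv (fl f τ) z - deriv (fl f τ') z‖ ≤ K' ‖f' 0‖ |τ - τ'| ‖z‖` since `deriv (fl f τ) z = f' (τ z)`;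
* `‖fl f τ z - fl f τ' z‖ ≤ K' ‖f' 0‖ |τ - τ'| ‖z‖^2` by integrating from `0`.
-/

namespace Pool.Agent.CcaPl

open Set Metric

/-- the linearisation path of `f` at `0` -/
noncomputable def fl (f : ℂ → ℂ) (τ : ℝ) (z : ℂ) : ℂ :=
  if τ = 0 then f 0 + deriv f 0 * z else f 0 + (f ((τ : ℂ) * z) - f 0) / (τ : ℂ)

theorem fl_one (f : ℂ → ℂ) (z : ℂ) : fl f 1 z = f z := by
  simp [fl]

theorem fl_at_zero (f : ℂ → ℂ) (τ : ℝ) : fl f τ 0 = f 0 := by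
  unfold fl
  split_ifs <;> simp

private theorem ul_mem {τ : ℝ} (h0 : 0 ≤ τ) (h1 : τ ≤ 1) {r : ℝ} {z : ℂ} (hz : ‖z‖ < r) :
    ‖(τ : ℂ) * z‖ < r := by
  rw [norm_mul, Complex.norm_real, Real.norm_of_nonneg h0]
  have := norm_nonneg z
  nlinarith

private theorem ul_hasDeriv (f : ℂ → ℂ) (hd : DifferentiableOn ℂ f (ball 0 1)) (τ : ℝ)
    (h0 : 0 ≤ τ) (h1 : τ ≤ 1) (z : ℂ) (hz : ‖z‖ < 1) :
    HasDerivAt (fl f τ) (deriv f ((τ : ℂ) * z)) z := by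
  by_cases hτ : τ = 0
  · subst hτ
    have h2 : HasDerivAt (fun z : ℂ => f 0 + deriv f 0 * z) (deriv f 0 * 1) z :=
      ((hasDerivAt_id z).const_mul (deriv f 0)).const_add (f 0)
    rw [mul_one] at h2
    have e : fl f 0 = fun z : ℂ => f 0 + deriv f 0 * z := by
      funext w
      simp [fl]
    rw [e]
    simpa using h2
  · have hτ' : (τ : ℂ) ≠ 0 := by exact_mod_cast hτ
    have hw : ((τ : ℂ) * z) ∈ ball (0 : ℂ) 1 := by
      rw [mem_ball_zero_iff]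
      exact ul_mem h0 h1 hz
    have h2 : HasDerivAt f (deriv f ((τ : ℂ) * z)) ((τ : ℂ) * z) :=
      (hd.differentiableAt (isOpen_ball.mem_nhds hw)).hasDerivAt
    have h3 : HasDerivAt (fun w : ℂ => (τ : ℂ) * w) ((τ : ℂ) * 1) z :=
      (hasDerivAt_id z).const_mul (τ : ℂ)
    have h4 := HasDerivAt.comp z h2 h3
    have h5 := ((h4.sub_const (f 0)).div_const (τ : ℂ)).const_add (f 0)
    have e : fl f τ = fun w : ℂ => f 0 + ((f ∘ fun w : ℂ => (τ : ℂ) * w) w - f 0) / (τ : ℂ) := by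
      funext w
      simp [fl, hτ]
    rw [e]
    have e2 : deriv f ((τ : ℂ) * z) * ((τ : ℂ) * 1) / (τ : ℂ) = deriv f ((τ : ℂ) * z) := by
      field_simp
    rw [e2] at h5
    exact h5

theorem fl_differentiableOn (f : ℂ → ℂ) (hd : DifferentiableOn ℂ f (ball 0 1)) (τ : ℝ) (h0 : 0 ≤ τ) (h1 : τ ≤ 1) :
    DifferentiableOn ℂ (fl f τ) (ball 0 1) := by
  intro z hz
  rw [mem_ball_zero_iff] at hz
  exact (ul_hasDeriv f hd τ h0 h1 z hz).differentiableAt.differentiableWithinAt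

theorem fl_deriv (f : ℂ → ℂ) (hd : DifferentiableOn ℂ f (ball 0 1)) (τ : ℝ) (h0 : 0 ≤ τ) (h1 : τ ≤ 1) (z : ℂ) (hz : ‖z‖ < 1) :
    deriv (fl f τ) z = deriv f ((τ : ℂ) * z) :=
  (ul_hasDeriv f hd τ h0 h1 z hz).deriv

theorem fl_injOn (f : ℂ → ℂ) (hd : DifferentiableOn ℂ f (ball 0 1)) (hi : InjOn f (ball 0 1)) (τ : ℝ) (h0 : 0 ≤ τ) (h1 : τ ≤ 1) :
    InjOn (fl f τ) (ball 0 1) := by
  intro z hz w hw hzw
  unfold fl at hzw
  by_cases hτ : τ = 0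
  · rw [if_pos hτ, if_pos hτ] at hzw
    have hne := deriv_ne_zero_of_injOn f (ball 0 1) isOpen_ball hd hi 0 (mem_ball_self one_pos)
    exact mul_left_cancel₀ hne (add_left_cancel hzw)
  · rw [if_neg hτ, if_neg hτ] at hzw
    have hτ' : (τ : ℂ) ≠ 0 := by exact_mod_cast hτ
    have h2 := add_left_cancel hzw
    rw [div_left_inj' hτ'] at h2
    have h3 : f ((τ : ℂ) * z) = f ((τ : ℂ) * w) := sub_left_injective h2
    have hz' : ((τ : ℂ) * z) ∈ ball (0 : ℂ) 1 := by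
      rw [mem_ball_zero_iff] at hz ⊢
      exact ul_mem h0 h1 hz
    have hw' : ((τ : ℂ) * w) ∈ ball (0 : ℂ) 1 := by
      rw [mem_ball_zero_iff] at hw ⊢
      exact ul_mem h0 h1 hw
    exact mul_left_cancel₀ hτ' (hi hz' hw' h3)

theorem fl_lip : ∃ K : ℝ, 1 ≤ K ∧ ∀ f : ℂ → ℂ, DifferentiableOn ℂ f (ball 0 1) → InjOn f (ball 0 1) →
    ∀ τ τ' : ℝ, 0 ≤ τ → τ ≤ 1 → 0 ≤ τ' → τ' ≤ 1 → ∀ z : ℂ, ‖z‖ ≤ 1 / 2 →
      ‖deriv (fl f τ) z - deriv (fl f τ') z‖ ≤ K * ‖deriv f 0‖ * |τ - τ'| * ‖z‖ ∧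
      ‖fl f τ z - fl f τ' z‖ ≤ K * ‖deriv f 0‖ * |τ - τ'| * ‖z‖ ^ 2 ∧
      ‖deriv (fl f τ) z - deriv f 0‖ ≤ K * ‖deriv f 0‖ * ‖z‖ ∧
      ‖fl f τ z - f 0 - deriv f 0 * z‖ ≤ K * ‖deriv f 0‖ * ‖z‖ ^ 2 := by
  obtain ⟨K, hK, hKd⟩ := koebe_distortion
  refine ⟨K, hK, fun f hd hi => ?_⟩
  have hK0 : 0 ≤ K := by linarith
  -- the derivative is Lipschitz on the half disc
  have hlip : ∀ a b : ℂ, ‖a‖ ≤ 1 / 2 → ‖b‖ ≤ 1 / 2 →
      ‖deriv f a - deriv f b‖ ≤ K * ‖deriv f 0‖ * ‖a - b‖ := by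
    intro a b ha hb
    have hdd : DifferentiableOn ℂ (deriv f) (ball 0 1) := hd.deriv isOpen_ball
    refine Convex.norm_image_sub_le_of_norm_deriv_le (s := closedBall (0 : ℂ) (1 / 2))
      (f := deriv f) (C := K * ‖deriv f 0‖) ?_ ?_ (convex_closedBall 0 (1 / 2)) ?_ ?_
    · intro x hx
      rw [mem_closedBall_zero_iff] at hx
      exact hdd.differentiableAt (isOpen_ball.mem_nhds (by
        rw [mem_ball_zero_iff]
        linarith))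
    · intro x hx
      rw [mem_closedBall_zero_iff] at hx
      exact hKd f hd hi x hx
    · rwa [mem_closedBall_zero_iff]
    · rwa [mem_closedBall_zero_iff]
  have hsc : ∀ τ : ℝ, 0 ≤ τ → τ ≤ 1 → ∀ z : ℂ, ‖z‖ ≤ 1 / 2 → ‖(τ : ℂ) * z‖ ≤ 1 / 2 := by
    intro τ h0 h1 z hz
    rw [norm_mul, Complex.norm_real, Real.norm_of_nonneg h0]
    have := norm_nonneg z
    nlinarith
  have hA : ∀ τ τ' : ℝ, 0 ≤ τ → τ ≤ 1 → 0 ≤ τ' → τ' ≤ 1 → ∀ z : ℂ, ‖z‖ ≤ 1 / 2 →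
      ‖deriv (fl f τ) z - deriv (fl f τ') z‖ ≤ K * ‖deriv f 0‖ * |τ - τ'| * ‖z‖ := by
    intro τ τ' h0 h1 h0' h1' z hz
    rw [fl_deriv f hd τ h0 h1 z (by linarith), fl_deriv f hd τ' h0' h1' z (by linarith)]
    refine (hlip _ _ (hsc τ h0 h1 z hz) (hsc τ' h0' h1' z hz)).trans (le_of_eq ?_)
    rw [← sub_mul, norm_mul, ← Complex.ofReal_sub, Complex.norm_real, Real.norm_eq_abs]
    ring
  have hB : ∀ τ τ' : ℝ, 0 ≤ τ → τ ≤ 1 → 0 ≤ τ' → τ' ≤ 1 → ∀ z : ℂ, ‖z‖ ≤ 1 / 2 →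
      ‖fl f τ z - fl f τ' z‖ ≤ K * ‖deriv f 0‖ * |τ - τ'| * ‖z‖ ^ 2 := by
    intro τ τ' h0 h1 h0' h1' z hz
    have key := Convex.norm_image_sub_le_of_norm_deriv_le (s := closedBall (0 : ℂ) ‖z‖)
      (f := fun w => fl f τ w - fl f τ' w) (C := K * ‖deriv f 0‖ * |τ - τ'| * ‖z‖)
      (x := 0) (y := z) ?_ ?_ (convex_closedBall 0 ‖z‖) ?_ ?_
    · simp only [fl_at_zero, sub_self, sub_zero] at key
      calc ‖fl f τ z - fl f τ' z‖ ≤ K * ‖deriv f 0‖ * |τ - τ'| * ‖z‖ * ‖z‖ := key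
        _ = _ := by ring
    · intro x hx
      rw [mem_closedBall_zero_iff] at hx
      have hx1 : ‖x‖ < 1 := by linarith
      exact (ul_hasDeriv f hd τ h0 h1 x hx1).differentiableAt.sub
        (ul_hasDeriv f hd τ' h0' h1' x hx1).differentiableAt
    · intro x hx
      rw [mem_closedBall_zero_iff] at hx
      have hx1 : ‖x‖ < 1 := by linarith
      have h2 : deriv (fun w => fl f τ w - fl f τ' w) x =
          deriv (fl f τ) x - deriv (fl f τ') x :=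
        deriv_sub (ul_hasDeriv f hd τ h0 h1 x hx1).differentiableAt
          (ul_hasDeriv f hd τ' h0' h1' x hx1).differentiableAt
      rw [h2]
      refine (hA τ τ' h0 h1 h0' h1' x (by linarith)).trans ?_
      exact mul_le_mul_of_nonneg_left hx (by positivity)
    · rw [mem_closedBall_zero_iff, norm_zero]
      exact norm_nonneg z
    · rw [mem_closedBall_zero_iff]
  intro τ τ' h0 h1 h0' h1' z hz
  have hτ1 : |τ - 0| ≤ 1 := by
    rw [sub_zero, abs_of_nonneg h0]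
    exact h1
  refine ⟨hA τ τ' h0 h1 h0' h1' z hz, hB τ τ' h0 h1 h0' h1' z hz, ?_, ?_⟩
  · have h2 := hA τ 0 h0 h1 le_rfl zero_le_one z hz
    rw [fl_deriv f hd 0 le_rfl zero_le_one z (by linarith), Complex.ofReal_zero, zero_mul] at h2
    refine h2.trans ?_
    refine mul_le_mul_of_nonneg_right ?_ (norm_nonneg z)
    exact mul_le_of_le_one_right (by positivity) hτ1
  · have h2 := hB τ 0 h0 h1 le_rfl zero_le_one z hz
    have h3 : fl f 0 z = f 0 + deriv f 0 * z := by simp [fl]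
    rw [h3, ← sub_sub] at h2
    refine h2.trans ?_
    refine mul_le_mul_of_nonneg_right ?_ (by positivity)
    exact mul_le_of_le_one_right (by positivity) hτ1

end Pool.Agent.CcaPl
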