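import Mathlib
import Pool.Agent.Lib.MP_cca10c_ag.Pl.AnnDefs
import Pool.Agent.Lib.MP_cca10c_ag.Pl.Cut
import Pool.Agent.Lib.MP_cca10c_ag.Pl.HomeoDisc
import Pool.Agent.Lib.MP_cca10c_ag.Pl.QcFam
import Pool.Agent.Lib.MP_cca10c_ag.Pl.UniLin

/-!
# Linearising a foot (MP_cca10c_ag, planar part, file D8)

`K` from `fl_lip`, `ρ = 1/(1000 K)` or smaller. In the coordinate `w = f z`:
`Ψ e z = f z + χ z (fl f (1-e) z - f z)` with a radial smooth cut-off `χ`, equal to `fl f (1-e) z` for `‖z‖ ≤ 2ρ` and to `f z` for `‖z‖ ≥ 3ρ`.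
By `fl_lip` on `‖z‖ < 4ρ` (with `A = deriv f 0`): the real derivative of `Ψ e` differs from `A • id` by at most `‖A‖/8` and
`Ψ e`, `Ψ e'` differ in `C¹` by `≤ ‖A‖ |e - e'| / 20`. So `Ψ e` is injective and open on `ball 0 (4ρ)` (`inj_open_of_deriv`);
`Φ = f⁻¹ ∘ Ψ e` is well defined on `ball 0 (4ρ)` because `Ψ e` takes values in `ball (f 0) (‖A‖/10) ⊆ f '' ball 0 1` (`koebe_cover`), and it is the
identity for `‖z‖ ≥ 3ρ`, so it extends to a homeomorphism `τ` of the plane; `σ e = f ∘ τ ∘ f⁻¹ = Ψ e ∘ f⁻¹` on `f '' ball 0 (4ρ)` and the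
identity elsewhere.
-/

namespace Pool.Agent.CcaPl

open Set Metric Filter Topology
open scoped ContDiff

/-! ### the cut-off -/

/-- a radial cut-off: `1` for `‖z‖ ≤ 2ρ`, `0` for `‖z‖ ≥ 3ρ` -/
private noncomputable def chi (ρ : ℝ) (z : ℂ) : ℝ := cut (2 / (5 * ρ ^ 2) * ‖z‖ ^ 2 - 8 / 5)

private theorem chi_contDiff (ρ : ℝ) : ContDiff ℝ ∞ (chi ρ) := by
  unfold chi
  exact cut_contDiff.comp ((contDiff_const.mul (contDiff_norm_sq ℝ)).sub contDiff_const)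

private theorem chi_one {ρ : ℝ} (hρ : 0 < ρ) {z : ℂ} (hz : ‖z‖ ≤ 2 * ρ) : chi ρ z = 1 := by
  apply cut_one
  have h1 : 2 / (5 * ρ ^ 2) * ‖z‖ ^ 2 ≤ 8 / 5 := by
    rw [div_mul_eq_mul_div, div_le_div_iff₀ (by positivity) (by norm_num)]
    nlinarith [norm_nonneg z]
  linarith

private theorem chi_zero {ρ : ℝ} (hρ : 0 < ρ) {z : ℂ} (hz : 3 * ρ ≤ ‖z‖) : chi ρ z = 0 := by
  apply cut_zero
  have h1 : 18 / 5 ≤ 2 / (5 * ρ ^ 2) * ‖z‖ ^ 2 := by
    rw [div_mul_eq_mul_div, div_le_div_iff₀ (by norm_num) (by positivity)]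
    nlinarith [norm_nonneg z]
  linarith

private theorem chi_norm (ρ : ℝ) (z : ℂ) : ‖chi ρ z‖ ≤ 1 := by
  unfold chi
  rw [Real.norm_of_nonneg (cut_nonneg _)]
  exact cut_le_one _

private theorem chi_fderiv {ρ : ℝ} (hρ : 0 < ρ) {z : ℂ} (hz : ‖z‖ < 4 * ρ) :
    ‖fderiv ℝ (chi ρ) z‖ ≤ 12 / (5 * ρ) := by
  set c : ℝ := 2 / (5 * ρ ^ 2) with hc
  have hc0 : 0 < c := by positivity
  have h1 : HasFDerivAt (fun z : ℂ => c * ‖z‖ ^ 2 - 8 / 5) (c • (2 • (innerSL ℝ z))) z :=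
    (((hasStrictFDerivAt_norm_sq z).hasFDerivAt).const_mul c).sub_const (8 / 5)
  have h2 : HasDerivAt cut (deriv cut (c * ‖z‖ ^ 2 - 8 / 5)) (c * ‖z‖ ^ 2 - 8 / 5) :=
    ((cut_contDiff.differentiable (by simp)).differentiableAt).hasDerivAt
  have h3 := h2.comp_hasFDerivAt z h1
  have h4 : fderiv ℝ (chi ρ) z = deriv cut (c * ‖z‖ ^ 2 - 8 / 5) • (c • (2 • (innerSL ℝ z))) := h3.fderiv
  rw [h4, norm_smul, norm_smul]
  have h5 : ‖(2 : ℕ) • (innerSL ℝ z)‖ ≤ 2 * ‖z‖ := by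
    refine (norm_nsmul_le).trans ?_
    rw [innerSL_apply_norm]
    simp
  have h6 : ‖deriv cut (c * ‖z‖ ^ 2 - 8 / 5)‖ ≤ 3 / 4 := by
    rw [Real.norm_eq_abs, abs_le]
    have := cut_deriv (c * ‖z‖ ^ 2 - 8 / 5)
    constructor <;> linarith
  have h7 : ‖c‖ = c := Real.norm_of_nonneg hc0.le
  rw [h7]
  calc ‖deriv cut (c * ‖z‖ ^ 2 - 8 / 5)‖ * (c * ‖(2 : ℕ) • (innerSL ℝ z)‖) ≤ 3 / 4 * (c * (2 * (4 * ρ))) := by
        apply mul_le_mul h6 _ (by positivity) (by norm_num)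
        apply mul_le_mul_of_nonneg_left _ hc0.le
        linarith
    _ = 12 / (5 * ρ) := by
        rw [hc]
        field_simp
        norm_num

/-! ### the map in the coordinate of the disc -/

private noncomputable def psi (f : ℂ → ℂ) (ρ e : ℝ) (z : ℂ) : ℂ := f z + chi ρ z • (fl f (1 - e) z - f z)

private theorem psi_in {f : ℂ → ℂ} {ρ e : ℝ} (hρ : 0 < ρ) {z : ℂ} (hz : ‖z‖ ≤ 2 * ρ) :
    psi f ρ e z = fl f (1 - e) z := by
  unfold psi
  rw [chi_one hρ hz, one_smul]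
  ring

private theorem psi_out {f : ℂ → ℂ} {ρ e : ℝ} (hρ : 0 < ρ) {z : ℂ} (hz : 3 * ρ ≤ ‖z‖) :
    psi f ρ e z = f z := by
  unfold psi
  rw [chi_zero hρ hz, zero_smul, add_zero]

private theorem psi_zero {f : ℂ → ℂ} {ρ : ℝ} (z : ℂ) : psi f ρ 0 z = f z := by
  unfold psi
  rw [sub_zero, fl_one, sub_self, smul_zero, add_zero]

private theorem real_contDiffAt {g : ℂ → ℂ} {U : Set ℂ} (hU : IsOpen U) (hg : DifferentiableOn ℂ g U) {z : ℂ} (hz : z ∈ U) :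
    ContDiffAt ℝ ∞ g z :=
  ((hg.analyticAt (hU.mem_nhds hz)).contDiffAt (n := ∞)).restrict_scalars ℝ

private theorem real_hasFDerivAt {g : ℂ → ℂ} {z : ℂ} (h : DifferentiableAt ℂ g z) :
    HasFDerivAt g (deriv g z • ContinuousLinearMap.id ℝ ℂ) z :=
  h.hasDerivAt.complexToReal_fderiv

private theorem csmul_norm (c : ℂ) : ‖c • ContinuousLinearMap.id ℝ ℂ‖ ≤ ‖c‖ :=
  ContinuousLinearMap.opNorm_le_bound _ (norm_nonneg _) (fun v => by simp)

private theorem csmul_sub (a b : ℂ) : (a - b) • ContinuousLinearMap.id ℝ ℂ =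
    a • ContinuousLinearMap.id ℝ ℂ - b • ContinuousLinearMap.id ℝ ℂ := by
  apply ContinuousLinearMap.ext
  intro v
  simp [sub_mul]

private theorem psi_contDiffAt {f : ℂ → ℂ} {ρ e : ℝ} (hd : DifferentiableOn ℂ f (ball 0 1)) (he0 : 0 ≤ e) (he1 : e ≤ 1)
    {z : ℂ} (hz : ‖z‖ < 1) : ContDiffAt ℝ ∞ (psi f ρ e) z := by
  have hzB : z ∈ ball (0 : ℂ) 1 := by rwa [mem_ball_zero_iff]
  have h1 := real_contDiffAt isOpen_ball hd hzB
  have h2 := real_contDiffAt isOpen_ball (fl_differentiableOn f hd (1 - e) (by linarith) (by linarith)) hzB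
  exact h1.add ((chi_contDiff ρ).contDiffAt.smul (h2.sub h1))

private theorem psi_fderiv {f : ℂ → ℂ} {ρ e : ℝ} (hd : DifferentiableOn ℂ f (ball 0 1)) (he0 : 0 ≤ e) (he1 : e ≤ 1)
    {z : ℂ} (hz : ‖z‖ < 1) : fderiv ℝ (psi f ρ e) z = deriv f z • ContinuousLinearMap.id ℝ ℂ +
      (chi ρ z • ((deriv (fl f (1 - e)) z - deriv f z) • ContinuousLinearMap.id ℝ ℂ) +
        (fderiv ℝ (chi ρ) z).smulRight (fl f (1 - e) z - f z)) := by
  have hzB : z ∈ ball (0 : ℂ) 1 := by rwa [mem_ball_zero_iff]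
  have h1 := real_hasFDerivAt (hd.differentiableAt (isOpen_ball.mem_nhds hzB))
  have h2 := real_hasFDerivAt ((fl_differentiableOn f hd (1 - e) (by linarith) (by linarith)).differentiableAt
    (isOpen_ball.mem_nhds hzB))
  have h3 : HasFDerivAt (chi ρ) (fderiv ℝ (chi ρ) z) z :=
    (((chi_contDiff ρ).differentiable (by simp)).differentiableAt).hasFDerivAt
  have h4 := h1.add (h3.smul (h2.sub h1))
  rw [csmul_sub]
  exact h4.fderiv

/-- the bounds of `fl_lip` for one function -/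
private def FLB (K : ℝ) (f : ℂ → ℂ) : Prop := ∀ τ τ' : ℝ, 0 ≤ τ → τ ≤ 1 → 0 ≤ τ' → τ' ≤ 1 → ∀ z : ℂ, ‖z‖ ≤ 1 / 2 →
      ‖deriv (fl f τ) z - deriv (fl f τ') z‖ ≤ K * ‖deriv f 0‖ * |τ - τ'| * ‖z‖ ∧
      ‖fl f τ z - fl f τ' z‖ ≤ K * ‖deriv f 0‖ * |τ - τ'| * ‖z‖ ^ 2 ∧
      ‖deriv (fl f τ) z - deriv f 0‖ ≤ K * ‖deriv f 0‖ * ‖z‖ ∧
      ‖fl f τ z - f 0 - deriv f 0 * z‖ ≤ K * ‖deriv f 0‖ * ‖z‖ ^ 2

private theorem small_numbers {K ρ : ℝ} (hK1 : 1 ≤ K) (hρK : ρ ≤ 1 / (1000 * K)) : K * ρ ≤ 1 / 1000 ∧ ρ ≤ 1 / 1000 := by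
  have hK0 : 0 < K := by linarith
  have h1 : ρ * (1000 * K) ≤ 1 := by
    rwa [le_div_iff₀ (by positivity)] at hρK
  refine ⟨by linarith, hρK.trans ?_⟩
  apply one_div_le_one_div_of_le (by norm_num)
  linarith

private theorem psi_lip {f : ℂ → ℂ} {ρ e e' K : ℝ} (hK1 : 1 ≤ K) (hρ : 0 < ρ) (hρK : ρ ≤ 1 / (1000 * K))
    (hd : DifferentiableOn ℂ f (ball 0 1)) (hK : FLB K f) (he0 : 0 ≤ e) (he1 : e ≤ 1) (he0' : 0 ≤ e') (he1' : e' ≤ 1)
    {z : ℂ} (hz : ‖z‖ < 4 * ρ) :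
    ‖fderiv ℝ (psi f ρ e') z - fderiv ℝ (psi f ρ e) z‖ ≤ ‖deriv f 0‖ * |e' - e| / 20 := by
  obtain ⟨hKρ, hρ1⟩ := small_numbers hK1 hρK
  have hz1 : ‖z‖ < 1 := by linarith
  rw [psi_fderiv hd he0 he1 hz1, psi_fderiv hd he0' he1' hz1]
  have hB := hK (1 - e') (1 - e) (by linarith) (by linarith) (by linarith) (by linarith) z (by linarith)
  set a := ‖deriv f 0‖ with ha
  have ha0 : 0 ≤ a := norm_nonneg _
  have h0 : |1 - e' - (1 - e)| = |e' - e| := by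
    rw [show 1 - e' - (1 - e) = -(e' - e) by ring, abs_neg]
  rw [h0] at hB
  set δ := |e' - e| with hδ
  have hδ0 : 0 ≤ δ := abs_nonneg _
  have hzn : 0 ≤ ‖z‖ := norm_nonneg z
  have hid : (deriv f z • ContinuousLinearMap.id ℝ ℂ +
      (chi ρ z • ((deriv (fl f (1 - e')) z - deriv f z) • ContinuousLinearMap.id ℝ ℂ) +
        (fderiv ℝ (chi ρ) z).smulRight (fl f (1 - e') z - f z))) -
      (deriv f z • ContinuousLinearMap.id ℝ ℂ +
      (chi ρ z • ((deriv (fl f (1 - e)) z - deriv f z) • ContinuousLinearMap.id ℝ ℂ) +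
        (fderiv ℝ (chi ρ) z).smulRight (fl f (1 - e) z - f z))) =
      chi ρ z • ((deriv (fl f (1 - e')) z - deriv (fl f (1 - e)) z) • ContinuousLinearMap.id ℝ ℂ) +
        (fderiv ℝ (chi ρ) z).smulRight (fl f (1 - e') z - fl f (1 - e) z) := by
    apply ContinuousLinearMap.ext
    intro v
    simp only [sub_apply, add_apply, smul_apply, ContinuousLinearMap.id_apply,
      ContinuousLinearMap.smulRight_apply, smul_eq_mul, Complex.real_smul]
    ring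
  rw [hid]
  refine (norm_add_le _ _).trans ?_
  rw [norm_smul, ContinuousLinearMap.norm_smulRight_apply]
  have hχ := chi_norm ρ z
  have h1 : ‖chi ρ z‖ * ‖(deriv (fl f (1 - e')) z - deriv (fl f (1 - e)) z) • ContinuousLinearMap.id ℝ ℂ‖ ≤
      1 * (K * a * δ * (4 * ρ)) := by
    apply mul_le_mul hχ _ (norm_nonneg _) zero_le_one
    refine (csmul_norm _).trans (hB.1.trans ?_)
    apply mul_le_mul_of_nonneg_left hz.le
    positivity
  have h2 : ‖fderiv ℝ (chi ρ) z‖ * ‖fl f (1 - e') z - fl f (1 - e) z‖ ≤ 12 / (5 * ρ) * (K * a * δ * (4 * ρ) ^ 2) := by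
    apply mul_le_mul (chi_fderiv hρ hz) _ (norm_nonneg _) (by positivity)
    refine hB.2.1.trans ?_
    apply mul_le_mul_of_nonneg_left _ (by positivity)
    exact pow_le_pow_left₀ hzn hz.le 2
  have h3 : 12 / (5 * ρ) * (K * a * δ * (4 * ρ) ^ 2) = 192 / 5 * (K * ρ) * (a * δ) := by
    field_simp
    ring
  have h4 : K * ρ * (a * δ) ≤ 1 / 1000 * (a * δ) := mul_le_mul_of_nonneg_right hKρ (by positivity)
  have h5 : 0 ≤ a * δ := by positivity
  rw [h3] at h2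
  nlinarith

private theorem psi_near {f : ℂ → ℂ} {ρ e K : ℝ} (hK1 : 1 ≤ K) (hρ : 0 < ρ) (hρK : ρ ≤ 1 / (1000 * K))
    (hd : DifferentiableOn ℂ f (ball 0 1)) (hK : FLB K f) (he0 : 0 ≤ e) (he1 : e ≤ 1) {z : ℂ} (hz : ‖z‖ < 4 * ρ) :
    ‖fderiv ℝ (psi f ρ e) z - deriv f 0 • ContinuousLinearMap.id ℝ ℂ‖ ≤ ‖deriv f 0‖ / 8 := by
  obtain ⟨hKρ, hρ1⟩ := small_numbers hK1 hρK
  have hz1 : ‖z‖ < 1 := by linarith
  have hzB : z ∈ ball (0 : ℂ) 1 := by rwa [mem_ball_zero_iff]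
  have h1 := psi_lip hK1 hρ hρK hd hK le_rfl zero_le_one he0 he1 hz
  have h2 : fderiv ℝ (psi f ρ 0) z = deriv f z • ContinuousLinearMap.id ℝ ℂ := by
    have h3 : psi f ρ 0 = f := funext fun w => psi_zero w
    rw [h3]
    exact (real_hasFDerivAt (hd.differentiableAt (isOpen_ball.mem_nhds hzB))).fderiv
  rw [h2] at h1
  have h4 := (hK 1 1 zero_le_one le_rfl zero_le_one le_rfl z (by linarith)).2.2.1
  have h5 : fl f 1 = f := funext fun w => fl_one f w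
  rw [h5] at h4
  set a := ‖deriv f 0‖ with ha
  have ha0 : 0 ≤ a := norm_nonneg _
  have h6 : |e - 0| ≤ 1 := by
    rw [sub_zero, abs_of_nonneg he0]
    exact he1
  have h7 : ‖(deriv f z - deriv f 0) • ContinuousLinearMap.id ℝ ℂ‖ ≤ K * a * (4 * ρ) := by
    refine (csmul_norm _).trans (h4.trans ?_)
    apply mul_le_mul_of_nonneg_left hz.le
    positivity
  rw [csmul_sub] at h7
  have h8 : fderiv ℝ (psi f ρ e) z - deriv f 0 • ContinuousLinearMap.id ℝ ℂ =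
      (fderiv ℝ (psi f ρ e) z - deriv f z • ContinuousLinearMap.id ℝ ℂ) +
      (deriv f z • ContinuousLinearMap.id ℝ ℂ - deriv f 0 • ContinuousLinearMap.id ℝ ℂ) := by abel
  rw [h8]
  refine (norm_add_le _ _).trans ?_
  have h9 : a * |e - 0| ≤ a * 1 := mul_le_mul_of_nonneg_left h6 ha0
  have h10 : K * ρ * a ≤ 1 / 1000 * a := mul_le_mul_of_nonneg_right hKρ ha0
  nlinarith

private theorem psi_value {f : ℂ → ℂ} {ρ e K : ℝ} (hK1 : 1 ≤ K) (hρ : 0 < ρ) (hρK : ρ ≤ 1 / (1000 * K))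
    (hK : FLB K f) (ha : deriv f 0 ≠ 0) (he0 : 0 ≤ e) (he1 : e ≤ 1) {z : ℂ} (hz : ‖z‖ < 4 * ρ) :
    psi f ρ e z ∈ ball (f 0) (‖deriv f 0‖ / 10) := by
  obtain ⟨hKρ, hρ1⟩ := small_numbers hK1 hρK
  have h1 := hK 1 1 zero_le_one le_rfl zero_le_one le_rfl z (by linarith)
  have h2 := hK (1 - e) 1 (by linarith) (by linarith) zero_le_one le_rfl z (by linarith)
  have h5 : fl f 1 = f := funext fun w => fl_one f w
  rw [h5] at h1 h2
  set a := ‖deriv f 0‖ with ha'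
  have ha0 : 0 < a := norm_pos_iff.2 ha
  have hzn := norm_nonneg z
  have h3 : |1 - e - 1| ≤ 1 := by
    rw [show 1 - e - 1 = -e by ring, abs_neg, abs_of_nonneg he0]
    exact he1
  rw [mem_ball, dist_eq_norm]
  have h4 : psi f ρ e z - f 0 = (f z - f 0 - deriv f 0 * z) + deriv f 0 * z + chi ρ z • (fl f (1 - e) z - f z) := by
    unfold psi
    ring
  rw [h4]
  have hχ := chi_norm ρ z
  have hsq : ‖z‖ ^ 2 ≤ (4 * ρ) ^ 2 := pow_le_pow_left₀ hzn hz.le 2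
  have hKa : 0 ≤ K * a := by positivity
  have h6 : ‖f z - f 0 - deriv f 0 * z‖ ≤ K * a * (4 * ρ) ^ 2 :=
    h1.2.2.2.trans (mul_le_mul_of_nonneg_left hsq hKa)
  have h7 : ‖deriv f 0 * z‖ ≤ a * (4 * ρ) := by
    rw [norm_mul]
    exact mul_le_mul_of_nonneg_left hz.le ha0.le
  have h8 : ‖chi ρ z • (fl f (1 - e) z - f z)‖ ≤ 1 * (K * a * (4 * ρ) ^ 2) := by
    rw [norm_smul]
    apply mul_le_mul hχ _ (norm_nonneg _) zero_le_one
    refine h2.2.1.trans ?_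
    calc K * a * |1 - e - 1| * ‖z‖ ^ 2 ≤ K * a * 1 * (4 * ρ) ^ 2 := by
          apply mul_le_mul (mul_le_mul_of_nonneg_left h3 hKa) hsq (by positivity) (by positivity)
      _ = K * a * (4 * ρ) ^ 2 := by ring
  have h9 : K * ρ * (a * ρ) ≤ 1 / 1000 * (a * ρ) := mul_le_mul_of_nonneg_right hKρ (by positivity)
  have h10 : a * ρ ≤ a * (1 / 1000) := mul_le_mul_of_nonneg_left hρ1 ha0.le
  have h11 := norm_add_le ((f z - f 0 - deriv f 0 * z) + deriv f 0 * z) (chi ρ z • (fl f (1 - e) z - f z))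
  have h12 := norm_add_le (f z - f 0 - deriv f 0 * z) (deriv f 0 * z)
  nlinarith

/-! ### linear algebra -/

private theorem cl_smul {c : ℂ} (hc : c ≠ 0) : CL (c • ContinuousLinearMap.id ℝ ℂ) := ⟨c, hc, fun v => by simp⟩

private theorem qc_of_near {a : ℂ} (ha : a ≠ 0) {T : ℂ →L[ℝ] ℂ} (h : ‖T - a • ContinuousLinearMap.id ℝ ℂ‖ ≤ ‖a‖ / 4) :
    QC 3 T := by
  have ha0 : 0 < ‖a‖ := norm_pos_iff.2 ha
  have h1 := QC.close (A := a • ContinuousLinearMap.id ℝ ℂ) (A' := T) (B := a⁻¹ • ContinuousLinearMap.id ℝ ℂ) ha0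
    (fun v => by simp) (fun v => by simp [ha]) h
  have h2 : ‖T - a • ContinuousLinearMap.id ℝ ℂ‖ / ‖a‖ ≤ 1 / 4 := by
    rw [div_le_iff₀ ha0]
    linarith
  have h3 := (h1.mono (show _ ≤ (3 : ℝ) by linarith)).comp (cl_smul ha).qc
  rw [mul_one] at h3
  have h4 : (T.comp (a⁻¹ • ContinuousLinearMap.id ℝ ℂ)).comp (a • ContinuousLinearMap.id ℝ ℂ) = T := by
    apply ContinuousLinearMap.ext
    intro v
    simp [ha]
  rwa [h4] at h3

private theorem lower_of_near {a : ℂ} {T : ℂ →L[ℝ] ℂ} (h : ‖T - a • ContinuousLinearMap.id ℝ ℂ‖ ≤ ‖a‖ / 8) (v : ℂ) :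
    (7 / 8 * ‖a‖) * ‖v‖ ≤ ‖T v‖ := by
  have h1 := (T - a • ContinuousLinearMap.id ℝ ℂ).le_opNorm v
  have h2 : (T - a • ContinuousLinearMap.id ℝ ℂ) v = T v - a * v := by simp
  rw [h2] at h1
  have h3 : ‖a * v‖ ≤ ‖T v‖ + ‖T v - a * v‖ := by
    have := norm_sub_le (T v) (T v - a * v)
    rwa [sub_sub_cancel] at this
  rw [norm_mul] at h3
  have h4 : ‖T - a • ContinuousLinearMap.id ℝ ℂ‖ * ‖v‖ ≤ ‖a‖ / 8 * ‖v‖ := mul_le_mul_of_nonneg_right h (norm_nonneg v)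
  linarith

/-! ### the inverse function -/

private noncomputable def fin (f : ℂ → ℂ) : ℂ → ℂ := Function.invFunOn f (ball 0 1)

private theorem fin_f {f : ℂ → ℂ} (hi : InjOn f (ball 0 1)) {z : ℂ} (hz : z ∈ ball (0 : ℂ) 1) : fin f (f z) = z :=
  hi.leftInvOn_invFunOn hz

private theorem strict_of {f : ℂ → ℂ} (hd : DifferentiableOn ℂ f (ball 0 1)) {z : ℂ} (hz : z ∈ ball (0 : ℂ) 1) :
    HasStrictDerivAt f (deriv f z) z :=
  (hd.analyticAt (isOpen_ball.mem_nhds hz)).hasStrictDerivAt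

private theorem map_nhds {f : ℂ → ℂ} (hd : DifferentiableOn ℂ f (ball 0 1)) (hi : InjOn f (ball 0 1)) {z : ℂ}
    (hz : z ∈ ball (0 : ℂ) 1) : map f (𝓝 z) = 𝓝 (f z) :=
  (strict_of hd hz).map_nhds_eq (deriv_ne_zero_of_injOn f _ isOpen_ball hd hi z hz)

private theorem image_open {f : ℂ → ℂ} (hd : DifferentiableOn ℂ f (ball 0 1)) (hi : InjOn f (ball 0 1)) {V : Set ℂ}
    (hV : IsOpen V) (hVB : V ⊆ ball 0 1) : IsOpen (f '' V) := by
  rw [isOpen_iff_mem_nhds]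
  rintro _ ⟨x, hx, rfl⟩
  rw [← map_nhds hd hi (hVB hx)]
  exact image_mem_map (hV.mem_nhds hx)

private theorem fin_cont {f : ℂ → ℂ} (hd : DifferentiableOn ℂ f (ball 0 1)) (hi : InjOn f (ball 0 1)) {z : ℂ}
    (hz : z ∈ ball (0 : ℂ) 1) : ContinuousAt (fin f) (f z) := by
  rw [ContinuousAt, fin_f hi hz, ← map_nhds hd hi hz, tendsto_map'_iff]
  refine tendsto_id.congr' ?_
  filter_upwards [isOpen_ball.mem_nhds hz] with x hx
  exact (fin_f hi hx).symm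

private theorem fin_hasDeriv {f : ℂ → ℂ} (hd : DifferentiableOn ℂ f (ball 0 1)) (hi : InjOn f (ball 0 1)) {z : ℂ}
    (hz : z ∈ ball (0 : ℂ) 1) : HasDerivAt (fin f) (deriv f z)⁻¹ (f z) := by
  refine HasDerivAt.of_local_left_inverse (f := f) (fin_cont hd hi hz) ?_
    (deriv_ne_zero_of_injOn f _ isOpen_ball hd hi z hz) ?_
  · rw [fin_f hi hz]
    exact (strict_of hd hz).hasDerivAt
  · have h1 : f '' ball 0 1 ∈ 𝓝 (f z) := (image_open hd hi isOpen_ball Subset.rfl).mem_nhds ⟨z, hz, rfl⟩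
    filter_upwards [h1] with y hy
    obtain ⟨x, hx, rfl⟩ := hy
    rw [fin_f hi hx]

private theorem fin_diffOn {f : ℂ → ℂ} (hd : DifferentiableOn ℂ f (ball 0 1)) (hi : InjOn f (ball 0 1)) :
    DifferentiableOn ℂ (fin f) (f '' ball 0 1) := by
  rintro _ ⟨z, hz, rfl⟩
  exact (fin_hasDeriv hd hi hz).differentiableAt.differentiableWithinAt

/-! ### transport of a homeomorphism -/

private theorem transport {f : ℂ → ℂ} (hd : DifferentiableOn ℂ f (ball 0 1)) (hi : InjOn f (ball 0 1)) {r R : ℝ}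
    (hrR : r < R) (hR1 : R ≤ 1) (τ : ℂ ≃ₜ ℂ) (hτ : ∀ x, r ≤ ‖x‖ → τ x = x) :
    ∃ σ : ℂ ≃ₜ ℂ, (∀ z ∈ ball 0 R, σ (f z) = f (τ z)) ∧ ∀ w ∉ f '' ball 0 r, σ w = w := by
  classical
  -- the two sided construction
  set F : (ℂ ≃ₜ ℂ) → ℂ → ℂ := fun τ w => if w ∈ f '' ball 0 R then f (τ (fin f w)) else w with hF
  have hsubR : ball (0 : ℂ) R ⊆ ball 0 1 := ball_subset_ball hR1
  have hsubr : closedBall (0 : ℂ) r ⊆ ball 0 R := closedBall_subset_ball hrR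
  have hτsymm : ∀ x, r ≤ ‖x‖ → τ.symm x = x := by
    intro x hx
    rw [Homeomorph.symm_apply_eq, hτ x hx]
  have hmaps : ∀ τ : ℂ ≃ₜ ℂ, (∀ x, r ≤ ‖x‖ → τ x = x) → ∀ z ∈ ball (0 : ℂ) R, τ z ∈ ball (0 : ℂ) R := by
    intro τ hτ z hz
    by_contra hcon
    rw [mem_ball_zero_iff] at hz hcon
    rw [not_lt] at hcon
    have h1 := hτ (τ z) (by linarith)
    have h2 := τ.injective h1
    rw [h2] at hcon
    linarith
  have hFin : ∀ τ : ℂ ≃ₜ ℂ, ∀ z ∈ ball (0 : ℂ) R, F τ (f z) = f (τ z) := by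
    intro τ z hz
    show (if f z ∈ f '' ball 0 R then f (τ (fin f (f z))) else f z) = f (τ z)
    rw [if_pos ⟨z, hz, rfl⟩, fin_f hi (hsubR hz)]
  have hFout : ∀ τ : ℂ ≃ₜ ℂ, (∀ x, r ≤ ‖x‖ → τ x = x) → ∀ w ∉ f '' ball 0 r, F τ w = w := by
    intro τ hτ w hw
    by_cases h : w ∈ f '' ball 0 R
    · obtain ⟨z, hz, rfl⟩ := h
      rw [hFin τ z hz, hτ z]
      by_contra hcon
      rw [not_le] at hcon
      exact hw ⟨z, by rwa [mem_ball_zero_iff], rfl⟩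
    · exact if_neg h
  have hinv : ∀ τ τ' : ℂ ≃ₜ ℂ, (∀ x, r ≤ ‖x‖ → τ x = x) → (∀ x, r ≤ ‖x‖ → τ' x = x) → (∀ x, τ' (τ x) = x) →
      ∀ w, F τ' (F τ w) = w := by
    intro τ τ' h1 h2 h3 w
    by_cases h : w ∈ f '' ball 0 R
    · obtain ⟨z, hz, rfl⟩ := h
      rw [hFin τ z hz, hFin τ' _ (hmaps τ h1 z hz), h3]
    · have h4 : w ∉ f '' ball 0 r := fun h5 => h (image_mono (ball_subset_ball hrR.le) h5)
      rw [hFout τ h1 w h4, hFout τ' h2 w h4]
  have hcomp : IsClosed (f '' closedBall 0 r) :=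
    ((isCompact_closedBall (0 : ℂ) r).image_of_continuousOn
      (hd.continuousOn.mono (hsubr.trans hsubR))).isClosed
  have hcont : ∀ τ : ℂ ≃ₜ ℂ, (∀ x, r ≤ ‖x‖ → τ x = x) → Continuous (F τ) := by
    intro τ h1
    rw [continuous_iff_continuousAt]
    intro w
    by_cases h : w ∈ f '' ball 0 R
    · obtain ⟨z, hz, rfl⟩ := h
      have h2 : F τ =ᶠ[𝓝 (f z)] fun w => f (τ (fin f w)) := by
        filter_upwards [(image_open hd hi isOpen_ball hsubR).mem_nhds ⟨z, hz, rfl⟩] with y hy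
        exact if_pos hy
      refine ContinuousAt.congr ?_ h2.symm
      have h3 : ContinuousAt (fin f) (f z) := fin_cont hd hi (hsubR hz)
      have h4 : ContinuousAt (fun w => τ (fin f w)) (f z) := τ.continuous.continuousAt.comp h3
      have h5 : τ (fin f (f z)) ∈ ball (0 : ℂ) 1 := by
        rw [fin_f hi (hsubR hz)]
        exact hsubR (hmaps τ h1 z hz)
      have h6 : ContinuousAt f (τ (fin f (f z))) := (strict_of hd h5).hasDerivAt.continuousAt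
      exact ContinuousAt.comp (f := fun w => τ (fin f w)) h6 h4
    · have h2 : w ∉ f '' closedBall 0 r := fun h5 => h (image_mono hsubr h5)
      have h3 : F τ =ᶠ[𝓝 w] id := by
        filter_upwards [hcomp.isOpen_compl.mem_nhds h2] with y hy
        exact hFout τ h1 y fun h5 => hy (image_mono ball_subset_closedBall h5)
      exact continuousAt_id.congr h3.symm
  refine ⟨⟨⟨F τ, F τ.symm, hinv τ τ.symm hτ hτsymm fun x => τ.symm_apply_apply x,
    hinv τ.symm τ hτsymm hτ fun x => τ.apply_symm_apply x⟩, hcont τ hτ, hcont τ.symm hτsymm⟩, hFin τ, hFout τ hτ⟩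

/-! ### the homeomorphisms -/

private theorem exists_sigma {f : ℂ → ℂ} {ρ e K : ℝ} (hK1 : 1 ≤ K) (hρ : 0 < ρ) (hρK : ρ ≤ 1 / (1000 * K))
    (hd : DifferentiableOn ℂ f (ball 0 1)) (hi : InjOn f (ball 0 1)) (hK : FLB K f) (he0 : 0 ≤ e) (he1 : e ≤ 1) :
    ∃ σ : ℂ ≃ₜ ℂ, (∀ z ∈ ball 0 (4 * ρ), σ (f z) = psi f ρ e z) ∧ ∀ w ∉ f '' ball 0 (3 * ρ), σ w = w := by
  obtain ⟨hKρ, hρ1⟩ := small_numbers hK1 hρK
  have ha := deriv_ne_zero_of_injOn f _ isOpen_ball hd hi 0 (mem_ball_self one_pos)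
  have hsub : ball (0 : ℂ) (4 * ρ) ⊆ ball 0 1 := ball_subset_ball (by linarith)
  have hlt : ∀ z ∈ ball (0 : ℂ) (4 * ρ), ‖z‖ < 4 * ρ := fun z hz => by rwa [mem_ball_zero_iff] at hz
  have hlt1 : ∀ z ∈ ball (0 : ℂ) (4 * ρ), ‖z‖ < 1 := fun z hz => by
    have := hlt z hz
    linarith
  obtain ⟨hinj, hopen⟩ := inj_open_of_deriv 0 (R := 4 * ρ) (deriv f 0) ha (psi f ρ e) (fderiv ℝ (psi f ρ e))
    (fun z hz => ((psi_contDiffAt hd he0 he1 (hlt1 z hz)).differentiableAt (by simp)).hasFDerivAt)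
    (fun z hz => ((psi_contDiffAt hd he0 he1 (hlt1 z hz)).fderiv_right (m := 0) (by simp)).continuousAt.continuousWithinAt)
    (fun z hz => (psi_near hK1 hρ hρK hd hK he0 he1 (hlt z hz)).trans (by
      have := norm_nonneg (deriv f 0)
      linarith))
  have hval : ∀ z ∈ ball (0 : ℂ) (4 * ρ), psi f ρ e z ∈ f '' ball 0 1 := fun z hz =>
    koebe_cover f hd hi (psi_value hK1 hρ hρK hK ha he0 he1 (hlt z hz))
  have hC : ContinuousOn (fun z => fin f (psi f ρ e z)) (ball 0 (4 * ρ)) := by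
    intro z hz
    obtain ⟨u, hu, hu2⟩ := hval z hz
    have h1 : ContinuousAt (psi f ρ e) z := (psi_contDiffAt hd he0 he1 (hlt1 z hz)).continuousAt
    have h2 : ContinuousAt (fin f) (psi f ρ e z) := by
      rw [← hu2]
      exact fin_cont hd hi hu
    exact (ContinuousAt.comp h2 h1).continuousWithinAt
  have hI : InjOn (fun z => fin f (psi f ρ e z)) (ball 0 (4 * ρ)) := by
    intro x hx y hy hxy
    obtain ⟨u, hu, hu2⟩ := hval x hx
    obtain ⟨v, hv, hv2⟩ := hval y hy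
    simp only at hxy
    rw [← hu2, ← hv2, fin_f hi hu, fin_f hi hv] at hxy
    exact hinj hx hy (by rw [← hu2, ← hv2, hxy])
  have hO : ∀ V : Set ℂ, IsOpen V → V ⊆ ball 0 (4 * ρ) → IsOpen ((fun z => fin f (psi f ρ e z)) '' V) := by
    intro V hV hVB
    have h1 : (fun z => fin f (psi f ρ e z)) '' V = ball 0 1 ∩ f ⁻¹' (psi f ρ e '' V) := by
      ext y
      constructor
      · rintro ⟨x, hx, rfl⟩
        obtain ⟨u, hu, hu2⟩ := hval x (hVB hx)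
        simp only
        rw [← hu2, fin_f hi hu]
        exact ⟨hu, x, hx, hu2.symm⟩
      · rintro ⟨hy, x, hx, hxy⟩
        refine ⟨x, hx, ?_⟩
        simp only
        rw [hxy, fin_f hi hy]
    rw [h1]
    exact hd.continuousOn.isOpen_inter_preimage isOpen_ball (hopen V hV hVB)
  have hF : ∀ x ∈ ball (0 : ℂ) (4 * ρ), 3 * ρ ≤ ‖x - 0‖ → (fun z => fin f (psi f ρ e z)) x = x := by
    intro x hx h
    rw [sub_zero] at h
    simp only
    rw [psi_out hρ h, fin_f hi (hsub hx)]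
  obtain ⟨τ, hτ1, hτ2⟩ := exists_homeomorph 0 (r := 3 * ρ) (R := 4 * ρ) (by positivity) (by linarith)
    (fun z => fin f (psi f ρ e z)) hC hI hO hF
  have hτ3 : ∀ x, 3 * ρ ≤ ‖x‖ → τ x = x := by
    intro x hx
    by_cases h : x ∈ ball (0 : ℂ) (4 * ρ)
    · rw [hτ1 x h, psi_out hρ hx, fin_f hi (hsub h)]
    · exact hτ2 x h
  obtain ⟨σ, hσ1, hσ2⟩ := transport hd hi (r := 3 * ρ) (R := 4 * ρ) (by linarith) (by linarith) τ hτ3
  refine ⟨σ, fun z hz => ?_, hσ2⟩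
  obtain ⟨u, hu, hu2⟩ := hval z hz
  rw [hσ1 z hz, hτ1 z hz, ← hu2, fin_f hi hu]

theorem exists_linFamily : ∃ C ρ₀ : ℝ, 1 ≤ C ∧ 0 < ρ₀ ∧ ρ₀ ≤ 1 / 1000 ∧ ∀ ρ : ℝ, 0 < ρ → ρ ≤ ρ₀ → ∀ f : ℂ → ℂ,
    DifferentiableOn ℂ f (ball 0 1) → InjOn f (ball 0 1) →
    ∃ F : QcFamily (f '' {z | 2 * ρ ≤ ‖z‖ ∧ ‖z‖ ≤ 3 * ρ}) C,
    (∀ e ∈ Icc (0 : ℝ) 1, ∀ z, ‖z‖ ≤ 2 * ρ → F.σ e (f z) = fl f (1 - e) z) ∧
    (∀ e ∈ Icc (0 : ℝ) 1, ∀ w, w ∉ f '' ball 0 (3 * ρ) → F.σ e w = w) := by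
  obtain ⟨K, hK1, hKf⟩ := fl_lip
  have hK0 : 0 < K := by linarith
  refine ⟨1, 1 / (1000 * K), le_rfl, by positivity, (small_numbers hK1 le_rfl).2, ?_⟩
  intro ρ hρ hρK f hd hi
  have hK : FLB K f := hKf f hd hi
  obtain ⟨hKρ, hρ1⟩ := small_numbers hK1 hρK
  have ha := deriv_ne_zero_of_injOn f _ isOpen_ball hd hi 0 (mem_ball_self one_pos)
  have ha0 : 0 < ‖deriv f 0‖ := norm_pos_iff.2 ha
  have hex : ∀ e : ℝ, ∃ σ : ℂ ≃ₜ ℂ, e ∈ Icc (0 : ℝ) 1 →
      (∀ z ∈ ball 0 (4 * ρ), σ (f z) = psi f ρ e z) ∧ ∀ w ∉ f '' ball 0 (3 * ρ), σ w = w := by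
    intro e
    by_cases he : e ∈ Icc (0 : ℝ) 1
    · obtain ⟨σ, hσ⟩ := exists_sigma hK1 hρ hρK hd hi hK he.1 he.2
      exact ⟨σ, fun _ => hσ⟩
    · exact ⟨Homeomorph.refl ℂ, fun h => absurd h he⟩
  choose σ hσ using hex
  have hsub : ball (0 : ℂ) (4 * ρ) ⊆ ball 0 1 := ball_subset_ball (by linarith)
  have hsub3 : closedBall (0 : ℂ) (3 * ρ) ⊆ ball 0 (4 * ρ) := closedBall_subset_ball (by linarith)
  have hclosed : IsClosed (f '' closedBall 0 (3 * ρ)) :=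
    ((isCompact_closedBall (0 : ℂ) (3 * ρ)).image_of_continuousOn (hd.continuousOn.mono (hsub3.trans hsub))).isClosed
  -- the map near a point of the image of the disc of radius `4ρ`
  have hnear : ∀ e ∈ Icc (0 : ℝ) 1, ∀ z ∈ ball (0 : ℂ) (4 * ρ), (σ e : ℂ → ℂ) =ᶠ[𝓝 (f z)] psi f ρ e ∘ fin f := by
    intro e he z hz
    filter_upwards [(image_open hd hi isOpen_ball hsub).mem_nhds ⟨z, hz, rfl⟩] with y hy
    obtain ⟨x, hx, rfl⟩ := hy
    rw [(hσ e he).1 x hx, Function.comp_apply, fin_f hi (hsub hx)]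
  -- the map near a point off the image of the closed disc of radius `3ρ`
  have hfar : ∀ e ∈ Icc (0 : ℝ) 1, ∀ w ∉ f '' closedBall 0 (3 * ρ), (σ e : ℂ → ℂ) =ᶠ[𝓝 w] id := by
    intro e he w hw
    filter_upwards [hclosed.isOpen_compl.mem_nhds hw] with y hy
    exact (hσ e he).2 y fun h => hy (image_mono ball_subset_closedBall h)
  have hfar4 : ∀ w, w ∉ f '' ball 0 (4 * ρ) → w ∉ f '' closedBall 0 (3 * ρ) := fun w hw h => hw (image_mono hsub3 h)
  have hlt : ∀ z ∈ ball (0 : ℂ) (4 * ρ), ‖z‖ < 4 * ρ := fun z hz => by rwa [mem_ball_zero_iff] at hz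
  have hlt1 : ∀ z ∈ ball (0 : ℂ) (4 * ρ), ‖z‖ < 1 := fun z hz => by
    have := hlt z hz
    linarith
  have hfd : ∀ e ∈ Icc (0 : ℝ) 1, ∀ z ∈ ball (0 : ℂ) (4 * ρ), fderiv ℝ (σ e) (f z) =
      (fderiv ℝ (psi f ρ e) z).comp ((deriv f z)⁻¹ • ContinuousLinearMap.id ℝ ℂ) := by
    intro e he z hz
    rw [(hnear e he z hz).fderiv_eq]
    have h1 : HasFDerivAt (fin f) ((deriv f z)⁻¹ • ContinuousLinearMap.id ℝ ℂ) (f z) :=
      (fin_hasDeriv hd hi (hsub hz)).complexToReal_fderiv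
    have h2 : HasFDerivAt (psi f ρ e) (fderiv ℝ (psi f ρ e) z) (fin f (f z)) := by
      rw [fin_f hi (hsub hz)]
      exact ((psi_contDiffAt hd he.1 he.2 (hlt1 z hz)).differentiableAt (by simp)).hasFDerivAt
    exact (h2.comp (f z) h1).fderiv
  have hfd' : ∀ e ∈ Icc (0 : ℝ) 1, ∀ w ∉ f '' ball 0 (4 * ρ), fderiv ℝ (σ e) w = ContinuousLinearMap.id ℝ ℂ := by
    intro e he w hw
    rw [(hfar e he w (hfar4 w hw)).fderiv_eq]
    exact fderiv_id
  have hQid : QC 1 (ContinuousLinearMap.id ℝ ℂ) := CL.qc ⟨1, one_ne_zero, fun v => by simp⟩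
  refine ⟨{ σ := σ, one_le := le_rfl, compact := ?_, zero := ?_, smooth := ?_, det := ?_, conf := ?_, close := ?_ }, ?_, ?_⟩
  · -- compact
    refine IsCompact.image_of_continuousOn ?_ (hd.continuousOn.mono ?_)
    · have h1 : {z : ℂ | 2 * ρ ≤ ‖z‖ ∧ ‖z‖ ≤ 3 * ρ} = closedBall 0 (3 * ρ) ∩ {z : ℂ | 2 * ρ ≤ ‖z‖} := by
        ext z
        simp only [mem_ofPred_eq, mem_inter_iff, mem_closedBall_zero_iff]
        tauto
      rw [h1]
      exact (isCompact_closedBall _ _).inter_right (isClosed_le continuous_const continuous_norm)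
    · rintro z ⟨_, hz⟩
      rw [mem_ball_zero_iff]
      linarith
  · -- zero
    intro w
    have he : (0 : ℝ) ∈ Icc (0 : ℝ) 1 := ⟨le_rfl, zero_le_one⟩
    by_cases h : w ∈ f '' ball 0 (4 * ρ)
    · obtain ⟨z, hz, rfl⟩ := h
      rw [(hσ 0 he).1 z hz, psi_zero]
    · exact (hσ 0 he).2 w fun h1 => hfar4 w h (image_mono ball_subset_closedBall h1)
  · -- smooth
    intro e he
    rw [contDiff_iff_contDiffAt]
    intro w
    by_cases h : w ∈ f '' ball 0 (4 * ρ)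
    · obtain ⟨z, hz, rfl⟩ := h
      refine ContDiffAt.congr_of_eventuallyEq ?_ (hnear e he z hz)
      have h1 : ContDiffAt ℝ ∞ (fin f) (f z) :=
        real_contDiffAt (image_open hd hi isOpen_ball Subset.rfl) (fin_diffOn hd hi) ⟨z, hsub hz, rfl⟩
      have h2 : ContDiffAt ℝ ∞ (psi f ρ e) (fin f (f z)) := by
        rw [fin_f hi (hsub hz)]
        exact psi_contDiffAt hd he.1 he.2 (hlt1 z hz)
      exact h2.comp (f z) h1
    · exact contDiffAt_id.congr_of_eventuallyEq (hfar e he w (hfar4 w h))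
  · -- det
    intro e he w
    by_cases h : w ∈ f '' ball 0 (4 * ρ)
    · obtain ⟨z, hz, rfl⟩ := h
      rw [hfd e he z hz]
      have h1 := qc_of_near ha ((psi_near hK1 hρ hρK hd hK he.1 he.2 (hlt z hz)).trans
        (show _ ≤ ‖deriv f 0‖ / 4 by linarith))
      have h2 := (cl_smul (inv_ne_zero (deriv_ne_zero_of_injOn f _ isOpen_ball hd hi z (hsub hz)))).qc
      exact (h1.comp h2).1
    · rw [hfd' e he w h]
      exact hQid.1
  · -- conf
    intro e he w hw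
    by_cases h : w ∈ f '' ball 0 (2 * ρ)
    · obtain ⟨z, hz, rfl⟩ := h
      have hsub2 : ball (0 : ℂ) (2 * ρ) ⊆ ball 0 (4 * ρ) := ball_subset_ball (by linarith)
      have h1 : (σ e : ℂ → ℂ) =ᶠ[𝓝 (f z)] fl f (1 - e) ∘ fin f := by
        filter_upwards [(image_open hd hi isOpen_ball (hsub2.trans hsub)).mem_nhds ⟨z, hz, rfl⟩] with y hy
        obtain ⟨x, hx, rfl⟩ := hy
        have hx' : ‖x‖ ≤ 2 * ρ := by
          rw [mem_ball_zero_iff] at hx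
          exact hx.le
        rw [(hσ e he).1 x (hsub2 hx), Function.comp_apply, fin_f hi (hsub (hsub2 hx)), psi_in hρ hx']
      refine DifferentiableAt.congr_of_eventuallyEq ?_ h1
      have h2 : DifferentiableAt ℂ (fin f) (f z) := (fin_hasDeriv hd hi (hsub (hsub2 hz))).differentiableAt
      have h3 : DifferentiableAt ℂ (fl f (1 - e)) (fin f (f z)) := by
        rw [fin_f hi (hsub (hsub2 hz))]
        exact (fl_differentiableOn f hd (1 - e) (by linarith [he.2]) (by linarith [he.1])).differentiableAt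
          (isOpen_ball.mem_nhds (hsub (hsub2 hz)))
      exact h3.comp (f z) h2
    · have h1 : w ∉ f '' closedBall 0 (3 * ρ) := by
        rintro ⟨z, hz, rfl⟩
        rw [mem_closedBall_zero_iff] at hz
        rcases lt_or_ge ‖z‖ (2 * ρ) with h2 | h2
        · exact h ⟨z, by rwa [mem_ball_zero_iff], rfl⟩
        · exact hw ⟨z, ⟨h2, hz⟩, rfl⟩
      exact differentiableAt_id.congr_of_eventuallyEq (hfar e he w h1)
  · -- close
    intro e he e' he' w B hB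
    have hexp : 1 + |e' - e| ≤ Real.exp (1 * |e' - e|) := by
      rw [one_mul, add_comm]
      exact Real.add_one_le_exp _
    by_cases h : w ∈ f '' ball 0 (4 * ρ)
    · obtain ⟨z, hz, rfl⟩ := h
      rw [hfd e he z hz] at hB
      rw [hfd e' he' z hz, ContinuousLinearMap.comp_assoc]
      have hn := psi_near hK1 hρ hρK hd hK he.1 he.2 (hlt z hz)
      have hl := psi_lip hK1 hρ hρK hd hK he.1 he.2 he'.1 he'.2 (hlt z hz)
      have hδ0 : 0 ≤ |e' - e| := abs_nonneg _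
      have hδ1 : |e' - e| ≤ 1 := by
        rw [abs_le]
        constructor <;> linarith [he.1, he.2, he'.1, he'.2]
      have hm : 0 < 7 / 8 * ‖deriv f 0‖ := by positivity
      have h1 := QC.close (A := fderiv ℝ (psi f ρ e) z) (A' := fderiv ℝ (psi f ρ e') z)
        (B := ((deriv f z)⁻¹ • ContinuousLinearMap.id ℝ ℂ).comp B) hm (lower_of_near hn) hB (by
          refine hl.trans ?_
          nlinarith)
      refine h1.mono (le_trans ?_ hexp)
      have h2 : ‖fderiv ℝ (psi f ρ e') z - fderiv ℝ (psi f ρ e) z‖ / (7 / 8 * ‖deriv f 0‖) ≤ |e' - e| / 8 := by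
        rw [div_le_iff₀ hm]
        refine hl.trans ?_
        nlinarith
      linarith
    · rw [hfd' e he w h] at hB
      rw [hfd' e' he' w h]
      have h1 : (ContinuousLinearMap.id ℝ ℂ).comp B = ContinuousLinearMap.id ℝ ℂ := by
        apply ContinuousLinearMap.ext
        intro v
        have := hB v
        simpa using this
      rw [h1]
      refine hQid.mono (le_trans ?_ hexp)
      have := abs_nonneg (e' - e)
      linarith
  · -- inside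
    intro e he z hz
    have hz4 : z ∈ ball (0 : ℂ) (4 * ρ) := by
      rw [mem_ball_zero_iff]
      linarith
    show σ e (f z) = _
    rw [(hσ e he).1 z hz4, psi_in hρ hz]
  · intro e he w hw
    exact (hσ e he).2 w hw

end Pool.Agent.CcaPl
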