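import Mathlib
import Pool.Agent.Lib.MP_cca10c_ag.Pl.FamLin

/-!
# Linearising the foot at infinity (MP_cca10c_ag, planar part, file D9)

Conjugation of the family of `exists_linFamily` with `w ↦ 1/w`: `f 0 = 0`, so `F.σ e 0 = fl f (1-e) 0 = 0`; put `τ e w = (F.σ e w⁻¹)⁻¹` for `w ≠ 0`,
`τ e 0 = 0`. It is the identity near `0` because `F.σ e` is the identity off the bounded set `f '' ball 0 (3ρ)`. Holomorphic (with nonvanishing
derivative) near infinity. Dilatation: the inversion is holomorphic, `QC` is invariant under composition with complex linear maps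
(`CL.qc`, `QC.comp`).
-/

namespace Pool.Agent.CcaPl

open Set Metric Filter Topology
open scoped ContDiff

/-- multiplication by `w` as a real linear map -/
private noncomputable def mulL (w : ℂ) : ℂ →L[ℝ] ℂ := (ContinuousLinearMap.mul ℝ ℂ) w

private theorem mulL_apply (w v : ℂ) : mulL w v = w * v := rfl

private theorem mulL_cl {w : ℂ} (hw : w ≠ 0) : CL (mulL w) := ⟨w, hw, fun _ => rfl⟩

private theorem inv_hasFDerivAt {x : ℂ} (hx : x ≠ 0) :
    HasFDerivAt (fun y : ℂ => y⁻¹) (mulL (-(x ^ 2)⁻¹)) x := by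
  have h := ((hasDerivAt_inv hx).hasFDerivAt).restrictScalars ℝ
  have h2 : mulL (-(x ^ 2)⁻¹) =
      ContinuousLinearMap.restrictScalars ℝ (ContinuousLinearMap.toSpanSingleton ℂ (-(x ^ 2)⁻¹)) := by
    apply ContinuousLinearMap.ext
    intro v
    change -(x ^ 2)⁻¹ * v = v * -(x ^ 2)⁻¹
    ring
  rw [h2]
  exact h

/-- the conjugate of a map by the inversion -/
private noncomputable def cj (h : ℂ → ℂ) (w : ℂ) : ℂ := (h w⁻¹)⁻¹

private theorem cj_near {h : ℂ → ℂ} {R : ℝ} (hR : 0 < R) (hid : ∀ w, R ≤ ‖w‖ → h w = w) (h0 : h 0 = 0)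
    {w : ℂ} (hw : ‖w‖ < R⁻¹) : cj h w = w := by
  unfold cj
  by_cases hw0 : w = 0
  · simp [hw0, h0]
  · rw [hid, inv_inv]
    rw [norm_inv]
    have : 0 < ‖w‖ := norm_pos_iff.mpr hw0
    rw [le_inv_comm₀ hR this]
    exact hw.le

private theorem cj_eventually {h : ℂ → ℂ} {R : ℝ} (hR : 0 < R) (hid : ∀ w, R ≤ ‖w‖ → h w = w) (h0 : h 0 = 0) :
    cj h =ᶠ[𝓝 0] id := by
  filter_upwards [Metric.ball_mem_nhds (0 : ℂ) (inv_pos.mpr hR)] with w hw
  rw [mem_ball_zero_iff] at hw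
  exact cj_near hR hid h0 hw

private theorem cj_ne {h : ℂ → ℂ} (hinj : Function.Injective h) (h0 : h 0 = 0) {w : ℂ} (hw : w ≠ 0) :
    h w⁻¹ ≠ 0 := by
  intro h1
  rw [← h0] at h1
  exact hw (inv_eq_zero.mp (hinj h1))

private theorem cj_continuous {h : ℂ → ℂ} {R : ℝ} (hR : 0 < R) (hid : ∀ w, R ≤ ‖w‖ → h w = w) (h0 : h 0 = 0)
    (hinj : Function.Injective h) (hc : Continuous h) : Continuous (cj h) := by
  rw [continuous_iff_continuousAt]
  intro w
  by_cases hw : w = 0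
  · subst hw
    exact (continuousAt_id).congr (cj_eventually hR hid h0).symm
  · have h1 : ContinuousAt (fun w : ℂ => w⁻¹) w := continuousAt_inv₀ hw
    have h2 : ContinuousAt (fun w : ℂ => h w⁻¹) w := hc.continuousAt.comp h1
    exact h2.inv₀ (cj_ne hinj h0 hw)

/-- the conjugate of a homeomorphism -/
private noncomputable def cjHomeo (h : ℂ ≃ₜ ℂ) (R : ℝ) (hR : 0 < R) (hid : ∀ w, R ≤ ‖w‖ → h w = w) (h0 : h 0 = 0) :
    ℂ ≃ₜ ℂ where
  toFun := cj h
  invFun := cj h.symm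
  left_inv := fun w => by simp [cj]
  right_inv := fun w => by simp [cj]
  continuous_toFun := cj_continuous hR hid h0 h.injective h.continuous
  continuous_invFun := by
    refine cj_continuous hR (fun w hw => ?_) ?_ h.symm.injective h.symm.continuous
    · rw [Homeomorph.symm_apply_eq, hid w hw]
    · rw [Homeomorph.symm_apply_eq, h0]

private theorem cj_hasFDerivAt {h : ℂ → ℂ} (hinj : Function.Injective h) (h0 : h 0 = 0) {w : ℂ} (hw : w ≠ 0)
    (hd : DifferentiableAt ℝ h w⁻¹) :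
    HasFDerivAt (cj h) ((mulL (-((h w⁻¹) ^ 2)⁻¹)).comp ((fderiv ℝ h w⁻¹).comp (mulL (-(w ^ 2)⁻¹)))) w := by
  have h1 := inv_hasFDerivAt hw
  have h2 : HasFDerivAt (fun w : ℂ => h w⁻¹) ((fderiv ℝ h w⁻¹).comp (mulL (-(w ^ 2)⁻¹))) w :=
    HasFDerivAt.comp w hd.hasFDerivAt h1
  exact HasFDerivAt.comp w (inv_hasFDerivAt (cj_ne hinj h0 hw)) h2

private theorem det_comp' (A B : ℂ →L[ℝ] ℂ) : (A.comp B).det = A.det * B.det := by
  have h0 : (A.comp B).det = LinearMap.det ((A : ℂ →ₗ[ℝ] ℂ).comp (B : ℂ →ₗ[ℝ] ℂ)) := rfl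
  rw [h0, LinearMap.det_comp]

theorem exists_linFamily_inf : ∃ C ρ₀ : ℝ, 1 ≤ C ∧ 0 < ρ₀ ∧ ρ₀ ≤ 1 / 1000 ∧ ∀ ρ : ℝ, 0 < ρ → ρ ≤ ρ₀ → ∀ f : ℂ → ℂ,
    DifferentiableOn ℂ f (ball 0 1) → InjOn f (ball 0 1) → f 0 = 0 →
    ∃ F : QcFamily ((fun z => (f z)⁻¹) '' {z | 2 * ρ ≤ ‖z‖ ∧ ‖z‖ ≤ 3 * ρ}) C,
    (∀ e ∈ Icc (0 : ℝ) 1, ∀ z, z ≠ 0 → ‖z‖ ≤ 2 * ρ → F.σ e ((f z)⁻¹) = (fl f (1 - e) z)⁻¹) ∧
    (∀ e ∈ Icc (0 : ℝ) 1, ∀ w, w ∉ (fun z => (f z)⁻¹) '' (ball 0 (3 * ρ) \ {0}) → F.σ e w = w) := by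
  classical
  obtain ⟨C, ρ₀, hC, hρ₀, hρ₀1, H⟩ := exists_linFamily
  refine ⟨C, ρ₀, hC, hρ₀, hρ₀1, fun ρ hρ hρle f hfd hfi hf0 => ?_⟩
  obtain ⟨G, hG1, hG2⟩ := H ρ hρ hρle f hfd hfi
  have hsub : closedBall (0 : ℂ) (3 * ρ) ⊆ ball 0 1 := by
    apply closedBall_subset_ball
    linarith
  have hcont : ContinuousOn f (closedBall 0 (3 * ρ)) := hfd.continuousOn.mono hsub
  have hbd : Bornology.IsBounded (f '' closedBall 0 (3 * ρ)) :=
    ((isCompact_closedBall (0 : ℂ) (3 * ρ)).image_of_continuousOn hcont).isBounded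
  obtain ⟨R, hR, hRs⟩ := hbd.subset_ball_lt 0 0
  have hout : ∀ e ∈ Icc (0 : ℝ) 1, ∀ w, R ≤ ‖w‖ → G.σ e w = w := by
    intro e he w hw
    refine hG2 e he w ?_
    intro hw2
    have h3 : w ∈ ball (0 : ℂ) R := hRs (image_mono ball_subset_closedBall hw2)
    rw [mem_ball_zero_iff] at h3
    linarith
  have hzero : ∀ e ∈ Icc (0 : ℝ) 1, G.σ e 0 = 0 := by
    intro e he
    have h1 := hG1 e he 0 (by rw [norm_zero]; positivity)
    rw [hf0, fl_at_zero, hf0] at h1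
    exact h1
  have hfne : ∀ z, z ≠ 0 → ‖z‖ ≤ 3 * ρ → f z ≠ 0 := by
    intro z hz hzn h1
    have hz1 : z ∈ ball (0 : ℂ) 1 := hsub (by rwa [mem_closedBall_zero_iff])
    have h2 : z = 0 := hfi hz1 (by rw [mem_ball_zero_iff, norm_zero]; norm_num) (by rw [h1, hf0])
    exact hz h2
  -- the derivative data
  have hdiff : ∀ e ∈ Icc (0 : ℝ) 1, ∀ z, DifferentiableAt ℝ (G.σ e) z := fun e he z =>
    ((G.smooth e he).differentiable (by simp)) z
  have hfd : ∀ e (he : e ∈ Icc (0 : ℝ) 1), ∀ w, w ≠ 0 → fderiv ℝ (cj (G.σ e)) w =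
      (mulL (-((G.σ e w⁻¹) ^ 2)⁻¹)).comp ((fderiv ℝ (G.σ e) w⁻¹).comp (mulL (-(w ^ 2)⁻¹))) := fun e he w hw =>
    (cj_hasFDerivAt (G.σ e).injective (hzero e he) hw (hdiff e he _)).fderiv
  have hfd0 : ∀ e (he : e ∈ Icc (0 : ℝ) 1), fderiv ℝ (cj (G.σ e)) 0 = ContinuousLinearMap.id ℝ ℂ := fun e he => by
    rw [(cj_eventually hR (hout e he) (hzero e he)).fderiv_eq]
    exact fderiv_id
  have hmul1 : ∀ x : ℂ, x ≠ 0 → -(x ^ 2)⁻¹ ≠ 0 := fun x hx => neg_ne_zero.mpr (inv_ne_zero (pow_ne_zero 2 hx))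
  let τ : ℝ → ℂ ≃ₜ ℂ := fun e => if he : e ∈ Icc (0 : ℝ) 1 then
    cjHomeo (G.σ e) R hR (hout e he) (hzero e he) else Homeomorph.refl ℂ
  have hτ : ∀ e (he : e ∈ Icc (0 : ℝ) 1), (τ e : ℂ → ℂ) = cj (G.σ e) := by
    intro e he
    simp only [τ, dif_pos he]
    rfl
  refine ⟨⟨τ, hC, ?_, ?_, ?_, ?_, ?_, ?_⟩, ?_, ?_⟩
  · -- compactness
    have hAn : IsCompact {z : ℂ | 2 * ρ ≤ ‖z‖ ∧ ‖z‖ ≤ 3 * ρ} := by
      have h1 : {z : ℂ | 2 * ρ ≤ ‖z‖ ∧ ‖z‖ ≤ 3 * ρ} = closedBall 0 (3 * ρ) ∩ {z | 2 * ρ ≤ ‖z‖} := by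
        ext z
        simp [and_comm]
      rw [h1]
      exact (isCompact_closedBall _ _).inter_right (isClosed_le continuous_const continuous_norm)
    refine hAn.image_of_continuousOn ?_
    refine ContinuousOn.inv₀ (hcont.mono ?_) ?_
    · rintro z ⟨_, hz⟩
      rwa [mem_closedBall_zero_iff]
    · rintro z ⟨hz1, hz2⟩
      refine hfne z ?_ hz2
      rintro rfl
      rw [norm_zero] at hz1
      linarith
  · intro z
    have h0 : (0 : ℝ) ∈ Icc (0 : ℝ) 1 := by simp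
    rw [show τ 0 z = cj (G.σ 0) z from congrFun (hτ 0 h0) z]
    unfold cj
    rw [G.zero, inv_inv]
  · intro e he
    rw [hτ e he, contDiff_iff_contDiffAt]
    intro w
    by_cases hw : w = 0
    · subst hw
      exact contDiffAt_id.congr_of_eventuallyEq (cj_eventually hR (hout e he) (hzero e he))
    · have h1 : ContDiffAt ℝ ∞ (fun w : ℂ => w⁻¹) w := contDiffAt_inv ℝ hw
      have h2 : ContDiffAt ℝ ∞ (fun w : ℂ => G.σ e w⁻¹) w := (G.smooth e he).contDiffAt.comp w h1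
      exact h2.inv (cj_ne (G.σ e).injective (hzero e he) hw)
  · intro e he z
    rw [hτ e he]
    by_cases hz : z = 0
    · subst hz
      rw [hfd0 e he]
      have : (ContinuousLinearMap.id ℝ ℂ).det = 1 := by
        have h0 : (ContinuousLinearMap.id ℝ ℂ).det = LinearMap.det (LinearMap.id : ℂ →ₗ[ℝ] ℂ) := rfl
        rw [h0, LinearMap.det_id]
      rw [this]
      exact one_pos
    · rw [hfd e he z hz, det_comp', det_comp']
      have h1 := (mulL_cl (hmul1 z hz)).qc.1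
      have h2 := (mulL_cl (hmul1 _ (cj_ne (G.σ e).injective (hzero e he) hz))).qc.1
      have h3 := G.det e he z⁻¹
      positivity
  · intro e he z hz
    rw [hτ e he]
    by_cases hz0 : z = 0
    · subst hz0
      exact (differentiableAt_id).congr_of_eventuallyEq (cj_eventually hR (hout e he) (hzero e he))
    · have h1 : DifferentiableAt ℂ (fun w : ℂ => w⁻¹) z := differentiableAt_inv hz0
      have h2 : DifferentiableAt ℂ (G.σ e) z⁻¹ := by
        refine G.conf e he z⁻¹ ?_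
        rintro ⟨y, hy, hyz⟩
        exact hz ⟨y, hy, by simp only [hyz, inv_inv]⟩
      have h3 : DifferentiableAt ℂ (fun w : ℂ => G.σ e w⁻¹) z := DifferentiableAt.comp z h2 h1
      exact h3.inv (cj_ne (G.σ e).injective (hzero e he) hz0)
  · intro e he e' he' z B hB
    rw [hτ e he] at hB
    rw [hτ e' he']
    have hexp : 1 ≤ Real.exp (C * |e' - e|) := by
      exact Real.one_le_exp (mul_nonneg (by linarith) (abs_nonneg _))
    by_cases hz : z = 0
    · subst hz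
      rw [hfd0 e' he']
      rw [hfd0 e he] at hB
      have h1 : CL ((ContinuousLinearMap.id ℝ ℂ).comp B) := ⟨1, one_ne_zero, fun v => by
        rw [one_mul]
        exact hB v⟩
      exact h1.qc.mono hexp
    · rw [hfd e he z hz] at hB
      rw [hfd e' he' z hz]
      set a : ℂ := -((G.σ e z⁻¹) ^ 2)⁻¹ with ha
      set a' : ℂ := -((G.σ e' z⁻¹) ^ 2)⁻¹ with ha'
      set b : ℂ := -(z ^ 2)⁻¹ with hb
      have ha0 : a ≠ 0 := hmul1 _ (cj_ne (G.σ e).injective (hzero e he) hz)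
      have ha'0 : a' ≠ 0 := hmul1 _ (cj_ne (G.σ e').injective (hzero e' he') hz)
      have hB' : ∀ v, fderiv ℝ (G.σ e) z⁻¹ (((mulL b).comp (B.comp (mulL a))) v) = v := by
        intro v
        have h1 := hB (a * v)
        simp only [ContinuousLinearMap.comp_apply, mulL_apply] at h1 ⊢
        exact mul_left_cancel₀ ha0 h1
      have h2 := G.close e he e' he' z⁻¹ _ hB'
      have h3 : ((mulL a').comp ((fderiv ℝ (G.σ e') z⁻¹).comp (mulL b))).comp B =
          (mulL a').comp (((fderiv ℝ (G.σ e') z⁻¹).comp ((mulL b).comp (B.comp (mulL a)))).comp (mulL a⁻¹)) := by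
        ext v <;>
        simp only [ContinuousLinearMap.comp_apply, mulL_apply, mul_inv_cancel_left₀ ha0]
      rw [h3]
      have h4 := (mulL_cl ha'0).qc.comp (h2.comp (mulL_cl (inv_ne_zero ha0)).qc)
      rw [one_mul, mul_one] at h4
      exact h4
  · intro e he z hz hzn
    change τ e ((f z)⁻¹) = _
    rw [show τ e ((f z)⁻¹) = cj (G.σ e) ((f z)⁻¹) from congrFun (hτ e he) _]
    unfold cj
    rw [inv_inv, hG1 e he z hzn]
  · intro e he w hw
    change τ e w = w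
    rw [show τ e w = cj (G.σ e) w from congrFun (hτ e he) _]
    unfold cj
    by_cases hw0 : w = 0
    · subst hw0
      rw [inv_zero, hzero e he, inv_zero]
    · rw [hG2 e he w⁻¹, inv_inv]
      rintro ⟨y, hy, hyw⟩
      refine hw ⟨y, ⟨hy, ?_⟩, ?_⟩
      · rintro rfl
        rw [hf0] at hyw
        exact hw0 (inv_eq_zero.mp hyw.symm)
      · simp only [hyw, inv_inv]

end Pool.Agent.CcaPl
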