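import Mathlib
import Pool.Agent.Lib.MP_cca10c_ag.Pl.AnnDefs
import Pool.Agent.Lib.MP_cca10c_ag.Pl.Cut
import Pool.Agent.Lib.MP_cca10c_ag.Pl.HomeoDisc
import Pool.Agent.Lib.MP_cca10c_ag.Pl.QcFam
import Pool.Agent.Lib.MP_cca10c_ag.Pl.QcRad

/-!
# Scaling a cluster by a factor between `1` and `e` (MP_cca10c_ag, planar part, file D7)

`σ e z = a + (z - a) exp (e k cut (log (‖z - a‖/ρ)))` (`k ∈ [0,1]`), i.e. `z ↦ a + radMap w (z - a)` with
`w x = e k cut (x - log ρ)`; `w' ∈ [-3/4, 0]`, so `1 + w' ≥ 1/4`; the map `x ↦ x + w x` is strictly increasing and onto. Near `a` the map is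
`z ↦ a + exp (e k) (z - a)`. Smooth inverse or at least continuity of the inverse: the inverse is the radial map of the inverse of `x ↦ x + w x`
(an order isomorphism of `ℝ`, hence a homeomorphism), `z ↦ exp (e k)⁻¹` scaling near `a`. Use `rad_close` and `close_of_local`.
-/

namespace Pool.Agent.CcaPl

open Set Metric
open scoped ContDiff

/-- the radial exponent -/
private noncomputable def scW (χ : ℝ → ℝ) (L κ : ℝ) (x : ℝ) : ℂ := ((κ * χ (x - L) : ℝ) : ℂ)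

/-- the map -/
private noncomputable def scMap (χ : ℝ → ℝ) (a : ℂ) (L κ : ℝ) (z : ℂ) : ℂ := a + radMap (scW χ L κ) (z - a)

private theorem scMap_near {χ : ℝ → ℝ} (h1 : ∀ x, x ≤ 0 → χ x = 1) (a : ℂ) {ρ : ℝ} (_hρ : 0 < ρ) (κ : ℝ)
    {z : ℂ} (hz : ‖z - a‖ ≤ ρ) : scMap χ a (Real.log ρ) κ z = a + (Real.exp κ : ℂ) * (z - a) := by
  unfold scMap radMap scW
  rcases eq_or_ne z a with rfl | hne
  · simp
  have hpos : 0 < ‖z - a‖ := norm_pos_iff.2 (sub_ne_zero.2 hne)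
  have hlog : Real.log ‖z - a‖ ≤ Real.log ρ := Real.log_le_log hpos hz
  rw [h1 _ (by linarith), mul_one, Complex.ofReal_exp, mul_comm]

private theorem scMap_far {χ : ℝ → ℝ} (h2 : ∀ x, 2 ≤ x → χ x = 0) (a : ℂ) {ρ : ℝ} (hρ : 0 < ρ) (κ : ℝ)
    {z : ℂ} (hz : Real.exp 2 * ρ ≤ ‖z - a‖) : scMap χ a (Real.log ρ) κ z = z := by
  unfold scMap radMap scW
  have hpos : 0 < Real.exp 2 * ρ := by positivity
  have hlog : Real.log (Real.exp 2 * ρ) ≤ Real.log ‖z - a‖ := Real.log_le_log hpos hz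
  rw [Real.log_mul (Real.exp_ne_zero _) hρ.ne', Real.log_exp] at hlog
  rw [h2 _ (by linarith)]
  simp

private theorem scMap_contDiff {χ : ℝ → ℝ} (h0 : ContDiff ℝ ∞ χ) (h1 : ∀ x, x ≤ 0 → χ x = 1) (a : ℂ) {ρ : ℝ}
    (hρ : 0 < ρ) (κ : ℝ) : ContDiff ℝ ∞ (scMap χ a (Real.log ρ) κ) := by
  rw [contDiff_iff_contDiffAt]
  intro z
  by_cases hz : ‖z - a‖ < ρ
  · have ho : IsOpen {z : ℂ | ‖z - a‖ < ρ} := isOpen_lt (by fun_prop) continuous_const
    have he : scMap χ a (Real.log ρ) κ =ᶠ[nhds z] fun z => a + (Real.exp κ : ℂ) * (z - a) := by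
      filter_upwards [ho.mem_nhds hz] with y hy
      exact scMap_near h1 a hρ κ (le_of_lt hy)
    refine ContDiffAt.congr_of_eventuallyEq ?_ he
    fun_prop
  · have hne : z - a ≠ 0 := by
      intro h
      rw [h, norm_zero] at hz
      exact hz hρ
    unfold scMap radMap scW
    have hs : ContDiffAt ℝ ∞ (fun z : ℂ => z - a) z := by fun_prop
    have hn : ContDiffAt ℝ ∞ (fun z : ℂ => ‖z - a‖) z := hs.norm ℝ hne
    have hl : ContDiffAt ℝ ∞ (fun z : ℂ => Real.log ‖z - a‖) z := hn.log (norm_ne_zero_iff.2 hne)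
    have hw : ContDiffAt ℝ ∞ (fun z : ℂ => κ * χ (Real.log ‖z - a‖ - Real.log ρ)) z :=
      contDiffAt_const.mul (h0.contDiffAt.comp z (hl.sub contDiffAt_const))
    have hwc : ContDiffAt ℝ ∞ (fun z : ℂ => ((κ * χ (Real.log ‖z - a‖ - Real.log ρ) : ℝ) : ℂ)) z :=
      Complex.ofRealCLM.contDiff.contDiffAt.comp z hw
    exact contDiffAt_const.add (hs.mul hwc.cexp)

private theorem scW_hasDerivAt {χ : ℝ → ℝ} (h0 : ContDiff ℝ ∞ χ) (L κ x : ℝ) :
    HasDerivAt (scW χ L κ) ((κ * deriv χ (x - L) : ℝ) : ℂ) x := by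
  unfold scW
  have hd : HasDerivAt χ (deriv χ (x - L)) (x - L) :=
    ((h0.differentiable (by simp)) (x - L)).hasDerivAt
  have h1 : HasDerivAt (fun x => χ (x - L)) (deriv χ (x - L)) x := by
    have h2 := hd.comp x ((hasDerivAt_id x).sub_const L)
    rw [mul_one] at h2
    exact h2
  exact (h1.const_mul κ).ofReal_comp

/-- one description of the derivative, valid at every point -/
private theorem scMap_deriv {χ : ℝ → ℝ} (h0 : ContDiff ℝ ∞ χ) (h1 : ∀ x, x ≤ 0 → χ x = 1)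
    (h4 : ∀ x, -(3 / 4) ≤ deriv χ x ∧ deriv χ x ≤ 0) (a : ℂ) {ρ : ℝ} (hρ : 0 < ρ) (z : ℂ) :
    ∃ z' : ℂ, z' ≠ 0 ∧ ∃ τ : ℝ, -(3 / 4) ≤ τ ∧ τ ≤ 0 ∧ ∀ κ : ℝ, ∃ α : ℂ, α ≠ 0 ∧
      HasFDerivAt (scMap χ a (Real.log ρ) κ) (α • radLin z' ((κ * τ : ℝ) : ℂ)) z := by
  by_cases hza : z = a
  · subst hza
    refine ⟨1, one_ne_zero, 0, by norm_num, le_refl _, fun κ => ⟨(Real.exp κ : ℂ), ?_, ?_⟩⟩
    · exact_mod_cast (Real.exp_ne_zero κ)
    · have ho : IsOpen {y : ℂ | ‖y - z‖ < ρ} := isOpen_lt (by fun_prop) continuous_const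
      have he : scMap χ z (Real.log ρ) κ =ᶠ[nhds z] fun y => z + (Real.exp κ : ℂ) * (y - z) := by
        filter_upwards [ho.mem_nhds (show ‖z - z‖ < ρ by simpa using hρ)] with y hy
        exact scMap_near h1 z hρ κ (le_of_lt hy)
      refine HasFDerivAt.congr_of_eventuallyEq ?_ he
      have h := (((hasFDerivAt_id (𝕜 := ℝ) z).sub_const z).const_mul (Real.exp κ : ℂ)).const_add z
      refine h.congr_fderiv ?_
      apply ContinuousLinearMap.ext
      intro v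
      simp only [ContinuousLinearMap.smul_apply, radLin_apply, smul_eq_mul, mul_zero,
        Complex.ofReal_zero, zero_mul, add_zero, ContinuousLinearMap.id_apply]
  · have hne : z - a ≠ 0 := sub_ne_zero.2 hza
    refine ⟨z - a, hne, deriv χ (Real.log ‖z - a‖ - Real.log ρ), (h4 _).1, (h4 _).2, fun κ =>
      ⟨Complex.exp (scW χ (Real.log ρ) κ (Real.log ‖z - a‖)), Complex.exp_ne_zero _, ?_⟩⟩
    have h5 := radMap_hasFDerivAt (scW χ (Real.log ρ) κ) _ (z - a) hne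
      (scW_hasDerivAt h0 (Real.log ρ) κ (Real.log ‖z - a‖))
    have h6 : HasFDerivAt (fun y : ℂ => y - a) (ContinuousLinearMap.id ℝ ℂ) z :=
      (hasFDerivAt_id (𝕜 := ℝ) z).sub_const a
    have h7 := (h5.comp z h6).const_add a
    exact h7

private theorem smul_radLin_det (α z t : ℂ) (hz : z ≠ 0) :
    (α • radLin z t).det = ‖α‖ ^ 2 * (1 + t.re) := by
  obtain ⟨p, q, hpq, -, hdet⟩ := exists_ab (radLin z t)
  obtain ⟨p', q', hpq', -, hdet'⟩ := exists_ab (α • radLin z t)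
  have e1 := hpq 1
  have e2 := hpq Complex.I
  have e1' := hpq' 1
  have e2' := hpq' Complex.I
  simp only [ContinuousLinearMap.smul_apply, smul_eq_mul, map_one, mul_one, Complex.conj_I] at e1 e2 e1' e2'
  rw [e1] at e1'
  rw [e2] at e2'
  have hI := Complex.I_ne_zero
  have e3 : α * (p - q) = p' - q' := by
    have : (α * (p - q)) * Complex.I = (p' - q') * Complex.I := by
      linear_combination e2'
    exact mul_right_cancel₀ hI this
  have hp : p' = α * p := by linear_combination -(e1' + e3) / 2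
  have hq : q' = α * q := by linear_combination (e3 - e1') / 2
  rw [hdet', hp, hq, norm_mul, norm_mul, mul_pow, mul_pow, ← radLin_det z t hz, hdet]
  ring

private theorem scG_strictMono {χ : ℝ → ℝ} (h0 : ContDiff ℝ ∞ χ)
    (h4 : ∀ x, -(3 / 4) ≤ deriv χ x ∧ deriv χ x ≤ 0) (L : ℝ) {κ : ℝ} (hκ0 : 0 ≤ κ) (hκ1 : κ ≤ 1) :
    StrictMono (fun x => x + κ * χ (x - L)) := by
  have hder : ∀ x, HasDerivAt (fun x => x + κ * χ (x - L)) (1 + κ * deriv χ (x - L)) x := by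
    intro x
    have hd : HasDerivAt χ (deriv χ (x - L)) (x - L) :=
      ((h0.differentiable (by simp)) (x - L)).hasDerivAt
    have h1 : HasDerivAt (fun x => χ (x - L)) (deriv χ (x - L)) x := by
      have h2 := hd.comp x ((hasDerivAt_id x).sub_const L)
      rw [mul_one] at h2
      exact h2
    exact (hasDerivAt_id x).add (h1.const_mul κ)
  refine strictMono_of_deriv_pos fun x => ?_
  rw [(hder x).deriv]
  have := (h4 (x - L)).1
  nlinarith [mul_le_mul_of_nonneg_left this hκ0]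

private theorem scMap_norm (χ : ℝ → ℝ) (a : ℂ) (L κ : ℝ) {z : ℂ} (hz : z ≠ a) :
    Real.log ‖scMap χ a L κ z - a‖ = Real.log ‖z - a‖ + κ * χ (Real.log ‖z - a‖ - L) := by
  have h := radMap_norm (scW χ L κ) (z - a) (sub_ne_zero.2 hz)
  unfold scMap
  rw [add_sub_cancel_left, h]
  unfold scW
  rw [Complex.ofReal_re]

private theorem scMap_ne (χ : ℝ → ℝ) (a : ℂ) (L κ : ℝ) {z : ℂ} (hz : z ≠ a) :
    scMap χ a L κ z ≠ a := by
  unfold scMap radMap
  intro h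
  have h1 : (z - a) * Complex.exp (scW χ L κ (Real.log ‖z - a‖)) = 0 := by linear_combination h
  rcases mul_eq_zero.1 h1 with h2 | h2
  · exact hz (sub_eq_zero.1 h2)
  · exact Complex.exp_ne_zero _ h2

private theorem scMap_inj {χ : ℝ → ℝ} (h0 : ContDiff ℝ ∞ χ)
    (h4 : ∀ x, -(3 / 4) ≤ deriv χ x ∧ deriv χ x ≤ 0) (a : ℂ) (L : ℝ) {κ : ℝ} (hκ0 : 0 ≤ κ) (hκ1 : κ ≤ 1) :
    Function.Injective (scMap χ a L κ) := by
  intro x y hxy
  by_cases hx : x = a
  · by_cases hy : y = a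
    · rw [hx, hy]
    · exfalso
      apply scMap_ne χ a L κ hy
      rw [← hxy, hx]
      simp [scMap, radMap]
  · by_cases hy : y = a
    · exfalso
      apply scMap_ne χ a L κ hx
      rw [hxy, hy]
      simp [scMap, radMap]
    · have h1 := scMap_norm χ a L κ hx
      have h2 := scMap_norm χ a L κ hy
      rw [hxy, h2] at h1
      have h3 := (scG_strictMono h0 h4 L hκ0 hκ1).injective h1
      unfold scMap radMap at hxy
      rw [h3] at hxy
      have h5 := add_left_cancel hxy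
      have h6 := mul_right_cancel₀ (Complex.exp_ne_zero _) h5
      exact sub_left_injective h6

private theorem scMap_isOpenMap {χ : ℝ → ℝ} (h0 : ContDiff ℝ ∞ χ) (h1 : ∀ x, x ≤ 0 → χ x = 1)
    (h4 : ∀ x, -(3 / 4) ≤ deriv χ x ∧ deriv χ x ≤ 0) (a : ℂ) {ρ : ℝ} (hρ : 0 < ρ)
    {κ : ℝ} (hκ0 : 0 ≤ κ) (hκ1 : κ ≤ 1) : IsOpenMap (scMap χ a (Real.log ρ) κ) := by
  rw [isOpenMap_iff_nhds_le]
  intro z
  obtain ⟨z', hz', τ, hτ1, hτ0, hD⟩ := scMap_deriv h0 h1 h4 a hρ z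
  obtain ⟨α, hα, hd⟩ := hD κ
  have hdet : 0 < (α • radLin z' ((κ * τ : ℝ) : ℂ)).det := by
    rw [smul_radLin_det _ _ _ hz', Complex.ofReal_re]
    have hα' : 0 < ‖α‖ ^ 2 := by have := norm_pos_iff.2 hα; positivity
    have : 0 < 1 + κ * τ := by nlinarith
    positivity
  have hs : HasStrictFDerivAt (scMap χ a (Real.log ρ) κ) (α • radLin z' ((κ * τ : ℝ) : ℂ)) z := by
    have := (scMap_contDiff h0 h1 a hρ κ).contDiffAt.hasStrictFDerivAt (x := z) (by simp)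
    rwa [hd.fderiv] at this
  have hsurj : (α • radLin z' ((κ * τ : ℝ) : ℂ)).range = ⊤ := by
    rw [LinearMap.range_eq_top]
    have hu : IsUnit (α • radLin z' ((κ * τ : ℝ) : ℂ) : ℂ →ₗ[ℝ] ℂ).det := by
      rw [isUnit_iff_ne_zero]
      exact hdet.ne'
    have hu2 := (LinearMap.isUnit_iff_isUnit_det (α • radLin z' ((κ * τ : ℝ) : ℂ) : ℂ →ₗ[ℝ] ℂ)).2 hu
    exact ((Module.End.isUnit_iff _).1 hu2).2
  exact (hs.map_nhds_eq_of_surj hsurj).ge

private theorem exists_scHomeo {χ : ℝ → ℝ} (h0 : ContDiff ℝ ∞ χ) (h1 : ∀ x, x ≤ 0 → χ x = 1)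
    (h2 : ∀ x, 2 ≤ x → χ x = 0)
    (h4 : ∀ x, -(3 / 4) ≤ deriv χ x ∧ deriv χ x ≤ 0) (a : ℂ) {ρ : ℝ} (hρ : 0 < ρ)
    {κ : ℝ} (hκ0 : 0 ≤ κ) (hκ1 : κ ≤ 1) :
    ∃ σ : ℂ ≃ₜ ℂ, ∀ z, σ z = scMap χ a (Real.log ρ) κ z := by
  have hr : 0 < Real.exp 2 * ρ := by positivity
  obtain ⟨σ, hσ1, hσ2⟩ := exists_homeomorph a hr (show Real.exp 2 * ρ < Real.exp 2 * ρ + 1 by linarith)
    (scMap χ a (Real.log ρ) κ) (scMap_contDiff h0 h1 a hρ κ).continuous.continuousOn
    (scMap_inj h0 h4 a _ hκ0 hκ1).injOn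
    (fun V hV _ => scMap_isOpenMap h0 h1 h4 a hρ hκ0 hκ1 V hV)
    (fun x _ hx => scMap_far h2 a hρ κ hx)
  refine ⟨σ, fun z => ?_⟩
  by_cases hz : z ∈ ball a (Real.exp 2 * ρ + 1)
  · exact hσ1 z hz
  · rw [hσ2 z hz, scMap_far h2 a hρ κ]
    rw [mem_ball, dist_eq_norm, not_lt] at hz
    linarith

theorem exists_scaleFamily : ∃ C : ℝ, 1 ≤ C ∧ ∀ (a : ℂ) (ρ k : ℝ), 0 < ρ → 0 ≤ k → k ≤ 1 →
    ∃ F : QcFamily {z | ρ ≤ ‖z - a‖ ∧ ‖z - a‖ ≤ Real.exp 2 * ρ} C,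
    (∀ e ∈ Icc (0 : ℝ) 1, ∀ z, ‖z - a‖ ≤ ρ → F.σ e z = a + (Real.exp (e * k) : ℂ) * (z - a)) ∧
    (∀ e ∈ Icc (0 : ℝ) 1, ∀ z, Real.exp 2 * ρ ≤ ‖z - a‖ → F.σ e z = z) ∧
    (∀ e ∈ Icc (0 : ℝ) 1, ∀ z, ρ ≤ ‖z - a‖ → ‖z - a‖ ≤ Real.exp 2 * ρ →
      ρ ≤ ‖F.σ e z - a‖ ∧ ‖F.σ e z - a‖ ≤ Real.exp 2 * ρ) := by
  classical
  obtain ⟨C, hC1, hC⟩ := rad_close (c := 1 / 4) (by norm_num) (by norm_num)
  obtain ⟨χ, h0, h1, h2, h3, h4⟩ := exists_cut
  refine ⟨C, hC1, ?_⟩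
  intro a ρ k hρ hk0 hk1
  have hex : ∀ e : ℝ, ∃ σ : ℂ ≃ₜ ℂ, (e ∈ Icc (0 : ℝ) 1 → ∀ z, σ z = scMap χ a (Real.log ρ) (e * k) z) := by
    intro e
    by_cases he : e ∈ Icc (0 : ℝ) 1
    · obtain ⟨σ, hσ⟩ := exists_scHomeo h0 h1 h2 h4 a hρ (κ := e * k) (mul_nonneg he.1 hk0)
        (mul_le_one₀ he.2 hk0 hk1)
      exact ⟨σ, fun _ => hσ⟩
    · exact ⟨Homeomorph.refl ℂ, fun h => absurd h he⟩
  choose σ hσ using hex
  have hσf : ∀ e ∈ Icc (0 : ℝ) 1, (σ e : ℂ → ℂ) = scMap χ a (Real.log ρ) (e * k) :=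
    fun e he => funext (hσ e he)
  have hdet : ∀ e ∈ Icc (0 : ℝ) 1, ∀ z, 0 < (fderiv ℝ (σ e) z).det := by
    intro e he z
    rw [hσf e he]
    obtain ⟨z', hz', τ, hτ1, hτ0, hD⟩ := scMap_deriv h0 h1 h4 a hρ z
    obtain ⟨α, hα, hd⟩ := hD (e * k)
    rw [hd.fderiv, smul_radLin_det _ _ _ hz', Complex.ofReal_re]
    have hα' : 0 < ‖α‖ ^ 2 := by have := norm_pos_iff.2 hα; positivity
    have h5 : 0 ≤ e * k := mul_nonneg he.1 hk0
    have h6 : e * k ≤ 1 := mul_le_one₀ he.2 hk0 hk1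
    have : 0 < 1 + e * k * τ := by nlinarith
    positivity
  refine ⟨⟨σ, hC1, ?_, ?_, ?_, hdet, ?_, ?_⟩, ?_, ?_, ?_⟩
  · -- compact
    refine Metric.isCompact_of_isClosed_isBounded ?_ ?_
    · have hn : Continuous fun z : ℂ => ‖z - a‖ := by fun_prop
      exact (isClosed_le continuous_const hn).inter (isClosed_le hn continuous_const)
    · refine (Metric.isBounded_closedBall (x := a) (r := Real.exp 2 * ρ)).subset ?_
      intro z hz
      rw [mem_closedBall, dist_eq_norm]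
      exact hz.2
  · -- zero
    intro z
    rw [hσ 0 (by simp), zero_mul]
    simp [scMap, radMap, scW]
  · -- smooth
    intro e he
    rw [hσf e he]
    exact scMap_contDiff h0 h1 a hρ _
  · -- conf
    intro e he z hz
    rw [hσf e he]
    by_cases h5 : ‖z - a‖ < ρ
    · have ho : IsOpen {z : ℂ | ‖z - a‖ < ρ} := isOpen_lt (by fun_prop) continuous_const
      have hE : scMap χ a (Real.log ρ) (e * k) =ᶠ[nhds z]
          fun z => a + (Real.exp (e * k) : ℂ) * (z - a) := by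
        filter_upwards [ho.mem_nhds h5] with y hy
        exact scMap_near h1 a hρ _ (le_of_lt hy)
      refine DifferentiableAt.congr_of_eventuallyEq ?_ hE
      fun_prop
    · have h6 : Real.exp 2 * ρ < ‖z - a‖ := by
        by_contra h7
        exact hz ⟨not_lt.1 h5, not_lt.1 h7⟩
      have ho : IsOpen {z : ℂ | Real.exp 2 * ρ < ‖z - a‖} := isOpen_lt continuous_const (by fun_prop)
      have hE : scMap χ a (Real.log ρ) (e * k) =ᶠ[nhds z] fun z => z := by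
        filter_upwards [ho.mem_nhds h6] with y hy
        exact scMap_far h2 a hρ _ (le_of_lt hy)
      exact differentiableAt_id.congr_of_eventuallyEq hE
  · -- close
    intro e he e' he' z
    have hloc := close_of_local (C := C) (by linarith) (δ := 1 / C) (by positivity)
      (fun e => fderiv ℝ (σ e) z) (fun e he => hdet e he z) ?_
    · exact hloc e he e' he'
    intro e he e' he' hee B hB
    obtain ⟨z', hz', τ, hτ1, hτ0, hD⟩ := scMap_deriv h0 h1 h4 a hρ z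
    obtain ⟨α, hα, hd⟩ := hD (e * k)
    obtain ⟨α', hα', hd'⟩ := hD (e' * k)
    simp only [hσf e he, hσf e' he', hd.fderiv, hd'.fderiv] at hB ⊢
    have h5 : 0 ≤ e * k := mul_nonneg he.1 hk0
    have h6 : e * k ≤ 1 := mul_le_one₀ he.2 hk0 hk1
    have hτa : |τ| ≤ 3 / 4 := abs_le.2 ⟨hτ1, by linarith⟩
    have hka : |k| ≤ 1 := abs_le.2 ⟨by linarith, hk1⟩
    have hnorm : ‖((e' * k * τ : ℝ) : ℂ) - ((e * k * τ : ℝ) : ℂ)‖ ≤ |e' - e| := by
      rw [← Complex.ofReal_sub, Complex.norm_real, Real.norm_eq_abs,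
        show e' * k * τ - e * k * τ = (e' - e) * (k * τ) by ring, abs_mul, abs_mul]
      have : |k| * |τ| ≤ 1 := by
        nlinarith [abs_nonneg k, abs_nonneg τ]
      nlinarith [abs_nonneg (e' - e)]
    have hCpos : 0 < C := by linarith
    have hq := hC z' ((e * k * τ : ℝ) : ℂ) ((e' * k * τ : ℝ) : ℂ) α α' B hz' hα hα' ?_ ?_ ?_ hB
    · refine hq.mono ?_
      have := mul_le_mul_of_nonneg_left hnorm hCpos.le
      linarith
    · rw [Complex.ofReal_re]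
      nlinarith
    · rw [Complex.norm_real, Real.norm_eq_abs, abs_mul, abs_of_nonneg h5]
      nlinarith [abs_nonneg τ]
    · calc C * _ ≤ C * |e' - e| := mul_le_mul_of_nonneg_left hnorm hCpos.le
        _ ≤ C * (1 / C) := mul_le_mul_of_nonneg_left hee hCpos.le
        _ = 1 := by field_simp
  · intro e he z hz
    show σ e z = _
    rw [hσ e he]
    exact scMap_near h1 a hρ _ hz
  · intro e he z hz
    show σ e z = _
    rw [hσ e he]
    exact scMap_far h2 a hρ _ hz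
  · intro e he z hz1 hz2
    show ρ ≤ ‖σ e z - a‖ ∧ ‖σ e z - a‖ ≤ Real.exp 2 * ρ
    rw [hσ e he]
    have hpos : 0 < ‖z - a‖ := lt_of_lt_of_le hρ hz1
    have hne : z ≠ a := by
      rintro rfl
      simp at hpos
    have h5 : 0 ≤ e * k := mul_nonneg he.1 hk0
    have h6 : e * k ≤ 1 := mul_le_one₀ he.2 hk0 hk1
    have hn := scMap_norm χ a (Real.log ρ) (e * k) hne
    have hpos' : 0 < ‖scMap χ a (Real.log ρ) (e * k) z - a‖ :=
      norm_pos_iff.2 (sub_ne_zero.2 (scMap_ne χ a _ _ hne))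
    have hl1 : Real.log ρ ≤ Real.log ‖z - a‖ := Real.log_le_log hρ hz1
    have hl2 : Real.log ‖z - a‖ ≤ 2 + Real.log ρ := by
      have := Real.log_le_log hpos hz2
      rwa [Real.log_mul (Real.exp_ne_zero _) hρ.ne', Real.log_exp] at this
    constructor
    · rw [← Real.log_le_log_iff hρ hpos', hn]
      have := mul_nonneg h5 (h3 (Real.log ‖z - a‖ - Real.log ρ)).1
      linarith
    · rw [← Real.log_le_log_iff hpos' (by positivity), hn,
        Real.log_mul (Real.exp_ne_zero _) hρ.ne', Real.log_exp]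
      have hm : Real.log ‖z - a‖ + e * k * χ (Real.log ‖z - a‖ - Real.log ρ) ≤
          2 + Real.log ρ + e * k * χ (2 + Real.log ρ - Real.log ρ) :=
        (scG_strictMono h0 h4 (Real.log ρ) h5 h6).monotone hl2
      rw [h2 (2 + Real.log ρ - Real.log ρ) (by linarith), mul_zero, add_zero] at hm
      exact hm

end Pool.Agent.CcaPl
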